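import Pool.Agent.Q73.GP.Stm2

set_option autoImplicit false

/-!
Project GP (port of project GM) (helper73): GM-ABS, the trees are dense in the unit ball of the dual on finite sets
(helper166).
-/

namespace Pool.Agent.Q73.GP.ABS

open Finset Filter Topology
open scoped BoundedContinuousFunction

noncomputable section

/-- rational approximation of a real number from inside -/
theorem rat_real (a ε : ℝ) (hε : 0 < ε) : ∃ q : ℚ, |(q : ℝ)| ≤ |a| ∧ |(q : ℝ) - a| ≤ ε := by
  rcases lt_trichotomy a 0 with h | h | h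
  · obtain ⟨q, h1, h2⟩ := exists_rat_btwn (show a < min 0 (a + ε) from
      lt_min h (by linarith))
    have h3 := h2.trans_le (min_le_left _ _)
    have h4 := h2.trans_le (min_le_right _ _)
    refine ⟨q, ?_, ?_⟩
    · rw [abs_of_neg h3, abs_of_neg h]
      linarith
    · rw [abs_le]
      constructor <;> linarith
  · refine ⟨0, ?_, ?_⟩
    · rw [h]
      simp
    · rw [h]
      simp [hε.le]
  · obtain ⟨q, h1, h2⟩ := exists_rat_btwn (show max 0 (a - ε) < a from
      max_lt h (by linarith))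
    have h3 := (le_max_left _ _).trans_lt h1
    have h4 := (le_max_right _ _).trans_lt h1
    refine ⟨q, ?_, ?_⟩
    · rw [abs_of_pos h3, abs_of_pos h]
      exact h2.le
    · rw [abs_le]
      constructor <;> linarith

theorem cc_re (c : ℚ × ℚ) : (cc c).re = (c.1 : ℝ) := by
  unfold cc
  simp

theorem cc_im (c : ℚ × ℚ) : (cc c).im = (c.2 : ℝ) := by
  unfold cc
  simp

/-- rational approximation of a complex number from inside -/
theorem rat_complex (s : ℂ) (ε : ℝ) (hε : 0 < ε) :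
    ∃ c : ℚ × ℚ, ‖cc c‖ ≤ ‖s‖ ∧ ‖cc c - s‖ ≤ ε := by
  obtain ⟨p, hp1, hp2⟩ := rat_real s.re (ε / 2) (half_pos hε)
  obtain ⟨q, hq1, hq2⟩ := rat_real s.im (ε / 2) (half_pos hε)
  refine ⟨(p, q), ?_, ?_⟩
  · rw [Complex.norm_def, Complex.norm_def]
    apply Real.sqrt_le_sqrt
    rw [Complex.normSq_apply, Complex.normSq_apply, cc_re, cc_im, ← abs_mul_abs_self (p : ℝ),
      ← abs_mul_abs_self (q : ℝ), ← abs_mul_abs_self s.re, ← abs_mul_abs_self s.im]
    exact add_le_add (mul_self_le_mul_self (abs_nonneg _) hp1)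
      (mul_self_le_mul_self (abs_nonneg _) hq1)
  · refine (Complex.norm_le_abs_re_add_abs_im _).trans ?_
    rw [Complex.sub_re, Complex.sub_im, cc_re, cc_im]
    show |(p : ℝ) - s.re| + |(q : ℝ) - s.im| ≤ ε
    linarith

/-- the value of one tree with a coefficient -/
def pt {n : ℕ} (x : Fin n → XX) (z : ℂ) (t : Tr) (a b : ℕ) : Fin n → ℂ :=
  fun i => z * ev t (cut a b (cx (x i)))

/-- the set of the values of the restricted trees with coefficients -/
def PP {n : ℕ} (x : Fin n → XX) : Set (Fin n → ℂ) :=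
  {k | ∃ (z : ℂ) (t : Tr) (a b : ℕ), ‖z‖ ≤ 1 ∧ t.Wf ∧ k = pt x z t a b}

theorem ev_comb {n : ℕ} (x : Fin n → XX) (β : Fin n → ℂ) (t : Tr) (a b : ℕ) :
    ev t (cut a b (cx (∑ i, β i • x i))) = ∑ i, β i * ev t (cut a b (cx (x i))) := by
  rw [map_sum, map_sum, map_sum]
  refine Finset.sum_congr rfl fun i _ => ?_
  rw [map_smul, map_smul, map_smul, smul_eq_mul]

/-- Hahn-Banach -/
theorem meets {n : ℕ} (x : Fin n → XX) (D : Set (Fin n → ℂ)) (hc : IsCompact D)
    (hv : Convex ℝ D)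
    (hD : ∀ β : Fin n → ℂ, ∃ d ∈ D, (∑ i, β i * d i).re ≤ ‖∑ i, β i • x i‖) :
    ∃ d ∈ D, d ∈ closure (convexHull ℝ (PP x)) := by
  by_contra hcon
  push Not at hcon
  have hdis : Disjoint (closure (convexHull ℝ (PP x))) D := by
    rw [Set.disjoint_left]
    intro k hk hkD
    exact hcon k hkD hk
  obtain ⟨f, u, v, hf1, huv, hf2⟩ := RCLike.geometric_hahn_banach_closed_compact (𝕜 := ℂ)
    ((convex_convexHull ℝ (PP x)).closure) isClosed_closure hv hc hdis
  have hf : ∀ y : Fin n → ℂ, f y = ∑ i, f (Pi.single i 1) * y i := by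
    intro y
    have hy : y = ∑ i, y i • (Pi.single i (1 : ℂ) : Fin n → ℂ) := by
      funext j
      rw [Finset.sum_apply]
      simp [Pi.single_apply]
    have h2 : f y = f (∑ i, y i • (Pi.single i (1 : ℂ) : Fin n → ℂ)) := by
      rw [← hy]
    rw [h2, map_sum]
    refine Finset.sum_congr rfl fun i _ => ?_
    rw [map_smul, smul_eq_mul, mul_comm]
  obtain ⟨d, hd, hd2⟩ := hD (fun i => f (Pi.single i 1))
  have h1 : v < ‖∑ i, f (Pi.single i 1) • x i‖ := by
    have h2 := hf2 d hd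
    rw [hf d] at h2
    exact lt_of_lt_of_le h2 hd2
  have hmem : ∀ k ∈ PP x, k ∈ closure (convexHull ℝ (PP x)) := fun k hk =>
    subset_closure (subset_convexHull ℝ _ hk)
  have h0 : (0 : Fin n → ℂ) ∈ PP x := by
    refine ⟨0, .base 0, 0, 0, by simp, trivial, ?_⟩
    funext i
    simp [pt]
  have hu : 0 < u := by
    have h2 := hf1 0 (hmem 0 h0)
    simpa using h2
  obtain ⟨⟨t, a, b⟩, ht, hu2⟩ := exists_functional hu.le (huv.trans h1)
  simp only at ht hu2
  rw [ev_comb] at hu2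
  set w : ℂ := ∑ i, f (Pi.single i 1) * ev t (cut a b (cx (x i))) with hw
  obtain ⟨z, hz1, hz2⟩ : ∃ z : ℂ, ‖z‖ ≤ 1 ∧ z * w = (‖w‖ : ℂ) := by
    by_cases hw0 : w = 0
    · exact ⟨0, by simp, by simp [hw0]⟩
    · refine ⟨(‖w‖ : ℂ) / w, ?_, ?_⟩
      · rw [norm_div, Complex.norm_real, norm_norm, div_self (norm_ne_zero_iff.2 hw0)]
      · rw [div_mul_cancel₀ _ hw0]
  have h3 := hf1 (pt x z t a b) (hmem _ ⟨z, t, a, b, hz1, ht, rfl⟩)
  rw [hf] at h3
  have h4 : ∑ i, f (Pi.single i 1) * pt x z t a b i = (‖w‖ : ℂ) := by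
    rw [← hz2, hw, Finset.mul_sum]
    refine Finset.sum_congr rfl fun i _ => ?_
    unfold pt
    ring
  rw [h4] at h3
  have h5 : ‖w‖ < u := by
    simpa using h3
  linarith

end

end Pool.Agent.Q73.GP.ABS

namespace Pool.Agent.Q73.GP

open Finset Filter Topology
open ABS

theorem t_ABS : S_ABS := by
  intro n x D hc hv hD ε hε
  obtain ⟨d, hdD, hd⟩ := meets x D hc hv hD
  obtain ⟨k, hk, hkd⟩ := Metric.mem_closure_iff.1 hd (ε / 2) (half_pos hε)
  obtain ⟨ι, _, w, p, hw0, hw1, hp, hpk⟩ := mem_convexHull_iff_exists_fintype.1 hk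
  choose z t a b hz ht hpt using hp
  -- the bound of the norms
  obtain ⟨M, hM0, hM⟩ : ∃ M : ℝ, 0 ≤ M ∧ ∀ i, ‖x i‖ ≤ M :=
    ⟨∑ i, ‖x i‖, Finset.sum_nonneg fun _ _ => norm_nonneg _, fun i =>
      Finset.single_le_sum (f := fun i => ‖x i‖) (fun _ _ => norm_nonneg _) (Finset.mem_univ i)⟩
  let e := (Fintype.equivFin ι).symm
  set m := Fintype.card ι with hm
  have hη : 0 < ε / (2 * ((m : ℝ) + 1) * (M + 1)) := by positivity
  choose c hc1 hc2 using fun r : Fin m =>
    rat_complex ((w (e r) : ℂ) * z (e r)) (ε / (2 * ((m : ℝ) + 1) * (M + 1))) hη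
  obtain ⟨N, hN⟩ : ∃ N : ℕ, ∀ r : Fin m, b (e r) ≤ N :=
    ⟨∑ r : Fin m, b (e r), fun r =>
      Finset.single_le_sum (f := fun r : Fin m => b (e r)) (fun _ _ => Nat.zero_le _)
        (Finset.mem_univ r)⟩
  refine ⟨.cv m c (fun r => a (e r)) (fun r => b (e r)) (fun r => t (e r)), N,
    ⟨fun r => ht (e r), ?_⟩, d, hdD, fun i => ?_⟩
  · calc ∑ r, ‖cc (c r)‖ ≤ ∑ r : Fin m, w (e r) := by
          refine Finset.sum_le_sum fun r _ => (hc1 r).trans ?_
          rw [norm_mul, Complex.norm_real, Real.norm_of_nonneg (hw0 _)]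
          exact mul_le_of_le_one_right (hw0 _) (hz _)
      _ = ∑ j, w j := Equiv.sum_comp e w
      _ = 1 := hw1
  · have h1 : ‖k i - d i‖ ≤ ε / 2 := by
      have h2 : dist (k i) (d i) ≤ dist k d := dist_le_pi_dist k d i
      rw [dist_comm d k] at hkd
      rw [← dist_eq_norm]
      exact h2.trans hkd.le
    have h2 : k i = ∑ r : Fin m, ((w (e r) : ℂ) * z (e r)) *
        ev (t (e r)) (cut (a (e r)) (b (e r)) (cx (x i))) := by
      have h3 : k i = ∑ j, ((w j : ℂ) * z j) * ev (t j) (cut (a j) (b j) (cx (x i))) := by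
        rw [← hpk, Finset.sum_apply]
        refine Finset.sum_congr rfl fun j _ => ?_
        rw [hpt j, Pi.smul_apply]
        unfold pt
        rw [Complex.real_smul]
        ring
      rw [h3]
      exact (Equiv.sum_comp e (fun j => ((w j : ℂ) * z j) *
        ev (t j) (cut (a j) (b j) (cx (x i))))).symm
    have h3 : ev (.cv m c (fun r => a (e r)) (fun r => b (e r)) (fun r => t (e r)))
        (cut 0 N (cx (x i))) = ∑ r : Fin m, cc (c r) *
          ev (t (e r)) (cut (a (e r)) (b (e r)) (cx (x i))) := by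
      rw [ev_cv]
      refine Finset.sum_congr rfl fun r _ => ?_
      rw [cut_cut, max_eq_left (Nat.zero_le _), min_eq_left (hN r)]
    have h4 : ‖ev (.cv m c (fun r => a (e r)) (fun r => b (e r)) (fun r => t (e r)))
        (cut 0 N (cx (x i))) - k i‖ ≤ ε / 2 := by
      rw [h3, h2, ← Finset.sum_sub_distrib]
      refine (norm_sum_le _ _).trans ?_
      have h5 : ∀ r ∈ (Finset.univ : Finset (Fin m)),
          ‖cc (c r) * ev (t (e r)) (cut (a (e r)) (b (e r)) (cx (x i))) -
            ((w (e r) : ℂ) * z (e r)) * ev (t (e r)) (cut (a (e r)) (b (e r)) (cx (x i)))‖ ≤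
            ε / (2 * ((m : ℝ) + 1) * (M + 1)) * M := by
        intro r _
        rw [← sub_mul, norm_mul]
        exact mul_le_mul (hc2 r) (((x i).bd _ (ht _) _ _).trans (hM i)) (norm_nonneg _) hη.le
      refine (Finset.sum_le_sum h5).trans ?_
      rw [Finset.sum_const, Finset.card_univ, Fintype.card_fin, nsmul_eq_mul]
      have h6 : (m : ℝ) * (ε / (2 * ((m : ℝ) + 1) * (M + 1)) * M) =
          ε / 2 * ((m / (m + 1)) * (M / (M + 1))) := by
        field_simp
      rw [h6]
      have h7 : (m : ℝ) / (m + 1) ≤ 1 := by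
        rw [div_le_one (by positivity)]
        linarith
      have h8 : M / (M + 1) ≤ 1 := by
        rw [div_le_one (by positivity)]
        linarith
      have h9 : (m : ℝ) / (m + 1) * (M / (M + 1)) ≤ 1 :=
        mul_le_one₀ h7 (by positivity) h8
      exact mul_le_of_le_one_right (half_pos hε).le h9
    calc ‖ev (.cv m c (fun r => a (e r)) (fun r => b (e r)) (fun r => t (e r)))
          (cut 0 N (cx (x i))) - d i‖ = ‖(ev (.cv m c (fun r => a (e r)) (fun r => b (e r))
            (fun r => t (e r))) (cut 0 N (cx (x i))) - k i) + (k i - d i)‖ := by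
          rw [sub_add_sub_cancel]
      _ ≤ ε / 2 + ε / 2 := (norm_add_le _ _).trans (add_le_add h4 h1)
      _ = ε := add_halves ε

end Pool.Agent.Q73.GP
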