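import Pool.Agent.Q73.GP.Stm2

set_option autoImplicit false

/-!
Project GP (port of project GM): job ALG, products of linear combinations of spreads.
-/

namespace Pool.Agent.Q73.GP

open Finset Filter Topology

noncomputable section

namespace ALG

/-- a map of the space which is given by a linear combination of spreads -/
def Rep (F : XX → XX) : Prop := ∃ c : LS, ∀ w : XX, op c w = F w

theorem rep_add {F G : XX → XX} (hF : Rep F) (hG : Rep G) : Rep (fun w => F w + G w) := by
  obtain ⟨c, hc⟩ := hF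
  obtain ⟨d, hd⟩ := hG
  exact ⟨c + d, fun w => (op_add c d w).trans (congrArg₂ _ (hc w) (hd w))⟩

theorem rep_smul {F : XX → XX} (z : ℂ) (hF : Rep F) : Rep (fun w => z • F w) := by
  obtain ⟨c, hc⟩ := hF
  exact ⟨z • c, fun w => (op_smul z c w).trans (congrArg _ (hc w))⟩

theorem rep_zero : Rep (fun _ => 0) := by
  refine ⟨0, fun w => ?_⟩
  rw [op_apply, Finsupp.support_zero, Finset.sum_empty]

theorem rep_single (u : Sg) : Rep (fun w => Sx u w) := by
  refine ⟨Finsupp.single u 1, fun w => ?_⟩
  rw [op_apply, Finsupp.support_single_ne_zero u one_ne_zero, Finset.sum_singleton,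
    Finsupp.single_eq_same, one_smul]

theorem rep_sum {ι : Type} (s : Finset ι) (F : ι → XX → XX) (h : ∀ i ∈ s, Rep (F i)) :
    Rep (fun w => ∑ i ∈ s, F i w) := by
  classical
  induction s using Finset.induction_on with
  | empty =>
    obtain ⟨c, hc⟩ := rep_zero
    exact ⟨c, fun w => (hc w).trans Finset.sum_empty.symm⟩
  | insert i s hi ih =>
    obtain ⟨c, hc⟩ := rep_add (h i (Finset.mem_insert_self i s))
      (ih fun j hj => h j (Finset.mem_insert_of_mem hj))
    exact ⟨c, fun w => (hc w).trans (Finset.sum_insert (f := fun j => F j w) hi).symm⟩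

theorem rep_comp (co : S_COMP) (v v' : Sg) : Rep (fun w => Sx v (Sx v' w)) := by
  rcases co v v' with ⟨u, hu⟩ | h0
  · obtain ⟨c, hc⟩ := rep_single u
    refine ⟨c, fun w => (hc w).trans ?_⟩
    apply cx_injective
    show cx (Sx u w) = cx (Sx v (Sx v' w))
    rw [cx_Sx, cx_Sx, cx_Sx, hu]
  · obtain ⟨c, hc⟩ := rep_zero
    refine ⟨c, fun w => (hc w).trans ?_⟩
    apply cx_injective
    show cx (0 : XX) = cx (Sx v (Sx v' w))
    rw [cx_Sx, cx_Sx, h0, map_zero]

theorem op_op (a b : LS) (w : XX) : op a (op b w) =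
    ∑ v ∈ a.support, a v • ∑ v' ∈ b.support, b v' • Sx v (Sx v' w) := by
  rw [op_apply a]
  refine Finset.sum_congr rfl fun v _ => ?_
  rw [op_apply b, map_sum]
  refine congrArg _ (Finset.sum_congr rfl fun v' _ => ?_)
  rw [map_smul]

end ALG

open ALG in
/-- ALG: products of linear combinations of spreads -/
theorem t_ALG (co : S_COMP) : S_ALG := by
  intro a b
  have h1 : Rep (fun w => ∑ v ∈ a.support, a v • ∑ v' ∈ b.support, b v' • Sx v (Sx v' w)) :=
    rep_sum a.support _ fun v _ => rep_smul (a v)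
      (rep_sum b.support (fun v' w => b v' • Sx v (Sx v' w)) fun v' _ =>
        rep_smul (b v') (rep_comp co v v'))
  obtain ⟨c, hc⟩ := rep_add h1 (rep_smul (-1) (rep_single Sg.id))
  refine ⟨c, fun w => (hc w).trans ?_⟩
  rw [op_op, sub_eq_add_neg]
  refine congrArg _ ?_
  show (-1 : ℂ) • Sx Sg.id w = -w
  rw [Sx_id, neg_smul, one_smul]

end

end Pool.Agent.Q73.GP
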