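import Pool.Agent.Q73.GP.Stm1

set_option autoImplicit false

namespace Pool.Agent.Q73.GP.AVL

open Finset Filter Topology

theorem card_pos {q : ℕ} {I : Finset ℕ} (hI : nn q ≤ mm q * #I) : (0 : ℝ) < (#I : ℝ) := by
  have h1 := nn_pos q
  have h2 : 0 < #I := by
    rcases Nat.eq_zero_or_pos (#I) with h | h
    · rw [h, mul_zero] at hI; omega
    · exact h
  exact_mod_cast h2

/-- averages of a rapidly increasing sequence: a node of small weight -/
theorem node_low (st : S_STEP) (rec : S_REC) (nd : S_NODE) {C : ℝ} {u : ℕ → V} {A B J : ℕ → ℕ}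
    (h : RIS C u A B J) {q : ℕ} {I : Finset ℕ} (hI : nn q ≤ mm q * #I) {j d : ℕ}
    {c : Fin d → ℚ × ℚ} {a b : Fin d → ℕ} {t : Fin d → Tr} (hw : (Tr.node j d c a b t).Wf)
    (hiq : j < q) (α β : ℕ) :
    ‖ev (.node j d c a b t) (cut α β (((mm q : ℂ) / (#I : ℂ)) • ∑ l ∈ I, u l))‖ ≤ 3 * C / mm j := by
  have hC : 0 ≤ C := by linarith [h.hC]
  have hC1 := h.hC
  have hmq := mm_pos' q
  have hmi := mm_pos' j
  have hnq := nn_pos' q
  have hk := card_pos hI
  have hD : (0 : ℝ) ≤ DD q := Nat.cast_nonneg _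
  have hr := rec (fun x => ∃ A B, RIS C x A B J) C (C + 2) (C / mm q) q hC (by linarith)
    (by positivity) (fun x ⟨A, B, hx⟩ v => ⟨_, _, hx.Sv v⟩) (fun x ⟨A, B, hx⟩ => ⟨A, B, hx.succ⟩)
    (fun x ⟨A, B, hx⟩ => hx.bd) (fun x ⟨A, B, hx⟩ j d c a b t hw hqj α β I => by
      refine (nd C x A B J hx _ hw j rfl α β I).trans ?_
      have h1 : C / mm j ≤ C / mm q := by
        apply div_le_div_of_nonneg_left hC hmq
        exact_mod_cast mm_mono hqj
      have h2 : (0 : ℝ) ≤ #I := Nat.cast_nonneg _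
      linarith [mul_le_mul_of_nonneg_right h1 h2]) (rr q)
  have h0 := st u A B h.succ C ((C + 2 + C) * (2 * DD q + 2) ^ rr q)
    (C / mm q + C / 2 ^ rr q) hC (by positivity) (by positivity) h.bd q
    (fun t ht α β I => hr t ht u ⟨A, B, h⟩ α β I) j d c a b t hw hiq α β I
  rw [map_smul, map_smul, norm_smul, norm_div, Complex.norm_natCast, Complex.norm_natCast]
  have hg := growth q
  rw [two_pow_rr'] at h0
  set P : ℝ := (2 * (DD q : ℝ) + 2) ^ rr q with hPdef
  have hP1 : 1 ≤ P := one_le_pow₀ (by linarith)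
  have h4 := one_le_mm q
  set κ : ℝ := (#I : ℝ) with hκ
  have hI' : (nn q : ℝ) ≤ mm q * κ := by rw [hκ]; exact_mod_cast hI
  have hk3 : (mm q : ℝ) ^ 3 * (5 * DD q + 5) * P ≤ κ := by
    have e1 : (mm q : ℝ) * ((mm q : ℝ) ^ 3 * (5 * DD q + 5) * P) ≤ mm q * κ := by
      refine le_trans (le_of_eq ?_) (hg.trans hI')
      ring
    exact le_of_mul_le_mul_left e1 hmq
  -- the three terms
  have t1 : (mm q : ℝ) / κ * (DD q * C) ≤ 1 / 5 * (C / mm j) := by
    rw [div_mul_eq_mul_div, div_le_iff₀ hk]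
    have hji' : (mm j : ℝ) ≤ mm q := by exact_mod_cast mm_mono hiq.le
    have e1 : 1 / 5 * (C / mm j) * κ ≥ 1 / 5 * (C / mm q) * κ := by
      have : C / mm q ≤ C / mm j := div_le_div_of_nonneg_left hC hmi hji'
      nlinarith
    refine le_trans ?_ e1
    have e2 : 1 / 5 * (C / mm q) * ((mm q : ℝ) ^ 3 * (5 * DD q + 5) * P) ≤
        1 / 5 * (C / mm q) * κ :=
      mul_le_mul_of_nonneg_left hk3 (by positivity)
    refine le_trans ?_ e2
    have e3 : 1 / 5 * (C / mm q) * ((mm q : ℝ) ^ 3 * (5 * DD q + 5) * P) =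
        (mm q : ℝ) * (C * ((DD q + 1) * P)) * (mm q) := by
      field_simp
    rw [e3]
    have e4 : (DD q : ℝ) * C ≤ C * ((DD q + 1) * P) := by
      have : (DD q : ℝ) ≤ (DD q + 1) * P := by nlinarith
      nlinarith
    have e5 : (1 : ℝ) ≤ (mm q : ℝ) := by linarith
    calc (mm q : ℝ) * (DD q * C) ≤ mm q * (C * ((DD q + 1) * P)) :=
          mul_le_mul_of_nonneg_left e4 hmq.le
      _ ≤ mm q * (C * ((DD q + 1) * P)) * (mm q) := le_mul_of_one_le_right (by positivity) e5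
  have t2 : (mm q : ℝ) / κ * (DD q * ((C + 2 + C) * P)) ≤ 4 / 5 * C := by
    rw [div_mul_eq_mul_div, div_le_iff₀ hk]
    have e2 : 4 / 5 * C * ((mm q : ℝ) ^ 3 * (5 * DD q + 5) * P) ≤ 4 / 5 * C * κ :=
      mul_le_mul_of_nonneg_left hk3 (by positivity)
    refine le_trans ?_ e2
    have e3 : (C + 2 + C) ≤ 4 * C := by linarith
    have e4 : (DD q : ℝ) * ((C + 2 + C) * P) ≤ (DD q + 1) * (4 * C * P) := by
      have : (C + 2 + C) * P ≤ 4 * C * P := mul_le_mul_of_nonneg_right e3 (by linarith)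
      have h5 : 0 ≤ 4 * C * P := by positivity
      nlinarith
    have e5 : (1 : ℝ) ≤ (mm q : ℝ) ^ 2 := one_le_pow₀ (by linarith)
    calc (mm q : ℝ) * (DD q * ((C + 2 + C) * P)) ≤ mm q * ((DD q + 1) * (4 * C * P)) :=
          mul_le_mul_of_nonneg_left e4 hmq.le
      _ ≤ mm q * ((DD q + 1) * (4 * C * P)) * (mm q) ^ 2 :=
          le_mul_of_one_le_right (by positivity) e5
      _ = 4 / 5 * C * ((mm q : ℝ) ^ 3 * (5 * DD q + 5) * P) := by ring
  have t3 : (mm q : ℝ) / κ * ((C / mm q + C / (mm q) ^ 2) * κ) ≤ 5 / 4 * C := by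
    have e1 : (mm q : ℝ) / κ * ((C / mm q + C / (mm q) ^ 2) * κ) = C + C / mm q := by
      field_simp
    rw [e1]
    have : C / mm q ≤ C / 4 := div_le_div_of_nonneg_left hC (by norm_num) h4
    linarith
  calc (mm q : ℝ) / κ * ‖ev (.node j d c a b t) (cut α β (∑ l ∈ I, u l))‖
      ≤ (mm q : ℝ) / κ * (DD q * C + (mm j : ℝ)⁻¹ * (DD q * ((C + 2 + C) * P) +
          (C / mm q + C / (mm q) ^ 2) * κ)) := mul_le_mul_of_nonneg_left h0 (by positivity)
    _ = (mm q : ℝ) / κ * (DD q * C) + (mm j : ℝ)⁻¹ * ((mm q : ℝ) / κ *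
          (DD q * ((C + 2 + C) * P)) +
          (mm q : ℝ) / κ * ((C / mm q + C / (mm q) ^ 2) * κ)) := by ring
    _ ≤ 1 / 5 * (C / mm j) + (mm j : ℝ)⁻¹ * (4 / 5 * C + 5 / 4 * C) :=
        add_le_add t1 (mul_le_mul_of_nonneg_left (add_le_add t2 t3) (by positivity))
    _ = 9 / 4 * (C / mm j) := by field_simp; ring
    _ ≤ 3 * C / mm j := by
        rw [mul_div_assoc]
        have : 0 ≤ C / mm j := by positivity
        linarith

end Pool.Agent.Q73.GP.AVL

namespace Pool.Agent.Q73.GP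

open Finset Filter Topology

theorem t_AVL (st : S_STEP) (rec : S_REC) (nd : S_NODE) : S_AVL := by
  intro C u A B J h q I hI t
  induction t generalizing u A B with
  | base n =>
    intro _ i hi
    simp [Tr.wt] at hi
  | node j d c a b t _ =>
    intro hw i hi hiq α β
    have hji : j = i := by simpa [Tr.wt] using hi
    subst hji
    exact AVL.node_low st rec nd h hI hw hiq α β
  | tr v t ih =>
    intro hw i hi hiq α β
    rw [ev_tr, Sv_cut, map_smul, map_sum]
    exact ih _ _ _ (h.Sv v) hw i hi hiq _ _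
  | cv d c a b t _ =>
    intro _ i hi
    simp [Tr.wt] at hi

end Pool.Agent.Q73.GP
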