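import Pool.Agent.Q73.GP.Stm2

set_option autoImplicit false

/-!
Project GP (port of project GM) (helper73), lemma job BB (helper22): bounded below on a tail, uniformly along the segment.
-/

namespace Pool.Agent.Q73.GP

open Finset Filter Topology

namespace BB

/-- the operators of the segment -/
noncomputable def G (T S : XX →L[ℝ] XX) (r : ℝ) : XX →L[ℝ] XX := T + r • (S - T)

theorem G_apply (T S : XX →L[ℝ] XX) (r : ℝ) (w : XX) : G T S r w = T w + r • (S w - T w) := rfl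

theorem norm_G_le (T S : XX →L[ℝ] XX) {r : ℝ} (h0 : 0 ≤ r) (h1 : r ≤ 1) (w : XX) :
    ‖G T S r w‖ ≤ (‖T‖ + ‖S - T‖) * ‖w‖ := by
  have h2 : ‖G T S r w‖ ≤ ‖T w‖ + ‖r • (S w - T w)‖ := norm_add_le _ _
  rw [norm_smul, Real.norm_eq_abs, abs_of_nonneg h0] at h2
  have h3 : ‖T w‖ ≤ ‖T‖ * ‖w‖ := T.le_opNorm w
  have h4 : ‖S w - T w‖ ≤ ‖S - T‖ * ‖w‖ := (S - T).le_opNorm w
  have h5 : r * ‖S w - T w‖ ≤ 1 * ‖S w - T w‖ :=
    mul_le_mul_of_nonneg_right h1 (norm_nonneg _)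
  rw [one_mul] at h5
  linarith [add_mul ‖T‖ ‖S - T‖ ‖w‖]

theorem real_smul (r : ℝ) (w : XX) : r • w = (r : ℂ) • w := rfl

theorem cx_real_smul (r : ℝ) (w : XX) (n : ℕ) : cx (r • w) n = (r : ℂ) * cx w n := by
  rw [real_smul, map_smul, Pi.smul_apply, smul_eq_mul]

theorem step (tail : S_TAIL) (T S : XX →L[ℝ] XX)
    (hno : ∀ (N : ℕ) (c : ℝ), 0 < c → ∃ r : ℝ, 0 ≤ r ∧ r ≤ 1 ∧ ∃ w : XX, Rx 0 N w = 0 ∧
      ‖T w + r • (S w - T w)‖ < c * ‖w‖) (N : ℕ) (δ : ℝ) (hδ : 0 < δ) :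
    ∃ (N' : ℕ) (x : XX) (r : ℝ), N < N' ∧ ‖x‖ = 1 ∧ 0 ≤ r ∧ r ≤ 1 ∧ OnLv N N' (cx x) ∧
      ‖G T S r x‖ ≤ δ := by
  obtain ⟨r, hr0, hr1, w, hw, hlt⟩ := hno N (δ / 4) (by positivity)
  rw [← G_apply] at hlt
  set K : ℝ := ‖T‖ + ‖S - T‖ with hK
  have hK0 : 0 ≤ K := by positivity
  have hw0 : 0 < ‖w‖ := by
    by_contra h
    have h1 : ‖w‖ = 0 := le_antisymm (not_lt.1 h) (norm_nonneg _)
    rw [h1, mul_zero] at hlt
    exact absurd hlt (not_lt.2 (norm_nonneg _))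
  have hη : 0 < min (1 / 2) (δ / (4 * (K + 1))) := by positivity
  have ht := tail w
  rw [Metric.tendsto_atTop] at ht
  obtain ⟨N₀, hN₀⟩ := ht (min (1 / 2) (δ / (4 * (K + 1))) * ‖w‖) (by positivity)
  set N' : ℕ := max N₀ (N + 1) with hN'
  have hd := hN₀ N' (le_max_left _ _)
  rw [dist_eq_norm] at hd
  set y : XX := Rx 0 N' w with hy
  have h1 : ‖y - w‖ ≤ 1 / 2 * ‖w‖ :=
    hd.le.trans (mul_le_mul_of_nonneg_right (min_le_left _ _) (norm_nonneg _))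
  have h2 : ‖y - w‖ ≤ δ / (4 * (K + 1)) * ‖w‖ :=
    hd.le.trans (mul_le_mul_of_nonneg_right (min_le_right _ _) (norm_nonneg _))
  have h3 : ‖w‖ ≤ ‖y‖ + ‖y - w‖ := by
    have : w = y - (y - w) := by abel
    calc ‖w‖ = ‖y - (y - w)‖ := by rw [← this]
      _ ≤ _ := norm_sub_le _ _
  have hy0 : ‖w‖ / 2 ≤ ‖y‖ := by linarith
  have hyp : 0 < ‖y‖ := by linarith
  have h4 : ‖G T S r y‖ ≤ ‖G T S r w‖ + ‖G T S r (y - w)‖ := by
    have : G T S r y = G T S r w + G T S r (y - w) := by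
      rw [← map_add]
      congr 1
      abel
    rw [this]
    exact norm_add_le _ _
  have h5 : ‖G T S r (y - w)‖ ≤ K * ‖y - w‖ := norm_G_le T S hr0 hr1 _
  have h6 : K * ‖y - w‖ ≤ δ / 4 * ‖w‖ := by
    calc K * ‖y - w‖ ≤ (K + 1) * ‖y - w‖ := by
          apply mul_le_mul_of_nonneg_right _ (norm_nonneg _)
          linarith
      _ ≤ (K + 1) * (δ / (4 * (K + 1)) * ‖w‖) := by gcongr
      _ = δ / 4 * ‖w‖ := by field_simp
  have h7 : ‖G T S r y‖ ≤ δ * ‖y‖ := by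
    have h8 : δ * (‖w‖ / 2) ≤ δ * ‖y‖ := by gcongr
    nlinarith
  refine ⟨N', ‖y‖⁻¹ • y, r, ?_, ?_, hr0, hr1, ?_, ?_⟩
  · rw [hN']
    exact lt_of_lt_of_le (Nat.lt_succ_self N) (le_max_right _ _)
  · rw [norm_smul, norm_inv, norm_norm, inv_mul_cancel₀ hyp.ne']
  · intro n hn
    rw [cx_real_smul, hy, cx_Rx, cut_apply]
    split_ifs with h
    · have hnN : n < N := by
        rcases hn with hn | hn
        · exact hn
        · omega
      have h9 : cx (Rx 0 N w) n = 0 := by rw [hw, map_zero]; rfl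
      rw [cx_Rx, cut_apply, if_pos ⟨Nat.zero_le _, hnN⟩] at h9
      rw [h9, mul_zero]
    · rw [mul_zero]
  · rw [map_smul, norm_smul, norm_inv, norm_norm, inv_mul_eq_div, div_le_iff₀ hyp]
    exact h7

theorem blocks (tail : S_TAIL) (T S : XX →L[ℝ] XX)
    (hno : ∀ (N : ℕ) (c : ℝ), 0 < c → ∃ r : ℝ, 0 ≤ r ∧ r ≤ 1 ∧ ∃ w : XX, Rx 0 N w = 0 ∧
      ‖T w + r • (S w - T w)‖ < c * ‖w‖) :
    ∃ (x : ℕ → XX) (a : ℕ → ℕ) (r : ℕ → ℝ), (∀ n, ‖x n‖ = 1) ∧ StrictMono a ∧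
      (∀ n, 0 ≤ r n ∧ r n ≤ 1) ∧ (∀ n, OnLv (a n) (a (n + 1)) (cx (x n))) ∧
      ∀ n, ‖G T S (r n) (x n)‖ ≤ (1 / 4) ^ n := by
  have h1 : ∀ (N n : ℕ), ∃ (N' : ℕ) (x : XX) (r : ℝ), N < N' ∧ ‖x‖ = 1 ∧ 0 ≤ r ∧ r ≤ 1 ∧
      OnLv N N' (cx x) ∧ ‖G T S r x‖ ≤ (1 / 4) ^ n := fun N n =>
    step tail T S hno N _ (by positivity)
  choose N' x r hN hx hr0 hr1 hO hG using h1
  let a : ℕ → ℕ := fun n => Nat.rec 0 (fun n b => N' b n) n
  have ha : ∀ n, a (n + 1) = N' (a n) n := fun n => rfl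
  refine ⟨fun n => x (a n) n, a, fun n => r (a n) n, fun n => hx _ _,
    strictMono_nat_of_lt_succ fun n => ?_, fun n => ⟨hr0 _ _, hr1 _ _⟩, fun n => ?_,
    fun n => hG _ _⟩
  · rw [ha]
    exact hN _ _
  · rw [ha]
    exact hO _ _

theorem limit (tail : S_TAIL) (T S : XX →L[ℝ] XX)
    (hno : ∀ (N : ℕ) (c : ℝ), 0 < c → ∃ r : ℝ, 0 ≤ r ∧ r ≤ 1 ∧ ∃ w : XX, Rx 0 N w = 0 ∧
      ‖T w + r • (S w - T w)‖ < c * ‖w‖) :
    ∃ (x : ℕ → XX) (a : ℕ → ℕ) (r : ℝ), (∀ n, ‖x n‖ = 1) ∧ StrictMono a ∧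
      (0 ≤ r ∧ r ≤ 1) ∧ (∀ n, OnLv (a n) (a (n + 1)) (cx (x n))) ∧
      ∀ n, ‖G T S r (x n)‖ ≤ 2 * (1 / 4) ^ n := by
  obtain ⟨x, a, r, hx, ha, hr, hO, hG⟩ := blocks tail T S hno
  obtain ⟨ρ, hρ, φ, hφ, hlim⟩ := (isCompact_Icc (a := (0 : ℝ)) (b := 1)).tendsto_subseq
    (x := r) (fun n => hr n)
  set K : ℝ := ‖S - T‖ with hK
  have hK0 : 0 ≤ K := norm_nonneg _
  have h1 : ∀ n : ℕ, ∀ᶠ k in atTop, |ρ - (r ∘ φ) k| ≤ (1 / 4) ^ n / (K + 1) := by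
    intro n
    have h2 := (Metric.tendsto_nhds.1 hlim) ((1 / 4) ^ n / (K + 1)) (by positivity)
    refine h2.mono fun k hk => ?_
    rw [dist_comm, Real.dist_eq] at hk
    exact hk.le
  obtain ⟨ψ, hψ, hψr⟩ := extraction_forall_of_eventually h1
  have hmono : StrictMono (φ ∘ ψ) := hφ.comp hψ
  refine ⟨fun n => x (φ (ψ n)), fun n => a (φ (ψ n)), ρ, fun n => hx _, ha.comp hmono,
    hρ, fun n => ?_, fun n => ?_⟩
  · refine (hO (φ (ψ n))).mono le_rfl (ha.monotone ?_)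
    exact Nat.succ_le_of_lt (hmono (Nat.lt_succ_self n))
  · have h3 : G T S ρ (x (φ (ψ n))) = G T S (r (φ (ψ n))) (x (φ (ψ n))) +
        (ρ - r (φ (ψ n))) • (S - T) (x (φ (ψ n))) := by
      rw [G_apply, G_apply, sub_smul, _root_.sub_apply]
      abel
    have h4 : ‖(ρ - r (φ (ψ n))) • (S - T) (x (φ (ψ n)))‖ ≤ (1 / 4) ^ n := by
      rw [norm_smul, Real.norm_eq_abs]
      have h5 := hψr n
      rw [Function.comp_apply] at h5
      have h6 : ‖(S - T) (x (φ (ψ n)))‖ ≤ K := by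
        have := (S - T).le_opNorm (x (φ (ψ n)))
        rwa [hx, mul_one] at this
      calc |ρ - r (φ (ψ n))| * ‖(S - T) (x (φ (ψ n)))‖ ≤ (1 / 4) ^ n / (K + 1) * K := by gcongr
        _ = (1 / 4) ^ n * (K / (K + 1)) := by ring
        _ ≤ (1 / 4) ^ n * 1 := by
          gcongr
          rw [div_le_one (by positivity)]
          linarith
        _ = _ := mul_one _
    have h7 : (1 / 4 : ℝ) ^ (φ (ψ n)) ≤ (1 / 4) ^ n :=
      pow_le_pow_of_le_one (by norm_num) (by norm_num) (hmono.le_apply (x := n))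
    rw [h3]
    refine (norm_add_le _ _).trans ?_
    have h8 := hG (φ (ψ n))
    linarith

theorem coeff_le {x : ℕ → XX} {a : ℕ → ℕ} (hx : ∀ n, ‖x n‖ = 1) (ha : StrictMono a)
    (hO : ∀ n, OnLv (a n) (a (n + 1)) (cx (x n))) {z : XX} (hz : ‖z‖ = 1) {N M : ℕ} {c : ℕ → ℝ}
    (h : z = ∑ n ∈ Ico N M, c n • x n) {n : ℕ} (hn : n ∈ Ico N M) : |c n| ≤ 1 := by
  have h1 : Rx (a n) (a (n + 1)) z = c n • x n := by
    apply cx_injective
    rw [cx_Rx, h, map_sum, map_sum, Finset.sum_eq_single_of_mem n hn]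
    · rw [real_smul, map_smul, map_smul, (hO n).cut_eq le_rfl le_rfl]
    · intro k _ hk
      rw [real_smul, map_smul, map_smul, (hO k).cut_zero, smul_zero]
      rcases lt_or_gt_of_ne hk with hk | hk
      · right
        exact ha.monotone (Nat.succ_le_of_lt hk)
      · left
        exact ha.monotone (Nat.succ_le_of_lt hk)
  have h2 := norm_Rx_le (a n) (a (n + 1)) z
  rw [h1, norm_smul, hx, hz, mul_one, Real.norm_eq_abs] at h2
  exact h2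

end BB

theorem t_BB (tail : S_TAIL) (risb : S_RISB) : S_BB := by
  intro T S c0 hc0 hT hST
  by_contra hcon
  have hno : ∀ (N : ℕ) (c : ℝ), 0 < c → ∃ r : ℝ, 0 ≤ r ∧ r ≤ 1 ∧ ∃ w : XX, Rx 0 N w = 0 ∧
      ‖T w + r • (S w - T w)‖ < c * ‖w‖ := by
    intro N c hc
    by_contra h
    apply hcon
    refine ⟨N, c, hc, fun r hr0 hr1 w hw => ?_⟩
    by_contra h2
    exact h ⟨r, hr0, hr1, w, hw, not_le.1 h2⟩
  obtain ⟨x, a, r, hx, ha, hr, hO, hG⟩ := BB.limit tail T S hno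
  obtain ⟨z, N, M, c, hz, hz1, hzc⟩ := risb x a hx ha hO
  have h1 : ∀ l, ‖BB.G T S r (z l)‖ ≤ 8 / 3 * (1 / 4) ^ l := by
    intro l
    obtain ⟨hl, hzl⟩ := hzc l
    have h2 : BB.G T S r (z l) = ∑ n ∈ Ico (N l) (M l), c l n • BB.G T S r (x n) := by
      rw [hzl, map_sum]
      refine Finset.sum_congr rfl fun n _ => ?_
      rw [map_smul]
    rw [h2]
    refine (norm_sum_le _ _).trans ?_
    calc ∑ n ∈ Ico (N l) (M l), ‖c l n • BB.G T S r (x n)‖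
        ≤ ∑ n ∈ Ico (N l) (M l), 2 * (1 / 4) ^ n := by
          refine Finset.sum_le_sum fun n hn => ?_
          rw [norm_smul, Real.norm_eq_abs]
          have h3 := BB.coeff_le hx ha hO (hz1 l) hzl hn
          calc |c l n| * ‖BB.G T S r (x n)‖ ≤ 1 * ‖BB.G T S r (x n)‖ := by gcongr
            _ ≤ _ := by rw [one_mul]; exact hG n
      _ = 2 * ∑ n ∈ Ico (N l) (M l), (1 / 4 : ℝ) ^ n := by rw [Finset.mul_sum]
      _ ≤ 2 * ((1 / 4) ^ (N l) / (1 - 1 / 4)) := by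
          gcongr
          exact geom_sum_Ico_le_of_lt_one (by norm_num) (by norm_num)
      _ = 8 / 3 * (1 / 4) ^ (N l) := by ring
      _ ≤ 8 / 3 * (1 / 4) ^ l := by
          have : (1 / 4 : ℝ) ^ (N l) ≤ (1 / 4) ^ l :=
            pow_le_pow_of_le_one (by norm_num) (by norm_num) hl
          linarith
  have h4 : Tendsto (fun l : ℕ => 8 / 3 * (1 / 4 : ℝ) ^ l) atTop (𝓝 0) := by
    have h5 := (tendsto_pow_atTop_nhds_zero_of_lt_one (r := (1 / 4 : ℝ)) (by norm_num)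
      (by norm_num)).const_mul (8 / 3)
    rwa [mul_zero] at h5
  have h6 : ∀ᶠ l in atTop, 8 / 3 * (1 / 4 : ℝ) ^ l < c0 / 2 :=
    h4.eventually_lt_const (by positivity)
  obtain ⟨l, hl1, hl2⟩ := (h6.and (hST z hz)).exists
  have h7 := h1 l
  have h8 : ‖T (z l)‖ ≤ ‖BB.G T S r (z l)‖ + ‖S (z l) - T (z l)‖ := by
    have h9 : T (z l) = BB.G T S r (z l) - r • (S (z l) - T (z l)) := by
      rw [BB.G_apply]
      abel
    calc ‖T (z l)‖ = ‖BB.G T S r (z l) - r • (S (z l) - T (z l))‖ := by rw [← h9]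
      _ ≤ ‖BB.G T S r (z l)‖ + ‖r • (S (z l) - T (z l))‖ := norm_sub_le _ _
      _ ≤ _ := by
        rw [norm_smul, Real.norm_eq_abs, abs_of_nonneg hr.1]
        have : r * ‖S (z l) - T (z l)‖ ≤ 1 * ‖S (z l) - T (z l)‖ :=
          mul_le_mul_of_nonneg_right hr.2 (norm_nonneg _)
        linarith
  have h10 := hT (z l)
  rw [hz1, mul_one] at h10
  linarith

end Pool.Agent.Q73.GP
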