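import Pool.Agent.Q73.GP.Stm2

set_option autoImplicit false

/-!
Project GP (helper73), job CDEP: the dependent sequences. Port of `Pool.Agent.Q73.GM.CDEP`
(helper237) by helper247.
-/

namespace Pool.Agent.Q73.GP

open Finset Filter Topology
open scoped BoundedContinuousFunction

noncomputable section

namespace CDEP

variable (c : ℕ → ℚ × ℚ) (w : ℕ → ℕ) (f : ℕ → Tr)

/-- the `k`-th functional with its window -/
def mk (q i : ℕ) : Tr × ℕ × ℕ :=
  (Tr.node q (nn q) (fun s : Fin (nn q) => c (i + s)) (fun s => w (i + s))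
    (fun s => w (i + s + 1)) (fun s => f (i + s)), w i, w (i + nn q))

/-- the next weight -/
def qq (q₀ : ℕ) (L : List (Tr × ℕ × ℕ)) : ℕ := if L = [] then q₀ else sig L

/-- the states of the recursion -/
def St (q₀ i₀ : ℕ) : ℕ → List (Tr × ℕ × ℕ) × ℕ
  | 0 => ([], i₀)
  | k + 1 => ((St q₀ i₀ k).1 ++ [mk c w f (qq q₀ (St q₀ i₀ k).1) (St q₀ i₀ k).2],
      (St q₀ i₀ k).2 + nn (qq q₀ (St q₀ i₀ k).1))

/-- the weights -/
def qk (q₀ i₀ k : ℕ) : ℕ := qq q₀ (St c w f q₀ i₀ k).1

/-- the first indices -/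
def ik (q₀ i₀ k : ℕ) : ℕ := (St c w f q₀ i₀ k).2

/-- the functionals -/
def Gk (q₀ i₀ k : ℕ) : Tr × ℕ × ℕ := mk c w f (qk c w f q₀ i₀ k) (ik c w f q₀ i₀ k)

theorem St_eq (q₀ i₀ k : ℕ) :
    (St c w f q₀ i₀ k).1 = List.ofFn (fun i : Fin k => Gk c w f q₀ i₀ i) := by
  induction k with
  | zero => simp [St]
  | succ k ih =>
    rw [List.ofFn_succ', List.concat_eq_append]
    rw [St]
    simp only [Fin.val_castSucc, Fin.val_last]
    rw [← ih]
    rfl

theorem qk_succ (q₀ i₀ k : ℕ) : qk c w f q₀ i₀ (k + 1) =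
    sig (List.ofFn fun i : Fin (k + 1) => Gk c w f q₀ i₀ i) := by
  unfold qk qq
  rw [St_eq, if_neg]
  intro h
  have := congrArg List.length h
  simp at this

theorem qk_zero (q₀ i₀ : ℕ) : qk c w f q₀ i₀ 0 = q₀ := by
  unfold qk qq
  rw [St_eq, if_pos]
  simp

theorem ik_zero (q₀ i₀ : ℕ) : ik c w f q₀ i₀ 0 = i₀ := rfl

theorem ik_succ (q₀ i₀ k : ℕ) :
    ik c w f q₀ i₀ (k + 1) = ik c w f q₀ i₀ k + nn (qk c w f q₀ i₀ k) := rfl

theorem qk_even (q₀ i₀ k : ℕ) (h : q₀ % 4 = 2) : qk c w f q₀ i₀ k % 2 = 0 := by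
  cases k with
  | zero => rw [qk_zero]; omega
  | succ k =>
    rw [qk_succ]
    have := sig_mod (List.ofFn fun i : Fin (k + 1) => Gk c w f q₀ i₀ i)
    omega

theorem ik_strictMono (q₀ i₀ : ℕ) : StrictMono (ik c w f q₀ i₀) :=
  strictMono_nat_of_lt_succ fun k => by
    rw [ik_succ]; have := nn_pos (qk c w f q₀ i₀ k); omega

theorem wt_Gk (q₀ i₀ k : ℕ) : (Gk c w f q₀ i₀ k).1.wt = qk c w f q₀ i₀ k + 1 := rfl

theorem qk_strictMono (q₀ i₀ : ℕ) : StrictMono (qk c w f q₀ i₀) := by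
  refine strictMono_nat_of_lt_succ fun k => ?_
  rw [qk_succ]
  refine lt_of_lt_of_le ?_ (wsum_lt_sig _).le
  have h1 : (Gk c w f q₀ i₀ k).1.wt ≤ wsum (List.ofFn fun i : Fin (k + 1) => Gk c w f q₀ i₀ i) := by
    unfold wsum
    apply List.single_le_sum
    · intro x _
      exact Nat.zero_le x
    · apply List.mem_map.2
      refine ⟨Gk c w f q₀ i₀ k, ?_, rfl⟩
      rw [List.mem_ofFn]
      exact ⟨Fin.last k, by simp⟩
  rw [wt_Gk] at h1
  omega

variable {c w f}

theorem mk_wf (hw : StrictMono w) (hc : ∀ i, ‖cc (c i)‖ ≤ 1) (ht : ∀ i, (f i).Wf) {q : ℕ}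
    (hq : q % 2 = 0) (i : ℕ) : (mk c w f q i).1.Wf := by
  refine ⟨le_rfl, fun s => ht _, fun s => hc _, fun s => (hw (Nat.lt_succ_self _)).le,
    fun s s' hs => ?_, fun h => by omega⟩
  have h1 : i + (s : ℕ) + 1 ≤ i + s' := by have : (s : ℕ) < s' := hs; omega
  exact hw.monotone h1

/-- evaluation of the functionals -/
theorem ev_mk (hw : StrictMono w) (q i : ℕ) (x : V) :
    ev (mk c w f q i).1 (cut (mk c w f q i).2.1 (mk c w f q i).2.2 x) =
      (mm q : ℂ)⁻¹ * ∑ s ∈ Ico i (i + nn q), cc (c s) * ev (f s) (cut (w s) (w (s + 1)) x) := by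
  unfold mk
  rw [ev_node, Finset.sum_Ico_eq_sum_range, Nat.add_sub_cancel_left,
    ← Fin.sum_univ_eq_sum_range
      (fun s => cc (c (i + s)) * ev (f (i + s)) (cut (w (i + s)) (w (i + s + 1)) x))]
  congr 1
  refine Finset.sum_congr rfl fun s _ => ?_
  rw [cut_cut]
  have h1 : w i ≤ w (i + s) := hw.monotone (Nat.le_add_right i s)
  have h2 : w (i + s + 1) ≤ w (i + nn q) := hw.monotone (by have := s.2; omega)
  simp only
  rw [max_eq_left h1, min_eq_left h2]

theorem In_mono {v : Sg} {m m' : ℕ} (h : v.In m) (hm : m ≤ m') : v.In m' :=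
  ⟨h.1.trans_le hm, h.2.trans_le hm⟩

/-- the sources of the points of a short window which are not the first ones are far away -/
theorem src {v : Sg} {W n : ℕ} (h : ¬ v.In W) (hn : n < W) (h1 : n / 2 ≠ v.v.r1)
    (h3 : n / 2 % 2 ^ v.v.k1 = v.v.r1) : W ≤ 2 ^ v.v.k2 * (n / 2 / 2 ^ v.v.k1) + v.v.r2 := by
  have h2 : 2 ^ v.v.k1 > W ∨ 2 ^ v.v.k2 > W := by
    unfold Sg.In at h
    rw [not_and_or, not_lt, not_lt] at h
    rcases h with h | h
    · left; exact h.trans_lt Nat.lt_two_pow_self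
    · right; exact h.trans_lt Nat.lt_two_pow_self
  have h5 := Nat.div_add_mod (n / 2) (2 ^ v.v.k1)
  have h6 : n / 2 / 2 ^ v.v.k1 ≠ 0 := by
    intro h7
    rw [h7, h3] at h5
    omega
  rcases h2 with h2 | h2
  · exfalso
    apply h6
    exact Nat.div_eq_of_lt (by omega)
  · have h7 : 2 ^ v.v.k2 * 1 ≤ 2 ^ v.v.k2 * (n / 2 / 2 ^ v.v.k1) :=
      Nat.mul_le_mul_left _ (Nat.one_le_iff_ne_zero.2 h6)
    omega

/-- the coordinates of a translate are bounded by those of the vector -/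
theorem Sv_le {v : Sg} {K : ℝ} (hK : 0 ≤ K) {x : V} (hx : ∀ n, ‖x n‖ ≤ K) (n : ℕ) :
    ‖Sv v x n‖ ≤ K := by
  simp only [Sv_apply, GM.Sv_apply]
  split_ifs
  · exact hx _
  · rw [norm_zero]; exact hK
  · rw [norm_zero]; exact hK
  · exact hx _
  · rw [norm_zero]; exact hK

/-- a translate by a large spread has at most two coordinates in a short window -/
theorem far {v : Sg} {W a : ℕ} (h : ¬ v.In W) {x : V} (hx : ∀ n, W ≤ n → x n = 0) :
    OnLv (2 * v.v.r1) (2 * v.v.r1 + 2) (cut a W (Sv v x)) := by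
  intro n hn
  have hne : n / 2 ≠ v.v.r1 := by omega
  rw [cut_apply]
  split_ifs with h2
  · simp only [Sv_apply, GM.Sv_apply]
    split_ifs with h3 h4 h5 h6
    · apply hx
      have := src h h2.2 hne h5
      omega
    · rfl
    · rfl
    · apply hx
      have := src h h2.2 hne h6
      omega
    · rfl
  · rfl

end CDEP

open CDEP in
/-- CDEP: the dependent sequences. -/
theorem t_CDEP (els : S_ELS) (avg : S_AVG) (sp : S_SUPP) : S_CDEP := by
  classical
  intro T C y A B J w f η hCD c hc p hp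
  have hC1 := hCD.ris.hC
  have hC : 0 ≤ C := by linarith
  have hw := hCD.win.mono
  have hnp := nn_pos' p
  -- the first index and the first weight
  obtain ⟨i₀, hi₀⟩ := (Metric.tendsto_atTop.1 hCD.eta) (1 / nn p) (by positivity)
  obtain ⟨M, hM⟩ := exists_nat_gt (2 * C * nn p)
  let q₀ : ℕ := 4 * (thr p + M) + 2
  let q : ℕ → ℕ := qk c w f q₀ i₀
  let ii : ℕ → ℕ := ik c w f q₀ i₀
  let G : ℕ → Tr × ℕ × ℕ := Gk c w f q₀ i₀
  have hq0 : q₀ % 4 = 2 := by show (4 * (thr p + M) + 2) % 4 = 2; omega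
  have hqe : ∀ k, q k % 2 = 0 := fun k => qk_even c w f q₀ i₀ k hq0
  have hii : StrictMono ii := ik_strictMono c w f q₀ i₀
  have hiis : ∀ k, ii (k + 1) = ii k + nn (q k) := fun k => ik_succ c w f q₀ i₀ k
  have hii0 : ii 0 = i₀ := rfl
  have hG : ∀ k, G k = mk c w f (q k) (ii k) := fun _ => rfl
  have hG1 : ∀ k, (G k).2.1 = w (ii k) := fun _ => rfl
  have hG2 : ∀ k, (G k).2.2 = w (ii (k + 1)) := fun k => by rw [hiis]; rfl
  have hwf : ∀ k, (G k).1.Wf := fun k => mk_wf hw hc hCD.wf (hqe k) (ii k)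
  have hqm : StrictMono q := qk_strictMono c w f q₀ i₀
  have hqq : ∀ k, q₀ ≤ q k := fun k => by
    have h1 := hqm.monotone (Nat.zero_le k)
    have h2 : q 0 = q₀ := qk_zero c w f q₀ i₀
    rwa [h2] at h1
  let X : ℕ → V := fun k => ((mm (q k) : ℂ) / nn (q k)) •
      ∑ s ∈ Ico (ii k) (ii k + nn (q k)), cx (y s)
  have hXk : ∀ k, X k = ((mm (q k) : ℂ) / nn (q k)) •
      ∑ s ∈ Ico (ii k) (ii (k + 1)), cx (y s) := fun k => by rw [hiis]
  have hAB : ∀ s, w s ≤ A s ∧ B s ≤ w (s + 1) := by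
    intro s
    have h1 := hCD.win.loA s
    have h2 := hCD.win.hiB s
    have h3 : 1 ≤ 2 ^ w s := Nat.one_le_two_pow
    constructor
    · calc w s ≤ w s + 1 := Nat.le_succ _
        _ = (w s + 1) * 1 := (mul_one _).symm
        _ ≤ (w s + 1) * 2 ^ w s := Nat.mul_le_mul_left _ h3
        _ ≤ A s := h1
    · calc B s ≤ B s + 1 := Nat.le_succ _
        _ = (B s + 1) * 1 := (mul_one _).symm
        _ ≤ (B s + 1) * 2 ^ w s := Nat.mul_le_mul_left _ h3
        _ ≤ w (s + 1) := h2
  have hlevX : ∀ k, OnLv (w (ii k)) (w (ii (k + 1))) (X k) := by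
    intro k n hn
    rw [hXk]
    show ((mm (q k) : ℂ) / nn (q k)) • (∑ s ∈ Ico (ii k) (ii (k + 1)), cx (y s)) n = 0
    rw [Finset.sum_apply, Finset.sum_eq_zero, smul_zero]
    intro s hs
    rw [mem_Ico] at hs
    have h1 := hw.monotone hs.1
    have h2 := hw.monotone (show s + 1 ≤ ii (k + 1) from hs.2)
    exact ((hCD.win.lev s).mono (h1.trans (hAB s).1) ((hAB s).2.trans h2)) n hn
  have hXbd : ∀ k n, ‖X k n‖ ≤ (mm (q k) : ℝ) / nn (q k) * C := by
    intro k n
    rw [hXk]
    show ‖((mm (q k) : ℂ) / nn (q k)) • (∑ s ∈ Ico (ii k) (ii (k + 1)), cx (y s)) n‖ ≤ _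
    rw [norm_smul, norm_div, Complex.norm_natCast, Complex.norm_natCast]
    refine mul_le_mul_of_nonneg_left ?_ (by positivity)
    rw [Finset.sum_apply]
    by_cases hex : ∃ s ∈ Ico (ii k) (ii (k + 1)), cx (y s) n ≠ 0
    · obtain ⟨s, hs, hsn⟩ := hex
      rw [Finset.sum_eq_single_of_mem s hs]
      · have h1 := hCD.ris.bd s (.base n) trivial n (n + 1)
        rwa [ev_base, cut_apply, if_pos ⟨le_rfl, Nat.lt_succ_self n⟩] at h1
      · intro s' _ hne
        by_contra hcon
        have h1 : A s ≤ n ∧ n < B s := by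
          by_contra h2
          exact hsn (hCD.ris.succ.1 s n (by omega))
        have h2 : A s' ≤ n ∧ n < B s' := by
          by_contra h3
          exact hcon (hCD.ris.succ.1 s' n (by omega))
        rcases lt_or_gt_of_ne hne with h3 | h3
        · have := hCD.ris.succ.2.2 s' s h3
          omega
        · have := hCD.ris.succ.2.2 s s' h3
          omega
    · push Not at hex
      rw [Finset.sum_eq_zero hex, norm_zero]
      exact hC
  refine ⟨q, ii, G, fun _ => rfl, hiis, ?_⟩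
  refine ⟨hC1, hp, ?_, ?_, ?_, hwf, fun _ => rfl, ?_, ?_, fun k => qk_succ c w f q₀ i₀ k, ?_, ?_⟩
  · intro k
    rw [hG1, hG2]
    exact hlevX k
  · intro k
    rw [hG1, hG2]
    exact (hw (hii (Nat.lt_succ_self k))).le
  · intro k k' hk
    rw [hG1, hG2]
    exact hw.monotone (hii.monotone (show k + 1 ≤ k' from hk))
  · show qk c w f q₀ i₀ 0 % 4 = 2
    rw [qk_zero]
    exact hq0
  · show thr p ≤ qk c w f q₀ i₀ 0
    rw [qk_zero]
    show thr p ≤ 4 * (thr p + M) + 2
    omega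
  · intro k
    have h1 : #(Ico (ii k) (ii k + nn (q k))) = nn (q k) := by
      rw [Nat.card_Ico]; omega
    have h2 := avg C (fun l => cx (y l)) A B J hCD.ris (q k) (Ico (ii k) (ii k + nn (q k))) (by
      rw [h1]
      exact Nat.le_mul_of_pos_left _ (mm_pos _))
    rw [h1] at h2
    exact h2
  · intro v
    -- case (1)
    have case1 : ∀ k, v.In (w (ii k)) →
        ‖ev (G k).1 (cut (G k).2.1 (G k).2.2 (Sv v (X k)))‖ ≤ 1 / nn p := by
      intro k hv
      rw [hG, ev_mk hw, ← hiis]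
      have hsup : ∀ s, ii k ≤ s → OnLv (w s) (w (s + 1)) (Sv v (cx (y s))) := fun s hs =>
        sp v (w s) (w (s + 1)) (A s) (B s) (cx (y s)) (In_mono hv (hw.monotone hs))
          (hCD.win.lev s) (hCD.win.loA s) (hCD.win.hiB s)
      have h1 : ∀ s ∈ Ico (ii k) (ii (k + 1)), ev (f s) (cut (w s) (w (s + 1)) (Sv v (X k))) =
          ((mm (q k) : ℂ) / nn (q k)) *
            ev (f s) (cut (w s) (w (s + 1)) (Sv v (cx (y s)))) := by
        intro s hs
        rw [hXk, map_smul, map_smul, map_smul, map_sum, map_sum, map_sum,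
          Finset.sum_eq_single_of_mem s hs, smul_eq_mul]
        intro s' hs' hne
        rw [mem_Ico] at hs hs'
        have h2 : cut (w s) (w (s + 1)) (Sv v (cx (y s'))) = 0 := by
          apply (hsup s' hs'.1).cut_zero
          rcases lt_or_gt_of_ne hne with h3 | h3
          · right
            exact hw.monotone (show s' + 1 ≤ s from h3)
          · left
            exact hw.monotone (show s + 1 ≤ s' from h3)
        rw [h2, map_zero]
      have h2 : ∑ s ∈ Ico (ii k) (ii (k + 1)), cc (c s) *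
          ev (f s) (cut (w s) (w (s + 1)) (Sv v (X k))) = ((mm (q k) : ℂ) / nn (q k)) *
          ∑ s ∈ Ico (ii k) (ii (k + 1)), cc (c s) *
            ev (f s) (cut (w s) (w (s + 1)) (Sv v (cx (y s)))) := by
        rw [Finset.mul_sum]
        refine Finset.sum_congr rfl fun s hs => ?_
        rw [h1 s hs]
        ring
      rw [h2, ← mul_assoc]
      have hm : (mm (q k) : ℂ) ≠ 0 := by exact_mod_cast (mm_pos' (q k)).ne'
      have h3 : (mm (q k) : ℂ)⁻¹ * ((mm (q k) : ℂ) / nn (q k)) = (nn (q k) : ℂ)⁻¹ := by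
        field_simp
      rw [h3, norm_mul, norm_inv, Complex.norm_natCast, inv_mul_le_iff₀ (nn_pos' _)]
      have h4 : ∀ s ∈ Ico (ii k) (ii (k + 1)), ‖cc (c s) *
          ev (f s) (cut (w s) (w (s + 1)) (Sv v (cx (y s))))‖ ≤ 1 / nn p := by
        intro s hs
        rw [mem_Ico] at hs
        rw [norm_mul]
        refine (mul_le_of_le_one_left (norm_nonneg _) (hc s)).trans ?_
        refine (hCD.small s v (In_mono hv (hw.monotone hs.1))).trans ?_
        have h5 : i₀ ≤ s := by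
          have := hii.monotone (Nat.zero_le k)
          rw [hii0] at this
          omega
        have h6 := (hi₀ s h5).le
        rw [Real.dist_eq, sub_zero] at h6
        exact (le_abs_self _).trans h6
      refine (norm_sum_le _ _).trans ((Finset.sum_le_sum h4).trans ?_)
      rw [Finset.sum_const, Nat.card_Ico, hiis, Nat.add_sub_cancel_left, nsmul_eq_mul]
    -- case (2)
    have case2 : ∀ k, ¬ v.In (w (ii (k + 1))) →
        ‖ev (G k).1 (cut (G k).2.1 (G k).2.2 (Sv v (X k)))‖ ≤ 1 / nn p := by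
      intro k hv
      rw [hG1, hG2]
      have h1 := far (a := w (ii k)) hv (x := X k) (fun n hn => hlevX k n (Or.inr hn))
      have h3 := (els _ _ _ h1 (G k).1 (hwf k) (w (ii k)) (w (ii (k + 1)))).2 (q k) rfl
      rw [cut_cut, max_self, min_self] at h3
      refine h3.trans ?_
      have hK : 0 ≤ (mm (q k) : ℝ) / nn (q k) * C := by positivity
      have hc1 : ∀ n, ‖cut (w (ii k)) (w (ii (k + 1))) (Sv v (X k)) n‖ ≤
          (mm (q k) : ℝ) / nn (q k) * C := by
        intro n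
        rw [cut_apply]
        split_ifs
        · exact Sv_le hK (hXbd k) n
        · rw [norm_zero]; exact hK
      have h4 : ∑ n ∈ Ico (2 * v.v.r1) (2 * v.v.r1 + 2),
          ‖cut (w (ii k)) (w (ii (k + 1))) (Sv v (X k)) n‖ ≤
          2 * ((mm (q k) : ℝ) / nn (q k) * C) := by
        refine (Finset.sum_le_sum fun n _ => hc1 n).trans ?_
        rw [Finset.sum_const, Nat.card_Ico, Nat.add_sub_cancel_left, nsmul_eq_mul]
        norm_num
      have hm := mm_pos' (q k)
      have hn := nn_pos' (q k)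
      calc (mm (q k) : ℝ)⁻¹ * ∑ n ∈ Ico (2 * v.v.r1) (2 * v.v.r1 + 2),
            ‖cut (w (ii k)) (w (ii (k + 1))) (Sv v (X k)) n‖
          ≤ (mm (q k) : ℝ)⁻¹ * (2 * ((mm (q k) : ℝ) / nn (q k) * C)) :=
            mul_le_mul_of_nonneg_left h4 (by positivity)
        _ = 2 * C / nn (q k) := by field_simp
        _ ≤ 1 / nn p := by
            rw [div_le_div_iff₀ hn hnp, one_mul]
            have h6 : M ≤ q k := by
              have h7 := hqq k
              have h8 : M ≤ q₀ := by show M ≤ 4 * (thr p + M) + 2; omega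
              exact h8.trans h7
            have h7 : (M : ℝ) ≤ nn (q k) := by
              exact_mod_cast h6.trans (lt_nn (q k)).le
            linarith
    by_cases hex : ∃ k, v.In (w (ii (k + 1)))
    · refine ⟨Nat.find hex, fun k hk => ?_⟩
      rcases lt_or_gt_of_ne hk with h1 | h1
      · exact case2 k (Nat.find_min hex h1)
      · exact case1 k (In_mono (Nat.find_spec hex) (hw.monotone (hii.monotone h1)))
    · push Not at hex
      exact ⟨0, fun k _ => case2 k (hex k)⟩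

end

end Pool.Agent.Q73.GP
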