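import Pool.Agent.Q73.GP.Stm1
import Pool.Agent.Q73.GM.COMP

set_option autoImplicit false

/-!
Project GP (helper73): composition of two spreads, from the corresponding lemma of project GM
(helper285).
-/

namespace Pool.Agent.Q73.GP

namespace COMP

theorem Sv_false (v : GM.Sg) (x : V) (k i : ℕ) (hi : i < 2) :
    Sv ⟨v, false⟩ x (2 * k + i) = GM.Sv v (fun k' => x (2 * k' + i)) k := by
  have h1 : (2 * k + i) % 2 = i := by omega
  have h2 : (2 * k + i) / 2 = k := by omega
  simp only [Sv_apply, h1, h2, Bool.false_eq_true, if_false]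

theorem Sv_true_odd (v : GM.Sg) (x : V) (k : ℕ) :
    Sv ⟨v, true⟩ x (2 * k + 1) = GM.Sv v (fun k' => x (2 * k')) k := by
  have h1 : (2 * k + 1) % 2 = 1 := by omega
  have h2 : (2 * k + 1) / 2 = k := by omega
  simp only [Sv_apply, h1, h2, if_true]

theorem Sv_true_even (v : GM.Sg) (x : V) (k : ℕ) : Sv ⟨v, true⟩ x (2 * k) = 0 := by
  have h1 : (2 * k) % 2 = 0 := by omega
  simp [Sv_apply, h1]

theorem ext_layers {x y : V} (h0 : ∀ k, x (2 * k) = y (2 * k)) (h1 : ∀ k, x (2 * k + 1) = y (2 * k + 1)) :
    x = y := by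
  funext n
  rcases Nat.even_or_odd' n with ⟨k, hk | hk⟩
  · rw [hk]; exact h0 k
  · rw [hk]; exact h1 k

theorem Sv_false_even (v : GM.Sg) (x : V) (k : ℕ) :
    Sv ⟨v, false⟩ x (2 * k) = GM.Sv v (fun k' => x (2 * k')) k :=
  Sv_false v x k 0 (by norm_num)

theorem Sv_false_odd (v : GM.Sg) (x : V) (k : ℕ) :
    Sv ⟨v, false⟩ x (2 * k + 1) = GM.Sv v (fun k' => x (2 * k' + 1)) k :=
  Sv_false v x k 1 (by norm_num)

end COMP

open COMP

theorem t_COMP : S_COMP := by
  rintro ⟨v, t⟩ ⟨v', t'⟩
  cases t <;> cases t'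
  · rcases GM.t_COMP v v' with ⟨w, hw⟩ | h0
    · refine Or.inl ⟨⟨w, false⟩, fun x => ext_layers (fun k => ?_) (fun k => ?_)⟩
      · simp only [Sv_false_even]
        exact congrFun (hw _) k
      · simp only [Sv_false_odd]
        exact congrFun (hw _) k
    · refine Or.inr fun x => ext_layers (fun k => ?_) (fun k => ?_)
      · simp only [Sv_false_even]
        exact congrFun (h0 _) k
      · simp only [Sv_false_odd]
        exact congrFun (h0 _) k
  · rcases GM.t_COMP v v' with ⟨w, hw⟩ | h0
    · refine Or.inl ⟨⟨w, true⟩, fun x => ext_layers (fun k => ?_) (fun k => ?_)⟩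
      · simp only [Sv_false_even, Sv_true_even]
        exact congrFun (map_zero (GM.Sv v)) k
      · simp only [Sv_false_odd, Sv_true_odd]
        exact congrFun (hw _) k
    · refine Or.inr fun x => ext_layers (fun k => ?_) (fun k => ?_)
      · simp only [Sv_false_even, Sv_true_even]
        exact congrFun (map_zero (GM.Sv v)) k
      · simp only [Sv_false_odd, Sv_true_odd]
        exact congrFun (h0 _) k
  · rcases GM.t_COMP v v' with ⟨w, hw⟩ | h0
    · refine Or.inl ⟨⟨w, true⟩, fun x => ext_layers (fun k => ?_) (fun k => ?_)⟩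
      · simp only [Sv_true_even]
      · simp only [Sv_false_even, Sv_true_odd]
        exact congrFun (hw _) k
    · refine Or.inr fun x => ext_layers (fun k => ?_) (fun k => ?_)
      · simp only [Sv_true_even]
        rfl
      · simp only [Sv_false_even, Sv_true_odd]
        exact congrFun (h0 _) k
  · refine Or.inr fun x => ext_layers (fun k => ?_) (fun k => ?_)
    · simp only [Sv_true_even]
      rfl
    · simp only [Sv_true_even, Sv_true_odd]
      exact congrFun (map_zero (GM.Sv v)) k

end Pool.Agent.Q73.GP
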