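import Pool.Agent.Q73.GP.Stm3
import Pool.Agent.Q73.GP.COMP

set_option autoImplicit false

/-!
Project GP (helper277): the compression of a linear combination of spreads.
-/

namespace Pool.Agent.Q73.GP

open Finset Filter Topology

namespace CMP

open COMP

/-- the compression of a spread with `t = false` which is the identity on the layers -/
theorem id_false (U D v : GM.Sg) (h : ∀ x : V, GM.Sv D (GM.Sv v (GM.Sv U x)) = x) (w : XX) :
    Sx ⟨D, false⟩ (Sx ⟨v, false⟩ (Sx ⟨U, false⟩ w)) = w := by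
  apply cx_injective
  rw [cx_Sx, cx_Sx, cx_Sx]
  refine ext_layers (fun k => ?_) (fun k => ?_)
  · simp only [Sv_false_even]
    exact congrFun (h _) k
  · simp only [Sv_false_odd]
    exact congrFun (h _) k

/-- the compression of a spread with `t = true` which is the identity on the layers -/
theorem id_true (U D v : GM.Sg) (h : ∀ x : V, GM.Sv D (GM.Sv v (GM.Sv U x)) = x) (w : XX) :
    Sx ⟨D, false⟩ (Sx ⟨v, true⟩ (Sx ⟨U, false⟩ w)) = Sx RR w := by
  apply cx_injective
  rw [cx_Sx, cx_Sx, cx_Sx, cx_Sx]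
  refine ext_layers (fun k => ?_) (fun k => ?_)
  · simp only [RR, Sv_false_even, Sv_true_even]
    exact congrFun (map_zero (GM.Sv D)) k
  · simp only [RR, Sv_false_even, Sv_false_odd, Sv_true_odd]
    have h1 := congrFun (h fun k => cx w (2 * k)) k
    have h2 : GM.Sv GM.Sg.id (fun k => cx w (2 * k)) k = cx w (2 * k) := by
      simp [GM.Sv_apply, GM.Sg.id, Nat.mod_one]
    rw [h2]
    exact h1

/-- the compression of a spread which is zero on the layers -/
theorem zero_false (U D v : GM.Sg) (h : ∀ x : V, GM.Sv D (GM.Sv v (GM.Sv U x)) = 0) (w : XX) :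
    Sx ⟨D, false⟩ (Sx ⟨v, false⟩ (Sx ⟨U, false⟩ w)) = 0 := by
  apply cx_injective
  rw [cx_Sx, cx_Sx, cx_Sx, map_zero]
  refine ext_layers (fun k => ?_) (fun k => ?_)
  · simp only [Sv_false_even]
    exact congrFun (h _) k
  · simp only [Sv_false_odd]
    exact congrFun (h _) k

theorem zero_true (U D v : GM.Sg) (h : ∀ x : V, GM.Sv D (GM.Sv v (GM.Sv U x)) = 0) (w : XX) :
    Sx ⟨D, false⟩ (Sx ⟨v, true⟩ (Sx ⟨U, false⟩ w)) = 0 := by
  apply cx_injective
  rw [cx_Sx, cx_Sx, cx_Sx, map_zero]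
  refine ext_layers (fun k => ?_) (fun k => ?_)
  · simp only [Sv_false_even, Sv_true_even]
    exact congrFun (map_zero (GM.Sv D)) k
  · simp only [Sv_false_even, Sv_false_odd, Sv_true_odd]
    exact congrFun (h _) k

end CMP

open CMP

theorem t_CMP (cmp1 : S_CMP1) : S_CMP := by
  classical
  intro a ρ0
  obtain ⟨L, ρ, h, hρ, hc⟩ := cmp1 (a.support.sup fun v => max v.v.k1 v.v.k2) ρ0
  refine ⟨L, ρ, h, hρ, ?_⟩
  set P : GM.Sg → Prop := fun v =>
    ∀ x : V, GM.Sv (dn L ρ h) (GM.Sv v (GM.Sv (up L ρ h) x)) = x with hP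
  refine ⟨∑ v ∈ a.support, (if P v.v ∧ v.t = false then a v else 0),
    ∑ v ∈ a.support, (if P v.v ∧ v.t = true then a v else 0), fun w => ?_⟩
  rw [op_apply, map_sum, Finset.sum_smul, Finset.sum_smul, ← Finset.sum_add_distrib]
  refine Finset.sum_congr rfl fun v hv => ?_
  rw [map_smul]
  have hle : max v.v.k1 v.v.k2 ≤ a.support.sup fun v => max v.v.k1 v.v.k2 :=
    Finset.le_sup (f := fun v : Sg => max v.v.k1 v.v.k2) hv
  obtain ⟨v, t⟩ := v
  by_cases hPv : P v
  · cases t
    · rw [id_false _ _ _ hPv, if_pos ⟨hPv, rfl⟩, if_neg (by simp), zero_smul, add_zero]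
    · rw [id_true _ _ _ hPv, if_neg (by simp), if_pos ⟨hPv, rfl⟩, zero_smul, zero_add]
  · have h0 := (hc v ((le_max_left _ _).trans hle) ((le_max_right _ _).trans hle)).resolve_left hPv
    rw [if_neg (fun h1 => hPv h1.1), if_neg (fun h1 => hPv h1.1), zero_smul, zero_smul, add_zero]
    cases t
    · rw [zero_false _ _ _ h0, smul_zero]
    · rw [zero_true _ _ _ h0, smul_zero]

end Pool.Agent.Q73.GP
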