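import Pool.Agent.Q73.GP.Stm3

set_option autoImplicit false

/-!
Project GP (helper277): the compression of one spread of the old semigroup.
-/

namespace Pool.Agent.Q73.GP

open Finset Filter Topology

namespace CMP1

theorem up_apply (L ρ : ℕ) (h : ρ < 2 ^ L) (x : V) (n : ℕ) :
    GM.Sv (up L ρ h) x n = if n % 2 ^ L = ρ then x (n / 2 ^ L) else 0 := by
  simp only [GM.Sv_apply, up, pow_zero, one_mul, add_zero]

theorem dn_apply (L ρ : ℕ) (h : ρ < 2 ^ L) (x : V) (m : ℕ) :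
    GM.Sv (dn L ρ h) x m = x (2 ^ L * m + ρ) := by
  simp [GM.Sv_apply, dn, Nat.mod_one]

theorem comp_apply (L ρ : ℕ) (h : ρ < 2 ^ L) (v : GM.Sg) (x : V) (m : ℕ) (h1 : v.k1 ≤ L) :
    GM.Sv (dn L ρ h) (GM.Sv v (GM.Sv (up L ρ h) x)) m =
      if ρ % 2 ^ v.k1 = v.r1 then
        (if (2 ^ v.k2 * (2 ^ (L - v.k1) * m + ρ / 2 ^ v.k1) + v.r2) % 2 ^ L = ρ then
          x ((2 ^ v.k2 * (2 ^ (L - v.k1) * m + ρ / 2 ^ v.k1) + v.r2) / 2 ^ L) else 0) else 0 := by
  have e : 2 ^ L = 2 ^ v.k1 * 2 ^ (L - v.k1) := by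
    rw [← pow_add, Nat.add_sub_cancel' h1]
  have hm : (2 ^ L * m + ρ) % 2 ^ v.k1 = ρ % 2 ^ v.k1 := by
    rw [e, mul_assoc, Nat.mul_add_mod]
  have hd : (2 ^ L * m + ρ) / 2 ^ v.k1 = 2 ^ (L - v.k1) * m + ρ / 2 ^ v.k1 := by
    rw [e, mul_assoc, Nat.mul_add_div (by positivity)]
  rw [dn_apply, GM.Sv_apply, hm, hd, up_apply]

/-- the two numbers `2^a y + r` and `2^b y + s` are different unless `a = b` and `r = s` -/
theorem arith (a b y r s : ℕ) (hr : r < 2 ^ a) (hs : s < 2 ^ b) (hy : 1 ≤ y)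
    (h : 2 ^ a * y + r = 2 ^ b * y + s) : a = b ∧ r = s := by
  have key : ∀ a b y r s : ℕ, r < 2 ^ a → 1 ≤ y → a < b → 2 ^ a * y + r < 2 ^ b * y + s := by
    intro a b y r s hr hy hab
    have h1 : 2 ^ a * 2 ≤ 2 ^ b := by
      rw [← pow_succ]
      exact Nat.pow_le_pow_right (by norm_num) hab
    have h2 : 2 ^ a * 2 * y ≤ 2 ^ b * y := Nat.mul_le_mul_right y h1
    have h3 : 2 ^ a * 1 ≤ 2 ^ a * y := Nat.mul_le_mul_left _ hy
    nlinarith
  rcases lt_trichotomy a b with hab | hab | hab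
  · have := key a b y r s hr hy hab
    omega
  · subst hab
    exact ⟨rfl, by omega⟩
  · have := key b a y s r hs hy hab
    omega

end CMP1

open CMP1

theorem t_CMP1 : S_CMP1 := by
  intro K ρ0
  set ρ := max ρ0 (2 ^ K) with hρ
  have hK : 2 ^ K ≤ ρ := le_max_right _ _
  set M := 2 ^ K * (ρ + 1) with hM
  have hMlt : M < 2 ^ M := Nat.lt_two_pow_self
  have hKpos : 0 < 2 ^ K := by positivity
  have hρM : ρ < M := by
    have h1 : 1 * (ρ + 1) ≤ 2 ^ K * (ρ + 1) := Nat.mul_le_mul_right _ hKpos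
    omega
  have hρL' : ρ < 2 ^ M := hρM.trans hMlt
  have hML : 2 ^ M ≤ 2 ^ (K + M) := Nat.pow_le_pow_right (by norm_num) (by omega)
  have hρL : ρ < 2 ^ (K + M) := hρL'.trans_le hML
  refine ⟨K + M, ρ, hρL, le_max_left _ _, ?_⟩
  intro v h1 h2
  have h1L : v.k1 ≤ K + M := by omega
  have hp1 : 2 ^ v.k1 ≤ 2 ^ K := Nat.pow_le_pow_right (by norm_num) h1
  have hp2 : 2 ^ v.k2 ≤ 2 ^ K := Nat.pow_le_pow_right (by norm_num) h2
  set y := ρ / 2 ^ v.k1 with hy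
  have hy1 : 1 ≤ y := (Nat.one_le_div_iff (by positivity)).2 (hp1.trans hK)
  have hyρ : y ≤ ρ := Nat.div_le_self _ _
  by_cases hr : ρ % 2 ^ v.k1 = v.r1
  · have hρy : 2 ^ v.k1 * y + v.r1 = ρ := by
      rw [hy, ← hr]
      exact Nat.div_add_mod ρ (2 ^ v.k1)
    by_cases hk : v.k1 = v.k2 ∧ v.r1 = v.r2
    · refine Or.inl fun x => ?_
      funext m
      have e : 2 ^ v.k2 * (2 ^ (K + M - v.k1) * m + y) + v.r2 = 2 ^ (K + M) * m + ρ := by
        rw [← hρy, hk.1, hk.2, mul_add, ← mul_assoc, ← pow_add, Nat.add_sub_cancel' (by omega),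
          add_assoc]
      rw [comp_apply _ _ _ _ _ _ h1L, if_pos hr, ← hy, e, Nat.mul_add_mod,
        Nat.mod_eq_of_lt hρL, if_pos rfl, Nat.mul_add_div (by positivity),
        Nat.div_eq_of_lt hρL, add_zero]
    · refine Or.inr fun x => ?_
      funext m
      rw [comp_apply _ _ _ _ _ _ h1L, if_pos hr, ← hy, if_neg]
      · rfl
      · intro hj
        apply hk
        have hdvd : 2 ^ M ∣ 2 ^ (K + M) := pow_dvd_pow 2 (by omega)
        have hj2 : (2 ^ v.k2 * (2 ^ (K + M - v.k1) * m + y) + v.r2) % 2 ^ M = ρ := by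
          rw [← Nat.mod_mod_of_dvd _ hdvd, hj]
          exact Nat.mod_eq_of_lt hρL'
        have e : 2 ^ v.k2 * (2 ^ (K + M - v.k1) * m + y) + v.r2 =
            2 ^ M * (2 ^ (K - v.k1 + v.k2) * m) + (2 ^ v.k2 * y + v.r2) := by
          have e1 : 2 ^ v.k2 * 2 ^ (K + M - v.k1) = 2 ^ M * 2 ^ (K - v.k1 + v.k2) := by
            rw [← pow_add, ← pow_add]
            congr 1
            omega
          rw [mul_add, ← mul_assoc, e1, mul_assoc, add_assoc]
        have hlt : 2 ^ v.k2 * y + v.r2 < 2 ^ M := by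
          have a1 : 2 ^ v.k2 * y ≤ 2 ^ K * ρ := Nat.mul_le_mul hp2 hyρ
          have a2 := v.h2
          have a3 : M = 2 ^ K * ρ + 2 ^ K := by rw [hM, mul_add, mul_one]
          omega
        rw [e, Nat.mul_add_mod, Nat.mod_eq_of_lt hlt] at hj2
        exact arith _ _ y _ _ v.h1 v.h2 hy1 (hρy.trans hj2.symm)
  · refine Or.inr fun x => ?_
    funext m
    rw [comp_apply _ _ _ _ _ _ h1L, if_neg hr]
    rfl

end Pool.Agent.Q73.GP
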