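import Pool.Agent.Q73.GP.Stm2

set_option autoImplicit false

namespace Pool.Agent.Q73.GP

namespace COD

open Finset

theorem cod_core (Y X : Type) [NormedAddCommGroup Y] [NormedSpace ℝ Y] [CompleteSpace Y]
    [NormedAddCommGroup X] [NormedSpace ℝ X] [CompleteSpace X] (S : Y →L[ℝ] X) (c : ℝ) (hc : 0 < c)
    (hS : ∀ y, c * ‖y‖ ≤ ‖S y‖) (N M : ℕ) (hNM : N < M) (x : Fin M → X)
    (hx : ∀ (α : Fin M → ℝ) (y : Y), S y = ∑ i, α i • x i → α = 0) (v : Fin N → X) :
    ∃ x : X, x ∉ closure {u : X | ∃ (y : Y) (β : Fin N → ℝ), u = S y + ∑ i, β i • v i} := by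
  classical
  by_contra hcon
  push Not at hcon
  obtain ⟨E, hEdef⟩ : ∃ E : Submodule ℝ X, E = LinearMap.range (S : Y →ₗ[ℝ] X) := ⟨_, rfl⟩
  have hEmem : ∀ y, S y ∈ E := fun y => by rw [hEdef]; exact ⟨y, rfl⟩
  have hEcl : IsClosed (E : Set X) := by
    have h1 : AntilipschitzWith (Real.toNNReal c⁻¹) S := by
      refine ContinuousLinearMap.antilipschitz_of_bound S fun y => ?_
      rw [Real.coe_toNNReal _ (inv_nonneg.2 hc.le), inv_mul_eq_div, le_div_iff₀ hc, mul_comm]
      exact hS y
    have h2 := h1.isClosed_range S.uniformContinuous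
    have h3 : (E : Set X) = Set.range S := by
      rw [hEdef]
      ext u
      simp
    rw [h3]
    exact h2
  have : IsClosed (E : Set X) := hEcl
  let π := E.mkQ
  have hπc : Continuous π := continuous_quot_mk
  let G : Submodule ℝ (X ⧸ E) := Submodule.span ℝ (Set.range fun i => π (v i))
  have hfin : FiniteDimensional ℝ G := FiniteDimensional.span_of_finite ℝ (Set.finite_range _)
  have hGcl : IsClosed (G : Set (X ⧸ E)) := G.closed_of_finiteDimensional
  have hsub : closure {u : X | ∃ (y : Y) (β : Fin N → ℝ), u = S y + ∑ i, β i • v i} ⊆ π ⁻¹' (G : Set (X ⧸ E)) := by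
    refine closure_minimal ?_ (hGcl.preimage hπc)
    rintro u ⟨y, β, rfl⟩
    show π (S y + ∑ i, β i • v i) ∈ G
    rw [map_add, map_sum]
    have h0 : π (S y) = 0 := by
      show E.mkQ (S y) = 0
      rw [Submodule.mkQ_apply, Submodule.Quotient.mk_eq_zero]
      exact hEmem y
    rw [h0, zero_add]
    refine Submodule.sum_mem _ fun i _ => ?_
    rw [map_smul]
    exact Submodule.smul_mem _ _ (Submodule.subset_span ⟨i, rfl⟩)
  have htop : ∀ z : X ⧸ E, z ∈ G := by
    intro z
    obtain ⟨u, rfl⟩ := Submodule.mkQ_surjective E z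
    exact hsub (hcon u)
  have hGtop : G = ⊤ := Submodule.eq_top_iff'.2 htop
  have hli : LinearIndependent ℝ fun i => (⟨π (x i), htop _⟩ : G) := by
    rw [Fintype.linearIndependent_iff]
    intro α hα
    have h1 : ∑ i, α i • π (x i) = 0 := by
      have := congrArg (fun z : G => (z : X ⧸ E)) hα
      simpa using this
    have h2 : ∑ i, α i • x i ∈ E := by
      have h5 : π (∑ i, α i • x i) = 0 := by
        rw [map_sum, ← h1]
        exact Finset.sum_congr rfl fun i _ => map_smul _ _ _
      exact (Submodule.Quotient.mk_eq_zero E).1 h5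
    rw [hEdef] at h2
    obtain ⟨y, hy⟩ := h2
    have := hx α y hy
    intro i
    rw [this]
    rfl
  have h3 := hli.fintype_card_le_finrank
  have h4 : Module.finrank ℝ G ≤ N := by
    have := finrank_range_le_card (R := ℝ) (fun i => π (v i))
    simpa [Set.finrank] using this
  simp at h3
  omega

end COD

theorem t_COD : S_COD := by
  intro Y X _ _ _ _ _ _ S c hc hS N M hNM hI v
  obtain ⟨x, hx⟩ := hI
  exact COD.cod_core Y X S c hc hS N M hNM x hx v

end Pool.Agent.Q73.GP
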