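import Pool.Agent.Q73.GP.Stm2

set_option autoImplicit false

/-!
Project GP (port of project GM) (helper73), job CON (helper237): the contradiction with special functionals. Port of the
second part of `contra` of `Pool.Agent.TH313.HI.Op1`.
-/

namespace Pool.Agent.Q73.GP

open Finset Filter Topology
open scoped BoundedContinuousFunction

noncomputable section

namespace CON

theorem exists_approx (s : ℂ) (hs : ‖s‖ ≤ 1) {ε : ℝ} (hε : 0 < ε) (hε1 : ε ≤ 1) :
    ∃ c : ℚ × ℚ, ‖cc c‖ ≤ 1 ∧ ‖cc c - s‖ ≤ 2 * ε := by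
  obtain ⟨p, hp⟩ := Rat.denseRange_cast.exists_dist_lt ((1 - ε) * s.re) (show 0 < ε / 2 by positivity)
  obtain ⟨q, hq⟩ := Rat.denseRange_cast.exists_dist_lt ((1 - ε) * s.im) (show 0 < ε / 2 by positivity)
  have h1 : ‖cc (p, q) - (1 - ε : ℝ) * s‖ ≤ ε := by
    refine (Complex.norm_le_abs_re_add_abs_im _).trans ?_
    have e1 : (cc (p, q) - (1 - ε : ℝ) * s).re = p - (1 - ε) * s.re := by
      simp [cc]
    have e2 : (cc (p, q) - (1 - ε : ℝ) * s).im = q - (1 - ε) * s.im := by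
      simp [cc]
    rw [e1, e2]
    rw [Real.dist_eq, abs_sub_comm] at hp hq
    linarith
  have h2 : ‖((1 - ε : ℝ) : ℂ) * s‖ ≤ 1 - ε := by
    rw [norm_mul, Complex.norm_real, Real.norm_of_nonneg (by linarith)]
    exact mul_le_of_le_one_right (by linarith) hs
  refine ⟨(p, q), ?_, ?_⟩
  · have := norm_add_le (cc (p, q) - (1 - ε : ℝ) * s) (((1 - ε : ℝ) : ℂ) * s)
    rw [sub_add_cancel] at this
    linarith
  · have h3 : cc (p, q) - s = (cc (p, q) - (1 - ε : ℝ) * s) + (-(ε : ℂ) * s) := by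
      push_cast; ring
    rw [h3]
    refine (norm_add_le _ _).trans ?_
    have h4 : ‖-(ε : ℂ) * s‖ ≤ ε := by
      rw [norm_mul, norm_neg, Complex.norm_real, Real.norm_of_nonneg hε.le]
      exact mul_le_of_le_one_right hε.le hs
    linarith

/-- a coefficient which makes the real part large -/
theorem exists_coef (z : ℂ) : ∃ c : ℚ × ℚ, ‖cc c‖ ≤ 1 ∧ ‖z‖ / 2 ≤ (cc c * z).re := by
  by_cases hz : z = 0
  · exact ⟨(0, 0), by simp [cc], by simp [hz]⟩
  · have hz' : 0 < ‖z‖ := norm_pos_iff.2 hz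
    have hzc : (‖z‖ : ℂ) ≠ 0 := by exact_mod_cast hz'.ne'
    obtain ⟨c, h1, h2⟩ := exists_approx ((starRingEnd ℂ) z / (‖z‖ : ℂ)) (by
      rw [norm_div, Complex.norm_real, norm_norm, RCLike.norm_conj, div_self hz'.ne'])
      (show (0 : ℝ) < 1 / 4 by norm_num) (by norm_num)
    refine ⟨c, h1, ?_⟩
    have h3 : cc c * z = (‖z‖ : ℂ) + (cc c - (starRingEnd ℂ) z / (‖z‖ : ℂ)) * z := by
      have h4 : (starRingEnd ℂ) z / (‖z‖ : ℂ) * z = (‖z‖ : ℂ) := by
        rw [div_mul_eq_mul_div, mul_comm, Complex.mul_conj, Complex.normSq_eq_norm_sq]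
        push_cast
        rw [pow_two, mul_div_assoc, div_self hzc, mul_one]
      rw [sub_mul, h4]
      ring
    have h5 : ‖(cc c - (starRingEnd ℂ) z / (‖z‖ : ℂ)) * z‖ ≤ ‖z‖ / 2 := by
      rw [norm_mul]
      have h6 : ‖cc c - (starRingEnd ℂ) z / (‖z‖ : ℂ)‖ * ‖z‖ ≤ (2 * (1 / 4)) * ‖z‖ :=
        mul_le_mul_of_nonneg_right h2 hz'.le
      linarith
    rw [h3, Complex.add_re, Complex.ofReal_re]
    have h7 := (abs_le.1 (Complex.abs_re_le_norm
      ((cc c - (starRingEnd ℂ) z / (‖z‖ : ℂ)) * z))).1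
    linarith

/-- the weights of a dependent sequence increase -/
theorem q_strictMono {C : ℝ} {p : ℕ} {X : ℕ → V} {q : ℕ → ℕ} {G : ℕ → Tr × ℕ × ℕ}
    (h : Dep C p X q G) : StrictMono q := by
  refine strictMono_nat_of_lt_succ fun k => ?_
  rw [h.qs]
  refine lt_of_lt_of_le ?_ (wsum_lt_sig _).le
  have h1 : (G k).1.wt ≤ wsum (List.ofFn fun i : Fin (k + 1) => G i) := by
    unfold wsum
    apply List.single_le_sum
    · intro x _
      exact Nat.zero_le x
    · apply List.mem_map.2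
      refine ⟨G k, ?_, rfl⟩
      rw [List.mem_ofFn]
      exact ⟨Fin.last k, by simp⟩
  rw [h.wt] at h1
  omega

theorem thr_le {C : ℝ} {p : ℕ} {X : ℕ → V} {q : ℕ → ℕ} {G : ℕ → Tr × ℕ × ℕ}
    (h : Dep C p X q G) (k : ℕ) : thr p ≤ q k :=
  h.q0'.trans ((q_strictMono h).monotone (Nat.zero_le k))

theorem mm_div_nn_le_one (q : ℕ) : (mm q : ℝ) / nn q ≤ 1 := by
  rw [div_le_one (nn_pos' q)]
  have h1 := mm_le_nn q
  have h2 : (mm q : ℝ) ≤ (mm q : ℝ) ^ 4 := by
    have h3 : (1 : ℝ) ≤ mm q := by linarith [one_le_mm q]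
    exact le_self_pow₀ h3 (by norm_num)
  linarith

end CON

open CON in
/-- CON: the contradiction. -/
theorem t_CON (dbd : S_DBD) (cd : S_CDEP) : S_CON := by
  classical
  intro T C y A B J w f η hCD δ hδ hdiag
  have hC1 := hCD.ris.hC
  have hC : 0 ≤ C := by linarith
  have hw := hCD.win.mono
  choose c hc hcre using fun s => exists_coef (ev (f s) (cut (w s) (w (s + 1)) (cx (T (y s)))))
  let φ : ℕ → V →ₗ[ℂ] ℂ := fun s => cc (c s) • (ev (f s)).comp (cut (w s) (w (s + 1)))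
  have hφ : ∀ s x, φ s x = cc (c s) * ev (f s) (cut (w s) (w (s + 1)) x) := fun _ _ => rfl
  have hφd : ∀ s, δ / 2 ≤ (φ s (cx (T (y s)))).re := by
    intro s
    rw [hφ]
    have h1 := hcre s
    have h2 := hdiag s
    linarith
  -- off the diagonal
  have hoff0 : ∀ i i', i ≠ i' → ‖φ i (cx (T (y i')))‖ ≤ (1 / 2) ^ i * (1 / 2) ^ i' := by
    intro i i' hii'
    rw [hφ, norm_mul]
    refine (mul_le_of_le_one_left (norm_nonneg _) (hc i)).trans ?_
    rcases lt_or_gt_of_ne hii' with h1 | h1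
    · have h2 : cut (w i) (w (i + 1)) (cx (T (y i'))) =
          cut (w i) (w (i + 1)) (cx (Rx 0 (w i') (T (y i')))) := by
        rw [cx_Rx, cut_cut, max_eq_left (Nat.zero_le _), min_eq_left]
        exact hw.monotone (show i + 1 ≤ i' from h1)
      rw [h2]
      refine ((XX.bd (Rx 0 (w i') (T (y i')))) (f i) (hCD.wf i) _ _).trans ?_
      refine (hCD.win.lo i').trans ?_
      rw [one_mul]
      have h3 : ((1 : ℝ) / 4) ^ i' = (1 / 2) ^ i' * (1 / 2) ^ i' := by rw [← mul_pow]; norm_num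
      rw [h3]
      refine mul_le_mul_of_nonneg_right ?_ (by positivity)
      exact pow_le_pow_of_le_one (by norm_num) (by norm_num) h1.le
    · have h2 : cut (w i) (w (i + 1)) (cx (T (y i'))) =
          cut (w i) (w (i + 1)) (cx (T (y i') - Rx 0 (w i) (T (y i')))) := by
        rw [map_sub, cx_Rx, map_sub, cut_cut]
        have h3 : cut (max (w i) 0) (min (w (i + 1)) (w i)) (cx (T (y i'))) = 0 := by
          funext n
          rw [cut_apply, if_neg]
          · rfl
          · intro h4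
            have h5 : w i ≤ n := (le_max_left _ _).trans h4.1
            have h6 : n < w i := h4.2.trans_le (min_le_right _ _)
            omega
        rw [h3, sub_zero]
      rw [h2]
      refine ((XX.bd (T (y i') - Rx 0 (w i) (T (y i')))) (f i) (hCD.wf i) _ _).trans ?_
      refine (hCD.win.hi i' i h1).trans ?_
      rw [one_mul]
      have h3 : ((1 : ℝ) / 4) ^ i = (1 / 2) ^ i * (1 / 2) ^ i := by rw [← mul_pow]; norm_num
      rw [h3]
      refine mul_le_mul_of_nonneg_left ?_ (by positivity)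
      exact pow_le_pow_of_le_one (by norm_num) (by norm_num) h1.le
  -- the special weight
  obtain ⟨N, hN⟩ := exists_nat_gt (16 / δ + 32 * C * ‖T‖ / δ)
  let p : ℕ := 2 * N + 1
  have hp : p % 2 = 1 := by show (2 * N + 1) % 2 = 1; omega
  have hNp : N ≤ p := by show N ≤ 2 * N + 1; omega
  have hpN : (N : ℝ) < mm p := lt_of_le_of_lt (by exact_mod_cast hNp) (lt_mm' p)
  have hnp := nn_pos' p
  have hmp := mm_pos' p
  obtain ⟨q, ii, G, hG, hiis, hdep⟩ := cd T C y A B J w f η hCD c hc p hp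
  have hii : StrictMono ii := strictMono_nat_of_lt_succ fun k => by
    rw [hiis]; have := nn_pos (q k); omega
  have hG1 : ∀ k, (G k).2.1 = w (ii k) := fun k => by rw [hG]
  have hG2 : ∀ k, (G k).2.2 = w (ii (k + 1)) := fun k => by rw [hG, hiis]
  have hwf : ∀ k, (G k).1.Wf := hdep.wf
  have hbound := dbd C p _ q G hdep
  have hevG : ∀ k x, ev (G k).1 (cut (G k).2.1 (G k).2.2 x) =
      (mm (q k) : ℂ)⁻¹ * ∑ i ∈ Ico (ii k) (ii (k + 1)), φ i x := by
    intro k x
    rw [hG, hiis]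
    rw [ev_node, Finset.sum_Ico_eq_sum_range, Nat.add_sub_cancel_left,
      ← Fin.sum_univ_eq_sum_range (fun s => φ (ii k + s) x)]
    congr 1
    refine Finset.sum_congr rfl fun s _ => ?_
    rw [cut_cut, hφ]
    have h1 : w (ii k) ≤ w (ii k + s) := hw.monotone (Nat.le_add_right _ _)
    have h2 : w (ii k + s + 1) ≤ w (ii k + nn (q k)) := hw.monotone (by have := s.2; omega)
    simp only
    rw [max_eq_left h1, min_eq_left h2]
  -- the vector
  let r : ℕ → ℝ := fun k => (mm (q k) : ℝ) / nn (q k)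
  have hr : ∀ k, ((r k : ℝ) : ℂ) = (mm (q k) : ℂ) / nn (q k) := by
    intro k
    show (((mm (q k) : ℝ) / nn (q k) : ℝ) : ℂ) = _
    push_cast
    rfl
  have hr0 : ∀ k, 0 ≤ r k := fun k => by show 0 ≤ (mm (q k) : ℝ) / nn (q k); positivity
  have hr1 : ∀ k, r k ≤ 1 := fun k => mm_div_nn_le_one (q k)
  let x : ℕ → XX := fun k => r k • ∑ i ∈ Ico (ii k) (ii (k + 1)), y i
  have hcx : ∀ k, cx (x k) = ((mm (q k) : ℂ) / nn (q k)) •
      ∑ i ∈ Ico (ii k) (ii k + nn (q k)), cx (y i) := by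
    intro k
    show cx (r k • ∑ i ∈ Ico (ii k) (ii (k + 1)), y i) = _
    rw [← Complex.coe_smul, map_smul, map_sum, hr, hiis]
  let X : XX := ∑ k ∈ range (nn p), x k
  have hX : ‖X‖ ≤ 8 * C * (nn p / (mm p) ^ 2) := by
    apply XX.norm_le (by positivity)
    show Bd _ (cx (∑ k ∈ range (nn p), x k))
    rw [map_sum, Finset.sum_congr rfl fun k _ => hcx k]
    exact hbound
  have hTX : ‖T X‖ ≤ ‖T‖ * (8 * C * (nn p / (mm p) ^ 2)) :=
    (T.le_opNorm X).trans (mul_le_mul_of_nonneg_left hX (norm_nonneg _))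
  have hTXeq0 : cx (T X) = ∑ k' ∈ range (nn p), ((r k' : ℝ) : ℂ) •
      ∑ i' ∈ Ico (ii k') (ii (k' + 1)), cx (T (y i')) := by
    show cx (T (∑ k ∈ range (nn p), x k)) = _
    rw [map_sum, map_sum]
    refine Finset.sum_congr rfl fun k' _ => ?_
    show cx (T (r k' • ∑ i ∈ Ico (ii k') (ii (k' + 1)), y i)) = _
    rw [map_smul, ← Complex.coe_smul, map_smul, map_sum, map_sum]
  -- the special functional
  let H : Tr := Tr.node p (nn p) (fun _ => (1, 0)) (fun i => (G i).2.1) (fun i => (G i).2.2)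
    (fun i => (G i).1)
  have hHwf : H.Wf := by
    refine ⟨le_rfl, fun i => hwf i, fun i => by simp [GP.cc], fun i => hdep.le i,
      fun i i' hi => hdep.suc _ _ hi, fun _ => fun i => ?_⟩
    split_ifs with hi0
    · refine ⟨q 0, hdep.q0, hdep.q0', ?_⟩
      show (G (i : ℕ)).1.wt = q 0 + 1
      rw [hi0]
      exact hdep.wt 0
    · obtain ⟨i', hi'⟩ : ∃ i', (i : ℕ) = i' + 1 := ⟨i - 1, by omega⟩
      have h1 : hist (fun i : Fin (nn p) => (G i).2.1) (fun i : Fin (nn p) => (G i).2.2)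
          (fun i : Fin (nn p) => (G i).1) i = List.ofFn fun s : Fin (i' + 1) => G s := by
        unfold hist
        have hil := i.2
        apply List.ext_getElem
        · rw [List.length_take, List.length_ofFn, List.length_ofFn]
          omega
        · intro n h2 h3
          rw [List.getElem_take, List.getElem_ofFn, List.getElem_ofFn]
      rw [hi'] at h1
      show (G (i : ℕ)).1.wt = _
      rw [hi', h1, ← hdep.qs]
      exact hdep.wt (i' + 1)
  have hev : ‖ev H (cut 0 (w (ii (nn p))) (cx (T X)))‖ ≤ ‖T X‖ := (T X).bd H hHwf _ _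
  -- the value
  have hval : ev H (cut 0 (w (ii (nn p))) (cx (T X))) = (mm p : ℂ)⁻¹ * ∑ k ∈ range (nn p),
      ((mm (q k) : ℂ)⁻¹ * ∑ i ∈ Ico (ii k) (ii (k + 1)), φ i (cx (T X))) := by
    show ev (Tr.node p (nn p) (fun _ => (1, 0)) (fun i => (G i).2.1) (fun i => (G i).2.2)
      (fun i => (G i).1)) _ = _
    rw [ev_node, ← Fin.sum_univ_eq_sum_range
      (fun k => (mm (q k) : ℂ)⁻¹ * ∑ i ∈ Ico (ii k) (ii (k + 1)), φ i (cx (T X)))]
    congr 1
    refine Finset.sum_congr rfl fun k _ => ?_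
    rw [← hevG, cut_cut, max_eq_left (Nat.zero_le _)]
    have h1 : (G k).2.2 ≤ w (ii (nn p)) := by
      rw [hG2]
      exact hw.monotone (hii.monotone (show (k : ℕ) + 1 ≤ nn p from k.2))
    rw [min_eq_left h1]
    simp [GP.cc]
  -- the off-diagonal part
  have hTXeq : ∀ i, φ i (cx (T X)) = ∑ k' ∈ range (nn p), ((r k' : ℝ) : ℂ) *
      ∑ i' ∈ Ico (ii k') (ii (k' + 1)), φ i (cx (T (y i'))) := by
    intro i
    rw [hTXeq0, map_sum]
    refine Finset.sum_congr rfl fun k' _ => ?_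
    rw [map_smul, map_sum, smul_eq_mul]
  have hoff : ∀ k < nn p, ∀ i ∈ Ico (ii k) (ii (k + 1)),
      ‖φ i (cx (T X)) - ((r k : ℝ) : ℂ) * φ i (cx (T (y i)))‖ ≤ 2 * (1 / 2) ^ i := by
    intro k hk i hi
    have h1 : ((r k : ℝ) : ℂ) * φ i (cx (T (y i))) = ∑ k' ∈ range (nn p),
        ((r k' : ℝ) : ℂ) * ∑ i' ∈ Ico (ii k') (ii (k' + 1)),
          (if i' = i then φ i (cx (T (y i))) else 0) := by
      rw [Finset.sum_eq_single_of_mem k (mem_range.2 hk)]
      · rw [Finset.sum_ite_eq' (Ico (ii k) (ii (k + 1))) i, if_pos hi]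
      · intro k' _ hne
        rw [Finset.sum_eq_zero, mul_zero]
        intro i' hi'
        rw [if_neg]
        rintro rfl
        rw [mem_Ico] at hi hi'
        rcases lt_or_gt_of_ne hne with h5 | h5
        · have := hii.monotone (show k' + 1 ≤ k from h5)
          omega
        · have := hii.monotone (show k + 1 ≤ k' from h5)
          omega
    rw [hTXeq, h1, ← Finset.sum_sub_distrib]
    have h2 : ∀ k' ∈ range (nn p), ‖((r k' : ℝ) : ℂ) * ∑ i' ∈ Ico (ii k') (ii (k' + 1)),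
        φ i (cx (T (y i'))) - ((r k' : ℝ) : ℂ) * ∑ i' ∈ Ico (ii k') (ii (k' + 1)),
        (if i' = i then φ i (cx (T (y i))) else 0)‖ ≤
        ∑ i' ∈ Ico (ii k') (ii (k' + 1)), (1 / 2) ^ i * (1 / 2) ^ i' := by
      intro k' _
      rw [← mul_sub, ← Finset.sum_sub_distrib, norm_mul, Complex.norm_real,
        Real.norm_of_nonneg (hr0 k')]
      refine (mul_le_of_le_one_left (norm_nonneg _) (hr1 k')).trans ?_
      refine (norm_sum_le _ _).trans (Finset.sum_le_sum fun i' _ => ?_)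
      split_ifs with h5
      · rw [h5, sub_self, norm_zero]; positivity
      · rw [sub_zero]; exact hoff0 i i' (Ne.symm h5)
    refine (norm_sum_le _ _).trans ((Finset.sum_le_sum h2).trans ?_)
    have h3 : ∀ n, ∑ k' ∈ range n, ∑ i' ∈ Ico (ii k') (ii (k' + 1)), ((1 : ℝ) / 2) ^ i * (1 / 2) ^ i' =
        ∑ i' ∈ Ico (ii 0) (ii n), (1 / 2) ^ i * (1 / 2) ^ i' := by
      intro n
      induction n with
      | zero => simp
      | succ n ih =>
        rw [Finset.sum_range_succ, ih, Finset.sum_Ico_consecutive _ (hii.monotone (Nat.zero_le n))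
          (hii.monotone (Nat.le_succ n))]
    rw [h3, ← Finset.mul_sum]
    have h4 := sum_half_le (Ico (ii 0) (ii (nn p)))
    have h5 : (0 : ℝ) ≤ (1 / 2) ^ i := by positivity
    nlinarith
  -- each summand has a large real part
  have hterm : ∀ k < nn p, δ / 4 ≤
      ((mm (q k) : ℂ)⁻¹ * ∑ i ∈ Ico (ii k) (ii (k + 1)), φ i (cx (T X))).re := by
    intro k hk
    have hmq := mm_pos' (q k)
    have hnq := nn_pos' (q k)
    have h1 : ((mm (q k) : ℂ)⁻¹ * ∑ i ∈ Ico (ii k) (ii (k + 1)), φ i (cx (T X))).re =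
        (mm (q k) : ℝ)⁻¹ * ∑ i ∈ Ico (ii k) (ii (k + 1)), (φ i (cx (T X))).re := by
      have h2 : (mm (q k) : ℂ)⁻¹ = (((mm (q k) : ℝ)⁻¹ : ℝ) : ℂ) := by push_cast; rfl
      rw [h2, Complex.re_ofReal_mul, Complex.re_sum]
    have h2 : ∀ i ∈ Ico (ii k) (ii (k + 1)), r k * (δ / 2) - 2 * (1 / 2) ^ i ≤
        (φ i (cx (T X))).re := by
      intro i hi
      have h3 := hoff k hk i hi
      have h4 := (abs_le.1 ((Complex.abs_re_le_norm _).trans h3)).1
      rw [Complex.sub_re, Complex.re_ofReal_mul] at h4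
      have h5 : r k * (δ / 2) ≤ r k * (φ i (cx (T (y i)))).re :=
        mul_le_mul_of_nonneg_left (hφd i) (hr0 k)
      linarith
    have h3 := Finset.sum_le_sum h2
    rw [Finset.sum_sub_distrib, Finset.sum_const, Nat.card_Ico, hiis, Nat.add_sub_cancel_left,
      nsmul_eq_mul, ← Finset.mul_sum, ← hiis] at h3
    have h4 := sum_half_le (Ico (ii k) (ii (k + 1)))
    have h5 : (nn (q k) : ℝ) * (r k * (δ / 2)) = mm (q k) * (δ / 2) := by
      show (nn (q k) : ℝ) * ((mm (q k) : ℝ) / nn (q k) * (δ / 2)) = _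
      field_simp
    rw [h5] at h3
    rw [h1]
    have h6 : (N : ℝ) ≤ mm (q k) := by
      have h7 : thr p ≤ q k := thr_le hdep k
      have h8 : p ≤ thr p := by unfold thr; omega
      have h9 := lt_mm (q k)
      exact_mod_cast (hNp.trans (h8.trans h7)).trans h9.le
    have h7 : 16 / δ ≤ N := by
      have : (0 : ℝ) ≤ 32 * C * ‖T‖ / δ := by positivity
      linarith
    rw [div_le_iff₀ hδ] at h7
    rw [inv_mul_eq_div, le_div_iff₀ hmq]
    have h8 : (N : ℝ) * δ ≤ mm (q k) * δ := mul_le_mul_of_nonneg_right h6 hδ.le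
    linarith
  -- the lower estimate
  have hlow : (nn p : ℝ) * (δ / 4) ≤ mm p * ‖T X‖ := by
    have h1 : (nn p : ℝ) * (δ / 4) ≤ (∑ k ∈ range (nn p), ((mm (q k) : ℂ)⁻¹ *
        ∑ i ∈ Ico (ii k) (ii (k + 1)), φ i (cx (T X)))).re := by
      rw [Complex.re_sum]
      calc (nn p : ℝ) * (δ / 4) = ∑ k ∈ range (nn p), δ / 4 := by
            rw [sum_const, card_range, nsmul_eq_mul]
        _ ≤ _ := Finset.sum_le_sum fun k hk => hterm k (mem_range.1 hk)
    rw [hval, norm_mul, norm_inv, Complex.norm_natCast, inv_mul_le_iff₀ hmp] at hev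
    exact h1.trans ((Complex.re_le_norm _).trans hev)
  have h1 : (nn p : ℝ) * (δ / 4) ≤ nn p * (8 * C * ‖T‖ / mm p) := by
    refine hlow.trans ((mul_le_mul_of_nonneg_left hTX hmp.le).trans (le_of_eq ?_))
    field_simp
  have h2 := le_of_mul_le_mul_left h1 hnp
  rw [le_div_iff₀ hmp] at h2
  have h3 : 32 * C * ‖T‖ / δ < mm p := by
    have : 0 < 16 / δ := by positivity
    linarith
  rw [div_lt_iff₀ hδ] at h3
  linarith

end

end Pool.Agent.Q73.GP
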