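import Pool.Agent.Q73.GP.Stm1

set_option autoImplicit false

/-!
Project GP (port of project GM) (helper73): special nodes on translates of dependent sequences (job GM-DSP). Port of
`Dep.special` of `Pool.Agent.TH313.HI.Dep`.
-/

namespace Pool.Agent.Q73.GP.DSP

open Finset Filter Topology Pool.Agent.Q73.GP

variable {C : ℝ} {p : ℕ} {X : ℕ → V} {q : ℕ → ℕ} {G : ℕ → Tr × ℕ × ℕ}

theorem cut_empty {a b : ℕ} (h : b ≤ a) (x : V) : cut a b x = 0 := by
  funext n
  rw [cut_apply, if_neg]
  · rfl
  · omega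

theorem q_lt (h : Dep C p X q G) (k : ℕ) : q k < q (k + 1) := by
  rw [h.qs k]
  refine lt_of_le_of_lt ?_ (wsum_lt_sig _)
  unfold wsum
  have h1 : (G k).1.wt ≤ ((List.ofFn fun i : Fin (k + 1) => G i).map fun s => s.1.wt).sum := by
    apply List.single_le_sum (fun _ _ => Nat.zero_le _)
    rw [List.mem_map]
    exact ⟨G k, by rw [List.mem_ofFn]; exact ⟨⟨k, by omega⟩, rfl⟩, rfl⟩
  rw [h.wt k] at h1
  omega

theorem q_mono (h : Dep C p X q G) : StrictMono q := strictMono_nat_of_lt_succ (q_lt h)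

theorem thr_le (h : Dep C p X q G) (k : ℕ) : thr p ≤ q k :=
  h.q0'.trans ((q_mono h).monotone (Nat.zero_le k))

theorem card_le_nn {I : Finset ℕ} (hI : I ⊆ range (nn p)) : (#I : ℝ) ≤ nn p := by
  have := Finset.card_le_card hI
  rw [Finset.card_range] at this
  exact_mod_cast this

theorem two_sq_le {i : ℕ} (hi : thr p ≤ i) :
    2 * (nn p : ℝ) ^ 2 ≤ mm (i - 1) ∧ 2 * (nn p : ℝ) ^ 2 ≤ mm i := by
  have h1 : (2 * (nn p : ℝ) ^ 2 + p + 2) ≤ i := by
    unfold thr at hi
    exact_mod_cast hi
  have h2 := lt_mm' i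
  have h3 := lt_mm' (i - 1)
  have h4 : 1 ≤ i := by unfold thr at hi; omega
  have h5 : ((i - 1 : ℕ) : ℝ) = i - 1 := by rw [Nat.cast_sub h4, Nat.cast_one]
  rw [h5] at h3
  have h6 : (0 : ℝ) ≤ p := Nat.cast_nonneg _
  constructor <;> linarith

/-- nodes of index at least `thr p` -/
theorem gen_thr (dg : S_DGEN) (h : Dep C p X q G) {I : Finset ℕ} (hI : I ⊆ range (nn p)) (v : Sg)
    (t : Tr) (hw : t.Wf) (i : ℕ) (hi : t.wt = i + 1) (hip : thr p ≤ i) (α β : ℕ) :
    ‖ev t (cut α β (∑ k ∈ I, Sv v (X k)))‖ ≤ 12 * C := by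
  have hC : 0 ≤ C := by linarith [h.hC]
  have hi1 : 1 ≤ i := by unfold thr at hip; omega
  have h1 := dg C p X q G h I hI v t hw i hi hi1 α β (4 * C) (fun _ _ _ => le_rfl) (by positivity)
  refine h1.trans ?_
  obtain ⟨h2, h3⟩ := two_sq_le hip
  have hN : (1 : ℝ) ≤ nn p := by exact_mod_cast nn_pos p
  have h4 : 3 * C / nn p ≤ 3 * C := div_le_self (by positivity) hN
  have h5 : 2 * C / mm (i - 1) ≤ 2 * C := div_le_self (by positivity) (by linarith [one_le_mm (i - 1)])
  have h6 : (#I : ℝ) * (3 * C / mm i) ≤ 3 * C := by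
    rw [mul_div_assoc', div_le_iff₀ (mm_pos' i)]
    have h7 := card_le_nn hI
    have h8 : (#I : ℝ) ≤ mm i := by nlinarith
    nlinarith
  linarith

/-- nodes of index at least `thr p` which does not occur among the `q k` with `k ∈ I` -/
theorem gen_none (dg : S_DGEN) (h : Dep C p X q G) {I : Finset ℕ} (hI : I ⊆ range (nn p)) (v : Sg)
    (t : Tr) (hw : t.Wf) (i : ℕ) (hi : t.wt = i + 1) (hip : thr p ≤ i) (hne : ∀ k ∈ I, q k ≠ i)
    (α β : ℕ) :
    ‖ev t (cut α β (∑ k ∈ I, Sv v (X k)))‖ ≤ 6 * C / nn p := by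
  have hC : 0 ≤ C := by linarith [h.hC]
  have hi1 : 1 ≤ i := by unfold thr at hip; omega
  have h1 := dg C p X q G h I hI v t hw i hi hi1 α β 0 (fun k hk h0 => absurd h0 (hne k hk)) le_rfl
  refine h1.trans ?_
  obtain ⟨h2, h3⟩ := two_sq_le hip
  have hN : (1 : ℝ) ≤ nn p := by exact_mod_cast nn_pos p
  have hN0 : (0 : ℝ) < nn p := nn_pos' p
  have h5 : 2 * C / mm (i - 1) ≤ C / nn p := by
    rw [div_le_div_iff₀ (mm_pos' _) hN0]
    have : (nn p : ℝ) ≤ (nn p : ℝ) ^ 2 := by nlinarith
    nlinarith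
  have h6 : (#I : ℝ) * (3 * C / mm i) ≤ 2 * C / nn p := by
    rw [mul_div_assoc', div_le_div_iff₀ (mm_pos' i) hN0]
    have h7 := card_le_nn hI
    have h8 : (#I : ℝ) * nn p ≤ (nn p : ℝ) ^ 2 := by nlinarith
    nlinarith
  have h9 : 0 + 2 * C / nn p + 3 * C / nn p + C / nn p = 6 * C / (nn p : ℝ) := by ring
  linarith

/-- the value of the `s`-th child before the first difference -/
theorem before (dg : S_DGEN) (h : Dep C p X q G) {I : Finset ℕ} (hI : I ⊆ range (nn p)) (v : Sg)
    {k0 : ℕ} (hk0 : ∀ k, k ≠ k0 →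
      ‖ev (G k).1 (cut (G k).2.1 (G k).2.2 (Sv v (X k)))‖ ≤ 1 / nn p) (s α β : ℕ) :
    ‖ev (G s).1 (cut (max (G s).2.1 α) (min (G s).2.2 β) (∑ k ∈ I, Sv v (X k)))‖ ≤
      1 / nn p + 6 * C / nn p + 4 * C * (if (G s).2.1 < α ∧ α < (G s).2.2 then 1 else 0) +
        4 * C * (if (G s).2.1 < β ∧ β < (G s).2.2 then 1 else 0) +
        4 * C * (if s = k0 then 1 else 0) := by
  classical
  have hC : 0 ≤ C := by linarith [h.hC]
  have hN0 : (0 : ℝ) < nn p := nn_pos' p
  have q1 : (0 : ℝ) ≤ 1 / nn p := by positivity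
  have j1 : (0 : ℝ) ≤ 4 * C * (if (G s).2.1 < α ∧ α < (G s).2.2 then 1 else 0) := by
    split_ifs <;> nlinarith
  have j2 : (0 : ℝ) ≤ 4 * C * (if (G s).2.1 < β ∧ β < (G s).2.2 then 1 else 0) := by
    split_ifs <;> nlinarith
  have j3 : (0 : ℝ) ≤ 4 * C * (if s = k0 then 1 else 0) := by
    split_ifs <;> nlinarith
  -- the value at one vector
  have hfirst : ‖ev (G s).1 (cut (max (G s).2.1 α) (min (G s).2.2 β) (Sv v (X s)))‖ ≤
      1 / nn p + 4 * C * (if (G s).2.1 < α ∧ α < (G s).2.2 then 1 else 0) +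
        4 * C * (if (G s).2.1 < β ∧ β < (G s).2.2 then 1 else 0) +
        4 * C * (if s = k0 then 1 else 0) := by
    have hbd := ((h.av s).bd.Sv v) (G s).1 (h.wf s) (max (G s).2.1 α) (min (G s).2.2 β)
    by_cases hα : α ≤ (G s).2.1
    · by_cases hβ : (G s).2.2 ≤ β
      · by_cases hs : s = k0
        · rw [if_pos hs] at j3 ⊢
          linarith
        · have h3 := hk0 s hs
          rw [max_eq_left hα, min_eq_left hβ]
          linarith
      · by_cases hβ' : (G s).2.1 < β
        · have e1 : (G s).2.1 < β ∧ β < (G s).2.2 := ⟨hβ', not_le.1 hβ⟩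
          rw [if_pos e1] at j2 ⊢
          linarith
        · rw [cut_empty, map_zero, norm_zero]
          · linarith
          · have m1 := min_le_right (G s).2.2 β
            have m2 := le_max_left (G s).2.1 α
            omega
    · by_cases hα' : α < (G s).2.2
      · have e1 : (G s).2.1 < α ∧ α < (G s).2.2 := ⟨not_le.1 hα, hα'⟩
        rw [if_pos e1] at j1 ⊢
        linarith
      · rw [cut_empty, map_zero, norm_zero]
        · linarith
        · have m1 := min_le_left (G s).2.2 β
          have m2 := le_max_right (G s).2.1 α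
          omega
  -- the other vectors
  have hrest : ‖ev (G s).1 (cut (max (G s).2.1 α) (min (G s).2.2 β)
      (∑ k ∈ I.erase s, Sv v (X k)))‖ ≤ 6 * C / nn p := by
    refine gen_none dg h ((Finset.erase_subset _ _).trans hI) v (G s).1 (h.wf s) (q s) (h.wt s)
      (thr_le h s) ?_ _ _
    intro k hk h0
    exact (Finset.ne_of_mem_erase hk) ((q_mono h).injective h0)
  by_cases hs : s ∈ I
  · rw [← Finset.add_sum_erase I (fun k => Sv v (X k)) hs, map_add, map_add]
    have := norm_add_le (ev (G s).1 (cut (max (G s).2.1 α) (min (G s).2.2 β) (Sv v (X s))))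
      (ev (G s).1 (cut (max (G s).2.1 α) (min (G s).2.2 β) (∑ k ∈ I.erase s, Sv v (X k))))
    linarith
  · rw [Finset.erase_eq_of_notMem hs] at hrest
    linarith

end Pool.Agent.Q73.GP.DSP

namespace Pool.Agent.Q73.GP

open Finset Filter Topology

theorem t_DSP (dg : S_DGEN) : S_DSP := by
  classical
  intro C p X q G h I hI v d c a b t hw α β
  have hC : 0 ≤ C := by linarith [h.hC]
  have hC1 := h.hC
  obtain ⟨hd, hwt, hc, hab, hsucc, hodd⟩ := hw
  have hcode := hodd h.hp
  have hN : (1 : ℝ) ≤ nn p := by exact_mod_cast nn_pos p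
  have hN0 : (0 : ℝ) < nn p := nn_pos' p
  obtain ⟨k0, hk0⟩ := h.diag v
  -- weights of the children
  have hch : ∀ s : Fin d, ∃ i, (t s).wt = i + 1 ∧ thr p ≤ i := by
    intro s
    have h1 := hcode s
    split_ifs at h1 with h2
    · obtain ⟨q', -, h3, h4⟩ := h1
      exact ⟨q', h4, h3⟩
    · refine ⟨_, h1, ?_⟩
      have hd0 : 0 < d := lt_of_le_of_lt (Nat.zero_le _) s.2
      have h3 := hcode ⟨0, hd0⟩
      rw [if_pos rfl] at h3
      obtain ⟨q', -, h4, h5⟩ := h3
      have h6 := wsum_lt_sig (hist a b t s)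
      have h7 : (t ⟨0, hd0⟩).wt ≤ wsum (hist a b t s) := by
        unfold wsum
        apply List.single_le_sum (fun _ _ => Nat.zero_le _)
        rw [List.mem_map]
        refine ⟨(t ⟨0, hd0⟩, a ⟨0, hd0⟩, b ⟨0, hd0⟩), ?_, rfl⟩
        unfold hist
        rw [List.mem_take_iff_getElem]
        refine ⟨0, by rw [List.length_ofFn]; omega, ?_⟩
        rw [List.getElem_ofFn]
      omega
  rw [ev_node, norm_mul, norm_inv, Complex.norm_natCast]
  -- indicator functions
  let P : Fin d → Prop := fun s => (t s, a s, b s) ≠ G s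
  let i1 : Fin d → ℝ := fun s => if (G s).2.1 < α ∧ α < (G s).2.2 then 1 else 0
  let i2 : Fin d → ℝ := fun s => if (G s).2.1 < β ∧ β < (G s).2.2 then 1 else 0
  let i4 : Fin d → ℝ := fun s => if (s : ℕ) = k0 then 1 else 0
  let i3 : Fin d → ℝ := fun s => if P s ∧ ∀ s' < s, ¬ P s' then 1 else 0
  have hi1 : ∀ s, 0 ≤ i1 s := fun s => by simp only [i1]; split_ifs <;> norm_num
  have hi2 : ∀ s, 0 ≤ i2 s := fun s => by simp only [i2]; split_ifs <;> norm_num
  have hi3 : ∀ s, 0 ≤ i3 s := fun s => by simp only [i3]; split_ifs <;> norm_num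
  have hi4 : ∀ s, 0 ≤ i4 s := fun s => by simp only [i4]; split_ifs <;> norm_num
  have hsum1 : ∀ γ : ℕ, ∑ s : Fin d, (if (G s).2.1 < γ ∧ γ < (G s).2.2 then (1 : ℝ) else 0) ≤ 1 := by
    intro γ
    rw [← Finset.sum_filter, Finset.sum_const, nsmul_eq_mul, mul_one]
    have h5 : (Finset.univ.filter fun s : Fin d => (G s).2.1 < γ ∧ γ < (G s).2.2).card ≤ 1 := by
      rw [Finset.card_le_one]
      intro l hl l' hl'
      have h6 := (Finset.mem_filter.1 hl).2
      have h7 := (Finset.mem_filter.1 hl').2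
      by_contra hne
      rcases lt_or_gt_of_ne hne with h8 | h8
      · have := h.suc l l' h8
        omega
      · have := h.suc l' l h8
        omega
    exact_mod_cast h5
  have hsum3 : ∑ s : Fin d, i3 s ≤ 1 := by
    simp only [i3]
    rw [← Finset.sum_filter, Finset.sum_const, nsmul_eq_mul, mul_one]
    have h5 : (Finset.univ.filter fun s : Fin d => P s ∧ ∀ s' < s, ¬ P s').card ≤ 1 := by
      rw [Finset.card_le_one]
      intro l hl l' hl'
      have h6 := (Finset.mem_filter.1 hl).2
      have h7 := (Finset.mem_filter.1 hl').2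
      by_contra hne
      rcases lt_or_gt_of_ne hne with h8 | h8
      · exact h7.2 l h8 h6.1
      · exact h6.2 l' h8 h7.1
    exact_mod_cast h5
  have hsum4 : ∑ s : Fin d, i4 s ≤ 1 := by
    simp only [i4]
    rw [← Finset.sum_filter, Finset.sum_const, nsmul_eq_mul, mul_one]
    have h5 : (Finset.univ.filter fun s : Fin d => (s : ℕ) = k0).card ≤ 1 := by
      rw [Finset.card_le_one]
      intro l hl l' hl'
      have h6 := (Finset.mem_filter.1 hl).2
      have h7 := (Finset.mem_filter.1 hl').2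
      exact Fin.ext (h6.trans h7.symm)
    exact_mod_cast h5
  have hterm : ∀ s : Fin d,
      ‖cc (c s) * ev (t s) (cut (a s) (b s) (cut α β (∑ k ∈ I, Sv v (X k))))‖ ≤
      1 / nn p + 6 * C / nn p + 4 * C * i1 s + 4 * C * i2 s + 4 * C * i4 s + 12 * C * i3 s := by
    intro s
    have q1 : (0 : ℝ) ≤ 1 / nn p := by positivity
    have q2 : 0 ≤ 6 * C / (nn p : ℝ) := by positivity
    have q3 : 0 ≤ 4 * C * i1 s := mul_nonneg (by positivity) (hi1 s)
    have q4 : 0 ≤ 4 * C * i2 s := mul_nonneg (by positivity) (hi2 s)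
    have q6 : 0 ≤ 4 * C * i4 s := mul_nonneg (by positivity) (hi4 s)
    have q5 : 0 ≤ 12 * C * i3 s := mul_nonneg (by positivity) (hi3 s)
    rw [norm_mul, cut_cut]
    have hcs : ‖cc (c s)‖ * ‖ev (t s) (cut (max (a s) α) (min (b s) β) (∑ k ∈ I, Sv v (X k)))‖ ≤
        ‖ev (t s) (cut (max (a s) α) (min (b s) β) (∑ k ∈ I, Sv v (X k)))‖ :=
      mul_le_of_le_one_left (norm_nonneg _) (hc s)
    refine hcs.trans ?_
    by_cases hPs : P s
    · by_cases hmin : ∀ s' < s, ¬ P s'
      · -- the first difference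
        obtain ⟨i, hi, hthr⟩ := hch s
        have h1 := DSP.gen_thr dg h hI v (t s) (hwt s) i hi hthr (max (a s) α) (min (b s) β)
        have h2 : i3 s = 1 := by simp only [i3]; rw [if_pos ⟨hPs, hmin⟩]
        rw [h2, mul_one] at q5 ⊢
        linarith
      · -- after the first difference
        push Not at hmin
        obtain ⟨s', hs', hPs'⟩ := hmin
        have hs0 : (s : ℕ) ≠ 0 := by
          have : (s' : ℕ) < s := hs'
          omega
        have hwt' := hcode s
        rw [if_neg hs0] at hwt'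
        obtain ⟨i, hi, hthr⟩ := hch s
        have hi' : i = sig (hist a b t s) := by omega
        have hne : ∀ k, q k ≠ i := by
          intro k hk
          rw [hi'] at hk
          cases k with
          | zero =>
            have h1 := h.q0
            rw [hk, sig_mod] at h1
            omega
          | succ k =>
            rw [h.qs k] at hk
            have h1 := sig_injective hk
            have hlen := congrArg List.length h1
            unfold hist at hlen h1
            rw [List.length_ofFn, List.length_take, List.length_ofFn] at hlen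
            have hs'k : (s' : ℕ) < k + 1 := by
              have : (s' : ℕ) < s := hs'
              have := s.2
              omega
            have h2 : (List.ofFn fun i : Fin (k + 1) => G i)[(s' : ℕ)]'(by
                rw [List.length_ofFn]; exact hs'k) =
                ((List.ofFn fun i => (t i, a i, b i)).take s)[(s' : ℕ)]'(by
                rw [List.length_take, List.length_ofFn]
                have : (s' : ℕ) < s := hs'
                have := s.2
                omega) := by
              simp only [h1]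
            rw [List.getElem_ofFn, List.getElem_take, List.getElem_ofFn] at h2
            exact hPs' h2.symm
        have h1 := DSP.gen_none dg h hI v (t s) (hwt s) i hi hthr (fun k _ => hne k)
          (max (a s) α) (min (b s) β)
        linarith
    · -- before the first difference
      have hg : (t s, a s, b s) = G s := not_not.1 hPs
      have hts : t s = (G s).1 := congrArg Prod.fst hg
      have has : a s = (G s).2.1 := congrArg (fun z => z.2.1) hg
      have hbs : b s = (G s).2.2 := congrArg (fun z => z.2.2) hg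
      rw [hts, has, hbs]
      have h1 := DSP.before dg h hI v hk0 s α β
      have e1 : (if (G s).2.1 < α ∧ α < (G s).2.2 then (1 : ℝ) else 0) = i1 s := rfl
      have e2 : (if (G s).2.1 < β ∧ β < (G s).2.2 then (1 : ℝ) else 0) = i2 s := rfl
      have e4 : (if (s : ℕ) = k0 then (1 : ℝ) else 0) = i4 s := rfl
      rw [e1, e2, e4] at h1
      linarith
  have hsum : ‖∑ s : Fin d, cc (c s) * ev (t s) (cut (a s) (b s) (cut α β (∑ k ∈ I, Sv v (X k))))‖ ≤
      31 * C := by
    refine (norm_sum_le _ _).trans ((Finset.sum_le_sum fun s _ => hterm s).trans ?_)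
    rw [Finset.sum_add_distrib, Finset.sum_add_distrib, Finset.sum_add_distrib,
      Finset.sum_add_distrib, Finset.sum_add_distrib,
      ← Finset.mul_sum, ← Finset.mul_sum, ← Finset.mul_sum, ← Finset.mul_sum, Finset.sum_const,
      Finset.sum_const, Finset.card_univ, Fintype.card_fin, nsmul_eq_mul, nsmul_eq_mul]
    have hdN : (d : ℝ) ≤ nn p := by exact_mod_cast hd
    have e1 : (d : ℝ) * (1 / nn p) ≤ 1 := by
      rw [mul_one_div, div_le_one hN0]; exact hdN
    have e2 : (d : ℝ) * (6 * C / nn p) ≤ 6 * C := by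
      rw [mul_div_assoc', div_le_iff₀ hN0]
      nlinarith
    have e3 := mul_le_mul_of_nonneg_left (hsum1 α) (by positivity : 0 ≤ 4 * C)
    have e4 := mul_le_mul_of_nonneg_left (hsum1 β) (by positivity : 0 ≤ 4 * C)
    have e5 := mul_le_mul_of_nonneg_left hsum3 (by positivity : 0 ≤ 12 * C)
    have e6 := mul_le_mul_of_nonneg_left hsum4 (by positivity : 0 ≤ 4 * C)
    simp only [i1, i2]
    linarith
  calc ((mm p : ℝ))⁻¹ *
        ‖∑ s : Fin d, cc (c s) * ev (t s) (cut (a s) (b s) (cut α β (∑ k ∈ I, Sv v (X k))))‖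
      ≤ 1 * (31 * C) := by
        refine mul_le_mul ?_ hsum (norm_nonneg _) zero_le_one
        linarith [inv_mm_le p]
    _ = 31 * C := one_mul _

end Pool.Agent.Q73.GP
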