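import Pool.Agent.Q73.GM.Base

set_option autoImplicit false

/-!
Project GP (helper73): full answer of MP_1001d8_an. A Banach space with the primary factorisation
property but without the uniform one: the Gowers-Maurey space of the semigroup generated by the
spreads `e_{2 s + i} → e_{2 t + i}` (`s = 2^k2 m + r2`, `t = 2^k1 m + r1`, `i = 0, 1`) and the commuting
nilpotent spread `e_{2 n} → e_{2 n + 1}`, `e_{2 n + 1} → 0`. Definitions (adapted from project GM).

The construction follows the seed library `Pool.Agent.TH313.HI` (trees, special functionals with a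
coding, rapidly increasing sequences, dependent sequences).
-/

namespace Pool.Agent.Q73.GP

open Finset Filter Topology

noncomputable section

/-! ### the parameters -/

/-- the weights -/
def mm (j : ℕ) : ℕ := 2 ^ 2 ^ (j + 1)

/-- `2 ^ rr j = (mm j) ^ 2` -/
def rr (j : ℕ) : ℕ := 2 ^ (j + 2)

/-- the lengths -/
def nn : ℕ → ℕ
  | 0 => mm 0 ^ 4 * 5 * 2 ^ rr 0
  | j + 1 => mm (j + 1) ^ 4 * (5 * nn j + 5) * (2 * nn j + 2) ^ rr (j + 1)

/-- the threshold for the first weight of a special sequence -/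
def thr (p : ℕ) : ℕ := 2 * nn p ^ 2 + p + 2

/-- the number of children of the nodes of index less than `q` -/
def DD (q : ℕ) : ℕ := if q = 0 then 0 else nn (q - 1)

/-! ### the spreads -/

/-- all functions on the natural numbers -/
abbrev V : Type := ℕ → ℂ

/-- a spread: for `t = false`: `e_{2 s + i} → e_{2 t + i}`, `i = 0, 1`; for `t = true`:
`e_{2 s} → e_{2 t + 1}`; here `s = 2^k2 m + r2`, `t = 2^k1 m + r1` for `v = (k1, r1, k2, r2)`. -/
@[ext] structure Sg : Type where
  v : GM.Sg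
  t : Bool

theorem Sg.toProd_injective : Function.Injective (fun v : Sg => (v.v, v.t)) := by
  intro v w h
  simp only [Prod.mk.injEq] at h
  exact Sg.ext h.1 h.2

instance : Countable Sg := Sg.toProd_injective.countable

instance : Encodable Sg := Encodable.ofCountable Sg

/-- the identity -/
def Sg.id : Sg := ⟨GM.Sg.id, false⟩

/-- `v ∈ F_m` -/
def Sg.In (m : ℕ) (v : Sg) : Prop := v.v.k1 < m ∧ v.v.k2 < m

/-- the action of a spread on functions -/
def Sv (v : Sg) : V →ₗ[ℂ] V where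
  toFun x := fun n =>
    if v.t = true then (if n % 2 = 1 then GM.Sv v.v (fun k => x (2 * k)) (n / 2) else 0)
    else GM.Sv v.v (fun k => x (2 * k + n % 2)) (n / 2)
  map_add' x y := by
    funext n
    by_cases h : v.t = true <;> by_cases h1 : n % 2 = 1 <;>
      by_cases h2 : n / 2 % 2 ^ v.v.k1 = v.v.r1 <;> simp [h, h1, h2, GM.Sv_apply]
  map_smul' c x := by
    funext n
    by_cases h : v.t = true <;> by_cases h1 : n % 2 = 1 <;>
      by_cases h2 : n / 2 % 2 ^ v.v.k1 = v.v.r1 <;> simp [h, h1, h2, GM.Sv_apply]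

theorem Sv_apply (v : Sg) (x : V) (n : ℕ) : Sv v x n =
    if v.t = true then (if n % 2 = 1 then GM.Sv v.v (fun k => x (2 * k)) (n / 2) else 0)
    else GM.Sv v.v (fun k => x (2 * k + n % 2)) (n / 2) := rfl

/-- restriction to the half-open interval `[a, b)` -/
def cut (a b : ℕ) : V →ₗ[ℂ] V where
  toFun x := fun n => if a ≤ n ∧ n < b then x n else 0
  map_add' x y := by
    funext n
    by_cases h : a ≤ n ∧ n < b <;> simp [h]
  map_smul' c x := by
    funext n
    by_cases h : a ≤ n ∧ n < b <;> simp [h]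

theorem cut_apply (a b : ℕ) (x : V) (n : ℕ) : cut a b x n = if a ≤ n ∧ n < b then x n else 0 := rfl

theorem cut_cut (a b a' b' : ℕ) (x : V) : cut a b (cut a' b' x) = cut (max a a') (min b b') x := by
  funext n
  simp only [cut_apply]
  by_cases h : a ≤ n ∧ n < b <;> by_cases h' : a' ≤ n ∧ n < b'
  · rw [if_pos h, if_pos h', if_pos ⟨max_le h.1 h'.1, lt_min h.2 h'.2⟩]
  · rw [if_pos h, if_neg h', if_neg]
    intro h2
    exact h' ⟨(le_max_right _ _).trans h2.1, h2.2.trans_le (min_le_right _ _)⟩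
  · rw [if_neg h, if_neg]
    intro h2
    exact h ⟨(le_max_left _ _).trans h2.1, h2.2.trans_le (min_le_left _ _)⟩
  · rw [if_neg h, if_neg]
    intro h2
    exact h ⟨(le_max_left _ _).trans h2.1, h2.2.trans_le (min_le_left _ _)⟩

/-- for both layers: the smallest point above which the points at least `a` are sent -/
def fd (v : GM.Sg) (a : ℕ) : ℕ :=
  if a / 2 % 2 ^ v.k2 = v.r2 then 2 * GM.fv v (a / 2) + a % 2 else 2 * GM.fv v (a / 2)

theorem fd_iff (v : GM.Sg) (a m i : ℕ) (hi : i < 2) :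
    fd v a ≤ 2 * (2 ^ v.k1 * m + v.r1) + i ↔ a ≤ 2 * (2 ^ v.k2 * m + v.r2) + i := by
  have h1 := GM.fv_iff v (a / 2) m
  have h2 := GM.fv_iff v (a / 2 + 1) m
  have hp1 : 0 < 2 ^ v.k1 := by positivity
  have hp2 : 0 < 2 ^ v.k2 := by positivity
  unfold fd
  split_ifs with h
  · -- `a / 2` is a source
    have ha : a / 2 = 2 ^ v.k2 * (a / 2 / 2 ^ v.k2) + v.r2 := by
      conv_lhs => rw [← Nat.div_add_mod (a / 2) (2 ^ v.k2), h]
    set m0 := a / 2 / 2 ^ v.k2 with hm0
    have h3 := GM.fv_iff v (a / 2) m0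
    have h5 : GM.fv v (a / 2) = 2 ^ v.k1 * m0 + v.r1 := by
      refine le_antisymm (h3.2 (by omega)) ?_
      by_contra h6
      push Not at h6
      -- `fv` has the form `2^k1 m' + r1`
      obtain ⟨m', hm'⟩ : ∃ m', GM.fv v (a / 2) = 2 ^ v.k1 * m' + v.r1 := ⟨_, rfl⟩
      have h7 := (GM.fv_iff v (a / 2) m').1 hm'.le
      rw [hm'] at h6
      have h8 : m' < m0 := by
        by_contra h9
        push Not at h9
        have := Nat.mul_le_mul_left (2 ^ v.k1) h9
        omega
      have h9 : 2 ^ v.k2 * m' < 2 ^ v.k2 * m0 := (Nat.mul_lt_mul_left hp2).2 h8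
      omega
    rw [h5]
    rcases lt_trichotomy m m0 with hm | hm | hm
    · have e1 : 2 ^ v.k1 * m + 1 ≤ 2 ^ v.k1 * m0 := by
        have := (Nat.mul_lt_mul_left hp1).2 hm
        omega
      have e2 : 2 ^ v.k2 * m + 1 ≤ 2 ^ v.k2 * m0 := by
        have := (Nat.mul_lt_mul_left hp2).2 hm
        omega
      omega
    · subst hm
      omega
    · have e1 : 2 ^ v.k1 * m0 + 1 ≤ 2 ^ v.k1 * m := by
        have := (Nat.mul_lt_mul_left hp1).2 hm
        omega
      have e2 : 2 ^ v.k2 * m0 + 1 ≤ 2 ^ v.k2 * m := by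
        have := (Nat.mul_lt_mul_left hp2).2 hm
        omega
      omega
  · have h4 : a / 2 ≠ 2 ^ v.k2 * m + v.r2 := by
      intro h5
      apply h
      rw [h5, Nat.mul_add_mod, Nat.mod_eq_of_lt v.h2]
    omega

/-- the smallest point above which the points at least `a` are sent -/
def fv (v : Sg) (a : ℕ) : ℕ :=
  if v.t = true then 2 * GM.fv v.v ((a + 1) / 2) + 1 else fd v.v a

/-- the same for the inverse partial map -/
def gv (v : Sg) (a : ℕ) : ℕ :=
  if v.t = true then 2 * GM.fv v.v.inv (a / 2) else fd v.v.inv a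

theorem fd_mono (v : GM.Sg) {a b : ℕ} (h : a ≤ b) : fd v a ≤ fd v b := by
  have key : ∀ c, ∃ m i, i < 2 ∧ fd v c = 2 * (2 ^ v.k1 * m + v.r1) + i := by
    intro c
    unfold fd
    split_ifs with h
    · exact ⟨_, c % 2, by omega, rfl⟩
    · exact ⟨_, 0, by omega, rfl⟩
  obtain ⟨m, i, hi, hb⟩ := key b
  rw [hb, fd_iff v a m i hi]
  exact h.trans ((fd_iff v b m i hi).1 hb.le)

theorem fv_mono (v : Sg) {a b : ℕ} (h : a ≤ b) : fv v a ≤ fv v b := by
  unfold fv
  split_ifs
  · have := GM.fv_mono v.v (a := (a + 1) / 2) (b := (b + 1) / 2) (by omega)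
    omega
  · exact fd_mono _ h

theorem Sv_cut (v : Sg) (a b : ℕ) (x : V) : Sv v (cut a b x) = cut (fv v a) (fv v b) (Sv v x) := by
  funext n
  simp only [Sv_apply, cut_apply, GM.Sv_apply]
  unfold fv
  by_cases ht : v.t = true
  · simp only [if_pos ht]
    by_cases h1 : n % 2 = 1
    · simp only [if_pos h1]
      by_cases h : n / 2 % 2 ^ v.v.k1 = v.v.r1
      · simp only [if_pos h]
        have hn : n / 2 = 2 ^ v.v.k1 * (n / 2 / 2 ^ v.v.k1) + v.v.r1 := by
          conv_lhs => rw [← Nat.div_add_mod (n / 2) (2 ^ v.v.k1), h]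
        set m := n / 2 / 2 ^ v.v.k1 with hm
        have e1 := GM.fv_iff v.v ((a + 1) / 2) m
        have e2 := GM.fv_iff v.v ((b + 1) / 2) m
        rw [← hn] at e1 e2
        by_cases h2 : a ≤ 2 * (2 ^ v.v.k2 * m + v.v.r2) ∧ 2 * (2 ^ v.v.k2 * m + v.v.r2) < b
        · rw [if_pos h2, if_pos]
          omega
        · rw [if_neg h2, if_neg]
          omega
      · simp only [if_neg h, ite_self]
    · simp only [if_neg h1, ite_self]
  · simp only [if_neg ht]
    by_cases h : n / 2 % 2 ^ v.v.k1 = v.v.r1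
    · simp only [if_pos h]
      have hn : n / 2 = 2 ^ v.v.k1 * (n / 2 / 2 ^ v.v.k1) + v.v.r1 := by
        conv_lhs => rw [← Nat.div_add_mod (n / 2) (2 ^ v.v.k1), h]
      set m := n / 2 / 2 ^ v.v.k1 with hm
      have hn2 : 2 * (2 ^ v.v.k1 * m + v.v.r1) + n % 2 = n := by omega
      have e1 := fd_iff v.v a m (n % 2) (Nat.mod_lt _ (by norm_num))
      have e2 := fd_iff v.v b m (n % 2) (Nat.mod_lt _ (by norm_num))
      rw [hn2] at e1 e2
      by_cases h2 : a ≤ 2 * (2 ^ v.v.k2 * m + v.v.r2) + n % 2 ∧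
          2 * (2 ^ v.v.k2 * m + v.v.r2) + n % 2 < b
      · rw [if_pos h2, if_pos]
        exact ⟨e1.2 h2.1, by by_contra h3; exact absurd (e2.1 (not_lt.1 h3)) (not_le.2 h2.2)⟩
      · rw [if_neg h2, if_neg]
        intro h3
        exact h2 ⟨e1.1 h3.1, by by_contra h4; exact absurd (e2.2 (not_lt.1 h4)) (not_le.2 h3.2)⟩
    · simp only [if_neg h, ite_self]

theorem cut_Sv (v : Sg) (a b : ℕ) (x : V) : cut a b (Sv v x) = Sv v (cut (gv v a) (gv v b) x) := by
  funext n
  simp only [Sv_apply, cut_apply, GM.Sv_apply]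
  unfold gv
  by_cases ht : v.t = true
  · simp only [if_pos ht]
    by_cases h1 : n % 2 = 1
    · simp only [if_pos h1]
      by_cases h : n / 2 % 2 ^ v.v.k1 = v.v.r1
      · simp only [if_pos h]
        have hn : n / 2 = 2 ^ v.v.k1 * (n / 2 / 2 ^ v.v.k1) + v.v.r1 := by
          conv_lhs => rw [← Nat.div_add_mod (n / 2) (2 ^ v.v.k1), h]
        set m := n / 2 / 2 ^ v.v.k1 with hm
        have e1 := GM.fv_iff v.v.inv (a / 2) m
        have e2 := GM.fv_iff v.v.inv (b / 2) m
        simp only [GM.Sg.inv] at e1 e2 ⊢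
        rw [← hn] at e1 e2
        by_cases h2 : a ≤ n ∧ n < b
        · rw [if_pos h2, if_pos]
          omega
        · rw [if_neg h2, if_neg]
          omega
      · simp only [if_neg h, ite_self]
    · simp only [if_neg h1, ite_self]
  · simp only [if_neg ht]
    by_cases h : n / 2 % 2 ^ v.v.k1 = v.v.r1
    · simp only [if_pos h]
      have hn : n / 2 = 2 ^ v.v.k1 * (n / 2 / 2 ^ v.v.k1) + v.v.r1 := by
        conv_lhs => rw [← Nat.div_add_mod (n / 2) (2 ^ v.v.k1), h]
      set m := n / 2 / 2 ^ v.v.k1 with hm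
      have hn2 : 2 * (2 ^ v.v.k1 * m + v.v.r1) + n % 2 = n := by omega
      have e1 := fd_iff v.v.inv a m (n % 2) (Nat.mod_lt _ (by norm_num))
      have e2 := fd_iff v.v.inv b m (n % 2) (Nat.mod_lt _ (by norm_num))
      simp only [GM.Sg.inv] at e1 e2 ⊢
      rw [hn2] at e1 e2
      by_cases h2 : a ≤ n ∧ n < b
      · rw [if_pos h2, if_pos]
        exact ⟨e1.2 h2.1, by by_contra h3; exact absurd (e2.1 (not_lt.1 h3)) (not_le.2 h2.2)⟩
      · rw [if_neg h2, if_neg]
        intro h3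
        exact h2 ⟨e1.1 h3.1, by by_contra h4; exact absurd (e2.2 (not_lt.1 h4)) (not_le.2 h3.2)⟩
    · simp only [if_neg h, ite_self]

/-! ### trees -/

/-- trees: `base n` is a coordinate functional, `node j d c a b t` an average (weight `mm j`) of
functionals restricted to the intervals `[a i, b i)`, `tr v t` a translated functional, `cv` a
convex combination of restricted functionals -/
inductive Tr : Type
  | base : ℕ → Tr
  | node : (j d : ℕ) → (Fin d → ℚ × ℚ) → (Fin d → ℕ) → (Fin d → ℕ) → (Fin d → Tr) → Tr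
  | tr : Sg → Tr → Tr
  | cv : (d : ℕ) → (Fin d → ℚ × ℚ) → (Fin d → ℕ) → (Fin d → ℕ) → (Fin d → Tr) → Tr

/-- labels for the `W`-type -/
abbrev Lab : Type := ℕ ⊕ (Σ d : ℕ, ℕ × (Fin d → ℚ × ℚ) × (Fin d → ℕ) × (Fin d → ℕ)) ⊕ Sg ⊕
  (Σ d : ℕ, (Fin d → ℚ × ℚ) × (Fin d → ℕ) × (Fin d → ℕ))

/-- arities -/
def ar : Lab → ℕ
  | Sum.inl _ => 0
  | Sum.inr (Sum.inl x) => x.1
  | Sum.inr (Sum.inr (Sum.inl _)) => 1
  | Sum.inr (Sum.inr (Sum.inr x)) => x.1

/-- a tree as an element of a `W`-type -/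
def Tr.toW : Tr → WType (fun l : Lab => Fin (ar l))
  | .base n => WType.mk (Sum.inl n) (fun i => Fin.elim0 i)
  | .node j d c a b t => WType.mk (Sum.inr (Sum.inl ⟨d, j, c, a, b⟩)) (fun i => (t i).toW)
  | .tr v t => WType.mk (Sum.inr (Sum.inr (Sum.inl v))) (fun _ => t.toW)
  | .cv d c a b t => WType.mk (Sum.inr (Sum.inr (Sum.inr ⟨d, c, a, b⟩))) (fun i => (t i).toW)

theorem Tr.toW_injective : Function.Injective Tr.toW := by
  intro x
  induction x with
  | base k =>
    intro y h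
    cases y with
    | base k' =>
      simp only [Tr.toW, WType.mk.injEq, Sum.inl.injEq] at h
      obtain ⟨rfl, _⟩ := h
      rfl
    | node j d c a b t =>
      simp only [Tr.toW, WType.mk.injEq] at h
      exact absurd h.1 (by simp)
    | tr v t =>
      simp only [Tr.toW, WType.mk.injEq] at h
      exact absurd h.1 (by simp)
    | cv d c a b t =>
      simp only [Tr.toW, WType.mk.injEq] at h
      exact absurd h.1 (by simp)
  | node j d c a b t ih =>
    intro y h
    cases y with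
    | base k' =>
      simp only [Tr.toW, WType.mk.injEq] at h
      exact absurd h.1 (by simp)
    | node j' d' c' a' b' t' =>
      simp only [Tr.toW, WType.mk.injEq, Sum.inr.injEq, Sum.inl.injEq] at h
      obtain ⟨h1, h2⟩ := h
      obtain ⟨rfl, h3⟩ := Sigma.mk.inj_iff.1 h1
      simp only [heq_eq_eq, Prod.mk.injEq] at h3
      obtain ⟨rfl, rfl, rfl, rfl⟩ := h3
      congr 1
      funext i
      exact ih i (congrFun (eq_of_heq h2) i)
    | tr v t =>
      simp only [Tr.toW, WType.mk.injEq] at h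
      exact absurd h.1 (by simp)
    | cv d c a b t =>
      simp only [Tr.toW, WType.mk.injEq] at h
      exact absurd h.1 (by simp)
  | tr v t ih =>
    intro y h
    cases y with
    | base k' =>
      simp only [Tr.toW, WType.mk.injEq] at h
      exact absurd h.1 (by simp)
    | node j' d' c' a' b' t' =>
      simp only [Tr.toW, WType.mk.injEq] at h
      exact absurd h.1 (by simp)
    | tr v' t' =>
      simp only [Tr.toW, WType.mk.injEq, Sum.inr.injEq, Sum.inl.injEq] at h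
      obtain ⟨rfl, h2⟩ := h
      congr 1
      exact ih (congrFun (eq_of_heq h2) (⟨0, Nat.one_pos⟩ : Fin 1))
    | cv d c a b t =>
      simp only [Tr.toW, WType.mk.injEq] at h
      exact absurd h.1 (by simp)
  | cv d c a b t ih =>
    intro y h
    cases y with
    | base k' =>
      simp only [Tr.toW, WType.mk.injEq] at h
      exact absurd h.1 (by simp)
    | node j' d' c' a' b' t' =>
      simp only [Tr.toW, WType.mk.injEq] at h
      exact absurd h.1 (by simp)
    | tr v t =>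
      simp only [Tr.toW, WType.mk.injEq] at h
      exact absurd h.1 (by simp)
    | cv d' c' a' b' t' =>
      simp only [Tr.toW, WType.mk.injEq, Sum.inr.injEq] at h
      obtain ⟨h1, h2⟩ := h
      obtain ⟨rfl, h3⟩ := Sigma.mk.inj_iff.1 h1
      simp only [heq_eq_eq, Prod.mk.injEq] at h3
      obtain ⟨rfl, rfl, rfl⟩ := h3
      congr 1
      funext i
      exact ih i (congrFun (eq_of_heq h2) i)

instance : Countable Tr := Tr.toW_injective.countable

/-- a numbering of the finite sequences of restricted trees -/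
def code : List (Tr × ℕ × ℕ) → ℕ := (Countable.exists_injective_nat (List (Tr × ℕ × ℕ))).choose

theorem code_injective : Function.Injective code :=
  (Countable.exists_injective_nat (List (Tr × ℕ × ℕ))).choose_spec

/-- the weight index plus one (zero for coordinate functionals and convex combinations) -/
def Tr.wt : Tr → ℕ
  | .base _ => 0
  | .node j _ _ _ _ _ => j + 1
  | .tr _ t => t.wt
  | .cv _ _ _ _ _ => 0

/-- the sum of the weights of a list -/
def wsum (L : List (Tr × ℕ × ℕ)) : ℕ := (L.map fun s => s.1.wt).sum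

/-- the coding function -/
def sig (L : List (Tr × ℕ × ℕ)) : ℕ := 4 * (Nat.pair (code L) (wsum L) + 1)

theorem sig_injective : Function.Injective sig := by
  intro L L' h
  unfold sig at h
  have h1 : Nat.pair (code L) (wsum L) = Nat.pair (code L') (wsum L') := by omega
  exact code_injective (Nat.pair_eq_pair.1 h1).1

theorem wsum_lt_sig (L : List (Tr × ℕ × ℕ)) : wsum L < sig L := by
  unfold sig
  have := Nat.right_le_pair (code L) (wsum L)
  omega

theorem sig_mod (L : List (Tr × ℕ × ℕ)) : sig L % 4 = 0 := by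
  unfold sig; omega

/-- the first `s` restricted children -/
def hist {d : ℕ} (a b : Fin d → ℕ) (t : Fin d → Tr) (s : ℕ) : List (Tr × ℕ × ℕ) :=
  (List.ofFn fun i => (t i, a i, b i)).take s

/-- coefficients -/
def cc (c : ℚ × ℚ) : ℂ := (c.1 : ℂ) + (c.2 : ℂ) * Complex.I

/-- admissible trees -/
def Tr.Wf : Tr → Prop
  | .base _ => True
  | .node j d c a b t =>
      d ≤ nn j ∧ (∀ i, (t i).Wf) ∧ (∀ i, ‖cc (c i)‖ ≤ 1) ∧ (∀ i, a i ≤ b i) ∧
      (∀ i i', i < i' → b i ≤ a i') ∧
      (j % 2 = 1 → ∀ i : Fin d, if (i : ℕ) = 0 then ∃ q, q % 4 = 2 ∧ thr j ≤ q ∧ (t i).wt = q + 1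
          else (t i).wt = sig (hist a b t i) + 1)
  | .tr _ t => t.Wf
  | .cv _ c _ _ t => (∀ i, (t i).Wf) ∧ ∑ i, ‖cc (c i)‖ ≤ 1

/-- evaluation of a tree -/
def ev : Tr → V →ₗ[ℂ] ℂ
  | .base n => LinearMap.proj (R := ℂ) (φ := fun _ : ℕ => ℂ) n
  | .node j _ c a b t => ((mm j : ℂ))⁻¹ • ∑ i, cc (c i) • (ev (t i)).comp (cut (a i) (b i))
  | .tr v t => (ev t).comp (Sv v)
  | .cv _ c a b t => ∑ i, cc (c i) • (ev (t i)).comp (cut (a i) (b i))

theorem ev_base (n : ℕ) (x : V) : ev (.base n) x = x n := rfl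

theorem ev_node (j d : ℕ) (c : Fin d → ℚ × ℚ) (a b : Fin d → ℕ) (t : Fin d → Tr) (x : V) :
    ev (.node j d c a b t) x =
      (mm j : ℂ)⁻¹ * ∑ i : Fin d, cc (c i) * ev (t i) (cut (a i) (b i) x) := by
  rw [ev]
  simp only [LinearMap.smul_apply, LinearMap.sum_apply, LinearMap.comp_apply, smul_eq_mul]

theorem ev_tr (v : Sg) (t : Tr) (x : V) : ev (.tr v t) x = ev t (Sv v x) := rfl

theorem ev_cv (d : ℕ) (c : Fin d → ℚ × ℚ) (a b : Fin d → ℕ) (t : Fin d → Tr) (x : V) :
    ev (.cv d c a b t) x = ∑ i : Fin d, cc (c i) * ev (t i) (cut (a i) (b i) x) := by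
  rw [ev]
  simp only [LinearMap.smul_apply, LinearMap.sum_apply, LinearMap.comp_apply, smul_eq_mul]

/-- `x` is bounded by `C` with respect to all admissible functionals. -/
def Bd (C : ℝ) (x : V) : Prop := ∀ t : Tr, t.Wf → ∀ a b : ℕ, ‖ev t (cut a b x)‖ ≤ C

/-- `x` is supported by `[A, B)`. -/
def OnLv (A B : ℕ) (x : V) : Prop := ∀ n, (n < A ∨ B ≤ n) → x n = 0

theorem OnLv.cut_eq {A B : ℕ} {x : V} (h : OnLv A B x) {a b : ℕ} (ha : a ≤ A) (hb : B ≤ b) :
    cut a b x = x := by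
  funext n
  rw [cut_apply]
  split_ifs with h1
  · rfl
  · rw [h n]
    by_contra h2
    push Not at h2
    exact h1 ⟨ha.trans h2.1, h2.2.trans_le hb⟩

theorem OnLv.cut_zero {A B : ℕ} {x : V} (h : OnLv A B x) {a b : ℕ} (hab : b ≤ A ∨ B ≤ a) :
    cut a b x = 0 := by
  funext n
  rw [cut_apply]
  split_ifs with h1
  · exact h n (by omega)
  · rfl

theorem OnLv.cutR {A B : ℕ} {x : V} (h : OnLv A B x) (a b : ℕ) : OnLv A B (cut a b x) := by
  intro n hk
  rw [cut_apply, h n hk]
  simp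

theorem OnLv.mono {A B A' B' : ℕ} {x : V} (h : OnLv A B x) (ha : A' ≤ A) (hb : B ≤ B') :
    OnLv A' B' x := by
  intro n hk
  exact h n (by omega)

theorem OnLv_cut (a b : ℕ) (x : V) : OnLv a b (cut a b x) := by
  intro n hn
  rw [cut_apply, if_neg]
  omega

theorem OnLv.Sv {A B : ℕ} {x : V} (h : OnLv A B x) (v : Sg) :
    OnLv (fv v A) (fv v B) (Sv v x) := by
  have h1 : cut A B x = x := h.cut_eq le_rfl le_rfl
  rw [← h1, Sv_cut]
  exact OnLv_cut _ _ _

/-- the basis vectors -/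
def e (n : ℕ) : V := fun k => if k = n then 1 else 0

/-- successive supports -/
def Succ (x : ℕ → V) (A B : ℕ → ℕ) : Prop :=
  (∀ l, OnLv (A l) (B l) (x l)) ∧ (∀ l, A l ≤ B l) ∧ ∀ l l', l < l' → B l ≤ A l'

/-- rapidly increasing sequences -/
structure RIS (C : ℝ) (u : ℕ → V) (A B J : ℕ → ℕ) : Prop where
  hC : 1 ≤ C
  succ : Succ u A B
  tend : Tendsto A atTop atTop
  bd : ∀ l, Bd C (u l)
  mono : StrictMono J
  low : ∀ l (t : Tr), t.Wf → ∀ i, t.wt = i + 1 → i < J l → ∀ α β,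
    ‖ev t (cut α β (u l))‖ ≤ C / mm i
  high : ∀ l (t : Tr), t.Wf → ∀ i, t.wt = i + 1 → J (l + 1) ≤ i → ∀ α β,
    ‖ev t (cut α β (u l))‖ ≤ (1 / 2) ^ l

/-- the orbit of a sequence under the spreads -/
def Orb (x y : ℕ → V) : Prop := (∃ v : Sg, ∀ l, y l = Sv v (x l)) ∨ ∀ l, y l = 0

/-- the estimates for an average of length about `nn q` with weight `mm q` of a rapidly increasing
sequence with constant `C` -/
structure Av (C : ℝ) (q : ℕ) (y : V) : Prop where
  bd : Bd (4 * C) y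
  low : ∀ t : Tr, t.Wf → ∀ i, t.wt = i + 1 → i < q → ∀ α β, ‖ev t (cut α β y)‖ ≤ 3 * C / mm i
  high : ∀ t : Tr, t.Wf → ∀ i, t.wt = i + 1 → ∀ α β,
    ‖ev t (cut α β y)‖ ≤ 3 * C * ((mm q : ℝ) ^ 2 / nn q) + C * (mm q / mm i)

/-- a dependent sequence for the special weight `p` -/
structure Dep (C : ℝ) (p : ℕ) (X : ℕ → V) (q : ℕ → ℕ) (G : ℕ → Tr × ℕ × ℕ) : Prop where
  hC : 1 ≤ C
  hp : p % 2 = 1
  lev : ∀ k, OnLv (G k).2.1 (G k).2.2 (X k)
  le : ∀ k, (G k).2.1 ≤ (G k).2.2
  suc : ∀ k k', k < k' → (G k).2.2 ≤ (G k').2.1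
  wf : ∀ k, (G k).1.Wf
  wt : ∀ k, (G k).1.wt = q k + 1
  q0 : q 0 % 4 = 2
  q0' : thr p ≤ q 0
  qs : ∀ k, q (k + 1) = sig (List.ofFn fun i : Fin (k + 1) => G i)
  av : ∀ k, Av C (q k) (X k)
  diag : ∀ v : Sg, ∃ k0 : ℕ, ∀ k, k ≠ k0 →
    ‖ev (G k).1 (cut (G k).2.1 (G k).2.2 (Sv v (X k)))‖ ≤ 1 / nn p

end

end Pool.Agent.Q73.GP
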