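import Pool.Agent.Q73.GP.Stm2

set_option autoImplicit false

/-!
Project GP (port of project GM) (helper73), lemma ELL (proof of helper205): averages in block subspaces (James).
-/

namespace Pool.Agent.Q73.GP.ELL

open Finset Filter Topology

noncomputable section

theorem Rx_eq (a b : ℕ) (w : XX) {A B : ℕ} (h : OnLv A B (cx w)) (ha : a ≤ A) (hb : B ≤ b) :
    Rx a b w = w := cx_injective (by rw [cx_Rx]; exact h.cut_eq ha hb)

theorem Rx_zero (a b : ℕ) (w : XX) {A B : ℕ} (h : OnLv A B (cx w)) (hab : b ≤ A ∨ B ≤ a) :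
    Rx a b w = 0 := cx_injective (by rw [cx_Rx, map_zero]; exact h.cut_zero hab)

theorem Rx_real (a b : ℕ) (r : ℝ) (w : XX) : Rx a b (r • w) = r • Rx a b w := by
  rw [← Complex.coe_smul, ← Complex.coe_smul, map_smul]

/-- restriction of a sum of successive vectors to a window -/
theorem Rx_sum {x : ℕ → XX} {a : ℕ → ℕ} (ha : Monotone a)
    (hx : ∀ n, OnLv (a n) (a (n + 1)) (cx (x n))) (c : ℕ → ℝ) {p p1 q1 q : ℕ} (h1 : p ≤ p1)
    (h2 : q1 ≤ q) : Rx (a p1) (a q1) (∑ n ∈ Ico p q, c n • x n) =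
      ∑ n ∈ Ico p1 q1, c n • x n := by
  rw [map_sum]
  symm
  have h3 : ∑ n ∈ Ico p1 q1, c n • x n = ∑ n ∈ Ico p1 q1, Rx (a p1) (a q1) (c n • x n) := by
    refine Finset.sum_congr rfl fun n hn => ?_
    rw [Finset.mem_Ico] at hn
    rw [Rx_real, Rx_eq _ _ _ (hx n) (ha hn.1) (ha (Nat.succ_le_of_lt hn.2))]
  rw [h3]
  refine Finset.sum_subset (Finset.Ico_subset_Ico h1 h2) fun n hn hn' => ?_
  rw [Finset.mem_Ico] at hn hn'
  rw [Rx_real, Rx_zero _ _ _ (hx n), smul_zero]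
  by_cases h4 : p1 ≤ n
  · left
    exact ha (by omega)
  · right
    exact ha (by omega)

/-- one step of the argument of James -/
theorem step {x : ℕ → XX} {a : ℕ → ℕ} (ha : Monotone a)
    (hx : ∀ n, OnLv (a n) (a (n + 1)) (cx (x n))) {κ n0 : ℕ} (hκ : 1 ≤ κ)
    (hno : ∀ (N : ℕ → ℕ) (c : ℕ → ℝ), n0 ≤ N 0 → Monotone N →
      (∀ i < κ, ‖∑ n ∈ Ico (N i) (N (i + 1)), c n • x n‖ ≤ 2) →
      ‖∑ n ∈ Ico (N 0) (N κ), c n • x n‖ ≠ κ) (L : ℕ) (hL : 1 ≤ L) (c : ℕ → ℝ) (m : ℝ)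
    (hm : 0 ≤ m) (hc : ∀ n, n0 ≤ n → m ≤ c n)
    (hn : ∀ j, ‖∑ n ∈ Ico (n0 + j * L) (n0 + (j + 1) * L), c n • x n‖ = 1) :
    ∃ c' : ℕ → ℝ, (∀ n, n0 ≤ n → m * (2 / κ) ≤ c' n) ∧
      ∀ j, ‖∑ n ∈ Ico (n0 + j * (L * κ)) (n0 + (j + 1) * (L * κ)), c' n • x n‖ = 1 := by
  have hκ' : (0 : ℝ) < κ := by exact_mod_cast hκ
  set Y : ℕ → XX := fun j => ∑ n ∈ Ico (n0 + j * (L * κ)) (n0 + (j + 1) * (L * κ)), c n • x n
    with hY
  have hY1 : ∀ j, 1 ≤ ‖Y j‖ := by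
    intro j
    have h1 := Rx_sum ha hx c (p := n0 + j * (L * κ)) (p1 := n0 + (j * κ) * L)
      (q1 := n0 + (j * κ + 1) * L) (q := n0 + (j + 1) * (L * κ)) (by
        apply le_of_eq; ring) (by
        have h2 : (j * κ + 1) * L ≤ (j * κ + κ) * L := Nat.mul_le_mul_right _ (by omega)
        calc n0 + (j * κ + 1) * L ≤ n0 + (j * κ + κ) * L := by omega
          _ = n0 + (j + 1) * (L * κ) := by ring)
    have h2 := norm_Rx_le (a (n0 + (j * κ) * L)) (a (n0 + (j * κ + 1) * L)) (Y j)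
    rw [hY] at h2
    simp only at h2
    rw [h1, hn] at h2
    exact h2
  have hY2 : ∀ j, ‖Y j‖ < κ / 2 := by
    intro j
    by_contra hcon
    push Not at hcon
    have hpos : 0 < ‖Y j‖ := lt_of_lt_of_le one_pos (hY1 j)
    refine hno (fun i => n0 + (j * κ + i) * L) (fun n => (κ / ‖Y j‖) * c n) ?_ ?_ ?_ ?_
    · exact Nat.le_add_right _ _
    · intro i i' hi
      exact Nat.add_le_add_left (Nat.mul_le_mul_right _ (by omega)) _
    · intro i hi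
      have h1 : ∑ n ∈ Ico (n0 + (j * κ + i) * L) (n0 + (j * κ + (i + 1)) * L),
          (κ / ‖Y j‖ * c n) • x n =
          (κ / ‖Y j‖) • ∑ n ∈ Ico (n0 + (j * κ + i) * L) (n0 + (j * κ + (i + 1)) * L),
            c n • x n := by
        rw [Finset.smul_sum]
        exact Finset.sum_congr rfl fun n _ => mul_smul _ _ _
      show ‖∑ n ∈ Ico (n0 + (j * κ + i) * L) (n0 + (j * κ + (i + 1)) * L),
          (κ / ‖Y j‖ * c n) • x n‖ ≤ 2
      rw [h1, norm_smul, ← add_assoc, hn (j * κ + i), mul_one, Real.norm_eq_abs,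
        abs_of_nonneg (by positivity), div_le_iff₀ hpos]
      linarith
    · have h1 : ∑ n ∈ Ico (n0 + (j * κ + 0) * L) (n0 + (j * κ + κ) * L),
          (κ / ‖Y j‖ * c n) • x n = (κ / ‖Y j‖) • Y j := by
        rw [hY, Finset.smul_sum]
        have e1 : n0 + (j * κ + 0) * L = n0 + j * (L * κ) := by ring
        have e2 : n0 + (j * κ + κ) * L = n0 + (j + 1) * (L * κ) := by ring
        rw [e1, e2]
        exact Finset.sum_congr rfl fun n _ => mul_smul _ _ _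
      show ‖∑ n ∈ Ico (n0 + (j * κ + 0) * L) (n0 + (j * κ + κ) * L),
          (κ / ‖Y j‖ * c n) • x n‖ = κ
      rw [h1, norm_smul, Real.norm_eq_abs, abs_of_nonneg (by positivity)]
      field_simp
  have hLκ : 0 < L * κ := Nat.mul_pos hL hκ
  refine ⟨fun n => c n / ‖Y ((n - n0) / (L * κ))‖, ?_, ?_⟩
  · intro n hn'
    have hpos : 0 < ‖Y ((n - n0) / (L * κ))‖ := lt_of_lt_of_le one_pos (hY1 _)
    have h1 := hY2 ((n - n0) / (L * κ))
    show m * (2 / κ) ≤ c n / ‖Y ((n - n0) / (L * κ))‖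
    rw [le_div_iff₀ hpos]
    calc m * (2 / κ) * ‖Y ((n - n0) / (L * κ))‖ ≤ m * (2 / κ) * (κ / 2) := by gcongr
      _ = m := by field_simp
      _ ≤ c n := hc n hn'
  · intro j
    have hpos : 0 < ‖Y j‖ := lt_of_lt_of_le one_pos (hY1 _)
    have h1 : ∑ n ∈ Ico (n0 + j * (L * κ)) (n0 + (j + 1) * (L * κ)),
        (c n / ‖Y ((n - n0) / (L * κ))‖) • x n = (‖Y j‖⁻¹) • Y j := by
      conv_rhs => rw [hY]
      rw [Finset.smul_sum]
      refine Finset.sum_congr rfl fun n hn' => ?_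
      rw [Finset.mem_Ico] at hn'
      have h2 : (n - n0) / (L * κ) = j := by
        apply Nat.div_eq_of_lt_le
        · omega
        · omega
      rw [h2, smul_smul, div_eq_inv_mul]
    rw [h1, norm_smul, Real.norm_eq_abs, abs_of_nonneg (by positivity)]
    field_simp

theorem claim {x : ℕ → XX} {a : ℕ → ℕ} (hx1 : ∀ n, ‖x n‖ = 1) (ha : Monotone a)
    (hx : ∀ n, OnLv (a n) (a (n + 1)) (cx (x n))) {κ n0 : ℕ} (hκ : 1 ≤ κ)
    (hno : ∀ (N : ℕ → ℕ) (c : ℕ → ℝ), n0 ≤ N 0 → Monotone N →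
      (∀ i < κ, ‖∑ n ∈ Ico (N i) (N (i + 1)), c n • x n‖ ≤ 2) →
      ‖∑ n ∈ Ico (N 0) (N κ), c n • x n‖ ≠ κ) (r : ℕ) :
    ∃ c : ℕ → ℝ, (∀ n, n0 ≤ n → (2 / (κ : ℝ)) ^ r ≤ c n) ∧
      ∀ j, ‖∑ n ∈ Ico (n0 + j * κ ^ r) (n0 + (j + 1) * κ ^ r), c n • x n‖ = 1 := by
  induction r with
  | zero =>
    refine ⟨fun _ => 1, fun n _ => by simp, fun j => ?_⟩
    rw [pow_zero, mul_one, mul_one, ← add_assoc, Nat.Ico_succ_singleton, Finset.sum_singleton,
      one_smul]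
    exact hx1 _
  | succ r ih =>
    obtain ⟨c, h1, h2⟩ := ih
    obtain ⟨c', h3, h4⟩ := step ha hx hκ hno (κ ^ r) (Nat.one_le_pow _ _ hκ) c _
      (by positivity) h1 h2
    refine ⟨c', fun n hn => ?_, fun j => ?_⟩
    · rw [pow_succ]
      exact h3 n hn
    · rw [pow_succ]
      exact h4 j

end

end Pool.Agent.Q73.GP.ELL

namespace Pool.Agent.Q73.GP

open Finset Filter Topology

noncomputable section

theorem t_ELL (low : S_LOW) : S_ELL := by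
  intro x a hx1 ha hx κ n0 hκ
  by_contra hcon
  have hno : ∀ (N : ℕ → ℕ) (c : ℕ → ℝ), n0 ≤ N 0 → Monotone N →
      (∀ i < κ, ‖∑ n ∈ Ico (N i) (N (i + 1)), c n • x n‖ ≤ 2) →
      ‖∑ n ∈ Ico (N 0) (N κ), c n • x n‖ ≠ κ :=
    fun N c h1 h2 h3 h4 => hcon ⟨N, c, h1, h2, h3, h4⟩
  have hκ' : (0 : ℝ) < κ := by exact_mod_cast hκ
  -- the weight
  obtain ⟨q, hq0, hq2⟩ : ∃ q, q % 2 = 0 ∧ κ ≤ DD q := by
    refine ⟨2 * κ, by omega, ?_⟩
    unfold DD
    rw [if_neg (by omega)]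
    have := lt_nn (2 * κ - 1)
    omega
  have hlen : κ ^ rr q ≤ nn q := by
    have h1 : κ ^ rr q ≤ (2 * DD q + 2) ^ rr q := Nat.pow_le_pow_left (by omega) _
    have h2 := nn_ge_DD q
    have h3 : 1 ≤ mm q ^ 4 * (5 * DD q + 5) :=
      Nat.mul_pos (pow_pos (mm_pos q) 4) (by omega)
    calc κ ^ rr q ≤ 1 * (2 * DD q + 2) ^ rr q := by rw [one_mul]; exact h1
      _ ≤ mm q ^ 4 * (5 * DD q + 5) * (2 * DD q + 2) ^ rr q := Nat.mul_le_mul_right _ h3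
      _ ≤ nn q := h2
  obtain ⟨c, hc, hn⟩ := ELL.claim hx1 ha hx hκ hno (rr q)
  have hz := hn 0
  rw [Nat.zero_mul, Nat.zero_add, Nat.one_mul, Nat.add_zero] at hz
  have h1 := low q hq0 (fun l => a (n0 + l)) (fun l => a (n0 + l + 1))
    (fun l => ha (Nat.le_succ _)) (fun l l' hl => ha (by omega)) (range (κ ^ rr q))
    (by rw [card_range]; exact hlen) (∑ n ∈ Ico n0 (n0 + κ ^ rr q), c n • x n)
  rw [hz, mul_one] at h1
  have h2 : ∀ l ∈ range (κ ^ rr q), (2 / (κ : ℝ)) ^ rr q ≤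
      ‖Rx (a (n0 + l)) (a (n0 + l + 1)) (∑ n ∈ Ico n0 (n0 + κ ^ rr q), c n • x n)‖ := by
    intro l hl
    rw [Finset.mem_range] at hl
    rw [ELL.Rx_sum ha hx c (Nat.le_add_right _ _) (by omega), Nat.Ico_succ_singleton,
      Finset.sum_singleton, norm_smul, hx1, mul_one]
    exact (hc _ (Nat.le_add_right _ _)).trans (le_abs_self _)
  have h3 := (Finset.sum_le_sum h2).trans h1
  rw [Finset.sum_const, card_range, nsmul_eq_mul, Nat.cast_pow, ← mul_pow,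
    mul_div_cancel₀ _ hκ'.ne', two_pow_rr'] at h3
  have h4 := one_le_mm q
  nlinarith

end

end Pool.Agent.Q73.GP
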