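import Pool.Agent.Q73.GP.Stm3

set_option autoImplicit false

/-!
Project GP (helper73), lemma FAC (helper123): an operator which is near to the identity on rapidly
increasing sequences has a left inverse on a tail.
-/

namespace Pool.Agent.Q73.GP

open Finset Filter Topology
open scoped BoundedContinuousFunction

noncomputable section

namespace FAC

/-- functions in `XX` which vanish below `N` -/
def EN (N : ℕ) : Submodule ℝ XX where
  carrier := {w | Rx 0 N w = 0}
  zero_mem' := map_zero _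
  add_mem' := by
    intro w w' h h'
    show Rx 0 N (w + w') = 0
    rw [map_add, (h : Rx 0 N w = 0), (h' : Rx 0 N w' = 0), add_zero]
  smul_mem' := by
    intro c w h
    show Rx 0 N (c • w) = 0
    rw [← Complex.coe_smul, map_smul, (h : Rx 0 N w = 0), smul_zero]

theorem mem_EN {N : ℕ} {w : XX} : w ∈ EN N ↔ Rx 0 N w = 0 := Iff.rfl

theorem isClosed_EN (N : ℕ) : IsClosed (EN N : Set XX) := by
  have : (EN N : Set XX) = (Rx 0 N) ⁻¹' {0} := rfl
  rw [this]
  exact isClosed_singleton.preimage (Rx 0 N).continuous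

instance (N : ℕ) : CompleteSpace (EN N) := (isClosed_EN N).completeSpace_coe

/-- the segment of operators on `EN N` -/
def Fr (N : ℕ) (J S : XX →L[ℝ] XX) (r : ℝ) : EN N →L[ℝ] XX := (J + r • (S - J)).comp (EN N).subtypeL

theorem Fr_apply (N : ℕ) (J S : XX →L[ℝ] XX) (r : ℝ) (y : EN N) :
    Fr N J S r y = J y + r • (S y - J y) := rfl

theorem chain (fred : S_FRED) {N M : ℕ} {J S : XX →L[ℝ] XX} {c : ℝ} (hc : 0 < c)
    (hb : ∀ r : ℝ, 0 ≤ r → r ≤ 1 → ∀ y : EN N, c * ‖y‖ ≤ ‖Fr N J S r y‖)
    (h0 : Ind M (Fr N J S 0)) : Ind M (Fr N J S 1) := by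
  obtain ⟨κ, hκ, hf⟩ := fred M c hc
  obtain ⟨m, hm⟩ := exists_nat_gt (‖S - J‖ / κ)
  have hm0 : (0 : ℝ) < m := lt_of_le_of_lt (by positivity) hm
  have hm1 : ‖S - J‖ / m ≤ κ := by
    rw [div_le_iff₀ hm0]
    rw [div_lt_iff₀ hκ] at hm
    linarith [mul_comm κ (m : ℝ)]
  have key : ∀ k : ℕ, k ≤ m → Ind M (Fr N J S (k / m)) := by
    intro k
    induction k with
    | zero =>
      intro _
      rw [Nat.cast_zero, zero_div]
      exact h0
    | succ k ih =>
      intro hk
      refine hf (EN N) XX (Fr N J S (k / m)) _ (hb _ (by positivity) ?_) ?_ (ih (by omega))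
      · rw [div_le_one hm0]
        exact_mod_cast (by omega : k ≤ m)
      · intro y
        rw [Fr_apply, Fr_apply]
        have e1 : J (y : XX) + ((k : ℝ) / m) • (S y - J y) -
            (J y + (((k + 1 : ℕ) : ℝ) / m) • (S y - J y)) = (-(1 / (m : ℝ))) • ((S - J) (y : XX)) := by
          rw [_root_.sub_apply]
          have : ((k + 1 : ℕ) : ℝ) / m = (k : ℝ) / m + 1 / m := by
            push_cast
            ring
          rw [this]
          module
        rw [e1, norm_smul, norm_neg, norm_div, norm_one, Real.norm_of_nonneg hm0.le]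
        calc 1 / (m : ℝ) * ‖(S - J) (y : XX)‖ ≤ 1 / (m : ℝ) * (‖S - J‖ * ‖(y : XX)‖) := by
              refine mul_le_mul_of_nonneg_left ((S - J).le_opNorm _) (by positivity)
          _ = (‖S - J‖ / m) * ‖y‖ := by
              rw [Submodule.coe_norm]
              ring
          _ ≤ κ * ‖y‖ := mul_le_mul_of_nonneg_right hm1 (norm_nonneg _)
  have := key m le_rfl
  rwa [div_self hm0.ne'] at this

/-- the codimension of `EN N` is at most `2 N` -/
theorem not_ind (N M : ℕ) (hM : 2 * N < M) (I : EN N →L[ℝ] XX) (hI : ∀ y, I y = y) :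
    ¬ Ind M I := by
  rintro ⟨x, hx⟩
  let Φ : (Fin M → ℝ) →ₗ[ℝ] (Fin N → ℂ) :=
    { toFun := fun α k => cx (∑ i, α i • x i) k
      map_add' := fun α β => by
        funext k
        simp only [Pi.add_apply, add_smul, Finset.sum_add_distrib, map_add]
      map_smul' := fun c α => by
        funext k
        have h1 : ∑ i, (c • α) i • x i = (c : ℂ) • ∑ i, α i • x i := by
          rw [Complex.coe_smul, Finset.smul_sum]
          refine Finset.sum_congr rfl fun i _ => ?_
          rw [Pi.smul_apply, smul_eq_mul, mul_smul]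
        rw [h1, map_smul]
        simp }
  have hfin : Module.finrank ℝ (Fin N → ℂ) < Module.finrank ℝ (Fin M → ℝ) := by
    rw [Module.finrank_fin_fun, Module.finrank_pi_fintype]
    simp only [Complex.finrank_real_complex, Finset.sum_const, Finset.card_univ, Fintype.card_fin,
      smul_eq_mul]
    omega
  have hker := LinearMap.ker_ne_bot_of_finrank_lt (f := Φ) hfin
  obtain ⟨α, hα, hα0⟩ := Submodule.exists_mem_ne_zero_of_ne_bot hker
  have h2 : ∑ i, α i • x i ∈ EN N := by
    rw [mem_EN]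
    apply cx_injective
    rw [cx_Rx, map_zero]
    funext n
    rw [cut_apply]
    split_ifs with h
    · have h3 := congrFun (LinearMap.mem_ker.1 hα) ⟨n, h.2⟩
      exact h3
    · rfl
  exact hα0 (hx α ⟨_, h2⟩ (hI _))

end FAC

open FAC

theorem t_FAC (bb : S_BB) (fred : S_FRED) : S_FAC := by
  classical
  intro W hW
  obtain ⟨N, c, hc, hseg⟩ := bb (ContinuousLinearMap.id ℝ XX) W 1 one_pos
    (fun w => by rw [one_mul]; exact le_rfl) hW
  refine ⟨N, ?_⟩
  set M := 2 * N + 1 with hM
  have hb : ∀ r : ℝ, 0 ≤ r → r ≤ 1 → ∀ y : EN N,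
      c * ‖y‖ ≤ ‖Fr N W (ContinuousLinearMap.id ℝ XX) r y‖ := by
    intro r h0 h1 y
    have h2 := hseg (1 - r) (by linarith) (by linarith) y y.2
    have e1 : Fr N W (ContinuousLinearMap.id ℝ XX) r y =
        ContinuousLinearMap.id ℝ XX y + (1 - r) • (W y - ContinuousLinearMap.id ℝ XX y) := by
      rw [Fr_apply]
      module
    rw [e1]
    exact h2
  have hnot : ¬ Ind M (Fr N W (ContinuousLinearMap.id ℝ XX) 0) := by
    intro h
    refine not_ind N M (by omega) _ (fun y => ?_) (chain fred hc hb h)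
    rw [Fr_apply, one_smul]
    simp
  set F : EN N →L[ℝ] XX := Fr N W (ContinuousLinearMap.id ℝ XX) 0 with hF
  have hFW : ∀ y : EN N, F y = W y := by
    intro y
    rw [hF, Fr_apply, zero_smul, add_zero]
  have hbF : ∀ y : EN N, c * ‖y‖ ≤ ‖F y‖ := hb 0 le_rfl zero_le_one
  have h1 : AntilipschitzWith (Real.toNNReal c⁻¹) F := by
    refine ContinuousLinearMap.antilipschitz_of_bound F fun y => ?_
    rw [Real.coe_toNNReal _ (inv_nonneg.2 hc.le), inv_mul_eq_div, le_div_iff₀ hc, mul_comm]
    exact hbF y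
  have hcl : IsClosed (Set.range F) := h1.isClosed_range F.uniformContinuous
  have hinj : Function.Injective F := h1.injective
  have hclR : IsClosed ((F : EN N →ₗ[ℝ] XX).range : Set XX) := by
    have : ((F : EN N →ₗ[ℝ] XX).range : Set XX) = Set.range F := by
      ext u
      simp
    rw [this]
    exact hcl
  have hfd : FiniteDimensional ℝ (XX ⧸ (F : EN N →ₗ[ℝ] XX).range) := by
    by_contra hinf
    have h2 : Cardinal.aleph0 ≤ Module.rank ℝ (XX ⧸ (F : EN N →ₗ[ℝ] XX).range) := by
      by_contra h3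
      exact hinf (Module.rank_lt_aleph0_iff.1 (not_le.1 h3))
    have h3 : (M : Cardinal) ≤ Module.rank ℝ (XX ⧸ (F : EN N →ₗ[ℝ] XX).range) :=
      (Cardinal.natCast_lt_aleph0).le.trans h2
    obtain ⟨s, hs, hli⟩ := le_rank_iff_exists_linearIndependent_finset.1 h3
    let eqv : Fin M ≃ s := (Fintype.equivFinOfCardEq (by simp [hs])).symm
    have hli2 := hli.comp eqv eqv.injective
    choose x hx using fun i : Fin M =>
      Submodule.mkQ_surjective (F : EN N →ₗ[ℝ] XX).range ((eqv i : s) : XX ⧸ _)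
    refine hnot ⟨x, fun α y hy => ?_⟩
    rw [Fintype.linearIndependent_iff] at hli2
    funext i
    refine hli2 α ?_ i
    have h4 : ((F : EN N →ₗ[ℝ] XX).range).mkQ (∑ i, α i • x i) = 0 := by
      rw [← hy]
      exact (Submodule.Quotient.mk_eq_zero _).2 ⟨y, rfl⟩
    rw [map_sum] at h4
    rw [← h4]
    refine Finset.sum_congr rfl fun i _ => ?_
    rw [map_smul, hx i]
    rfl
  have hcc := Submodule.ClosedComplemented.of_finiteDimensional_quotient hclR
  obtain ⟨P, hP⟩ := hcc
  let E := F.equivRange hinj hcl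
  refine ⟨(EN N).subtypeL.comp ((E.symm : _ →L[ℝ] EN N).comp P), fun w hw => ?_⟩
  have h5 : W w = F ⟨w, hw⟩ := (hFW ⟨w, hw⟩).symm
  rw [h5]
  have h6 : P (F ⟨w, hw⟩) = E ⟨w, hw⟩ := hP (E ⟨w, hw⟩)
  show ((E.symm (P (F ⟨w, hw⟩)) : EN N) : XX) = w
  rw [h6, ContinuousLinearEquiv.symm_apply_apply]

end

end Pool.Agent.Q73.GP
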