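import Pool.Agent.Q73.GP.Stm2
import Pool.Agent.Q73.GM.FIN

set_option autoImplicit false

namespace Pool.Agent.Q73.GP

theorem t_FIN : S_FIN := by
  intro m
  have h1 := (GM.t_FIN m).prod (Set.toFinite (Set.univ : Set Bool))
  have h2 := h1.preimage (Sg.toProd_injective.injOn)
  refine h2.subset fun v hv => ?_
  exact ⟨⟨hv.1.le, hv.2.le⟩, Set.mem_univ _⟩

end Pool.Agent.Q73.GP
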