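import Pool.Agent.Q73.GP.Stm2

set_option autoImplicit false

/-!
Project GP (port of project GM) (helper73), lemma job FRED (helper22): stability of the codimension of the range of an
operator which is bounded below.
-/

namespace Pool.Agent.Q73.GP

open Finset Filter Topology

namespace FRED

/-- a point outside of a closed subspace can be moved along the subspace such that it is almost
orthogonal to it -/
theorem exists_near {X : Type} [NormedAddCommGroup X] [NormedSpace ℝ X] (F : Submodule ℝ X)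
    (hF : IsClosed (F : Set X)) (x : X) (hx : x ∉ F) :
    ∃ y ∈ F, ∀ z ∈ F, ‖x - y‖ ≤ 2 * ‖z + (x - y)‖ := by
  have hne : (F : Set X).Nonempty := ⟨_, F.zero_mem⟩
  have hdp : 0 < Metric.infDist x F :=
    lt_of_le_of_ne Metric.infDist_nonneg fun heq =>
      hx ((hF.mem_iff_infDist_zero hne).2 heq.symm)
  obtain ⟨y, hy, hxy⟩ : ∃ y ∈ (F : Set X), dist x y < 2 * Metric.infDist x F :=
    (Metric.infDist_lt_iff hne).mp (by linarith)
  refine ⟨y, hy, fun z hz => ?_⟩
  have h1 : y - z ∈ F := F.sub_mem hy hz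
  have h2 : Metric.infDist x F ≤ dist x (y - z) := Metric.infDist_le_dist_of_mem h1
  have h3 : dist x (y - z) = ‖z + (x - y)‖ := by
    rw [dist_eq_norm]
    congr 1
    abel
  rw [dist_eq_norm] at hxy
  linarith

theorem main {X : Type} [NormedAddCommGroup X] [NormedSpace ℝ X] :
    ∀ (M : ℕ) (E : Submodule ℝ X), IsClosed (E : Set X) → ∀ x : Fin M → X,
      (∀ (α : Fin M → ℝ), ∀ e ∈ E, e = ∑ i, α i • x i → α = 0) →
      ∃ x' : Fin M → X, ∀ e ∈ E, ∀ α : Fin M → ℝ, ‖e‖ ≤ 3 ^ M * ‖e + ∑ i, α i • x' i‖ ∧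
        (e + ∑ i, α i • x' i = 0 → α = 0) := by
  intro M
  induction M with
  | zero =>
    intro E _ x _
    refine ⟨x, fun e _ α => ⟨?_, fun _ => Subsingleton.elim _ _⟩⟩
    rw [Finset.univ_eq_empty, Finset.sum_empty, add_zero, pow_zero, one_mul]
  | succ M ih =>
    intro E hE x hx
    have hx0 : x 0 ∉ E := by
      intro h0
      have h1 := hx (Fin.cons 1 0) (x 0) h0 (by
        rw [Fin.sum_univ_succ]
        simp only [Fin.cons_zero, Fin.cons_succ, one_smul, Pi.zero_apply, zero_smul,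
          Finset.sum_const_zero, add_zero])
      have h2 := congrFun h1 0
      rw [Fin.cons_zero] at h2
      exact one_ne_zero h2
    obtain ⟨y, hy, hyz⟩ := exists_near E hE (x 0) hx0
    have hxy : x 0 - y ∉ E := fun h => hx0 (by
      have := E.add_mem h hy
      rwa [sub_add_cancel] at this)
    have hn0 : 0 < ‖x 0 - y‖ := by
      rw [norm_pos_iff]
      intro h
      exact hxy (h ▸ E.zero_mem)
    obtain ⟨x', hx'⟩ := ih (E ⊔ Submodule.span ℝ {x 0})
      (Submodule.isClosed_sup_finiteDimensional E (Submodule.span ℝ {x 0}) hE)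
      (fun i => x i.succ) (by
        intro α e he hee
        obtain ⟨e1, he1, e2, he2, rfl⟩ := Submodule.mem_sup.1 he
        obtain ⟨β, rfl⟩ := Submodule.mem_span_singleton.1 he2
        have h1 := hx (Fin.cons (-β) α) e1 he1 (by
          rw [Fin.sum_univ_succ]
          simp only [Fin.cons_zero, Fin.cons_succ]
          rw [← hee, neg_smul]
          abel)
        funext i
        have h2 := congrFun h1 i.succ
        rwa [Fin.cons_succ] at h2)
    have hmem : ∀ (e : X), e ∈ E → ∀ β : ℝ, e + β • (x 0 - y) ∈ E ⊔ Submodule.span ℝ {x 0} := by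
      intro e he β
      have h1 : e + β • (x 0 - y) = (e - β • y) + β • x 0 := by
        rw [smul_sub]
        abel
      rw [h1]
      exact Submodule.add_mem_sup (E.sub_mem he (E.smul_mem _ hy))
        (Submodule.smul_mem _ _ (Submodule.mem_span_singleton_self _))
    have hsum : ∀ (e : X) (α : Fin (M + 1) → ℝ),
        e + ∑ i, α i • (Fin.cons (x 0 - y) x' : Fin (M + 1) → X) i =
          (e + α 0 • (x 0 - y)) + ∑ i, (fun i : Fin M => α i.succ) i • x' i := by
      intro e α
      rw [Fin.sum_univ_succ]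
      simp only [Fin.cons_zero, Fin.cons_succ]
      rw [add_assoc]
    have hone : ∀ e ∈ E, ∀ β : ℝ, |β| * ‖x 0 - y‖ ≤ 2 * ‖e + β • (x 0 - y)‖ := by
      intro e he β
      by_cases hβ : β = 0
      · rw [hβ, abs_zero, zero_mul]
        positivity
      · have h1 := hyz (β⁻¹ • e) (E.smul_mem _ he)
        have h2 : e + β • (x 0 - y) = β • (β⁻¹ • e + (x 0 - y)) := by
          rw [smul_add β, smul_smul, mul_inv_cancel₀ hβ, one_smul]
        rw [h2, norm_smul, Real.norm_eq_abs]
        have h3 : 0 < |β| := abs_pos.2 hβ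
        nlinarith
    refine ⟨Fin.cons (x 0 - y) x', fun e he α => ?_⟩
    rw [hsum]
    obtain ⟨h1, h2⟩ := hx' (e + α 0 • (x 0 - y)) (hmem e he _) (fun i => α i.succ)
    refine ⟨?_, fun h0 => ?_⟩
    · have h3 := hone e he (α 0)
      have h4 : ‖e‖ ≤ ‖e + α 0 • (x 0 - y)‖ + |α 0| * ‖x 0 - y‖ := by
        have h5 : e = (e + α 0 • (x 0 - y)) - α 0 • (x 0 - y) := by abel
        calc ‖e‖ = ‖(e + α 0 • (x 0 - y)) - α 0 • (x 0 - y)‖ := by rw [← h5]
          _ ≤ ‖e + α 0 • (x 0 - y)‖ + ‖α 0 • (x 0 - y)‖ := norm_sub_le _ _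
          _ = _ := by rw [norm_smul, Real.norm_eq_abs]
      rw [pow_succ]
      nlinarith
    · have h5 := h2 h0
      have h6 : e + α 0 • (x 0 - y) = 0 := by
        rw [h5] at h0
        simpa only [Pi.zero_apply, zero_smul, Finset.sum_const_zero, add_zero] using h0
      have h7 := hone e he (α 0)
      rw [h6, norm_zero, mul_zero] at h7
      have h8 : α 0 = 0 := by
        by_contra h
        have := mul_pos (abs_pos.2 h) hn0
        linarith
      funext i
      refine Fin.cases h8 (fun j => ?_) i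
      exact congrFun h5 j

end FRED

theorem t_FRED : S_FRED := by
  intro M c hc
  refine ⟨c / (2 * 3 ^ M), by positivity, ?_⟩
  intro Y X _ _ _ _ _ _ S S' hS hSS' hI
  obtain ⟨x, hx⟩ := hI
  have hcl : IsClosed ((S : Y →ₗ[ℝ] X).range : Set X) := by
    obtain ⟨K, h1⟩ : ∃ K, AntilipschitzWith K S :=
      antilipschitzWith_iff_exists_mul_le_norm.2 ⟨c, hc, hS⟩
    have h2 : ((S : Y →ₗ[ℝ] X).range : Set X) = Set.range S := rfl
    rw [h2]
    exact h1.isClosed_range S.uniformContinuous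
  obtain ⟨x', hx'⟩ := FRED.main M (S : Y →ₗ[ℝ] X).range hcl x (by
    rintro α e ⟨y, rfl⟩ h
    exact hx α y h)
  refine ⟨x', fun α y h => ?_⟩
  obtain ⟨h1, h2⟩ := hx' (S y) ⟨y, rfl⟩ (-α)
  have h3 : S y + ∑ i, (-α) i • x' i = S y - S' y := by
    rw [h]
    simp only [Pi.neg_apply, neg_smul, Finset.sum_neg_distrib]
    rw [sub_eq_add_neg]
  rw [h3] at h1 h2
  have h4 := hSS' y
  have h5 := hS y
  have h6 : (3 : ℝ) ^ M * ‖S y - S' y‖ ≤ ‖S y‖ / 2 := by
    have h7 : (3 : ℝ) ^ M * ‖S y - S' y‖ ≤ 3 ^ M * (c / (2 * 3 ^ M) * ‖y‖) := by gcongr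
    have h8 : (3 : ℝ) ^ M * (c / (2 * 3 ^ M) * ‖y‖) = c * ‖y‖ / 2 := by
      field_simp
    linarith
  have h9 : ‖S y‖ ≤ 0 := by linarith
  have h10 : ‖S y - S' y‖ = 0 := by
    have h11 : (0 : ℝ) < 3 ^ M := by positivity
    have h12 := norm_nonneg (S y - S' y)
    have h13 := norm_nonneg (S y)
    nlinarith
  have h14 := h2 (norm_eq_zero.1 h10)
  rwa [neg_eq_zero] at h14

end Pool.Agent.Q73.GP
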