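import Pool.Agent.Q73.GP.Stm2

set_option autoImplicit false

/-!
Project GP (port of project GM) (helper73): the lemma FUN (a functional which is large at `x0` and small at the translates
of `x`), from the bipolar lemma ABS.
-/

namespace Pool.Agent.Q73.GP

open Finset Filter Topology

noncomputable section

namespace FUN

/-- the linear combination with coefficients `c` -/
def lc {n : ℕ} (vs : Fin n ↪ Sg) (c : Fin n → ℂ) : LS :=
  Finsupp.embDomain vs (Finsupp.equivFunOnFinite.symm c)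

theorem op_lc {n : ℕ} (vs : Fin n ↪ Sg) (c : Fin n → ℂ) (w : XX) :
    op (lc vs c) w = ∑ i, c i • Sx (vs i) w := by
  unfold op lc
  rw [Finsupp.sum_embDomain, Finsupp.sum_fintype _ _ (fun i => zero_smul ℂ (Sx (vs i)))]
  rw [_root_.sum_apply]
  rfl

theorem nrm_lc {n : ℕ} (vs : Fin n ↪ Sg) (c : Fin n → ℂ) : nrm (lc vs c) = ∑ i, ‖c i‖ := by
  unfold nrm lc
  rw [Finsupp.sum_embDomain, Finsupp.sum_fintype _ _ (fun i => norm_zero)]
  rfl

theorem mem_lc {n : ℕ} (vs : Fin n ↪ Sg) (c : Fin n → ℂ) {v : Sg} (h : v ∈ (lc vs c).support) :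
    ∃ i, vs i = v := by
  unfold lc at h
  rw [Finsupp.support_embDomain, Finset.mem_map] at h
  obtain ⟨i, _, hi⟩ := h
  exact ⟨i, hi⟩

/-- the phase -/
theorem exists_phase (r : ℝ) (hr : 0 ≤ r) (z : ℂ) : ∃ d : ℂ, ‖d‖ ≤ r ∧ z * d = ((-(r * ‖z‖) : ℝ) : ℂ) := by
  by_cases hz : z = 0
  · refine ⟨0, by simpa using hr, ?_⟩
    rw [hz]
    simp
  · have hz' : (‖z‖ : ℂ) ≠ 0 := by
      exact_mod_cast norm_ne_zero_iff.2 hz
    refine ⟨-((r : ℂ) * ((starRingEnd ℂ) z / ‖z‖)), ?_, ?_⟩
    · rw [norm_neg, norm_mul, norm_div, RCLike.norm_conj, Complex.norm_real, Complex.norm_real,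
        Real.norm_of_nonneg hr, norm_norm, div_self (norm_ne_zero_iff.2 hz), mul_one]
    · have h1 : z * (starRingEnd ℂ) z = ((‖z‖ ^ 2 : ℝ) : ℂ) := by
        rw [Complex.mul_conj, Complex.normSq_eq_norm_sq]
      have h2 : z * -((r : ℂ) * ((starRingEnd ℂ) z / ‖z‖)) = -((r : ℂ) * (z * (starRingEnd ℂ) z / ‖z‖)) := by
        ring
      rw [h2, h1]
      push_cast
      field_simp

end FUN

theorem t_FUN (ab : S_ABS) (fi : S_FIN) : S_FUN := by
  classical
  intro m ε x0 x hm hε hfar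
  have hm0 : (0 : ℝ) < m := by exact_mod_cast hm
  have hm1 : (1 : ℝ) ≤ m := by exact_mod_cast hm
  set F : Finset Sg := (fi m).toFinset with hF
  set n := F.card with hn
  let vs : Fin n ↪ Sg := F.equivFin.symm.toEmbedding.trans (Function.Embedding.subtype _)
  have hvs : ∀ i, (vs i).In m := by
    intro i
    have h1 : vs i ∈ F := (F.equivFin.symm i).2
    rw [hF, Set.Finite.mem_toFinset] at h1
    exact h1
  have hvs2 : ∀ v : Sg, v.In m → ∃ i, vs i = v := by
    intro v hv
    have h1 : v ∈ F := by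
      rw [hF, Set.Finite.mem_toFinset]
      exact hv
    refine ⟨F.equivFin ⟨v, h1⟩, ?_⟩
    show ((F.equivFin.symm (F.equivFin ⟨v, h1⟩) : F) : Sg) = v
    rw [Equiv.symm_apply_apply]
  set xs : Fin (n + 1) → XX := Fin.cons x0 (fun i => Sx (vs i) x) with hxs
  set S : Fin (n + 1) → Set ℂ := Fin.cons {(ε : ℂ)} (fun _ => Metric.closedBall 0 (ε / m)) with hS
  have hcomp : IsCompact (Set.univ.pi S) := by
    refine isCompact_univ_pi fun i => ?_
    refine Fin.cases ?_ (fun i => ?_) i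
    · rw [hS, Fin.cons_zero]
      exact isCompact_singleton
    · rw [hS, Fin.cons_succ]
      exact isCompact_closedBall _ _
  have hconv : Convex ℝ (Set.univ.pi S) := by
    refine convex_pi fun i _ => ?_
    refine Fin.cases ?_ (fun i => ?_) i
    · rw [hS, Fin.cons_zero]
      exact convex_singleton _
    · rw [hS, Fin.cons_succ]
      exact convex_closedBall _ _
  have hmem : ∀ d : Fin (n + 1) → ℂ, d ∈ Set.univ.pi S ↔ d 0 = ε ∧ ∀ i : Fin n, ‖d i.succ‖ ≤ ε / m := by
    intro d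
    rw [Set.mem_univ_pi]
    constructor
    · intro h
      refine ⟨?_, fun i => ?_⟩
      · have := h 0
        rw [hS, Fin.cons_zero] at this
        exact this
      · have := h i.succ
        rw [hS, Fin.cons_succ, mem_closedBall_zero_iff] at this
        exact this
    · rintro ⟨h1, h2⟩ i
      refine Fin.cases ?_ (fun i => ?_) i
      · rw [hS, Fin.cons_zero]
        exact h1
      · rw [hS, Fin.cons_succ, mem_closedBall_zero_iff]
        exact h2 i
  have hhyp : ∀ β : Fin (n + 1) → ℂ, ∃ d ∈ Set.univ.pi S, (∑ i, β i * d i).re ≤ ‖∑ i, β i • xs i‖ := by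
    intro β
    choose g hg1 hg2 using fun i : Fin n => FUN.exists_phase (ε / m) (by positivity) (β i.succ)
    refine ⟨Fin.cons (ε : ℂ) g, (hmem _).2 ⟨Fin.cons_zero _ _, fun i => by rw [Fin.cons_succ]; exact hg1 i⟩, ?_⟩
    rw [Fin.sum_univ_succ, Fin.sum_univ_succ]
    simp only [Fin.cons_zero, Fin.cons_succ, hg2, hxs]
    rw [← Complex.ofReal_sum, Complex.add_re, Complex.ofReal_re, Complex.re_mul_ofReal]
    by_contra hlt
    push Not at hlt
    have h0 := norm_nonneg (β 0 • x0 + ∑ i : Fin n, β i.succ • Sx (vs i) x)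
    have hsum : ∑ i : Fin n, -(ε / m * ‖β i.succ‖) = -(ε / m * ∑ i : Fin n, ‖β i.succ‖) := by
      rw [Finset.sum_neg_distrib, Finset.mul_sum]
    rw [hsum] at hlt
    set T : ℝ := ∑ i : Fin n, ‖β i.succ‖ with hT
    have hT0 : 0 ≤ T := Finset.sum_nonneg fun i _ => norm_nonneg _
    have hTe : 0 ≤ ε / m * T := by positivity
    have hre : 0 < (β 0).re := by
      by_contra h
      push Not at h
      nlinarith
    have hb0 : β 0 ≠ 0 := by
      intro h
      rw [h] at hre
      simp at hre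
    have hnb : 0 < ‖β 0‖ := norm_pos_iff.2 hb0
    have hren : (β 0).re ≤ ‖β 0‖ := Complex.re_le_norm _
    set b : LS := FUN.lc vs (fun i => -(β i.succ / β 0)) with hb
    have hnrm : nrm b = T / ‖β 0‖ := by
      rw [hb, FUN.nrm_lc, hT, Finset.sum_div]
      refine Finset.sum_congr rfl fun i _ => ?_
      rw [norm_neg, norm_div]
    have hop : β 0 • (x0 - op b x) = β 0 • x0 + ∑ i : Fin n, β i.succ • Sx (vs i) x := by
      rw [hb, FUN.op_lc, smul_sub, Finset.smul_sum, sub_eq_add_neg, ← Finset.sum_neg_distrib]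
      congr 1
      refine Finset.sum_congr rfl fun i _ => ?_
      rw [smul_smul, ← neg_smul]
      congr 1
      field_simp
    have hnop : ‖β 0‖ * ‖x0 - op b x‖ = ‖β 0 • x0 + ∑ i : Fin n, β i.succ • Sx (vs i) x‖ := by
      rw [← hop, norm_smul]
    rw [← hnop] at hlt h0
    have h3 : ‖β 0‖ * ‖x0 - op b x‖ < ‖β 0‖ * ε - ε / m * T := by nlinarith
    have h4 : T / ‖β 0‖ ≤ m := by
      rw [div_le_iff₀ hnb]
      have h5 : ε / m * T < ‖β 0‖ * ε := by linarith
      rw [div_mul_eq_mul_div, div_lt_iff₀ hm0] at h5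
      nlinarith
    have hInB : InB m b := by
      refine ⟨fun v hv => ?_, by rw [hnrm]; exact h4⟩
      obtain ⟨i, rfl⟩ := FUN.mem_lc vs _ hv
      exact hvs i
    have h6 := hfar b hInB
    nlinarith
  obtain ⟨f, N, hfw, d, hd, hfd⟩ := ab (n + 1) xs (Set.univ.pi S) hcomp hconv hhyp (ε / (2 * m)) (by positivity)
  obtain ⟨hd0, hd1⟩ := (hmem d).1 hd
  refine ⟨f, N, hfw, ?_, fun v hv => ?_⟩
  · have h1 := hfd 0
    rw [hd0] at h1
    simp only [hxs, Fin.cons_zero] at h1
    have h2 : ‖(ε : ℂ)‖ = ε := by rw [Complex.norm_real, Real.norm_of_nonneg hε.le]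
    have h3 : ε / (2 * m) ≤ ε / 2 := by
      apply div_le_div_of_nonneg_left hε.le (by norm_num)
      linarith
    have h4 := norm_sub_norm_le (ε : ℂ) (ev f (cut 0 N (cx x0)))
    rw [norm_sub_rev, h2] at h4
    linarith
  · obtain ⟨i, rfl⟩ := hvs2 v hv
    have h1 := hfd i.succ
    simp only [hxs, Fin.cons_succ] at h1
    have h2 := hd1 i
    have h3 := norm_sub_norm_le (ev f (cut 0 N (cx (Sx (vs i) x)))) (d i.succ)
    have h4 : ε / (2 * m) ≤ ε / m := by
      apply div_le_div_of_nonneg_left hε.le hm0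
      linarith
    have h5 : 2 * ε / m = ε / m + ε / m := by ring
    rw [h5]
    linarith

end

end Pool.Agent.Q73.GP
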