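import Pool.Agent.Q73.GP.Stm3

set_option autoImplicit false

/-!
Project GP (helper73), lemma GERM (port of the proof of helper205 for project GM, two layers): if
`op c` is small on rapidly increasing sequences then it is small in the `ℓ¹` norm.
-/

namespace Pool.Agent.Q73.GP.GERM

open Finset Filter Topology

noncomputable section

/-- the image of the point `k` under the spread `v` (one layer) -/
def gp (v : GM.Sg) (k : ℕ) : ℕ := 2 ^ v.k1 * (k / 2 ^ v.k2) + v.r1

theorem gSv_e (v : GM.Sg) (k : ℕ) (f : ℕ → ℂ) (hf : ∀ m, m ≠ k → f m = 0) (n : ℕ) :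
    GM.Sv v f n = if k % 2 ^ v.k2 = v.r2 ∧ gp v k = n then f k else 0 := by
  have h1 : 0 < 2 ^ v.k1 := by positivity
  have h2 : 0 < 2 ^ v.k2 := by positivity
  have hr1 := v.h1
  have hr2 := v.h2
  rw [GM.Sv_apply]
  unfold gp
  by_cases hn : n % 2 ^ v.k1 = v.r1
  · rw [if_pos hn]
    have e1 := Nat.div_add_mod n (2 ^ v.k1)
    have e2 := Nat.div_add_mod k (2 ^ v.k2)
    by_cases hk : 2 ^ v.k2 * (n / 2 ^ v.k1) + v.r2 = k
    · rw [hk, if_pos]
      have h3 : k / 2 ^ v.k2 = n / 2 ^ v.k1 := by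
        rw [← hk, Nat.mul_add_div h2, Nat.div_eq_of_lt hr2, add_zero]
      refine ⟨?_, ?_⟩
      · rw [← hk, Nat.mul_add_mod, Nat.mod_eq_of_lt hr2]
      · rw [h3, ← hn]
        exact e1
    · rw [hf _ hk, if_neg]
      rintro ⟨h3, h4⟩
      apply hk
      have h5 : n / 2 ^ v.k1 = k / 2 ^ v.k2 := by
        rw [← h4, Nat.mul_add_div h1, Nat.div_eq_of_lt hr1, add_zero]
      rw [h5, ← h3]
      exact e2
  · rw [if_neg hn, if_neg]
    rintro ⟨_, h4⟩
    apply hn
    rw [← h4, Nat.mul_add_mod, Nat.mod_eq_of_lt hr1]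

/-- the layer of the image of a point of layer `i` -/
def la (v : Sg) (i : ℕ) : ℕ := if v.t = true then 1 else i

/-- the image of the point `k` -/
def pp (v : Sg) (k : ℕ) : ℕ := 2 * gp v.v (k / 2) + la v (k % 2)

/-- the point `k` is not killed by `v` -/
def sur (v : Sg) (k : ℕ) : Prop := k / 2 % 2 ^ v.v.k2 = v.v.r2 ∧ (v.t = true → k % 2 = 0)

instance (v : Sg) (k : ℕ) : Decidable (sur v k) := by unfold sur; infer_instance

theorem la_le (v : Sg) {i : ℕ} (hi : i < 2) : la v i ≤ 1 := by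
  unfold la
  split_ifs <;> omega

theorem Sv_e (v : Sg) (k n : ℕ) :
    Sv v (e k) n = if sur v k ∧ pp v k = n then 1 else 0 := by
  rw [Sv_apply]
  have hk := Nat.div_add_mod k 2
  have hn := Nat.div_add_mod n 2
  have hk2 : k % 2 < 2 := Nat.mod_lt _ (by norm_num)
  have hn2 : n % 2 < 2 := Nat.mod_lt _ (by norm_num)
  unfold sur pp la
  by_cases ht : v.t = true
  · simp only [if_pos ht]
    have hf : ∀ m, m ≠ k / 2 → (fun k' => e k (2 * k')) m = 0 := by
      intro m hm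
      show e k (2 * m) = 0
      unfold e
      rw [if_neg]
      omega
    by_cases h1 : n % 2 = 1
    · rw [if_pos h1, gSv_e v.v (k / 2) _ hf (n / 2)]
      by_cases h2 : k % 2 = 0
      · have h3 : e k (2 * (k / 2)) = 1 := by
          unfold e
          rw [if_pos]
          omega
        rw [h3]
        by_cases h4 : k / 2 % 2 ^ v.v.k2 = v.v.r2 ∧ gp v.v (k / 2) = n / 2
        · rw [if_pos h4, if_pos]
          refine ⟨⟨h4.1, fun _ => h2⟩, ?_⟩
          rw [h4.2]
          omega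
        · rw [if_neg h4, if_neg]
          rintro ⟨⟨h5, _⟩, h6⟩
          exact h4 ⟨h5, by omega⟩
      · have h3 : e k (2 * (k / 2)) = 0 := by
          unfold e
          rw [if_neg]
          omega
        rw [h3, ite_self, if_neg]
        rintro ⟨⟨_, h6⟩, _⟩
        exact h2 (h6 ht)
    · rw [if_neg h1, if_neg]
      rintro ⟨_, h6⟩
      omega
  · simp only [if_neg ht]
    have hf : ∀ m, m ≠ k / 2 → (fun k' => e k (2 * k' + n % 2)) m = 0 := by
      intro m hm
      show e k (2 * m + n % 2) = 0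
      unfold e
      rw [if_neg]
      omega
    rw [gSv_e v.v (k / 2) _ hf (n / 2)]
    by_cases h2 : k % 2 = n % 2
    · have h3 : e k (2 * (k / 2) + n % 2) = 1 := by
        unfold e
        rw [if_pos]
        omega
      rw [h3]
      by_cases h4 : k / 2 % 2 ^ v.v.k2 = v.v.r2 ∧ gp v.v (k / 2) = n / 2
      · rw [if_pos h4, if_pos]
        refine ⟨⟨h4.1, fun h => absurd h ht⟩, ?_⟩
        rw [h4.2]
        omega
      · rw [if_neg h4, if_neg]
        rintro ⟨⟨h5, _⟩, h6⟩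
        exact h4 ⟨h5, by omega⟩
    · have h3 : e k (2 * (k / 2) + n % 2) = 0 := by
        unfold e
        rw [if_neg]
        omega
      rw [h3, ite_self, if_neg]
      rintro ⟨_, h6⟩
      omega

theorem opV_e (c : LS) (k n : ℕ) :
    opV c (e k) n = ∑ v ∈ c.support.filter (fun v => sur v k),
      if pp v k = n then c v else 0 := by
  rw [opV_apply, Finset.sum_apply, Finset.sum_filter]
  refine Finset.sum_congr rfl fun v _ => ?_
  rw [Pi.smul_apply, Sv_e, smul_eq_mul]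
  by_cases h1 : sur v k
  · by_cases h2 : pp v k = n
    · simp [h1, h2]
    · simp [h2]
  · simp [h1]

/-- coarser partitions give smaller sums -/
theorem group_le (S : Finset Sg) (c : Sg → ℂ) (p p' : Sg → ℕ)
    (h : ∀ v ∈ S, ∀ w ∈ S, p' v = p' w → p v = p w) (P : Finset ℕ) :
    ∑ n ∈ P, ‖∑ v ∈ S, if p v = n then c v else 0‖ ≤
      ∑ n ∈ S.image p', ‖∑ v ∈ S, if p' v = n then c v else 0‖ := by
  classical
  have hg : ∃ g : ℕ → ℕ, ∀ v ∈ S, g (p' v) = p v := by
    refine ⟨fun n => if h : ∃ v ∈ S, p' v = n then p h.choose else 0, fun v hv => ?_⟩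
    have h1 : ∃ w ∈ S, p' w = p' v := ⟨v, hv, rfl⟩
    show (if h : ∃ w ∈ S, p' w = p' v then p h.choose else 0) = p v
    rw [dif_pos h1]
    exact h _ h1.choose_spec.1 _ hv h1.choose_spec.2
  obtain ⟨g, hg⟩ := hg
  have key : ∀ n, ‖∑ v ∈ S, if p v = n then c v else 0‖ ≤
      ∑ n' ∈ S.image p', if g n' = n then ‖∑ v ∈ S, if p' v = n' then c v else 0‖ else 0 := by
    intro n
    have h2 : (∑ v ∈ S, if p v = n then c v else 0) = ∑ n' ∈ S.image p',
        if g n' = n then (∑ v ∈ S, if p' v = n' then c v else 0) else 0 := by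
      have h3 : ∀ n', (if g n' = n then (∑ v ∈ S, if p' v = n' then c v else 0) else 0) =
          ∑ v ∈ S, (if p' v = n' then (if p v = n then c v else 0) else 0) := by
        intro n'
        by_cases h4 : g n' = n
        · rw [if_pos h4]
          refine Finset.sum_congr rfl fun v hv => ?_
          by_cases h5 : p' v = n'
          · rw [if_pos h5, if_pos h5, if_pos]
            rw [← hg v hv, h5, h4]
          · rw [if_neg h5, if_neg h5]
        · rw [if_neg h4]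
          symm
          refine Finset.sum_eq_zero fun v hv => ?_
          by_cases h5 : p' v = n'
          · rw [if_pos h5, if_neg]
            intro h6
            apply h4
            rw [← h5, hg v hv, h6]
          · rw [if_neg h5]
      rw [Finset.sum_congr rfl fun n' _ => h3 n', Finset.sum_comm]
      refine Finset.sum_congr rfl fun v hv => ?_
      rw [Finset.sum_ite_eq, if_pos (Finset.mem_image_of_mem p' hv)]
    rw [h2]
    refine (norm_sum_le _ _).trans (Finset.sum_le_sum fun n' _ => ?_)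
    split_ifs
    · exact le_rfl
    · rw [norm_zero]
  refine (Finset.sum_le_sum fun n _ => key n).trans ?_
  rw [Finset.sum_comm]
  refine Finset.sum_le_sum fun n' _ => ?_
  rw [Finset.sum_ite_eq]
  split_ifs
  · exact le_rfl
  · exact norm_nonneg _

theorem split_pow (v : GM.Sg) {K : ℕ} (h : v.k2 ≤ K) (m : ℕ) :
    2 ^ K * m = 2 ^ v.k2 * (2 ^ (K - v.k2) * m) := by
  rw [← mul_assoc, ← pow_add, Nat.add_sub_cancel' h]

theorem gpp_mul_add (v : GM.Sg) {K : ℕ} (h : v.k2 ≤ K) (m r : ℕ) :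
    gp v (2 ^ K * m + r) = 2 ^ v.k1 * 2 ^ (K - v.k2) * m + gp v r := by
  have h2 : 0 < 2 ^ v.k2 := by positivity
  unfold gp
  rw [split_pow v h, Nat.mul_add_div h2]
  ring

theorem mod_mul_add (v : GM.Sg) {K : ℕ} (h : v.k2 ≤ K) (m r : ℕ) :
    (2 ^ K * m + r) % 2 ^ v.k2 = r % 2 ^ v.k2 := by
  rw [split_pow v h, Nat.mul_add_mod]

theorem gpp_lt (v : GM.Sg) {K : ℕ} (h : v.k1 ≤ K) (k : ℕ) : gp v k < 2 ^ K * (k + 1) := by
  unfold gp
  have h1 := v.h1
  have h2 : k / 2 ^ v.k2 ≤ k := Nat.div_le_self _ _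
  have h3 : 2 ^ v.k1 ≤ 2 ^ K := Nat.pow_le_pow_right (by norm_num) h
  calc 2 ^ v.k1 * (k / 2 ^ v.k2) + v.r1 < 2 ^ v.k1 * (k / 2 ^ v.k2) + 2 ^ v.k1 := by omega
    _ = 2 ^ v.k1 * (k / 2 ^ v.k2 + 1) := by ring
    _ ≤ 2 ^ K * (k + 1) := Nat.mul_le_mul h3 (by omega)

theorem gle_pp (v : GM.Sg) {K : ℕ} (h : v.k2 ≤ K) (m r : ℕ) : m ≤ gp v (2 ^ K * m + r) := by
  rw [gpp_mul_add v h]
  have h1 : 1 ≤ 2 ^ v.k1 * 2 ^ (K - v.k2) := Nat.mul_pos (by positivity) (by positivity)
  calc m = 1 * m := (one_mul m).symm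
    _ ≤ 2 ^ v.k1 * 2 ^ (K - v.k2) * m := Nat.mul_le_mul_right _ h1
    _ ≤ _ := Nat.le_add_right _ _

theorem gpp_inj (v w : GM.Sg) {K : ℕ} (hv : v.k2 ≤ K) (hw : w.k2 ≤ K) {m m' r : ℕ}
    (h1 : gp v r < m') (h2 : gp w r < m') (h : gp v (2 ^ K * m' + r) = gp w (2 ^ K * m' + r)) :
    gp v (2 ^ K * m + r) = gp w (2 ^ K * m + r) := by
  rw [gpp_mul_add v hv, gpp_mul_add w hw] at h ⊢
  generalize 2 ^ v.k1 * 2 ^ (K - v.k2) = a at h ⊢
  generalize 2 ^ w.k1 * 2 ^ (K - w.k2) = b at h ⊢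
  rcases lt_trichotomy a b with hab | hab | hab
  · exfalso
    have h3 : (a + 1) * m' ≤ b * m' := Nat.mul_le_mul_right _ hab
    have h4 : (a + 1) * m' = a * m' + m' := by ring
    omega
  · rw [hab] at h ⊢
    omega
  · exfalso
    have h3 : (b + 1) * m' ≤ a * m' := Nat.mul_le_mul_right _ hab
    have h4 : (b + 1) * m' = b * m' + m' := by ring
    omega

/-- the quotients of the points -/
def mu (K r : ℕ) : ℕ → ℕ
  | 0 => 2 ^ K * (r + 1)
  | i + 1 => 2 ^ K * (2 ^ K * mu K r i + r + 1)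

/-- the points -/
def kk (K r i : ℕ) : ℕ := 2 ^ K * mu K r i + r

theorem mu_succ (K r i : ℕ) : mu K r (i + 1) = 2 ^ K * (kk K r i + 1) := rfl

theorem mu_le_kk (K r i : ℕ) : mu K r i ≤ kk K r i := by
  unfold kk
  have h1 : 1 ≤ 2 ^ K := Nat.one_le_two_pow
  calc mu K r i = 1 * mu K r i := (one_mul _).symm
    _ ≤ 2 ^ K * mu K r i := Nat.mul_le_mul_right _ h1
    _ ≤ _ := Nat.le_add_right _ _

theorem kk_lt_mu (K r i : ℕ) : kk K r i < mu K r (i + 1) := by
  rw [mu_succ]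
  have h1 : 1 ≤ 2 ^ K := Nat.one_le_two_pow
  calc kk K r i < 1 * (kk K r i + 1) := by omega
    _ ≤ 2 ^ K * (kk K r i + 1) := Nat.mul_le_mul_right _ h1

theorem mu_strictMono (K r : ℕ) : StrictMono (mu K r) :=
  strictMono_nat_of_lt_succ fun i => (mu_le_kk K r i).trans_lt (kk_lt_mu K r i)

theorem kk_strictMono (K r : ℕ) : StrictMono (kk K r) :=
  strictMono_nat_of_lt_succ fun i => (kk_lt_mu K r i).trans_le (mu_le_kk K r (i + 1))

theorem mu_zero_le (K r i : ℕ) : 2 ^ K * (r + 1) ≤ mu K r i :=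
  (mu_strictMono K r).monotone (Nat.zero_le i)

theorem gq_lt (v w : GM.Sg) {K : ℕ} (hv : v.k1 ≤ K) (hw : w.k2 ≤ K) (r : ℕ) {i i' : ℕ}
    (h : i < i') : gp v (kk K r i) < gp w (kk K r i') := by
  calc gp v (kk K r i) < 2 ^ K * (kk K r i + 1) := gpp_lt v hv _
    _ = mu K r (i + 1) := (mu_succ K r i).symm
    _ ≤ mu K r i' := (mu_strictMono K r).monotone h
    _ ≤ gp w (kk K r i') := gle_pp w hw _ _


/-- the points in two layers -/
def kq (K r j i : ℕ) : ℕ := 2 * kk K r i + j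

theorem kq_strictMono (K r j : ℕ) : StrictMono (kq K r j) := by
  intro i i' h
  have := kk_strictMono K r h
  unfold kq
  omega

theorem pp_two (v : Sg) (m j : ℕ) (hj : j < 2) : pp v (2 * m + j) = 2 * gp v.v m + la v j := by
  have h1 : (2 * m + j) % 2 = j := by omega
  have h2 : (2 * m + j) / 2 = m := by omega
  unfold pp
  rw [h1, h2]

theorem sur_two (v : Sg) (m j : ℕ) (hj : j < 2) :
    sur v (2 * m + j) ↔ m % 2 ^ v.v.k2 = v.v.r2 ∧ (v.t = true → j = 0) := by
  have h1 : (2 * m + j) % 2 = j := by omega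
  have h2 : (2 * m + j) / 2 = m := by omega
  unfold sur
  rw [h1, h2]

theorem sur_kq (v : Sg) {K : ℕ} (hK : v.v.k2 ≤ K) (m r j : ℕ) (hj : j < 2) :
    sur v (2 * (2 ^ K * m + r) + j) ↔ sur v (2 * r + j) := by
  rw [sur_two v _ j hj, sur_two v _ j hj, mod_mul_add v.v hK]

theorem pp_inj (v w : Sg) {K : ℕ} (hv : v.v.k2 ≤ K) (hw : w.v.k2 ≤ K) {m m' r j : ℕ} (hj : j < 2)
    (h1 : gp v.v r < m') (h2 : gp w.v r < m')
    (h : pp v (2 * (2 ^ K * m' + r) + j) = pp w (2 * (2 ^ K * m' + r) + j)) :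
    pp v (2 * (2 ^ K * m + r) + j) = pp w (2 * (2 ^ K * m + r) + j) := by
  rw [pp_two v _ j hj, pp_two w _ j hj] at h ⊢
  have hv1 := la_le v hj
  have hw1 := la_le w hj
  have e1 : gp v.v (2 ^ K * m' + r) = gp w.v (2 ^ K * m' + r) := by omega
  have e2 : la v j = la w j := by omega
  rw [gpp_inj v.v w.v hv hw h1 h2 e1 (m := m), e2]

theorem pp_lt_pp (v w : Sg) {K : ℕ} (hv : v.v.k1 ≤ K) (hw : w.v.k2 ≤ K) (r j : ℕ) (hj : j < 2)
    {i i' : ℕ} (h : i < i') : pp v (kq K r j i) < pp w (kq K r j i') := by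
  unfold kq
  rw [pp_two v _ j hj, pp_two w _ j hj]
  have hv1 := la_le v hj
  have := gq_lt v.v w.v hv hw r h
  omega

theorem two_pow_le_mm (j : ℕ) : 2 ^ j ≤ mm j := by
  unfold mm
  refine Nat.pow_le_pow_right (by norm_num) ?_
  exact ((Nat.lt_succ_self j).trans Nat.lt_two_pow_self).le

/-- the growth condition of RAV -/
theorem growth_le (q k : ℕ) (hk : k ≤ q) :
    3 * (1 : ℝ) * ((mm q : ℝ) ^ 2 / nn q) + 1 * ((mm q : ℝ) / mm (q + 2)) ≤ (1 / 2) ^ k := by
  have h1 := mm_le_nn q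
  have h2 := one_le_mm q
  have h3 : (0 : ℝ) < mm q := by linarith
  have h4 : (mm (q + 2) : ℝ) = (mm q : ℝ) ^ 4 := by
    have : mm (q + 2) = mm q ^ 4 := by
      rw [show q + 2 = (q + 1) + 1 from rfl, mm_succ, mm_succ, ← pow_mul]
    exact_mod_cast this
  have h5 : (mm q : ℝ) ^ 2 / nn q ≤ 1 / (mm q : ℝ) ^ 2 := by
    rw [div_le_div_iff₀ (nn_pos' q) (by positivity), one_mul, ← pow_add]
    exact h1
  have h6 : (mm q : ℝ) / mm (q + 2) = 1 / (mm q : ℝ) ^ 3 := by
    rw [h4]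
    field_simp
  have h7 : 1 / (mm q : ℝ) ^ 3 ≤ 1 / (mm q : ℝ) ^ 2 := by
    apply one_div_le_one_div_of_le (by positivity)
    exact pow_le_pow_right₀ (by linarith) (by norm_num)
  have h8 : 4 * (1 / (mm q : ℝ) ^ 2) ≤ 1 / mm q := by
    rw [mul_one_div, div_le_div_iff₀ (by positivity) h3, one_mul, pow_two]
    exact mul_le_mul_of_nonneg_right h2 h3.le
  have h9 : 1 / (mm q : ℝ) ≤ (1 / 2) ^ k := by
    rw [one_div_pow]
    apply one_div_le_one_div_of_le (by positivity)
    have h10 : (2 : ℝ) ^ q ≤ mm q := by exact_mod_cast two_pow_le_mm q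
    exact (pow_le_pow_right₀ (by norm_num) hk).trans h10
  linarith

end

end Pool.Agent.Q73.GP.GERM

namespace Pool.Agent.Q73.GP

open Finset Filter Topology

noncomputable section

open GERM in
theorem t_GERM (low : S_LOW) (eris : S_ERIS) (avg : S_AVG) (rav : S_RAV) : S_GERM := by
  classical
  intro c δ hδ k P
  obtain ⟨K, hK⟩ : ∃ K, ∀ v ∈ c.support, v.v.k1 ≤ K ∧ v.v.k2 ≤ K := by
    refine ⟨c.support.sup (fun v => max v.v.k1 v.v.k2), fun v hv => ?_⟩
    have h1 : max v.v.k1 v.v.k2 ≤ c.support.sup (fun v => max v.v.k1 v.v.k2) :=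
      Finset.le_sup (f := fun v : Sg => max v.v.k1 v.v.k2) hv
    exact ⟨(le_max_left _ _).trans h1, (le_max_right _ _).trans h1⟩
  obtain ⟨r, m, j, hj, hkr⟩ : ∃ r m j, j < 2 ∧ k = 2 * (2 ^ K * m + r) + j :=
    ⟨k / 2 % 2 ^ K, k / 2 / 2 ^ K, k % 2, Nat.mod_lt _ (by norm_num), by
      rw [Nat.div_add_mod]
      exact (Nat.div_add_mod _ _).symm⟩
  set S : Finset Sg := c.support.filter (fun v => sur v (2 * r + j)) with hS
  have hSK : ∀ v ∈ S, v.v.k1 ≤ K ∧ v.v.k2 ≤ K := fun v hv => hK v (Finset.mem_filter.1 hv).1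
  have hop : ∀ m' n, opV c (e (2 * (2 ^ K * m' + r) + j)) n =
      ∑ v ∈ S, if pp v (2 * (2 ^ K * m' + r) + j) = n then c v else 0 := by
    intro m' n
    rw [opV_e, hS]
    congr 1
    refine Finset.filter_congr fun v hv => ?_
    rw [sur_kq v (hK v hv).2 m' r j hj]
  set I : ℕ → Finset ℕ := fun i => S.image (fun v => pp v (kq K r j i)) with hI
  have hcard : ∀ i, #(I i) ≤ #c.support := fun i =>
    Finset.card_image_le.trans (Finset.card_filter_le _ _)
  have hA : ∀ i, ∑ n ∈ P, ‖opV c (e k) n‖ ≤ ∑ n ∈ I i, ‖opV c (e (kq K r j i)) n‖ := by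
    intro i
    rw [hkr]
    have h1 := group_le S (fun v => c v) (fun v => pp v (2 * (2 ^ K * m + r) + j))
      (fun v => pp v (2 * (2 ^ K * mu K r i + r) + j)) (fun v hv w hw h =>
        pp_inj v w (hSK v hv).2 (hSK w hw).2 hj
          ((gpp_lt v.v (hSK v hv).1 r).trans_le (mu_zero_le K r i))
          ((gpp_lt w.v (hSK w hw).1 r).trans_le (mu_zero_le K r i)) h) P
    rw [Finset.sum_congr rfl fun n _ => by rw [hop m n]]
    refine h1.trans (le_of_eq ?_)
    refine Finset.sum_congr rfl fun n _ => ?_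
    unfold kq kk
    rw [hop]
  have hne : ∀ i i', i ≠ i' → ∀ v ∈ S, ∀ w ∈ S, pp v (kq K r j i) ≠ pp w (kq K r j i') := by
    intro i i' hii v hv w hw
    rcases lt_or_gt_of_ne hii with h | h
    · exact (pp_lt_pp v w (hSK v hv).1 (hSK w hw).2 r j hj h).ne
    · exact (pp_lt_pp w v (hSK w hw).1 (hSK v hv).2 r j hj h).ne'
  have hzero : ∀ i i', i ≠ i' → ∀ n ∈ I i, opV c (e (kq K r j i')) n = 0 := by
    intro i i' hii n hn
    obtain ⟨v, hv, rfl⟩ := Finset.mem_image.1 hn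
    unfold kq kk
    rw [hop]
    refine Finset.sum_eq_zero fun w hw => ?_
    rw [if_neg]
    exact (hne i i' hii v hv w hw).symm
  -- the blocks
  set s : ℕ := #c.support + 1 with hs
  set q : ℕ → ℕ := fun l => 2 * l + 2 * s with hq
  set κ : ℕ → ℕ := fun l => nn (q l) / s with hκ
  have hs0 : 0 < s := Nat.succ_pos _
  have hκ1 : ∀ l, 1 ≤ κ l := by
    intro l
    apply (Nat.le_div_iff_mul_le hs0).2
    have h1 := lt_nn (q l)
    have h2 : q l = 2 * l + 2 * s := rfl
    omega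
  have hκ2 : ∀ l, nn (q l) ≤ mm (q l) * κ l := by
    intro l
    have h1 : nn (q l) < s * (κ l + 1) := Nat.lt_mul_div_succ _ hs0
    have h2 := hκ1 l
    have h3 := lt_mm (q l)
    have h4 : q l = 2 * l + 2 * s := rfl
    calc nn (q l) ≤ s * (κ l + 1) := h1.le
      _ ≤ s * (2 * κ l) := Nat.mul_le_mul_left _ (by omega)
      _ = (2 * s) * κ l := by ring
      _ ≤ mm (q l) * κ l := Nat.mul_le_mul_right _ (by omega)
  have hκ3 : ∀ l, κ l * #c.support ≤ nn (q l) := by
    intro l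
    calc κ l * #c.support ≤ κ l * s := Nat.mul_le_mul_left _ (Nat.le_succ _)
      _ ≤ nn (q l) := Nat.div_mul_le_self _ _
  set N : ℕ → ℕ := fun l => ∑ j ∈ range l, κ j with hN
  have hNs : ∀ l, N (l + 1) = N l + κ l := fun l => Finset.sum_range_succ _ _
  have hNm : StrictMono N := strictMono_nat_of_lt_succ fun l => by
    have := hNs l
    have := hκ1 l
    omega
  have hcI : ∀ l, #(Ico (N l) (N (l + 1))) = κ l := by
    intro l
    rw [Nat.card_Ico, hNs]
    omega
  have hris := eris (kq K r j) (kq_strictMono K r j)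
  set y : ℕ → V := fun l => ((mm (q l) : ℂ) / (κ l : ℂ)) •
    ∑ i ∈ Ico (N l) (N (l + 1)), e (kq K r j i) with hy
  have hav : ∀ l, Av 1 (q l) (y l) := by
    intro l
    have h1 := avg 1 _ _ _ _ hris (q l) (Ico (N l) (N (l + 1))) (by rw [hcI]; exact hκ2 l)
    rw [hcI] at h1
    exact h1
  have hkN : StrictMono (fun l => kq K r j (N l)) := (kq_strictMono K r j).comp hNm
  have hsucc : Succ y (fun l => kq K r j (N l)) (fun l => kq K r j (N (l + 1))) := by
    refine ⟨fun l n hn => ?_, fun l => (hkN (Nat.lt_succ_self l)).le,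
      fun l l' hl => (kq_strictMono K r j).monotone (hNm.monotone hl)⟩
    have hn' : n < kq K r j (N l) ∨ kq K r j (N (l + 1)) ≤ n := hn
    rw [hy]
    simp only [Pi.smul_apply, Finset.sum_apply, smul_eq_mul]
    rw [Finset.sum_eq_zero, mul_zero]
    intro i hi
    rw [Finset.mem_Ico] at hi
    have h1 := (kq_strictMono K r j).monotone hi.1
    have h2 := (kq_strictMono K r j) hi.2
    unfold e
    rw [if_neg]
    omega
  have hqm : StrictMono q := fun l l' hl => by
    show 2 * l + 2 * s < 2 * l' + 2 * s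
    omega
  have hR : RIS (4 * 1) y (fun l => kq K r j (N l)) (fun l => kq K r j (N (l + 1))) q := by
    refine rav 1 y _ _ q le_rfl hsucc hkN.tendsto_atTop hqm hav fun l => ?_
    have h1 : q (l + 1) = q l + 2 := by
      show 2 * (l + 1) + 2 * s = 2 * l + 2 * s + 2
      ring
    rw [h1]
    refine growth_le (q l) l ?_
    show l ≤ 2 * l + 2 * s
    omega
  rw [mul_one] at hR
  set z : ℕ → XX := fun l => ofV (y l) (4 * 1) (hav l).bd with hz
  have hzy : ∀ l, cx (z l) = y l := fun l => cx_ofV _ _ _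
  have hRz : Ris 4 z := by
    refine ⟨fun l => kq K r j (N l), fun l => kq K r j (N (l + 1)), q, ?_⟩
    have h1 : (fun l => cx (z l)) = y := funext hzy
    rw [h1]
    exact hR
  obtain ⟨l, hl⟩ := (hδ z hRz).exists
  -- the lower estimate
  set J : Finset ℕ := (Ico (N l) (N (l + 1))).biUnion I with hJ
  have hJc : #J ≤ nn (q l) := by
    refine (Finset.card_biUnion_le_card_mul _ _ _ fun i _ => hcard i).trans ?_
    rw [hcI]
    exact hκ3 l
  have hqe : q l % 2 = 0 := by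
    show (2 * l + 2 * s) % 2 = 0
    omega
  have h1 := low (q l) hqe (fun n => n) (fun n => n + 1) (fun n => Nat.le_succ n)
    (fun n n' hn => hn) J hJc (op c (z l))
  have h2 : ∑ n ∈ J, ‖cx (op c (z l)) n‖ ≤ mm (q l) * δ := by
    refine le_trans (Finset.sum_le_sum fun n _ => ?_) (h1.trans ?_)
    · have h3 := norm_cx_le (Rx n (n + 1) (op c (z l))) n
      rw [cx_Rx, cut_apply, if_pos ⟨le_rfl, Nat.lt_succ_self n⟩] at h3
      exact h3
    · exact mul_le_mul_of_nonneg_left hl (mm_pos' _).le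
  have hdisj : (↑(Ico (N l) (N (l + 1))) : Set ℕ).PairwiseDisjoint I := by
    intro i _ i' _ hii
    rw [Function.onFun, Finset.disjoint_left]
    intro n hn hn'
    obtain ⟨v, hv, rfl⟩ := Finset.mem_image.1 hn
    obtain ⟨w, hw, h3⟩ := Finset.mem_image.1 hn'
    exact hne i i' hii v hv w hw h3.symm
  rw [hJ, Finset.sum_biUnion hdisj] at h2
  have hκpos : (0 : ℝ) < κ l := by exact_mod_cast hκ1 l
  have h3 : ∀ i ∈ Ico (N l) (N (l + 1)), (mm (q l) : ℝ) / κ l * ∑ n ∈ P, ‖opV c (e k) n‖ ≤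
      ∑ n ∈ I i, ‖cx (op c (z l)) n‖ := by
    intro i hi
    have h4 : ∀ n ∈ I i, ‖cx (op c (z l)) n‖ =
        (mm (q l) : ℝ) / κ l * ‖opV c (e (kq K r j i)) n‖ := by
      intro n hn
      rw [cx_op, hzy]
      show ‖(opV c (((mm (q l) : ℂ) / (κ l : ℂ)) •
        ∑ i ∈ Ico (N l) (N (l + 1)), e (kq K r j i))) n‖ = _
      rw [map_smul, map_sum, Pi.smul_apply, Finset.sum_apply,
        Finset.sum_eq_single_of_mem i hi (fun i' _ hii => hzero i i' (Ne.symm hii) n hn),
        norm_smul, norm_div, Complex.norm_natCast, Complex.norm_natCast]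
    rw [Finset.sum_congr rfl h4, ← Finset.mul_sum]
    exact mul_le_mul_of_nonneg_left (hA i) (div_nonneg (mm_pos' _).le hκpos.le)
  have h5 := (Finset.sum_le_sum h3).trans h2
  rw [Finset.sum_const, hcI, nsmul_eq_mul, ← mul_assoc, mul_div_cancel₀ _ hκpos.ne'] at h5
  exact le_of_mul_le_mul_left h5 (mm_pos' _)

end

end Pool.Agent.Q73.GP
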