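import Pool.Agent.Q73.GP.Stm2

set_option autoImplicit false

/-!
Project GP (port of project GM) (helper73), job GM-LB (helper299): the lower estimate for sums along windows.
-/

namespace Pool.Agent.Q73.GP.LB

open Finset Filter Topology

noncomputable section

theorem In_mono {m n : ℕ} (h : m ≤ n) {v : Sg} (hv : v.In m) : v.In n :=
  ⟨hv.1.trans_le h, hv.2.trans_le h⟩

theorem onLv_op (sp : S_SUPP) {ρ : ℝ} {T : XX →L[ℝ] XX} {u : ℕ → XX} {A B w : ℕ → ℕ}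
    (hw : Win ρ T u A B w) {m : ℕ} {b : LS} (hb : InB m b) {j : ℕ} (hj : m ≤ j) :
    OnLv (w j) (w (j + 1)) (cx (op b (u j))) := by
  intro n hn
  rw [cx_op, opV_apply, Finset.sum_apply]
  refine Finset.sum_eq_zero fun v hv => ?_
  have h1 : v.In (w j) := In_mono (hj.trans (hw.mono.id_le j)) (hb.1 v hv)
  have h2 := sp v (w j) (w (j + 1)) (A j) (B j) (cx (u j)) h1 (hw.lev j) (hw.loA j) (hw.hiB j)
  rw [Pi.smul_apply, h2 n hn, smul_zero]

theorem R_op_self (sp : S_SUPP) {ρ : ℝ} {T : XX →L[ℝ] XX} {u : ℕ → XX} {A B w : ℕ → ℕ}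
    (hw : Win ρ T u A B w) {m : ℕ} {b : LS} (hb : InB m b) {j : ℕ} (hj : m ≤ j) :
    Rx (w j) (w (j + 1)) (op b (u j)) = op b (u j) :=
  cx_injective (by
    rw [cx_Rx]
    exact (onLv_op sp hw hb hj).cut_eq le_rfl le_rfl)

theorem R_op_ne (sp : S_SUPP) {ρ : ℝ} {T : XX →L[ℝ] XX} {u : ℕ → XX} {A B w : ℕ → ℕ}
    (hw : Win ρ T u A B w) {m : ℕ} {b : LS} (hb : InB m b) {j j' : ℕ} (hj : m ≤ j')
    (hne : j' ≠ j) : Rx (w j) (w (j + 1)) (op b (u j')) = 0 :=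
  cx_injective (by
    rw [cx_Rx, map_zero]
    apply (onLv_op sp hw hb hj).cut_zero
    rcases lt_or_gt_of_ne hne with h | h
    · right
      exact hw.mono.monotone h
    · left
      exact hw.mono.monotone h)

/-- differences of restrictions -/
theorem R_split {a b : ℕ} (h : a ≤ b) (x : XX) : Rx a b x = Rx 0 b x - Rx 0 a x :=
  cx_injective (by
    rw [cx_Rx, map_sub cx, cx_Rx, cx_Rx]
    funext n
    rw [Pi.sub_apply, cut_apply, cut_apply, cut_apply]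
    by_cases h1 : n < a
    · rw [if_neg (by omega), if_pos (by omega), if_pos (by omega), sub_self]
    · by_cases h2 : n < b
      · rw [if_pos (by omega), if_pos (by omega), if_neg (by omega), sub_zero]
      · rw [if_neg (by omega), if_neg (by omega), if_neg (by omega), sub_zero])

theorem R_lo {a b c : ℕ} (h : b ≤ c) (x : XX) : Rx a b x = Rx a b (Rx 0 c x) :=
  cx_injective (by
    rw [cx_Rx, cx_Rx, cx_Rx, cut_cut, max_eq_left (Nat.zero_le a), min_eq_left h])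

theorem R_hi {a b : ℕ} (x : XX) : Rx a b x = Rx a b (x - Rx 0 a x) := by
  have h : Rx a b (Rx 0 a x) = 0 := cx_injective (by
    rw [cx_Rx, cx_Rx, map_zero]
    exact (OnLv_cut 0 a (cx x)).cut_zero (Or.inr le_rfl))
  rw [map_sub, h, sub_zero]

theorem pow_max (j j' : ℕ) (h : j ≤ j') :
    ((1 : ℝ) / 4) ^ j' ≤ (1 / 2) ^ j * (1 / 2) ^ j' := by
  have e : ((1 : ℝ) / 4) = (1 / 2) ^ 2 := by norm_num
  rw [e, ← pow_mul, ← pow_add]
  exact pow_le_pow_of_le_one (by norm_num) (by norm_num) (by omega)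

variable {ρ : ℝ} {T : XX →L[ℝ] XX} {u : ℕ → XX} {A B w : ℕ → ℕ}

theorem diag (hρ : 0 ≤ ρ) (hw : Win ρ T u A B w) (sp : S_SUPP) {m : ℕ} {b : LS} (hb : InB m b)
    {j : ℕ} (hj : m ≤ j) : ‖T (u j) - op b (u j)‖ - 2 * ρ * (1 / 2) ^ j ≤
      ‖Rx (w j) (w (j + 1)) (T (u j) - op b (u j))‖ := by
  have h1 : w j ≤ w (j + 1) := hw.mono.monotone (Nat.le_succ j)
  have e1 : T (u j) - op b (u j) = Rx (w j) (w (j + 1)) (T (u j) - op b (u j)) +
      (Rx 0 (w j) (T (u j)) + (T (u j) - Rx 0 (w (j + 1)) (T (u j)))) := by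
    rw [map_sub, R_op_self sp hw hb hj, R_split h1]
    abel
  have h2 := hw.lo j
  have h3 := hw.hi j (j + 1) (Nat.lt_succ_self j)
  have h4 : ((1 : ℝ) / 4) ^ (j + 1) ≤ (1 / 4) ^ j :=
    pow_le_pow_of_le_one (by norm_num) (by norm_num) (Nat.le_succ j)
  have h5 : ((1 : ℝ) / 4) ^ j ≤ (1 / 2) ^ j :=
    pow_le_pow_left₀ (by norm_num) (by norm_num) j
  have h6 := norm_add_le (Rx 0 (w j) (T (u j))) (T (u j) - Rx 0 (w (j + 1)) (T (u j)))
  have h7 : ‖T (u j) - op b (u j)‖ ≤ ‖Rx (w j) (w (j + 1)) (T (u j) - op b (u j))‖ +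
      ‖Rx 0 (w j) (T (u j)) + (T (u j) - Rx 0 (w (j + 1)) (T (u j)))‖ := by
    calc ‖T (u j) - op b (u j)‖ = ‖Rx (w j) (w (j + 1)) (T (u j) - op b (u j)) +
          (Rx 0 (w j) (T (u j)) + (T (u j) - Rx 0 (w (j + 1)) (T (u j))))‖ := by
          rw [← e1]
      _ ≤ _ := norm_add_le _ _
  have h8 : ρ * (1 / 4) ^ (j + 1) ≤ ρ * (1 / 2) ^ j :=
    mul_le_mul_of_nonneg_left (h4.trans h5) hρ
  have h9 : ρ * (1 / 4) ^ j ≤ ρ * (1 / 2) ^ j := mul_le_mul_of_nonneg_left h5 hρ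
  linarith

theorem off (hρ : 0 ≤ ρ) (hw : Win ρ T u A B w) (sp : S_SUPP) {m : ℕ} {b : LS} (hb : InB m b)
    {j j' : ℕ} (hj : m ≤ j') (hne : j' ≠ j) :
    ‖Rx (w j) (w (j + 1)) (T (u j') - op b (u j'))‖ ≤ ρ * ((1 / 2) ^ j * (1 / 2) ^ j') := by
  rw [map_sub, R_op_ne sp hw hb hj hne, sub_zero]
  rcases lt_or_gt_of_ne hne with h | h
  · rw [R_hi]
    refine (norm_Rx_le _ _ _).trans ((hw.hi j' j h).trans ?_)
    have := pow_max j' j h.le
    rw [mul_comm ((1 / 2 : ℝ) ^ j)]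
    exact mul_le_mul_of_nonneg_left this hρ
  · rw [R_lo (hw.mono.monotone h)]
    refine (norm_Rx_le _ _ _).trans ((hw.lo j').trans ?_)
    exact mul_le_mul_of_nonneg_left (pow_max j j' h.le) hρ

/-- the operator -/
def SS (T : XX →L[ℝ] XX) (b : LS) : XX →L[ℝ] XX := T - (op b).restrictScalars ℝ

theorem SS_apply (T : XX →L[ℝ] XX) (b : LS) (x : XX) : SS T b x = T x - op b x := rfl

/-- the restriction as a real operator -/
def RR (a b : ℕ) : XX →L[ℝ] XX := (Rx a b).restrictScalars ℝ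

theorem RR_apply (a b : ℕ) (x : XX) : RR a b x = Rx a b x := rfl

theorem row (hρ : 0 ≤ ρ) (hw : Win ρ T u A B w) (sp : S_SUPP) {m : ℕ} {b : LS} (hb : InB m b)
    {q : ℕ} {I : Finset ℕ} (hI : ∀ j ∈ I, m ≤ j) {lam : ℕ → ℝ} (l0 : ∀ j, 0 ≤ lam j)
    (l1 : ∀ j, lam j ≤ mm q) {j : ℕ} (hj : j ∈ I) :
    lam j * ‖T (u j) - op b (u j)‖ - mm q * (4 * ρ * (1 / 2) ^ j) ≤
      ‖Rx (w j) (w (j + 1)) (SS T b (∑ i ∈ I, lam i • u i))‖ := by
  have hm := mm_pos' q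
  have e1 : Rx (w j) (w (j + 1)) (SS T b (∑ i ∈ I, lam i • u i)) =
      lam j • Rx (w j) (w (j + 1)) (T (u j) - op b (u j)) +
        ∑ i ∈ I.erase j, lam i • Rx (w j) (w (j + 1)) (T (u i) - op b (u i)) := by
    rw [← RR_apply, map_sum, map_sum, ← Finset.add_sum_erase I _ hj]
    congr 1
    · rw [map_smul, map_smul, RR_apply, SS_apply]
    · refine Finset.sum_congr rfl fun i _ => ?_
      rw [map_smul, map_smul, RR_apply, SS_apply]
  have h1 := diag hρ hw sp hb (hI j hj)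
  have h2 : ‖∑ i ∈ I.erase j, lam i • Rx (w j) (w (j + 1)) (T (u i) - op b (u i))‖ ≤
      mm q * (2 * ρ * (1 / 2) ^ j) := by
    calc ‖∑ i ∈ I.erase j, lam i • Rx (w j) (w (j + 1)) (T (u i) - op b (u i))‖
        ≤ ∑ i ∈ I.erase j, ‖lam i • Rx (w j) (w (j + 1)) (T (u i) - op b (u i))‖ :=
          norm_sum_le _ _
      _ ≤ ∑ i ∈ I.erase j, mm q * (ρ * (1 / 2) ^ j) * (1 / 2) ^ i := by
          refine Finset.sum_le_sum fun i hi => ?_
          rw [norm_smul, Real.norm_of_nonneg (l0 i)]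
          have h3 := off hρ hw sp hb (hI i (Finset.mem_of_mem_erase hi))
            (Finset.ne_of_mem_erase hi)
          calc lam i * ‖Rx (w j) (w (j + 1)) (T (u i) - op b (u i))‖
              ≤ mm q * (ρ * ((1 / 2) ^ j * (1 / 2) ^ i)) :=
                mul_le_mul (l1 i) h3 (norm_nonneg _) hm.le
            _ = _ := by ring
      _ = mm q * (ρ * (1 / 2) ^ j) * ∑ i ∈ I.erase j, (1 / 2) ^ i := by
          rw [Finset.mul_sum]
      _ ≤ mm q * (ρ * (1 / 2) ^ j) * 2 :=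
          mul_le_mul_of_nonneg_left (sum_half_le _) (by positivity)
      _ = _ := by ring
  have h4 : lam j * ‖Rx (w j) (w (j + 1)) (T (u j) - op b (u j))‖ -
      mm q * (2 * ρ * (1 / 2) ^ j) ≤ ‖Rx (w j) (w (j + 1)) (SS T b (∑ i ∈ I, lam i • u i))‖ := by
    rw [e1]
    have h5 := norm_sub_le (lam j • Rx (w j) (w (j + 1)) (T (u j) - op b (u j)) +
        ∑ i ∈ I.erase j, lam i • Rx (w j) (w (j + 1)) (T (u i) - op b (u i)))
        (∑ i ∈ I.erase j, lam i • Rx (w j) (w (j + 1)) (T (u i) - op b (u i)))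
    rw [add_sub_cancel_right, norm_smul, Real.norm_of_nonneg (l0 j)] at h5
    linarith
  have h6 : lam j * ‖T (u j) - op b (u j)‖ - mm q * (2 * ρ * (1 / 2) ^ j) ≤
      lam j * ‖Rx (w j) (w (j + 1)) (T (u j) - op b (u j))‖ := by
    have h7 := mul_le_mul_of_nonneg_left h1 (l0 j)
    have h8 : lam j * (2 * ρ * (1 / 2) ^ j) ≤ mm q * (2 * ρ * (1 / 2) ^ j) :=
      mul_le_mul_of_nonneg_right (l1 j) (by positivity)
    linarith [mul_sub (lam j) ‖T (u j) - op b (u j)‖ (2 * ρ * (1 / 2) ^ j)]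
  have e2 : (mm q : ℝ) * (4 * ρ * (1 / 2) ^ j) =
      mm q * (2 * ρ * (1 / 2) ^ j) + mm q * (2 * ρ * (1 / 2) ^ j) := by ring
  linarith

theorem lb (low : S_LOW) (sp : S_SUPP) (hρ : 0 ≤ ρ) (hw : Win ρ T u A B w) (m q : ℕ)
    (hq : q % 2 = 0) (I : Finset ℕ) (hcard : #I ≤ nn q) (hI : ∀ j ∈ I, m ≤ j) (lam : ℕ → ℝ)
    (l0 : ∀ j, 0 ≤ lam j) (l1 : ∀ j, lam j ≤ mm q) (b : LS) (hb : InB m b) :
    ∑ j ∈ I, lam j * ‖T (u j) - op b (u j)‖ - 8 * ρ * mm q ≤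
      mm q * ‖T (∑ j ∈ I, lam j • u j) - op b (∑ j ∈ I, lam j • u j)‖ := by
  have hm := mm_pos' q
  have h1 := low q hq w (fun j => w (j + 1)) (fun l => hw.mono.monotone (Nat.le_succ l))
    (fun l l' h => hw.mono.monotone h) I hcard (SS T b (∑ j ∈ I, lam j • u j))
  rw [← SS_apply]
  refine le_trans ?_ h1
  have h2 := Finset.sum_le_sum fun j (hj : j ∈ I) => row hρ hw sp hb hI l0 l1 hj
  refine le_trans ?_ h2
  rw [Finset.sum_sub_distrib]
  have h3 : ∑ j ∈ I, (mm q : ℝ) * (4 * ρ * (1 / 2) ^ j) ≤ 8 * ρ * mm q := by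
    calc ∑ j ∈ I, (mm q : ℝ) * (4 * ρ * (1 / 2) ^ j) =
          mm q * (4 * ρ) * ∑ j ∈ I, (1 / 2) ^ j := by
          rw [Finset.mul_sum]
          refine Finset.sum_congr rfl fun j _ => ?_
          ring
      _ ≤ mm q * (4 * ρ) * 2 := mul_le_mul_of_nonneg_left (sum_half_le _) (by positivity)
      _ = _ := by ring
  linarith

end

end Pool.Agent.Q73.GP.LB

namespace Pool.Agent.Q73.GP

/-- job GM-LB -/
theorem t_LB (low : S_LOW) (sp : S_SUPP) : S_LB :=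
  fun _ _ _ _ _ _ hρ hw m q hq I hI hm lam l0 l1 b hb =>
    LB.lb low sp hρ hw m q hq I hI hm lam l0 l1 b hb

end Pool.Agent.Q73.GP
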