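import Pool.Agent.Q73.GP.Stm2

set_option autoImplicit false

/-! Project GP (port of project GM) (helper73), lemma LO: the first coordinates tend to zero. -/

namespace Pool.Agent.Q73.GP

open Finset Filter Topology

namespace LO

theorem norm_Rx_le_sum (els : S_ELS) (N : ℕ) (w : XX) :
    ‖Rx 0 N w‖ ≤ ∑ n ∈ Ico 0 N, ‖cx w n‖ := by
  refine XX.norm_le (Finset.sum_nonneg fun _ _ => norm_nonneg _) ?_
  intro t ht a b
  rw [cx_Rx]
  refine (els 0 N _ (OnLv_cut 0 N (cx w)) t ht a b).1.trans ?_
  refine Finset.sum_le_sum fun k hk => ?_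
  rw [cut_apply]
  split_ifs
  · exact le_rfl
  · rw [norm_zero]
    exact norm_nonneg _

/-- the real part of a coordinate -/
noncomputable def reL (T : XX →L[ℝ] XX) (n : ℕ) : XX →L[ℝ] ℝ :=
  Complex.reCLM.comp (((coordL n).restrictScalars ℝ).comp T)

/-- the imaginary part of a coordinate -/
noncomputable def imL (T : XX →L[ℝ] XX) (n : ℕ) : XX →L[ℝ] ℝ :=
  Complex.imCLM.comp (((coordL n).restrictScalars ℝ).comp T)

theorem reL_apply (T : XX →L[ℝ] XX) (n : ℕ) (w : XX) : reL T n w = (cx (T w) n).re := by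
  show (coordL n (T w)).re = _
  rw [coordL_apply]

theorem imL_apply (T : XX →L[ℝ] XX) (n : ℕ) (w : XX) : imL T n w = (cx (T w) n).im := by
  show (coordL n (T w)).im = _
  rw [coordL_apply]

end LO

open LO

theorem t_LO (els : S_ELS) (wn : S_WN) : S_LO := by
  intro C z hz T N
  have h1 : ∀ n, Tendsto (fun l => ‖cx (T (z l)) n‖) atTop (𝓝 0) := by
    intro n
    have e1 := (wn C z hz (reL T n)).abs
    have e2 := (wn C z hz (imL T n)).abs
    have e3 := e1.add e2
    rw [abs_zero, add_zero] at e3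
    refine squeeze_zero (fun _ => norm_nonneg _) (fun l => ?_) e3
    rw [reL_apply, imL_apply]
    exact Complex.norm_le_abs_re_add_abs_im _
  rw [tendsto_zero_iff_norm_tendsto_zero]
  have h2 : Tendsto (fun l => ∑ n ∈ Ico 0 N, ‖cx (T (z l)) n‖) atTop (𝓝 0) := by
    have := tendsto_finsetSum (Ico 0 N) fun n _ => h1 n
    rwa [Finset.sum_const_zero] at this
  exact squeeze_zero (fun _ => norm_nonneg _) (fun l => norm_Rx_le_sum els N _) h2

end Pool.Agent.Q73.GP
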