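import Pool.Agent.Q73.GP.Stm2

set_option autoImplicit false

/-!
Project GP (port of project GM) (helper73), lemma LOW (helper10): lower estimates by an even node.
-/

namespace Pool.Agent.Q73.GP

open Finset Filter Topology

noncomputable section

namespace LOW

/-- approximation of a complex number of modulus at most one by Gaussian rationals of modulus at
most one -/
theorem exists_approx (s : ℂ) (hs : ‖s‖ ≤ 1) {ε : ℝ} (hε : 0 < ε) (hε1 : ε ≤ 1) :
    ∃ c : ℚ × ℚ, ‖cc c‖ ≤ 1 ∧ ‖cc c - s‖ ≤ 2 * ε := by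
  obtain ⟨p, hp⟩ := Rat.denseRange_cast.exists_dist_lt ((1 - ε) * s.re) (show 0 < ε / 2 by positivity)
  obtain ⟨q, hq⟩ := Rat.denseRange_cast.exists_dist_lt ((1 - ε) * s.im) (show 0 < ε / 2 by positivity)
  have h1 : ‖cc (p, q) - (1 - ε : ℝ) * s‖ ≤ ε := by
    refine (Complex.norm_le_abs_re_add_abs_im _).trans ?_
    have e1 : (cc (p, q) - (1 - ε : ℝ) * s).re = p - (1 - ε) * s.re := by
      simp [cc]
    have e2 : (cc (p, q) - (1 - ε : ℝ) * s).im = q - (1 - ε) * s.im := by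
      simp [cc]
    rw [e1, e2]
    rw [Real.dist_eq, abs_sub_comm] at hp hq
    linarith
  have h2 : ‖((1 - ε : ℝ) : ℂ) * s‖ ≤ 1 - ε := by
    rw [norm_mul, Complex.norm_real, Real.norm_of_nonneg (by linarith)]
    exact mul_le_of_le_one_right (by linarith) hs
  refine ⟨(p, q), ?_, ?_⟩
  · have := norm_add_le (cc (p, q) - (1 - ε : ℝ) * s) (((1 - ε : ℝ) : ℂ) * s)
    rw [sub_add_cancel] at this
    linarith
  · have h3 : cc (p, q) - s = (cc (p, q) - (1 - ε : ℝ) * s) + (-(ε : ℂ) * s) := by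
      push_cast; ring
    rw [h3]
    refine (norm_add_le _ _).trans ?_
    have h4 : ‖-(ε : ℂ) * s‖ ≤ ε := by
      rw [norm_mul, norm_neg, Complex.norm_real, Real.norm_of_nonneg hε.le]
      exact mul_le_of_le_one_right hε.le hs
    linarith

/-- approximation of the phase -/
theorem exists_phase (z : ℂ) {ε : ℝ} (hε : 0 < ε) :
    ∃ c : ℚ × ℚ, ‖cc c‖ ≤ 1 ∧ ‖z‖ - ε ≤ (cc c * z).re := by
  by_cases hz : z = 0
  · refine ⟨(0, 0), ?_, ?_⟩
    · simp [cc]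
    · rw [hz, norm_zero, mul_zero, Complex.zero_re]
      linarith
  · have hz' : 0 < ‖z‖ := norm_pos_iff.2 hz
    have hzc : (‖z‖ : ℂ) ≠ 0 := by exact_mod_cast hz'.ne'
    obtain ⟨s, hs⟩ : ∃ s : ℂ, s = (starRingEnd ℂ) z / ‖z‖ := ⟨_, rfl⟩
    have hs1 : ‖s‖ = 1 := by
      rw [hs, norm_div, RCLike.norm_conj, Complex.norm_real, norm_norm, div_self hz'.ne']
    have hs2 : s * z = (‖z‖ : ℂ) := by
      rw [hs, div_mul_eq_mul_div, mul_comm, Complex.mul_conj, Complex.normSq_eq_norm_sq]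
      rw [div_eq_iff hzc]
      push_cast
      ring
    obtain ⟨δ, hδ⟩ : ∃ δ : ℝ, δ = min 1 (ε / (2 * ‖z‖)) := ⟨_, rfl⟩
    have hδ0 : 0 < δ := by
      rw [hδ]
      exact lt_min one_pos (by positivity)
    obtain ⟨c, hc, hc'⟩ := exists_approx s hs1.le hδ0 (hδ ▸ min_le_left _ _)
    refine ⟨c, hc, ?_⟩
    have e : cc c * z = (‖z‖ : ℂ) + (cc c - s) * z := by
      rw [sub_mul, hs2]
      ring
    rw [e, Complex.add_re, Complex.ofReal_re]
    have h1 : |((cc c - s) * z).re| ≤ ‖(cc c - s) * z‖ := Complex.abs_re_le_norm _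
    have h2 : ‖(cc c - s) * z‖ ≤ 2 * δ * ‖z‖ := by
      rw [norm_mul]
      exact mul_le_mul_of_nonneg_right hc' hz'.le
    have h3 : 2 * δ * ‖z‖ ≤ ε := by
      have : δ ≤ ε / (2 * ‖z‖) := hδ ▸ min_le_right _ _
      rw [le_div_iff₀ (by positivity)] at this
      linarith
    have h4 := neg_abs_le ((cc c - s) * z).re
    linarith

/-- a tree which nearly attains the norm -/
theorem exists_tree (w : XX) {ε : ℝ} (hε : 0 < ε) :
    ∃ f : Tr × ℕ × ℕ, f.1.Wf ∧ ‖w‖ - ε ≤ ‖ev f.1 (cut f.2.1 f.2.2 (cx w))‖ := by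
  by_cases h : ε ≤ ‖w‖
  · obtain ⟨f, hf, hf'⟩ := exists_functional (w := w) (ε := ‖w‖ - ε) (by linarith) (by linarith)
    exact ⟨f, hf, hf'.le⟩
  · exact ⟨(.base 0, 0, 0), trivial, (by linarith : ‖w‖ - ε ≤ 0).trans (norm_nonneg _)⟩

theorem main (q : ℕ) (hq : q % 2 = 0) (a b : ℕ → ℕ) (hab : ∀ l, a l ≤ b l)
    (hsuc : ∀ l l', l < l' → b l ≤ a l') (I : Finset ℕ) (hI : #I ≤ nn q) (x : XX) (ε : ℝ)
    (hε : 0 < ε) :
    ∑ l ∈ I, (‖Rx (a l) (b l) x‖ - 2 * ε) ≤ mm q * ‖x‖ := by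
  have key : ∀ l : ℕ, ∃ (f : Tr × ℕ × ℕ) (c : ℚ × ℚ), f.1.Wf ∧ ‖cc c‖ ≤ 1 ∧
      ‖Rx (a l) (b l) x‖ - 2 * ε ≤
        (cc c * ev f.1 (cut f.2.1 f.2.2 (cx (Rx (a l) (b l) x)))).re := by
    intro l
    obtain ⟨f, hf, hf'⟩ := exists_tree (Rx (a l) (b l) x) hε
    obtain ⟨c, hc, hc'⟩ := exists_phase (ev f.1 (cut f.2.1 f.2.2 (cx (Rx (a l) (b l) x)))) hε
    exact ⟨f, c, hf, hc, by linarith⟩
  choose f c hf hc hfc using key
  obtain ⟨em, hem⟩ : ∃ em : Fin (#I) ↪o ℕ, em = I.orderEmbOfFin rfl := ⟨_, rfl⟩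
  obtain ⟨N, hN⟩ : ∃ N : ℕ, ∀ l ∈ I, b l ≤ N :=
    ⟨I.sup b, fun l hl => Finset.le_sup hl⟩
  obtain ⟨t, ht⟩ : ∃ t : Fin (#I) → Tr, t = fun i => Tr.cv 1 (fun _ => (1, 0))
    (fun _ => (f (em i)).2.1) (fun _ => (f (em i)).2.2) (fun _ => (f (em i)).1) := ⟨_, rfl⟩
  have hcc : cc ((1 : ℚ), (0 : ℚ)) = 1 := by simp [cc]
  have hwf : (Tr.node q (#I) (fun i => c (em i)) (fun i => a (em i)) (fun i => b (em i)) t).Wf := by
    refine ⟨hI, ?_, fun i => hc _, fun i => hab _, fun i i' h => hsuc _ _ (em.strictMono h), ?_⟩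
    · intro i
      rw [ht]
      refine ⟨fun _ => hf _, ?_⟩
      rw [Finset.sum_const, Finset.card_univ, Fintype.card_fin, one_smul, hcc, norm_one]
    · intro h
      omega
  have h1 := x.bd _ hwf 0 N
  rw [ev_node] at h1
  have h2 : ∀ i : Fin (#I), ev (t i) (cut (a (em i)) (b (em i)) (cut 0 N (cx x))) =
      ev (f (em i)).1 (cut (f (em i)).2.1 (f (em i)).2.2 (cx (Rx (a (em i)) (b (em i)) x))) := by
    intro i
    have hi : em i ∈ I := by
      rw [hem]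
      exact Finset.orderEmbOfFin_mem _ _ _
    rw [ht]
    simp only []
    rw [ev_cv]
    rw [Finset.univ_unique, Finset.sum_singleton, hcc, one_mul, cx_Rx]
    congr 2
    rw [cut_cut, max_eq_left (Nat.zero_le _), min_eq_left (hN _ hi)]
  have h3 : ∑ l ∈ I, (‖Rx (a l) (b l) x‖ - 2 * ε) =
      ∑ i : Fin (#I), (‖Rx (a (em i)) (b (em i)) x‖ - 2 * ε) := by
    have h4 : I = Finset.univ.map em.toEmbedding := by
      rw [hem]
      exact (Finset.map_orderEmbOfFin_univ I rfl).symm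
    calc ∑ l ∈ I, (‖Rx (a l) (b l) x‖ - 2 * ε)
        = ∑ l ∈ Finset.univ.map em.toEmbedding, (‖Rx (a l) (b l) x‖ - 2 * ε) := by rw [← h4]
      _ = _ := by
        rw [Finset.sum_map]
        rfl
  rw [h3]
  have h5 : ∑ i : Fin (#I), (‖Rx (a (em i)) (b (em i)) x‖ - 2 * ε) ≤
      (∑ i : Fin (#I), cc (c (em i)) *
        ev (t i) (cut (a (em i)) (b (em i)) (cut 0 N (cx x)))).re := by
    rw [Complex.re_sum]
    refine Finset.sum_le_sum fun i _ => ?_
    rw [h2]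
    exact hfc _
  refine h5.trans ((Complex.re_le_norm _).trans ?_)
  rw [norm_mul, norm_inv, Complex.norm_natCast, inv_mul_le_iff₀ (mm_pos' q)] at h1
  exact h1

end LOW

theorem t_LOW : S_LOW := by
  intro q hq a b hab hsuc I hI x
  refine le_of_forall_pos_le_add fun δ hδ => ?_
  have hp : (0 : ℝ) < 2 * (#I + 1) := by positivity
  have h := LOW.main q hq a b hab hsuc I hI x (δ / (2 * (#I + 1))) (by positivity)
  rw [Finset.sum_sub_distrib, Finset.sum_const, nsmul_eq_mul] at h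
  have h2 : (#I : ℝ) * (2 * (δ / (2 * (#I + 1)))) ≤ δ := by
    have : (#I : ℝ) * (2 * (δ / (2 * (#I + 1)))) = δ * (#I / (#I + 1)) := by
      field_simp
    rw [this]
    refine mul_le_of_le_one_right hδ.le ?_
    rw [div_le_one (by positivity)]
    linarith
  linarith

end

end Pool.Agent.Q73.GP
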