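import Pool.Agent.Q73.GP.Stm2

set_option autoImplicit false

namespace Pool.Agent.Q73.GP

namespace MM

open Finset

theorem mm_core (E : Type) [AddCommGroup E] [Module ℝ E] (B : Set E) (hB : Convex ℝ B) (hne : B.Nonempty)
    (s : ℕ) (N : Fin s → E → ℝ) (hN : ∀ i, ConvexOn ℝ B (N i)) (c : ℝ) (hc : ∀ b ∈ B, ∃ i, c ≤ N i b) :
    ∃ w : Fin s → ℝ, (∀ i, 0 ≤ w i) ∧ ∑ i, w i = 1 ∧ ∀ b ∈ B, c ≤ ∑ i, w i * N i b := by
  classical
  set U : Set (Fin s → ℝ) := {t | ∃ b ∈ B, ∀ i, N i b < t i} with hU
  have hUo : IsOpen U := by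
    have : U = ⋃ b ∈ B, ⋂ i, {t : Fin s → ℝ | N i b < t i} := by
      ext t
      simp [hU]
    rw [this]
    refine isOpen_biUnion fun b _ => isOpen_iInter_of_finite fun i => ?_
    exact isOpen_lt continuous_const (continuous_apply i)
  have hUc : Convex ℝ U := by
    rintro t ⟨b, hb, h1⟩ t' ⟨b', hb', h2⟩ x y hx hy hxy
    refine ⟨x • b + y • b', hB hb hb' hx hy hxy, fun i => ?_⟩
    have h3 := (hN i).2 hb hb' hx hy hxy
    refine lt_of_le_of_lt h3 ?_
    simp only [Pi.add_apply, Pi.smul_apply, smul_eq_mul]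
    rcases eq_or_lt_of_le hx with hx0 | hx0
    · have hy1 : y = 1 := by linarith
      rw [← hx0, hy1]
      simpa using h2 i
    · have := mul_lt_mul_of_pos_left (h1 i) hx0
      have := mul_le_mul_of_nonneg_left (h2 i).le hy
      linarith
  have hp : (fun _ : Fin s => c) ∉ U := by
    rintro ⟨b, hb, h⟩
    obtain ⟨i, hi⟩ := hc b hb
    exact absurd (h i) (not_lt.2 hi)
  obtain ⟨g, hg⟩ := geometric_hahn_banach_open_point hUc hUo hp
  set w : Fin s → ℝ := fun i => - g (Pi.single i 1) with hw
  have hgw : ∀ t : Fin s → ℝ, g t = - ∑ i, w i * t i := by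
    intro t
    have h1 : t = ∑ i, t i • (Pi.single i (1 : ℝ) : Fin s → ℝ) := by
      funext j
      simp [Finset.sum_apply, Pi.single_apply]
    conv_lhs => rw [h1]
    rw [map_sum, ← Finset.sum_neg_distrib]
    refine Finset.sum_congr rfl fun i _ => ?_
    rw [map_smul, hw, smul_eq_mul]
    ring
  have key : ∀ t ∈ U, ∑ i, w i * c < ∑ i, w i * t i := by
    intro t ht
    have := hg t ht
    rw [hgw, hgw] at this
    linarith
  obtain ⟨b0, hb0⟩ := hne
  have ht0 : (fun i => N i b0 + 1) ∈ U := ⟨b0, hb0, fun i => by simp⟩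
  have hw0 : ∀ i, 0 ≤ w i := by
    intro i
    by_contra hneg
    push Not at hneg
    set K : ℝ := ∑ j, w j * (N j b0 + 1) - ∑ j, w j * c with hK
    have hKpos : 0 < K := by
      have := key _ ht0
      rw [hK]; linarith
    set l : ℝ := K / (- w i) with hl
    have hlpos : 0 < l := div_pos hKpos (by linarith)
    have h1 : (fun j => N j b0 + 1 + (if j = i then l else 0)) ∈ U := by
      refine ⟨b0, hb0, fun j => ?_⟩
      dsimp only
      split_ifs <;> linarith
    have h2 := key _ h1
    have h3 : ∑ j, w j * (N j b0 + 1 + (if j = i then l else 0)) = ∑ j, w j * (N j b0 + 1) + w i * l := by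
      simp only [mul_add, Finset.sum_add_distrib, mul_ite, mul_zero, Finset.sum_ite_eq', Finset.mem_univ, if_true]
    rw [h3] at h2
    have h4 : w i * l = - K := by
      rw [hl]
      have hne' : w i ≠ 0 := hneg.ne
      rw [div_neg, mul_neg, mul_div_cancel₀ _ hne']
    rw [h4] at h2
    rw [hK] at h2
    linarith
  have hW : 0 < ∑ i, w i := by
    rcases eq_or_lt_of_le (Finset.sum_nonneg fun i (_ : i ∈ (univ : Finset (Fin s))) => hw0 i) with h | h
    · have h5 : ∀ i, w i = 0 := by
        intro i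
        exact (Finset.sum_eq_zero_iff_of_nonneg fun i _ => hw0 i).1 h.symm i (Finset.mem_univ i)
      have := key _ ht0
      simp [h5] at this
    · exact h
  set W := ∑ i, w i with hWdef
  refine ⟨fun i => w i / W, fun i => div_nonneg (hw0 i) hW.le, ?_, fun b hb => ?_⟩
  · rw [← Finset.sum_div, ← hWdef]
    exact div_self hW.ne'
  · have h6 : W * c ≤ ∑ i, w i * N i b := by
      refine le_of_forall_pos_le_add fun ε hε => ?_
      have h7 : (fun i => N i b + ε / W) ∈ U := ⟨b, hb, fun i => by
        have : 0 < ε / W := div_pos hε hW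
        dsimp only
        linarith⟩
      have h8 := key _ h7
      rw [← Finset.sum_mul] at h8
      simp only [mul_add, Finset.sum_add_distrib] at h8
      rw [← Finset.sum_mul, ← hWdef] at h8
      have h9 : W * (ε / W) = ε := by field_simp
      linarith
    have h10 : ∑ i, w i / W * N i b = (∑ i, w i * N i b) / W := by
      rw [Finset.sum_div]
      exact Finset.sum_congr rfl fun i _ => by ring
    rw [h10, le_div_iff₀ hW]
    linarith

end MM

theorem t_MM : S_MM := by
  intro E _ _ B hB hne s N hN c hc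
  exact MM.mm_core E B hB hne s N hN c hc

end Pool.Agent.Q73.GP
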