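import Pool.Agent.Q73.GP.Stm2

set_option autoImplicit false

/-!
Project GP (port of project GM) (helper73): GM-MRG, merging of finitely many rapidly increasing sequences (helper166).
-/

namespace Pool.Agent.Q73.GP.MRG

open Finset Filter Topology
open scoped BoundedContinuousFunction

noncomputable section

/-- the residue of an index -/
def md {s : ℕ} (hs : 0 < s) (j : ℕ) : Fin s := ⟨j % s, Nat.mod_lt _ hs⟩

theorem card_fiber {s : ℕ} (hs : 0 < s) (a κ : ℕ) (i : Fin s) :
    #((Ico (s * a) (s * (a + κ))).filter fun j => md hs j = i) = κ := by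
  have h : (Ico (s * a) (s * (a + κ))).filter (fun j => md hs j = i) =
      (Ico a (a + κ)).image fun r => s * r + i := by
    ext j
    rw [mem_filter, mem_image, mem_Ico]
    constructor
    · rintro ⟨⟨h1, h2⟩, h3⟩
      have h4 : j % s = i := by
        rw [← h3]
        rfl
      refine ⟨j / s, mem_Ico.2 ⟨?_, ?_⟩, ?_⟩
      · rw [Nat.le_div_iff_mul_le hs, mul_comm]
        exact h1
      · rw [Nat.div_lt_iff_lt_mul hs, mul_comm]
        exact h2
      · rw [← h4]
        exact Nat.div_add_mod j s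
    · rintro ⟨r, hr, rfl⟩
      rw [mem_Ico] at hr
      have hi := i.2
      refine ⟨⟨?_, ?_⟩, ?_⟩
      · exact (Nat.mul_le_mul_left s hr.1).trans (Nat.le_add_right _ _)
      · calc s * r + i < s * r + s := by omega
          _ = s * (r + 1) := by ring
          _ ≤ s * (a + κ) := Nat.mul_le_mul_left s (by omega)
      · apply Fin.ext
        show (s * r + i) % s = i
        rw [Nat.mul_add_mod, Nat.mod_eq_of_lt hi]
  rw [h, card_image_of_injective, Nat.card_Ico]
  · omega
  · intro r r' hrr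
    simp only [Nat.add_right_cancel_iff] at hrr
    exact Nat.eq_of_mul_eq_mul_left hs hrr

/-- convex combinations of vectors with the estimates `Av` -/
theorem Av_sum {s : ℕ} {C : ℝ} {q : ℕ} (w : Fin s → ℝ) (hw : ∀ i, 0 ≤ w i) (hw1 : ∑ i, w i = 1)
    (Y : Fin s → V) (h : ∀ i, Av C q (Y i)) : Av C q (∑ i, (w i : ℂ) • Y i) := by
  have key : ∀ (t : Tr) (α β : ℕ) (E : ℝ), (∀ i, ‖ev t (cut α β (Y i))‖ ≤ E) →
      ‖ev t (cut α β (∑ i, (w i : ℂ) • Y i))‖ ≤ E := by
    intro t α β E hE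
    rw [map_sum, map_sum]
    calc ‖∑ i, ev t (cut α β ((w i : ℂ) • Y i))‖
        ≤ ∑ i, ‖ev t (cut α β ((w i : ℂ) • Y i))‖ := norm_sum_le _ _
      _ ≤ ∑ i, w i * E := by
          refine Finset.sum_le_sum fun i _ => ?_
          rw [map_smul, map_smul, norm_smul, Complex.norm_real, Real.norm_of_nonneg (hw i)]
          exact mul_le_mul_of_nonneg_left (hE i) (hw i)
      _ = E := by rw [← Finset.sum_mul, hw1, one_mul]
  exact
    { bd := fun t ht α β => key t α β _ fun i => (h i).bd t ht α β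
      low := fun t ht i hi hiq α β => key t α β _ fun i' => (h i').low t ht i hi hiq α β
      high := fun t ht i hi α β => key t α β _ fun i' => (h i').high t ht i hi α β }

/-- the starting points of the blocks -/
def st (m : ℕ) (κ : ℕ → ℕ) : ℕ → ℕ
  | 0 => m
  | n + 1 => st m κ n + κ n

theorem st_strictMono (m : ℕ) (κ : ℕ → ℕ) (h : ∀ n, 0 < κ n) : StrictMono (st m κ) := by
  refine strictMono_nat_of_lt_succ fun n => ?_
  show st m κ n < st m κ n + κ n
  have := h n
  omega

theorem le_st (m : ℕ) (κ : ℕ → ℕ) (h : ∀ n, 0 < κ n) (n : ℕ) : m ≤ st m κ n :=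
  (st_strictMono m κ h).monotone (Nat.zero_le n)

/-- the length of the blocks -/
theorem kappa {s q : ℕ} (hs : 0 < s) (hq : 2 * s ≤ mm q) :
    0 < nn q / s ∧ s * (nn q / s) ≤ nn q ∧ nn q ≤ mm q * (nn q / s) := by
  have h1 : mm q ≤ nn q := (Nat.le_self_pow (by norm_num) _).trans (mm_pow_le_nn q)
  have h2 : s * (nn q / s) ≤ nn q := Nat.mul_div_le _ _
  have h3 : nn q < s * (nn q / s) + s := by
    have h4 := Nat.div_add_mod (nn q) s
    have h5 := Nat.mod_lt (nn q) hs
    omega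
  refine ⟨Nat.div_pos (by omega) hs, h2, ?_⟩
  calc nn q ≤ 2 * (s * (nn q / s)) := by omega
    _ = 2 * s * (nn q / s) := by ring
    _ ≤ mm q * (nn q / s) := Nat.mul_le_mul_right _ hq

/-- the growth condition for `q n = 2 (n + K)` -/
theorem grow (C : ℝ) (hC : 1 ≤ C) (K : ℕ) (hK : 4 * C ≤ K) (n : ℕ) :
    3 * C * ((mm (2 * (n + K)) : ℝ) ^ 2 / nn (2 * (n + K))) +
      C * ((mm (2 * (n + K)) : ℝ) / mm (2 * (n + 1 + K))) ≤ (1 / 2) ^ n := by
  set M : ℝ := (mm (2 * (n + K)) : ℝ) with hM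
  have hM4 : 4 ≤ M := one_le_mm _
  have hM0 : 0 < M := by linarith
  have h1 : (mm (2 * (n + 1 + K)) : ℝ) = M ^ 4 := by
    rw [show 2 * (n + 1 + K) = 2 * (n + K) + 1 + 1 by ring, mm_succ, mm_succ]
    push_cast
    rw [← hM]
    ring
  have h2 : M ^ 4 ≤ (nn (2 * (n + K)) : ℝ) := mm_le_nn _
  have h3 : M ^ 2 / (nn (2 * (n + K)) : ℝ) ≤ 1 / M ^ 2 := by
    rw [div_le_div_iff₀ (by exact lt_of_lt_of_le (by positivity) h2) (by positivity)]
    calc M ^ 2 * M ^ 2 = M ^ 4 := by ring
      _ ≤ _ := by linarith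
  have h4 : M / (mm (2 * (n + 1 + K)) : ℝ) ≤ 1 / M ^ 2 := by
    rw [h1, div_le_div_iff₀ (by positivity) (by positivity)]
    calc M * M ^ 2 = M ^ 3 * 1 := by ring
      _ ≤ M ^ 3 * M := mul_le_mul_of_nonneg_left (by linarith) (by positivity)
      _ = 1 * M ^ 4 := by ring
  have h5 : 4 * C * 2 ^ n ≤ M := by
    have h6 : ((n + K : ℕ) : ℝ) + 1 ≤ (2 : ℝ) ^ (n + K) := by
      exact_mod_cast Nat.lt_two_pow_self
    have h7 : (2 : ℝ) ^ (2 ^ (2 * (n + K) + 1)) = M := by
      rw [hM]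
      unfold mm
      push_cast
      ring
    have h8 : n + K ≤ 2 ^ (2 * (n + K) + 1) := by
      have : 2 * (n + K) + 1 < 2 ^ (2 * (n + K) + 1) := Nat.lt_two_pow_self
      omega
    have h9 : (K : ℝ) ≤ (2 : ℝ) ^ K := by
      exact_mod_cast Nat.lt_two_pow_self.le
    calc 4 * C * 2 ^ n ≤ 2 ^ K * 2 ^ n :=
          mul_le_mul_of_nonneg_right (hK.trans h9) (by positivity)
      _ = (2 : ℝ) ^ (n + K) := by rw [← pow_add, add_comm]
      _ ≤ (2 : ℝ) ^ (2 ^ (2 * (n + K) + 1)) := pow_le_pow_right₀ (by norm_num) h8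
      _ = M := h7
  have h6 : 3 * C * (M ^ 2 / (nn (2 * (n + K)) : ℝ)) + C * (M / (mm (2 * (n + 1 + K)) : ℝ)) ≤
      4 * C * (1 / M ^ 2) := by
    have h7 := mul_le_mul_of_nonneg_left h3 (show (0 : ℝ) ≤ 3 * C by linarith)
    have h8 := mul_le_mul_of_nonneg_left h4 (show (0 : ℝ) ≤ C by linarith)
    linarith
  refine h6.trans ?_
  rw [one_div_pow, mul_one_div, div_le_div_iff₀ (by positivity) (by positivity), one_mul]
  calc 4 * C * 2 ^ n ≤ M := h5
    _ = M * 1 := (mul_one M).symm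
    _ ≤ M * M := mul_le_mul_of_nonneg_left (by linarith) hM0.le
    _ = M ^ 2 := by ring

/-- the coefficients of a block -/
def lam {s : ℕ} (hs : 0 < s) (w : Fin s → ℝ) (q κ : ℕ) (j : ℕ) : ℝ :=
  w (md hs j) * ((mm q : ℝ) / κ)

theorem cx_real (r : ℝ) (x : XX) : cx (r • x) = (r : ℂ) • cx x := by
  rw [← Complex.coe_smul, map_smul]

/-- a block vector is a convex combination of averages -/
theorem block {s : ℕ} (hs : 0 < s) (w : Fin s → ℝ) (q a κ : ℕ) (u : ℕ → XX) :
    cx (∑ j ∈ Ico (s * a) (s * (a + κ)), lam hs w q κ j • u j) =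
      ∑ i, (w i : ℂ) • (((mm q : ℂ) /
        ((#((Ico (s * a) (s * (a + κ))).filter fun j => md hs j = i) : ℕ) : ℂ)) •
        ∑ j ∈ (Ico (s * a) (s * (a + κ))).filter (fun j => md hs j = i), cx (u j)) := by
  rw [← Finset.sum_fiberwise _ (md hs), map_sum]
  refine Finset.sum_congr rfl fun i _ => ?_
  rw [card_fiber, map_sum, Finset.smul_sum, Finset.smul_sum]
  refine Finset.sum_congr rfl fun j hj => ?_
  rw [mem_filter] at hj
  unfold lam
  rw [cx_real, hj.2, smul_smul]
  push_cast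
  rfl

/-- sums over a block -/
theorem block_sum {s : ℕ} (hs : 0 < s) (w g : Fin s → ℝ) (q a κ : ℕ) (hκ : 0 < κ) :
    ∑ j ∈ Ico (s * a) (s * (a + κ)), lam hs w q κ j * g (md hs j) =
      (mm q : ℝ) * ∑ i, w i * g i := by
  rw [← Finset.sum_fiberwise _ (md hs), Finset.mul_sum]
  refine Finset.sum_congr rfl fun i _ => ?_
  have h1 : ∀ j ∈ (Ico (s * a) (s * (a + κ))).filter (fun j => md hs j = i),
      lam hs w q κ j * g (md hs j) = w i * ((mm q : ℝ) / κ) * g i := by
    intro j hj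
    rw [mem_filter] at hj
    unfold lam
    rw [hj.2]
  rw [Finset.sum_congr rfl h1, Finset.sum_const, card_fiber, nsmul_eq_mul]
  have h2 : (κ : ℝ) ≠ 0 := by exact_mod_cast hκ.ne'
  field_simp

end

end Pool.Agent.Q73.GP.MRG

namespace Pool.Agent.Q73.GP

open Finset Filter Topology
open MRG

theorem t_MRG (avg : S_AVG) (rav : S_RAV) (sel : S_SEL) (lb : S_LB) : S_MRG := by
  intro T m C δ hC hδ s z hz w hw0 hw1
  have hs : 0 < s := by
    rcases Nat.eq_zero_or_pos s with h | h
    · subst h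
      simp at hw1
    · exact h
  obtain ⟨v, φ, A, B, J, hris, hwin, -⟩ := sel (δ / 8) T C (fun j _ => z (md hs j))
    (fun _ _ _ => True) (by positivity) (fun j _ => hz _) (fun _ _ => Frequently.of_forall
      (fun _ => trivial))
  set u : ℕ → XX := fun j => z (md hs j) (φ j) with hu
  -- the parameters
  obtain ⟨K0, hK0⟩ := exists_nat_ge (4 * C)
  set K : ℕ := K0 + 2 * s with hKdef
  have hK : 4 * C ≤ (K : ℝ) := by
    rw [hKdef]
    push_cast
    have : (0 : ℝ) ≤ s := Nat.cast_nonneg s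
    linarith
  set q : ℕ → ℕ := fun n => 2 * (n + K) with hqdef
  have hqs : ∀ n, 2 * s ≤ mm (q n) := by
    intro n
    have h1 := lt_mm (q n)
    have h2 : q n = 2 * (n + K) := rfl
    omega
  set κ : ℕ → ℕ := fun n => nn (q n) / s with hκdef
  have hκ0 : ∀ n, 0 < κ n := fun n => (kappa hs (hqs n)).1
  have hκ1 : ∀ n, s * κ n ≤ nn (q n) := fun n => (kappa hs (hqs n)).2.1
  have hκ2 : ∀ n, nn (q n) ≤ mm (q n) * κ n := fun n => (kappa hs (hqs n)).2.2
  set a : ℕ → ℕ := st m κ with hadef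
  have ha : StrictMono a := st_strictMono m κ hκ0
  have ham : ∀ n, m ≤ a n := le_st m κ hκ0
  have hasucc : ∀ n, a (n + 1) = a n + κ n := fun n => rfl
  set I : ℕ → Finset ℕ := fun n => Ico (s * a n) (s * (a n + κ n)) with hIdef
  have hIcard : ∀ n, #(I n) ≤ nn (q n) := by
    intro n
    rw [hIdef]
    simp only [Nat.card_Ico]
    have h1 : s * (a n + κ n) - s * a n = s * κ n := by
      rw [mul_add]
      omega
    rw [h1]
    exact hκ1 n
  have hImem : ∀ n, ∀ j ∈ I n, s * a n ≤ j ∧ j < s * a (n + 1) := by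
    intro n j hj
    rw [hasucc]
    exact mem_Ico.1 hj
  have hIm : ∀ n, ∀ j ∈ I n, m ≤ j := by
    intro n j hj
    have h1 := (hImem n j hj).1
    have h2 := ham n
    have h3 : a n ≤ s * a n := Nat.le_mul_of_pos_left _ hs
    omega
  have hAmono : ∀ i j, i ≤ j → A i ≤ A j := by
    intro i j hij
    rcases hij.eq_or_lt with h | h
    · rw [h]
    · exact (hris.succ.2.1 i).trans (hris.succ.2.2 i j h)
  -- the vectors
  set y : ℕ → XX := fun n => ∑ j ∈ I n, lam hs w (q n) (κ n) j • u j with hydef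
  have hyav : ∀ n, Av C (q n) (cx (y n)) := by
    intro n
    have h1 : cx (y n) = _ := block hs w (q n) (a n) (κ n) u
    rw [h1]
    refine Av_sum w hw0 hw1 _ fun i => ?_
    refine avg C (fun j => cx (u j)) A B J hris (q n) _ ?_
    rw [card_fiber]
    exact hκ2 n
  have hysucc : Succ (fun n => cx (y n)) (fun n => A (s * a n)) (fun n => A (s * a (n + 1))) := by
    refine ⟨fun n k hk => ?_, fun n => ?_, fun n n' hn => ?_⟩
    · show cx (∑ j ∈ I n, lam hs w (q n) (κ n) j • u j) k = 0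
      rw [map_sum, Finset.sum_apply]
      refine Finset.sum_eq_zero fun j hj => ?_
      rw [cx_real, Pi.smul_apply]
      have h1 := hImem n j hj
      have h2 := hAmono _ _ h1.1
      have h3 := hris.succ.2.2 j _ h1.2
      have h4 : cx (u j) k = 0 := hris.succ.1 j k (by
        rcases hk with hk | hk
        · left
          exact hk.trans_le h2
        · right
          exact h3.trans hk)
      rw [h4, smul_zero]
    · exact hAmono _ _ (Nat.mul_le_mul_left s (ha.monotone (Nat.le_succ n)))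
    · exact hAmono _ _ (Nat.mul_le_mul_left s (ha.monotone hn))
  have hytend : Tendsto (fun n => A (s * a n)) atTop atTop := by
    refine hris.tend.comp (tendsto_atTop_mono (fun n => ?_) ha.tendsto_atTop)
    exact Nat.le_mul_of_pos_left _ hs
  have hqmono : StrictMono q := by
    intro n n' hn
    show 2 * (n + K) < 2 * (n' + K)
    omega
  refine ⟨y, ⟨_, _, q, rav C (fun n => cx (y n)) _ _ q hC hysucc hytend hqmono hyav
    (fun n => grow C hC K hK n)⟩, fun n b hb g hg => ?_⟩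
  have hw1' : ∀ i, w i ≤ 1 := fun i => by
    rw [← hw1]
    exact Finset.single_le_sum (fun i _ => hw0 i) (Finset.mem_univ i)
  have hκR : (1 : ℝ) ≤ κ n := by exact_mod_cast hκ0 n
  have hmm : (0 : ℝ) < mm (q n) := mm_pos' _
  have hdiv : (mm (q n) : ℝ) / κ n ≤ mm (q n) := div_le_self hmm.le hκR
  have h1 := lb (δ / 8) T u A B v (by positivity) hwin m (q n) (by
      show 2 * (n + K) % 2 = 0
      omega) (I n) (hIcard n) (hIm n) (lam hs w (q n) (κ n)) (fun j => by
      unfold lam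
      have := hw0 (md hs j)
      positivity) (fun j => by
      unfold lam
      calc w (md hs j) * ((mm (q n) : ℝ) / κ n) ≤ 1 * (mm (q n) : ℝ) :=
            mul_le_mul (hw1' _) hdiv (by positivity) (by norm_num)
        _ = mm (q n) := one_mul _) b hb
  have h2 : (mm (q n) : ℝ) * ∑ i, w i * g i ≤
      ∑ j ∈ I n, lam hs w (q n) (κ n) j * ‖T (u j) - op b (u j)‖ := by
    rw [← block_sum hs w g (q n) (a n) (κ n) (hκ0 n)]
    refine Finset.sum_le_sum fun j _ => ?_
    refine mul_le_mul_of_nonneg_left (hg (md hs j) (φ j)) ?_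
    unfold lam
    have := hw0 (md hs j)
    positivity
  have h3 : (mm (q n) : ℝ) * (∑ i, w i * g i - δ) ≤ mm (q n) * ‖T (y n) - op b (y n)‖ := by
    refine le_trans ?_ h1
    have h4 : 8 * (δ / 8) * (mm (q n) : ℝ) = mm (q n) * δ := by ring
    rw [h4, mul_sub]
    exact sub_le_sub_right h2 _
  exact le_of_mul_le_mul_left h3 hmm

end Pool.Agent.Q73.GP
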