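import Pool.Agent.Q73.GP.Stm2

set_option autoImplicit false

/-!
Project GP (port of project GM) (helper73), job NET (helper92): finite nets of `B_m` in the `ℓ¹` norm, with points in `B_m`.
-/

namespace Pool.Agent.Q73.GP.NET

open Finset Filter Topology
open scoped BoundedContinuousFunction Classical

noncomputable section

/-- the element of the span with given coefficients on a finite set -/
def el (S : Finset Sg) (c : S → ℂ) : LS :=
  Finsupp.onFinset S (fun v => if h : v ∈ S then c ⟨v, h⟩ else 0) (by
    intro v hv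
    by_contra h
    exact hv (dif_neg h))

theorem el_apply (S : Finset Sg) (c : S → ℂ) (v : S) : el S c v = c v := by
  show (if h : (v : Sg) ∈ S then c ⟨v, h⟩ else 0) = c v
  rw [dif_pos v.2]

theorem el_support (S : Finset Sg) (c : S → ℂ) : (el S c).support ⊆ S :=
  Finsupp.support_onFinset_subset

theorem nrm_eq (S : Finset Sg) (b : LS) (h : b.support ⊆ S) : nrm b = ∑ v : S, ‖b v‖ := by
  unfold nrm Finsupp.sum
  rw [Finset.sum_coe_sort S (fun v => ‖b v‖)]
  refine Finset.sum_subset h fun v _ hv => ?_
  show ‖b v‖ = 0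
  rw [Finsupp.notMem_support_iff.1 hv, norm_zero]

theorem isCompact_ball (S : Finset Sg) (m : ℕ) : IsCompact {c : S → ℂ | ∑ v, ‖c v‖ ≤ m} := by
  refine Metric.isCompact_of_isClosed_isBounded ?_ ?_
  · exact isClosed_le (continuous_finsetSum _ fun v _ => (continuous_apply v).norm)
      continuous_const
  · refine (Metric.isBounded_closedBall (x := (0 : S → ℂ)) (r := (m : ℝ))).subset ?_
    intro c hc
    rw [mem_closedBall_zero_iff]
    refine (pi_norm_le_iff_of_nonneg (Nat.cast_nonneg m)).2 fun v => ?_
    exact (Finset.single_le_sum (f := fun v => ‖c v‖) (fun _ _ => norm_nonneg _)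
      (Finset.mem_univ v)).trans hc

end

end Pool.Agent.Q73.GP.NET

namespace Pool.Agent.Q73.GP

open Finset Filter Topology NET

theorem t_NET (fi : S_FIN) : S_NET := by
  classical
  intro m δ hδ
  set S : Finset Sg := (fi m).toFinset with hS
  have hmem : ∀ v, v ∈ S ↔ v.In m := fun v => by
    rw [hS, Set.Finite.mem_toFinset]
    exact Iff.rfl
  have hε : 0 < δ / (Fintype.card S + 1) := by positivity
  obtain ⟨t, ht, htf, hcov⟩ := (isCompact_ball S m).finite_cover_balls hε
  refine ⟨htf.toFinset.image (el S), ?_, ?_⟩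
  · intro b hb
    obtain ⟨c, hc, rfl⟩ := Finset.mem_image.1 hb
    refine ⟨fun v hv => (hmem v).1 (el_support S c hv), ?_⟩
    rw [nrm_eq S _ (el_support S c)]
    simp only [el_apply]
    exact ht (htf.mem_toFinset.1 hc)
  · intro b hb
    have hbS : b.support ⊆ S := fun v hv => (hmem v).2 (hb.1 v hv)
    have h1 : (fun v : S => b v) ∈ {c : S → ℂ | ∑ v, ‖c v‖ ≤ m} := by
      have := hb.2
      rw [nrm_eq S _ hbS] at this
      exact this
    obtain ⟨c, hc, hcb⟩ := Set.mem_iUnion₂.1 (hcov h1)
    refine ⟨el S c, Finset.mem_image_of_mem _ (htf.mem_toFinset.2 hc), ?_⟩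
    have h2 : (b - el S c).support ⊆ S :=
      Finsupp.support_sub.trans (Finset.union_subset hbS (el_support S c))
    rw [nrm_eq S _ h2]
    have h3 : ∀ v : S, ‖(b - el S c) v‖ ≤ δ / (Fintype.card S + 1) := by
      intro v
      rw [Finsupp.sub_apply, el_apply]
      rw [Metric.mem_ball, dist_eq_norm] at hcb
      exact (norm_le_pi_norm ((fun v : S => b v) - c) v).trans hcb.le
    refine (Finset.sum_le_sum fun v _ => h3 v).trans ?_
    rw [Finset.sum_const, Finset.card_univ, nsmul_eq_mul, mul_div_assoc', div_le_iff₀ (by positivity)]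
    nlinarith

end Pool.Agent.Q73.GP
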