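import Pool.Agent.Q73.GP.Stm1

set_option autoImplicit false

/-!
Project GP (port of project GM) (helper73): the lemma NODE (port of `RIS.node_est` of the seed library).
-/

namespace Pool.Agent.Q73.GP

open Finset Filter Topology

noncomputable section

namespace NODE

theorem sum_half_le (I : Finset ℕ) : ∑ l ∈ I, ((1 : ℝ) / 2) ^ l ≤ 2 := by
  have h := Summable.sum_le_tsum I (fun l _ => by positivity) summable_geometric_two
  rwa [tsum_geometric_two] at h

end NODE

theorem t_NODE : S_NODE := by
  classical
  intro C u A B J h t hw i hi α β I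
  have hC : 0 ≤ C := by linarith [h.hC]
  rw [map_sum, map_sum]
  refine (norm_sum_le _ _).trans ?_
  have h1 : ∀ l ∈ I, ‖ev t (cut α β (u l))‖ ≤
      (C / mm i + (1 / 2) ^ l) + (if J l ≤ i ∧ i < J (l + 1) then C else 0) := by
    intro l _
    have hp : (0 : ℝ) ≤ (1 / 2) ^ l := by positivity
    have hq : (0 : ℝ) ≤ C / mm i := by positivity
    rcases lt_or_ge i (J l) with h2 | h2
    · rw [if_neg (by omega)]
      linarith [h.low l t hw i hi h2 α β]
    · rcases lt_or_ge i (J (l + 1)) with h3 | h3
      · rw [if_pos ⟨h2, h3⟩]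
        linarith [h.bd l t hw α β]
      · rw [if_neg (by omega)]
        linarith [h.high l t hw i hi h3 α β]
  refine (Finset.sum_le_sum h1).trans ?_
  rw [Finset.sum_add_distrib, Finset.sum_add_distrib, Finset.sum_const, nsmul_eq_mul]
  have h4 : ∑ l ∈ I, (if J l ≤ i ∧ i < J (l + 1) then C else 0) ≤ C := by
    rw [← Finset.sum_filter, Finset.sum_const, nsmul_eq_mul]
    have h5 : (I.filter fun l => J l ≤ i ∧ i < J (l + 1)).card ≤ 1 := by
      rw [Finset.card_le_one]
      intro l hl l' hl'
      have h6 := (Finset.mem_filter.1 hl).2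
      have h7 := (Finset.mem_filter.1 hl').2
      by_contra hne
      rcases lt_or_gt_of_ne hne with h8 | h8
      · have := h.mono.monotone (Nat.succ_le_of_lt h8)
        rw [Nat.succ_eq_add_one] at this
        omega
      · have := h.mono.monotone (Nat.succ_le_of_lt h8)
        rw [Nat.succ_eq_add_one] at this
        omega
    have h9 : ((I.filter fun l => J l ≤ i ∧ i < J (l + 1)).card : ℝ) ≤ 1 := by exact_mod_cast h5
    calc ((I.filter fun l => J l ≤ i ∧ i < J (l + 1)).card : ℝ) * C ≤ 1 * C :=
          mul_le_mul_of_nonneg_right h9 hC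
      _ = C := one_mul C
  have h10 := NODE.sum_half_le I
  linarith [mul_comm (C / (mm i : ℝ)) (#I : ℝ)]

end

end Pool.Agent.Q73.GP
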