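import Pool.Agent.Q73.GP.Stm3
import Pool.Agent.Q73.GP.COMP

set_option autoImplicit false

/-! Project GP (helper73), lemma NU1: a lower bound for factorisations through `1/2 + s R`. -/

namespace Pool.Agent.Q73.GP

open Finset Filter Topology
open scoped BoundedContinuousFunction

noncomputable section

namespace NU1

theorem e_bd (eris : S_ERIS) (k : ℕ) : Bd 1 (e k) := by
  have h := eris (fun l => l) strictMono_id
  exact h.bd k

/-- the basis vectors in `XX` -/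
def ex (eris : S_ERIS) (k : ℕ) : XX := ofV (e k) 1 (e_bd eris k)

theorem cx_ex (eris : S_ERIS) (k : ℕ) : cx (ex eris k) = e k := cx_ofV _ _ _

theorem phase_mul (z : ℂ) : ∃ θ : ℂ, ‖θ‖ ≤ 1 ∧ z = (‖z‖ : ℂ) * θ := by
  by_cases hz : z = 0
  · exact ⟨0, by simp, by simp [hz]⟩
  · have h1 : (‖z‖ : ℂ) ≠ 0 := by exact_mod_cast norm_ne_zero_iff.2 hz
    refine ⟨z / ‖z‖, ?_, ?_⟩
    · rw [norm_div, Complex.norm_real, norm_norm, div_self (norm_ne_zero_iff.2 hz)]
    · field_simp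

theorem op_single (v : Sg) (z : ℂ) (w : XX) : op (Finsupp.single v z) w = z • Sx v w := by
  unfold op
  rw [Finsupp.sum_single_index (zero_smul ℂ (Sx v))]
  rfl

theorem mul (alg : S_ALG) (a b : LS) : ∃ c : LS, ∀ w, op c w = op a (op b w) := by
  obtain ⟨c, hc⟩ := alg a b
  refine ⟨c + Finsupp.single Sg.id 1, fun w => ?_⟩
  rw [op_add, hc, op_single, Sx_id, one_smul, sub_add_cancel]

theorem RR_even (x : V) (k : ℕ) : Sv RR x (2 * k) = 0 := COMP.Sv_true_even _ _ _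

theorem RR_odd (x : V) (k : ℕ) : Sv RR x (2 * k + 1) = x (2 * k) := by
  show Sv ⟨GM.Sg.id, true⟩ x (2 * k + 1) = _
  rw [COMP.Sv_true_odd, GM.Sv_id]

theorem comm1 (v : Sg) (x : V) : Sv v (Sv RR x) = Sv RR (Sv v x) := by
  obtain ⟨g, t⟩ := v
  have h0 : (fun k' => Sv RR x (2 * k')) = 0 := funext fun k => RR_even x k
  have h1 : (fun k' => Sv RR x (2 * k' + 1)) = fun k' => x (2 * k') := funext fun k => RR_odd x k
  refine COMP.ext_layers (fun k => ?_) (fun k => ?_)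
  · rw [RR_even]
    cases t
    · rw [COMP.Sv_false_even, h0, map_zero]
      rfl
    · exact COMP.Sv_true_even _ _ _
  · rw [RR_odd]
    cases t
    · rw [COMP.Sv_false_odd, COMP.Sv_false_even, h1]
    · rw [COMP.Sv_true_odd, COMP.Sv_true_even, h0, map_zero]
      rfl

theorem comm (a : LS) (x : V) : opV a (Sv RR x) = Sv RR (opV a x) := by
  rw [opV_apply, opV_apply, map_sum]
  refine Finset.sum_congr rfl fun v _ => ?_
  rw [map_smul, comm1]

theorem OnLv_e (k : ℕ) : OnLv k (k + 1) (e k) := by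
  intro n hn
  unfold e
  rw [if_neg]
  omega

theorem supp_opV (b : LS) (k : ℕ) : ∃ N : ℕ, ∀ n, N ≤ n → opV b (e k) n = 0 := by
  refine ⟨∑ v ∈ b.support, fv v (k + 1), fun n hn => ?_⟩
  rw [opV_apply, Finset.sum_apply]
  refine Finset.sum_eq_zero fun v hv => ?_
  have h2 := (OnLv_e k).Sv v
  have h3 : fv v (k + 1) ≤ n :=
    (Finset.single_le_sum (f := fun v => fv v (k + 1)) (fun _ _ => Nat.zero_le _) hv).trans hn
  rw [Pi.smul_apply, h2 n (Or.inr h3), smul_zero]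

theorem eq_sum (y : V) (N : ℕ) (h : ∀ n, N ≤ n → y n = 0) : y = ∑ k ∈ range N, y k • e k := by
  funext n
  rw [Finset.sum_apply]
  by_cases hn : n < N
  · rw [Finset.sum_eq_single n]
    · rw [Pi.smul_apply, smul_eq_mul]
      unfold e
      rw [if_pos rfl, mul_one]
    · intro k _ hk
      rw [Pi.smul_apply, smul_eq_mul]
      unfold e
      rw [if_neg (Ne.symm hk), mul_zero]
    · intro h1
      exact absurd (Finset.mem_range.2 hn) h1
  · rw [h n (not_lt.1 hn), Finset.sum_eq_zero]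
    intro k hk
    rw [Pi.smul_apply, smul_eq_mul]
    unfold e
    rw [if_neg, mul_zero]
    rintro rfl
    exact hn (Finset.mem_range.1 hk)

/-- bound of one coordinate of a product -/
theorem coord_le {a b : LS} {α β : ℝ} (ha : ∀ k, ‖opV a (e k) 1‖ ≤ α)
    (hb : ∀ P : Finset ℕ, ∑ n ∈ P, ‖opV b (e 0) n‖ ≤ β) (hα : 0 ≤ α) :
    ‖opV a (opV b (e 0)) 1‖ ≤ α * β := by
  obtain ⟨N, hN⟩ := supp_opV b 0
  have h1 := eq_sum (opV b (e 0)) N hN
  rw [h1, map_sum, Finset.sum_apply]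
  refine (norm_sum_le _ _).trans ?_
  calc ∑ k ∈ range N, ‖opV a (opV b (e 0) k • e k) 1‖
      ≤ ∑ k ∈ range N, α * ‖opV b (e 0) k‖ := by
        refine Finset.sum_le_sum fun k _ => ?_
        rw [map_smul, Pi.smul_apply, norm_smul, mul_comm]
        exact mul_le_mul_of_nonneg_right (ha k) (norm_nonneg _)
    _ = α * ∑ k ∈ range N, ‖opV b (e 0) k‖ := by rw [Finset.mul_sum]
    _ ≤ α * β := mul_le_mul_of_nonneg_left (hb _) hα

/-- bound from an operator -/
theorem germ_op (germ : S_GERM) {T : XX →L[ℝ] XX} {a : LS} {ε δ : ℝ} (hεδ : ε ≤ δ)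
    (ha : ∀ z : ℕ → XX, Ris 4 z → ∀ᶠ l in atTop, ‖T (z l) - op a (z l)‖ ≤ ε) (k : ℕ)
    (P : Finset ℕ) : ∑ n ∈ P, ‖opV a (e k) n‖ ≤ 4 * ‖T‖ + δ := by
  refine germ a (4 * ‖T‖ + δ) (fun z hz => ?_) k P
  filter_upwards [ha z hz] with l hl
  have h1 : ‖T (z l)‖ ≤ 4 * ‖T‖ := by
    refine (T.le_opNorm _).trans ?_
    have h2 := hz.norm_le l
    have h3 := norm_nonneg T
    nlinarith
  have h4 : ‖op a (z l)‖ ≤ ‖T (z l)‖ + ‖T (z l) - op a (z l)‖ := by
    have h5 : op a (z l) = T (z l) - (T (z l) - op a (z l)) := by abel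
    conv_lhs => rw [h5]
    exact norm_sub_le _ _
  linarith

end NU1

open NU1

theorem t_NU1 (ta : S_TA) (alg : S_ALG) (germ : S_GERM) (eris : S_ERIS) : S_NU1 := by
  classical
  intro s A B hAB
  have hA0 := norm_nonneg A
  have hB0 := norm_nonneg B
  have hs0 := abs_nonneg s
  -- the small number
  let K : ℝ := |s| + 4 * ‖A‖ + 4 * ‖B‖ + 1
  have hK : 0 < K := by positivity
  obtain ⟨δ, hδ, hδK⟩ : ∃ δ : ℝ, 0 < δ ∧ δ * K ≤ 1 / 4 := by
    refine ⟨1 / (4 * K), by positivity, ?_⟩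
    rw [div_mul_eq_mul_div, div_le_div_iff₀ (by positivity) (by norm_num)]
    linarith
  have hK1 : δ * |s| + δ * (4 * ‖A‖) + δ * (4 * ‖B‖) + δ ≤ 1 / 4 := by
    have : δ * K = δ * |s| + δ * (4 * ‖A‖) + δ * (4 * ‖B‖) + δ := by
      show δ * (|s| + 4 * ‖A‖ + 4 * ‖B‖ + 1) = _
      ring
    linarith
  have p1 : 0 ≤ δ * |s| := by positivity
  have p2 : 0 ≤ δ * (4 * ‖A‖) := by positivity
  have p3 : 0 ≤ δ * (4 * ‖B‖) := by positivity
  -- approximation of `B`
  have hq : 0 < ‖A‖ * (1 / 2 + |s|) + 1 := by positivity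
  obtain ⟨b, hb⟩ := ta B 4 (δ / (2 * (‖A‖ * (1 / 2 + |s|) + 1))) (by norm_num) (by positivity)
  have hεb : δ / (2 * (‖A‖ * (1 / 2 + |s|) + 1)) ≤ δ := by
    rw [div_le_iff₀ (by positivity)]
    have : 0 ≤ ‖A‖ * (1 / 2 + |s|) := by positivity
    nlinarith
  have hεb2 : ‖A‖ * ((1 / 2 + |s|) * (δ / (2 * (‖A‖ * (1 / 2 + |s|) + 1)))) ≤ δ / 2 := by
    rw [← mul_assoc, ← mul_div_assoc, div_le_div_iff₀ (by positivity) (by norm_num)]
    have : 0 ≤ ‖A‖ * (1 / 2 + |s|) := by positivity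
    nlinarith
  -- `b' = (1/2 + s R) b`
  let r0 : LS := Finsupp.single Sg.id (((1 / 2 : ℝ) : ℂ)) + Finsupp.single RR ((s : ℝ) : ℂ)
  have hr0 : ∀ w, op r0 w = (1 / 2 : ℝ) • w + s • Sx RR w := by
    intro w
    show op (Finsupp.single Sg.id (((1 / 2 : ℝ) : ℂ)) + Finsupp.single RR ((s : ℝ) : ℂ)) w = _
    rw [op_add, op_single, op_single, Sx_id, Complex.coe_smul, Complex.coe_smul]
  obtain ⟨b', hb'⟩ := mul alg r0 b
  have hnb := nrm_nonneg b'
  obtain ⟨a, ha⟩ := ta A 4 (δ / (2 * (nrm b' + 1))) (by norm_num) (by positivity)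
  have hεa : δ / (2 * (nrm b' + 1)) ≤ δ := by
    rw [div_le_iff₀ (by positivity)]
    nlinarith
  have hεa2 : nrm b' * (δ / (2 * (nrm b' + 1))) ≤ δ / 2 := by
    rw [← mul_div_assoc, div_le_div_iff₀ (by positivity) (by norm_num)]
    nlinarith
  obtain ⟨c, hc⟩ := alg a b'
  -- `op c` is small
  have hcs : ∀ z : ℕ → XX, Ris 4 z → ∀ᶠ l in atTop, ‖op c (z l)‖ ≤ δ := by
    intro z hz
    choose θ hθ hθ2 using fun v : Sg => phase_mul (b' v)
    have h3 : ∀ᶠ l in atTop, ∀ v ∈ b'.support,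
        ‖A (θ v • Sx v (z l)) - op a (θ v • Sx v (z l))‖ ≤ δ / (2 * (nrm b' + 1)) := by
      rw [Filter.eventually_all_finset]
      intro v _
      exact ha (fun l => θ v • Sx v (z l)) ((hz.Sx v).phase (θ := fun _ => θ v) fun _ => hθ v)
    filter_upwards [hb z hz, h3] with l h1 h3
    have e1 : op c (z l) = (op a (op b' (z l)) - A (op b' (z l))) + (A (op b' (z l)) - z l) := by
      rw [hc]
      abel
    have t1 : ‖op a (op b' (z l)) - A (op b' (z l))‖ ≤ δ / 2 := by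
      have e2 : op a (op b' (z l)) - A (op b' (z l)) = ∑ v ∈ b'.support,
          ‖b' v‖ • (op a (θ v • Sx v (z l)) - A (θ v • Sx v (z l))) := by
        rw [op_apply b', map_sum, map_sum, ← Finset.sum_sub_distrib]
        refine Finset.sum_congr rfl fun v _ => ?_
        have e3 : b' v • Sx v (z l) = ‖b' v‖ • (θ v • Sx v (z l)) := by
          conv_lhs => rw [hθ2 v]
          rw [mul_smul, Complex.coe_smul]
        rw [e3, smul_sub, map_smul A]
        congr 1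
        rw [← Complex.coe_smul, map_smul, Complex.coe_smul]
      rw [e2]
      refine (norm_sum_le _ _).trans ?_
      calc ∑ v ∈ b'.support, ‖‖b' v‖ • (op a (θ v • Sx v (z l)) - A (θ v • Sx v (z l)))‖
          ≤ ∑ v ∈ b'.support, ‖b' v‖ * (δ / (2 * (nrm b' + 1))) := by
            refine Finset.sum_le_sum fun v hv => ?_
            rw [norm_smul, norm_norm, norm_sub_rev]
            exact mul_le_mul_of_nonneg_left (h3 v hv) (norm_nonneg _)
        _ = nrm b' * (δ / (2 * (nrm b' + 1))) := by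
            rw [← Finset.sum_mul]
            rfl
        _ ≤ δ / 2 := hεa2
    have t2 : ‖A (op b' (z l)) - z l‖ ≤ δ / 2 := by
      have e4 : A (op b' (z l)) - z l = A ((1 / 2 : ℝ) • (op b (z l) - B (z l)) +
          s • Sx RR (op b (z l) - B (z l))) := by
        have e5 : (1 / 2 : ℝ) • (op b (z l) - B (z l)) + s • Sx RR (op b (z l) - B (z l)) =
            op b' (z l) - ((1 / 2 : ℝ) • B (z l) + s • Sx RR (B (z l))) := by
          rw [hb', hr0, map_sub (Sx RR), smul_sub, smul_sub]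
          abel
        rw [e5, map_sub, hAB]
      rw [e4]
      refine (A.le_opNorm _).trans (le_trans ?_ hεb2)
      refine mul_le_mul_of_nonneg_left ?_ hA0
      refine (norm_add_le _ _).trans ?_
      rw [norm_smul, norm_smul, Real.norm_eq_abs, Real.norm_eq_abs,
        abs_of_pos (by norm_num : (0 : ℝ) < 1 / 2), add_mul]
      have h5 : ‖op b (z l) - B (z l)‖ ≤ δ / (2 * (‖A‖ * (1 / 2 + |s|) + 1)) := by
        rw [norm_sub_rev]
        exact h1
      refine add_le_add (mul_le_mul_of_nonneg_left h5 (by norm_num)) ?_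
      exact mul_le_mul_of_nonneg_left ((norm_Sx_le _ _).trans h5) hs0
    rw [e1]
    refine (norm_add_le _ _).trans ?_
    linarith
  -- germs
  have gc := germ c δ hcs 0
  have ga := fun k => germ_op germ hεa ha k
  have gb := germ_op germ hεb hb 0
  -- the equation for the coordinates
  let u : V := opV a (opV b (e 0))
  have hV : opV c (e 0) = (((1 / 2 : ℝ) : ℂ)) • u + ((s : ℝ) : ℂ) • Sv RR u - e 0 := by
    have h1 := congrArg cx (hc (ex eris 0))
    rw [hb', hr0, cx_op, map_sub cx, cx_op, cx_ex, map_add cx, ← Complex.coe_smul,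
      ← Complex.coe_smul, map_smul cx, map_smul cx, cx_Sx, cx_op, cx_ex, map_add, map_smul,
      map_smul, comm] at h1
    exact h1
  have hu1 : ‖u 1‖ ≤ (4 * ‖A‖ + δ) * (4 * ‖B‖ + δ) := by
    refine coord_le (fun k => ?_) gb (by positivity)
    have := ga k {1}
    rwa [Finset.sum_singleton] at this
  have c0 := gc {0}
  have c1 := gc {1}
  rw [Finset.sum_singleton, hV] at c0 c1
  have e00 : e 0 0 = 1 := by
    unfold e
    rw [if_pos rfl]
  have e01 : e 0 1 = 0 := by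
    unfold e
    rw [if_neg (by norm_num)]
  have r0' : Sv RR u 0 = 0 := RR_even u 0
  have r1' : Sv RR u 1 = u 0 := RR_odd u 0
  simp only [Pi.sub_apply, Pi.add_apply, Pi.smul_apply, smul_eq_mul, e00, e01, r0', r1', mul_zero,
    add_zero, sub_zero] at c0 c1
  have h1 : 1 - δ ≤ 1 / 2 * ‖u 0‖ := by
    have h2 : (1 : ℝ) = ‖(((1 / 2 : ℝ) : ℂ)) * u 0 - ((((1 / 2 : ℝ) : ℂ)) * u 0 - 1)‖ := by
      rw [sub_sub_cancel, norm_one]
    have h3 := norm_sub_le ((((1 / 2 : ℝ) : ℂ)) * u 0) ((((1 / 2 : ℝ) : ℂ)) * u 0 - 1)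
    rw [← h2, norm_mul, Complex.norm_real, Real.norm_eq_abs,
      abs_of_pos (by norm_num : (0 : ℝ) < 1 / 2)] at h3
    linarith
  have h2 : |s| * ‖u 0‖ ≤ δ + 1 / 2 * ‖u 1‖ := by
    have h3 : ((s : ℝ) : ℂ) * u 0 = ((((1 / 2 : ℝ) : ℂ)) * u 1 + ((s : ℝ) : ℂ) * u 0) -
        (((1 / 2 : ℝ) : ℂ)) * u 1 := by ring
    have h4 := norm_sub_le ((((1 / 2 : ℝ) : ℂ)) * u 1 + ((s : ℝ) : ℂ) * u 0)
      ((((1 / 2 : ℝ) : ℂ)) * u 1)
    rw [← h3, norm_mul, norm_mul, Complex.norm_real, Complex.norm_real, Real.norm_eq_abs,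
      Real.norm_eq_abs, abs_of_pos (by norm_num : (0 : ℝ) < 1 / 2)] at h4
    linarith
  -- conclusion
  have h3 : |s| * (2 * (1 - δ)) ≤ |s| * ‖u 0‖ := mul_le_mul_of_nonneg_left (by linarith) hs0
  have h4 : (4 * ‖A‖ + δ) * (4 * ‖B‖ + δ) =
      16 * (‖A‖ * ‖B‖) + δ * (4 * ‖A‖) + δ * (4 * ‖B‖) + δ * δ := by ring
  have h5 : δ * δ ≤ δ := by nlinarith
  have h6 : 0 ≤ ‖A‖ * ‖B‖ := by positivity
  nlinarith

end

end Pool.Agent.Q73.GP
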