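import Pool.Agent.Q73.GP.Stm3
import Pool.Agent.Q73.GP.COMP

set_option autoImplicit false

/-! Project GP (helper73), lemma PFP: the primary factorisation property. -/

namespace Pool.Agent.Q73.GP

open Finset Filter Topology
open scoped BoundedContinuousFunction

noncomputable section

namespace PFP

/-- the upward spread -/
def UU (L ρ : ℕ) (h : ρ < 2 ^ L) : XX →L[ℂ] XX := Sx ⟨up L ρ h, false⟩

/-- the downward spread -/
def DD' (L ρ : ℕ) (h : ρ < 2 ^ L) : XX →L[ℂ] XX := Sx ⟨dn L ρ h, false⟩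

theorem gm_dn_up (L ρ : ℕ) (h : ρ < 2 ^ L) (x : V) : GM.Sv (dn L ρ h) (GM.Sv (up L ρ h) x) = x := by
  funext n
  have h1 : (2 ^ L * n + ρ) % 2 ^ L = ρ := by
    rw [Nat.mul_add_mod, Nat.mod_eq_of_lt h]
  have h2 : (2 ^ L * n + ρ) / 2 ^ L = n := by
    rw [Nat.mul_add_div (by positivity), Nat.div_eq_of_lt h, add_zero]
  simp only [GM.Sv_apply, dn, up, pow_zero, Nat.mod_one, Nat.div_one, if_true, one_mul, add_zero,
    h1, h2]

theorem DU (L ρ : ℕ) (h : ρ < 2 ^ L) (w : XX) : DD' L ρ h (UU L ρ h w) = w := by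
  apply cx_injective
  unfold DD' UU
  rw [cx_Sx, cx_Sx]
  refine COMP.ext_layers (fun k => ?_) (fun k => ?_)
  · rw [COMP.Sv_false_even]
    have h1 : (fun k' => Sv ⟨up L ρ h, false⟩ (cx w) (2 * k')) =
        GM.Sv (up L ρ h) (fun k' => cx w (2 * k')) := funext fun k' => COMP.Sv_false_even _ _ _
    rw [h1, gm_dn_up]
  · rw [COMP.Sv_false_odd]
    have h1 : (fun k' => Sv ⟨up L ρ h, false⟩ (cx w) (2 * k' + 1)) =
        GM.Sv (up L ρ h) (fun k' => cx w (2 * k' + 1)) := funext fun k' => COMP.Sv_false_odd _ _ _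
    rw [h1, gm_dn_up]

theorem far (N : ℕ) (w : XX) : Rx 0 N (UU N N Nat.lt_two_pow_self w) = 0 := by
  apply cx_injective
  unfold UU
  rw [cx_Rx, cx_Sx, map_zero]
  funext n
  rw [cut_apply]
  split_ifs with h
  · have h1 : n % 2 < 2 := Nat.mod_lt _ (by norm_num)
    have h2 : n = 2 * (n / 2) + n % 2 := by omega
    rw [h2, COMP.Sv_false _ _ _ _ h1, GM.Sv_apply, if_neg]
    · rfl
    · show n / 2 % 2 ^ N ≠ N
      have h3 : n / 2 < N := by omega
      have h4 : N < 2 ^ N := Nat.lt_two_pow_self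
      rw [Nat.mod_eq_of_lt (by omega)]
      omega
  · rfl

theorem RR2 (w : XX) : Sx RR (Sx RR w) = 0 := by
  apply cx_injective
  rw [cx_Sx, cx_Sx, map_zero]
  refine COMP.ext_layers (fun k => ?_) (fun k => ?_)
  · exact COMP.Sv_true_even _ _ _
  · show Sv ⟨GM.Sg.id, true⟩ (Sv RR (cx w)) (2 * k + 1) = _
    rw [COMP.Sv_true_odd, GM.Sv_id]
    exact COMP.Sv_true_even _ _ _

theorem core (fac : S_FAC) (T : XX →L[ℝ] XX) (S : XX → XX) (L ρ : ℕ) (h : ρ < 2 ^ L) (μ μ' : ℂ)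
    (ε M : ℝ) (h1 : ∀ z : ℕ → XX, Ris 4 z → ∀ᶠ l in atTop, ‖T (z l) - S (z l)‖ ≤ ε)
    (h2 : ∀ w, DD' L ρ h (S (UU L ρ h w)) = μ • w + μ' • Sx RR w) (h3 : 1 / 2 ≤ ‖μ‖)
    (hM : 2 + 4 * ‖μ'‖ ≤ M) (hε : M * ε ≤ 1 / 4) :
    ∃ A B : XX →L[ℝ] XX, ∀ w, A (T (B w)) = w := by
  have hμ : μ ≠ 0 := by
    intro h0
    rw [h0, norm_zero] at h3
    norm_num at h3
  have hi : ‖μ⁻¹‖ ≤ 2 := by
    rw [norm_inv]
    have := inv_anti₀ (by norm_num : (0 : ℝ) < 1 / 2) h3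
    linarith
  let Q : XX →L[ℂ] XX := μ⁻¹ • ContinuousLinearMap.id ℂ XX - (μ' * (μ⁻¹ * μ⁻¹)) • Sx RR
  have hQ : ∀ w, Q w = μ⁻¹ • w - (μ' * (μ⁻¹ * μ⁻¹)) • Sx RR w := fun w => rfl
  have hQ1 : ∀ w, Q (μ • w + μ' • Sx RR w) = w := by
    intro w
    rw [hQ, map_add, map_smul, map_smul, RR2, smul_zero, add_zero, smul_add, smul_smul, smul_smul,
      smul_smul, inv_mul_cancel₀ hμ, one_smul]
    have e1 : μ' * (μ⁻¹ * μ⁻¹) * μ = μ⁻¹ * μ' := by
      field_simp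
    rw [e1, add_sub_cancel_right]
  have hM0 : 0 ≤ M := by
    have := norm_nonneg μ'
    linarith
  have hQ2 : ∀ w, ‖Q w‖ ≤ M * ‖w‖ := by
    intro w
    rw [hQ]
    refine (norm_sub_le _ _).trans ?_
    rw [norm_smul, norm_smul, norm_mul, norm_mul]
    have t1 : ‖μ⁻¹‖ * ‖w‖ ≤ 2 * ‖w‖ := mul_le_mul_of_nonneg_right hi (norm_nonneg _)
    have t2 : ‖μ'‖ * (‖μ⁻¹‖ * ‖μ⁻¹‖) * ‖Sx RR w‖ ≤ ‖μ'‖ * (2 * 2) * ‖w‖ := by
      have := norm_Sx_le RR w
      gcongr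
    have t3 : (2 + 4 * ‖μ'‖) * ‖w‖ ≤ M * ‖w‖ := mul_le_mul_of_nonneg_right hM (norm_nonneg _)
    nlinarith
  let W : XX →L[ℝ] XX := ((Q.comp (DD' L ρ h)).restrictScalars ℝ).comp
    (T.comp ((UU L ρ h).restrictScalars ℝ))
  have hW : ∀ w, W w = Q (DD' L ρ h (T (UU L ρ h w))) := fun w => rfl
  obtain ⟨N, L', hL'⟩ := fac W (by
    intro z hz
    filter_upwards [h1 (fun l => UU L ρ h (z l)) ((hz.Sx _).mono_C (by norm_num))] with l hl
    have e1 : W (z l) - z l = Q (DD' L ρ h (T (UU L ρ h (z l)) - S (UU L ρ h (z l)))) := by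
      rw [map_sub (DD' L ρ h), map_sub Q, h2, hQ1, hW]
    rw [e1]
    refine (hQ2 _).trans (le_trans ?_ hε)
    exact mul_le_mul_of_nonneg_left ((norm_Sx_le _ _).trans hl) hM0)
  refine ⟨((DD' N N Nat.lt_two_pow_self).restrictScalars ℝ).comp
    (L'.comp ((Q.comp (DD' L ρ h)).restrictScalars ℝ)),
    ((UU L ρ h).comp (UU N N Nat.lt_two_pow_self)).restrictScalars ℝ, fun w => ?_⟩
  show DD' N N Nat.lt_two_pow_self (L' (W (UU N N Nat.lt_two_pow_self w))) = w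
  rw [hL' _ (far N w), DU]

theorem opV_single (v : Sg) (z : ℂ) (x : V) : opV (Finsupp.single v z) x = z • Sv v x := by
  unfold opV
  rw [Finsupp.sum_single_index (zero_smul ℂ (Sv v))]
  rfl

theorem op_single (v : Sg) (z : ℂ) (w : XX) : op (Finsupp.single v z) w = z • Sx v w := by
  unfold op
  rw [Finsupp.sum_single_index (zero_smul ℂ (Sx v))]
  rfl

theorem opV_add (a b : LS) (x : V) : opV (a + b) x = opV a x + opV b x := by
  unfold opV
  rw [Finsupp.sum_add_index' (fun v => zero_smul ℂ (Sv v)) (fun v x y => add_smul x y (Sv v))]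
  rfl

end PFP

open PFP

theorem t_PFP (ta : S_TA) (germ : S_GERM) (cmp : S_CMP) (fac : S_FAC) : S_PFP := by
  intro T
  have hT := norm_nonneg T
  obtain ⟨m0, hm0⟩ : ∃ m0 : ℝ, m0 = 4 * ‖T‖ + 1 := ⟨_, rfl⟩
  obtain ⟨M, hM⟩ : ∃ M : ℝ, M = 2 + 4 * m0 := ⟨_, rfl⟩
  have hM0 : 6 ≤ M := by linarith
  have hε0 : 0 < 1 / (4 * M) := by positivity
  have hε1 : 1 / (4 * M) ≤ 1 := by
    rw [div_le_one (by positivity)]
    linarith
  have hε2 : M * (1 / (4 * M)) ≤ 1 / 4 := by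
    have : M ≠ 0 := by positivity
    apply le_of_eq
    field_simp
  obtain ⟨a, ha⟩ := ta T 4 (1 / (4 * M)) (by norm_num) hε0
  obtain ⟨L, ρ, h, -, μ, μ', hcmp⟩ := cmp a 0
  have hcmp' : ∀ w, DD' L ρ h (op a (UU L ρ h w)) = μ • w + μ' • Sx RR w := hcmp
  -- bound of the coefficients
  have hμ : ‖μ‖ + ‖μ'‖ ≤ m0 := by
    have g := germ (Finsupp.single Sg.id μ + Finsupp.single RR μ') m0 (fun z hz => by
      filter_upwards [ha (fun l => UU L ρ h (z l)) (hz.Sx _)] with l hl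
      rw [op_add, op_single, op_single, Sx_id, ← hcmp']
      refine (norm_Sx_le _ _).trans ?_
      have h1 : ‖T (UU L ρ h (z l))‖ ≤ 4 * ‖T‖ := by
        refine (T.le_opNorm _).trans ?_
        have h2 := hz.norm_le l
        have h3 : ‖UU L ρ h (z l)‖ ≤ ‖z l‖ := norm_Sx_le _ _
        nlinarith
      have h4 : ‖op a (UU L ρ h (z l))‖ ≤ ‖T (UU L ρ h (z l))‖ +
          ‖T (UU L ρ h (z l)) - op a (UU L ρ h (z l))‖ := by
        have h5 : op a (UU L ρ h (z l)) =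
            T (UU L ρ h (z l)) - (T (UU L ρ h (z l)) - op a (UU L ρ h (z l))) := by abel
        conv_lhs => rw [h5]
        exact norm_sub_le _ _
      linarith) 0 {0, 1}
    rw [Finset.sum_pair (by norm_num), opV_add, opV_single, opV_single, Sv_id] at g
    have e0 : Sv RR (e 0) 0 = 0 := COMP.Sv_true_even _ (e 0) 0
    have e1 : Sv RR (e 0) 1 = 1 := by
      have h1 : Sv RR (e 0) (2 * 0 + 1) = GM.Sv GM.Sg.id (fun k' => e 0 (2 * k')) 0 :=
        COMP.Sv_true_odd _ (e 0) 0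
      rw [GM.Sv_id] at h1
      exact h1
    have e2 : e 0 0 = 1 := rfl
    have e3 : e 0 1 = 0 := rfl
    simp only [Pi.add_apply, Pi.smul_apply, smul_eq_mul, e0, e1, e2, e3, mul_one, mul_zero,
      add_zero, zero_add] at g
    exact g
  have hμ0 := norm_nonneg μ
  by_cases h3 : 1 / 2 ≤ ‖μ‖
  · obtain ⟨A, B, hAB⟩ := core fac T (fun w => op a w) L ρ h μ μ' (1 / (4 * M)) M ha hcmp' h3
      (by linarith) hε2
    exact ⟨A, B, Or.inl hAB⟩
  · obtain ⟨A, B, hAB⟩ := core fac (ContinuousLinearMap.id ℝ XX - T) (fun w => w - op a w) L ρ h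
      (1 - μ) (-μ') (1 / (4 * M)) M (fun z hz => by
        filter_upwards [ha z hz] with l hl
        have e1 : (ContinuousLinearMap.id ℝ XX - T) (z l) - (z l - op a (z l)) =
            -(T (z l) - op a (z l)) := by
          show z l - T (z l) - (z l - op a (z l)) = _
          abel
        rw [e1, norm_neg]
        exact hl) (fun w => by
        rw [map_sub, DU, hcmp', sub_smul, one_smul, neg_smul]
        abel) (by
        have h4 : ‖(1 : ℂ)‖ ≤ ‖1 - μ‖ + ‖μ‖ := by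
          have := norm_add_le (1 - μ) μ
          rwa [sub_add_cancel] at this
        rw [norm_one] at h4
        linarith [not_le.1 h3]) (by
        rw [norm_neg]
        linarith) hε2
    exact ⟨A, B, Or.inr hAB⟩

end

end Pool.Agent.Q73.GP
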