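import Pool.Agent.Q73.GP.Stm2

set_option autoImplicit false

/-!
Project GP (port of project GM) (helper73), job SEL (helper237): selection of a joint rapidly increasing sequence.
-/

namespace Pool.Agent.Q73.GP

open Finset Filter Topology
open scoped BoundedContinuousFunction

noncomputable section

namespace SEL

/-- the states of the recursion: the window, the lower bound for the weight, the previous vectors -/
def st (lf : ℕ → ℕ → ℕ → ℕ) (wf : ℕ → List XX → ℕ → ℕ → ℕ) (z : ℕ → ℕ → ℕ → XX)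
    (BB JJ : ℕ → ℕ → ℕ → ℕ) : ℕ → ℕ × ℕ × List XX
  | 0 => (0, 0, [])
  | s + 1 =>
    (wf s (z s (st lf wf z BB JJ s).1 (lf s (st lf wf z BB JJ s).1 (st lf wf z BB JJ s).2.1) ::
        (st lf wf z BB JJ s).2.2)
      ((BB s (st lf wf z BB JJ s).1
        (lf s (st lf wf z BB JJ s).1 (st lf wf z BB JJ s).2.1) + 1) *
          2 ^ (st lf wf z BB JJ s).1) (st lf wf z BB JJ s).1,
     JJ s (st lf wf z BB JJ s).1 (lf s (st lf wf z BB JJ s).1 (st lf wf z BB JJ s).2.1 + 1),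
     z s (st lf wf z BB JJ s).1 (lf s (st lf wf z BB JJ s).1 (st lf wf z BB JJ s).2.1) ::
        (st lf wf z BB JJ s).2.2)

theorem eventually_list (P : XX → ℕ → Prop) (h : ∀ x, ∀ᶠ N in atTop, P x N) (L : List XX) :
    ∀ᶠ N in atTop, ∀ x ∈ L, P x N := by
  induction L with
  | nil => simp
  | cons a L ih =>
    filter_upwards [h a, ih] with N h1 h2 x hx
    rcases List.mem_cons.1 hx with rfl | hx
    · exact h1
    · exact h2 x hx

end SEL

open SEL in
/-- SEL: selection of a joint rapidly increasing sequence. -/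
theorem t_SEL (lo : S_LO) (tail : S_TAIL) : S_SEL := by
  intro ρ T C z Q hρ hz hQ
  choose AA BB JJ hR using fun s N => hz s N
  have hl : ∀ s N j : ℕ, ∃ l, s ≤ l ∧ Q s N l ∧ (N + 1) * 2 ^ N ≤ AA s N l ∧ j ≤ JJ s N l ∧
      ‖Rx 0 N (T (z s N l))‖ ≤ ρ * (1 / 4) ^ s := by
    intro s N j
    have h1 : ∀ᶠ l in atTop, s ≤ l := eventually_ge_atTop s
    have h2 : ∀ᶠ l in atTop, (N + 1) * 2 ^ N ≤ AA s N l :=
      (hR s N).tend.eventually (eventually_ge_atTop _)
    have h3 : ∀ᶠ l in atTop, j ≤ JJ s N l :=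
      (hR s N).mono.tendsto_atTop.eventually (eventually_ge_atTop _)
    have h4 : ∀ᶠ l in atTop, ‖Rx 0 N (T (z s N l))‖ ≤ ρ * (1 / 4) ^ s := by
      have h5 := (Metric.tendsto_nhds.1 (lo C (z s N) (hz s N) T N)) (ρ * (1 / 4) ^ s)
        (by positivity)
      filter_upwards [h5] with l h6
      rw [dist_zero_right] at h6
      exact h6.le
    obtain ⟨l, h5, h6, h7, h8, h9⟩ := ((hQ s N).and_eventually (h1.and (h2.and (h3.and h4)))).exists
    exact ⟨l, h6, h5, h7, h8, h9⟩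
  choose lf hlf using hl
  have hW : ∀ (s : ℕ) (L : List XX) (a N : ℕ), ∃ w', N < w' ∧ a ≤ w' ∧
      ∀ x ∈ L, ‖T x - Rx 0 w' (T x)‖ ≤ ρ * (1 / 4) ^ (s + 1) := by
    intro s L a N
    have h1 : ∀ᶠ w' in atTop, ∀ x ∈ L, ‖T x - Rx 0 w' (T x)‖ ≤ ρ * (1 / 4) ^ (s + 1) := by
      apply eventually_list (fun x w' => ‖T x - Rx 0 w' (T x)‖ ≤ ρ * (1 / 4) ^ (s + 1))
      intro x
      have h5 := (Metric.tendsto_nhds.1 (tail (T x))) (ρ * (1 / 4) ^ (s + 1)) (by positivity)
      filter_upwards [h5] with l h6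
      rw [dist_comm, dist_eq_norm] at h6
      exact h6.le
    obtain ⟨w', h2, h3, h4⟩ :=
      (h1.and ((eventually_gt_atTop N).and (eventually_ge_atTop a))).exists
    exact ⟨w', h3, h4, h2⟩
  choose wf hwf using hW
  let S : ℕ → ℕ × ℕ × List XX := st lf wf z BB JJ
  let w : ℕ → ℕ := fun s => (S s).1
  let φ : ℕ → ℕ := fun s => lf s (S s).1 (S s).2.1
  have hL : ∀ s, (S (s + 1)).2.2 = z s (w s) (φ s) :: (S s).2.2 := fun _ => rfl
  have hj : ∀ s, (S (s + 1)).2.1 = JJ s (w s) (φ s + 1) := fun _ => rfl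
  have hw : ∀ s, w (s + 1) = wf s (S (s + 1)).2.2 ((BB s (w s) (φ s) + 1) * 2 ^ w s) (w s) :=
    fun _ => rfl
  have hφ : ∀ s, s ≤ φ s ∧ Q s (w s) (φ s) ∧ (w s + 1) * 2 ^ w s ≤ AA s (w s) (φ s) ∧
      (S s).2.1 ≤ JJ s (w s) (φ s) ∧ ‖Rx 0 (w s) (T (z s (w s) (φ s)))‖ ≤ ρ * (1 / 4) ^ s :=
    fun s => hlf s (S s).1 (S s).2.1
  have hw' : ∀ s, w s < w (s + 1) ∧ (BB s (w s) (φ s) + 1) * 2 ^ w s ≤ w (s + 1) ∧
      ∀ x ∈ (S (s + 1)).2.2, ‖T x - Rx 0 (w (s + 1)) (T x)‖ ≤ ρ * (1 / 4) ^ (s + 1) := by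
    intro s
    rw [hw s]
    exact hwf s (S (s + 1)).2.2 ((BB s (w s) (φ s) + 1) * 2 ^ w s) (w s)
  have hwm : StrictMono w := strictMono_nat_of_lt_succ fun s => (hw' s).1
  have hmem : ∀ s s', s' < s → z s' (w s') (φ s') ∈ (S s).2.2 := by
    intro s
    induction s with
    | zero => intro s' h; omega
    | succ s ih =>
      intro s' h
      rw [hL]
      rcases Nat.lt_succ_iff_lt_or_eq.1 h with h1 | rfl
      · exact List.mem_cons_of_mem _ (ih s' h1)
      · exact List.mem_cons_self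
  have hone : ∀ s, 1 ≤ 2 ^ w s := fun s => Nat.one_le_two_pow
  have hBw : ∀ s, BB s (w s) (φ s) ≤ w (s + 1) := by
    intro s
    calc BB s (w s) (φ s) ≤ BB s (w s) (φ s) + 1 := Nat.le_succ _
      _ = (BB s (w s) (φ s) + 1) * 1 := (mul_one _).symm
      _ ≤ (BB s (w s) (φ s) + 1) * 2 ^ w s := Nat.mul_le_mul_left _ (hone s)
      _ ≤ w (s + 1) := (hw' s).2.1
  have hwA : ∀ s, w s ≤ AA s (w s) (φ s) := by
    intro s
    calc w s ≤ w s + 1 := Nat.le_succ _
      _ = (w s + 1) * 1 := (mul_one _).symm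
      _ ≤ (w s + 1) * 2 ^ w s := Nat.mul_le_mul_left _ (hone s)
      _ ≤ AA s (w s) (φ s) := (hφ s).2.2.1
  refine ⟨w, φ, fun s => AA s (w s) (φ s), fun s => BB s (w s) (φ s), fun s => JJ s (w s) (φ s),
    ?_, ?_, fun s => (hφ s).2.1⟩
  · refine
      { hC := (hR 0 0).hC
        succ := ⟨fun s => (hR s (w s)).succ.1 (φ s), fun s => (hR s (w s)).succ.2.1 (φ s), ?_⟩
        tend := ?_
        bd := fun s => (hR s (w s)).bd (φ s)
        mono := ?_
        low := fun s t ht i hi hil α β => (hR s (w s)).low (φ s) t ht i hi hil α β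
        high := ?_ }
    · intro s s' h
      exact (hBw s).trans ((hwm.monotone (show s + 1 ≤ s' from h)).trans (hwA s'))
    · exact tendsto_atTop_mono (fun s => (hwm.id_le s).trans (hwA s)) tendsto_id
    · refine strictMono_nat_of_lt_succ fun s => ?_
      have h1 := (hR s (w s)).mono (Nat.lt_succ_self (φ s))
      have h2 := (hφ (s + 1)).2.2.2.1
      rw [hj] at h2
      exact lt_of_lt_of_le h1 h2
    · intro s t ht i hi hil α β
      have h2 := (hφ (s + 1)).2.2.2.1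
      rw [hj] at h2
      refine ((hR s (w s)).high (φ s) t ht i hi (h2.trans hil) α β).trans ?_
      exact pow_le_pow_of_le_one (by norm_num) (by norm_num) (hφ s).1
  · refine
      { mono := hwm
        lev := fun s => (hR s (w s)).succ.1 (φ s)
        loA := fun s => (hφ s).2.2.1
        hiB := fun s => (hw' s).2.1
        lo := fun s => (hφ s).2.2.2.2
        hi := ?_ }
    intro s' s h
    obtain ⟨s, rfl⟩ : ∃ n, s = n + 1 := ⟨s - 1, by omega⟩
    exact (hw' s).2.2 _ (hmem (s + 1) s' h)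

end

end Pool.Agent.Q73.GP
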