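import Pool.Agent.Q73.GP.Stm2

set_option autoImplicit false

/-!
Project GP (port of project GM) (helper73), lemma STAR (helper184): on rapidly increasing sequences every operator is
near to the set `B_m`.
-/

namespace Pool.Agent.Q73.GP

open Finset Filter Topology
open scoped BoundedContinuousFunction

noncomputable section

namespace STAR

/-- the tree `f'` with the restriction to `[0, N)` as a convex combination -/
def one (N : ℕ) (f : Tr) : Tr :=
  .cv 1 (fun _ => (1, 0)) (fun _ => 0) (fun _ => N) (fun _ => f)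

theorem cc_one : cc (1, 0) = 1 := by
  simp [cc]

theorem one_wf {N : ℕ} {f : Tr} (h : f.Wf) : (one N f).Wf := by
  unfold one
  refine ⟨fun _ => h, ?_⟩
  have h1 : ∑ _i : Fin 1, ‖cc (1, 0)‖ ≤ 1 := by
    rw [cc_one]
    simp
  exact h1

theorem ev_one (N : ℕ) (f : Tr) (x : V) : ev (one N f) x = ev f (cut 0 N x) := by
  unfold one
  rw [ev_cv, cc_one]
  simp

theorem win_one {ρ : ℝ} {T : XX →L[ℝ] XX} {y : ℕ → XX} {A B w : ℕ → ℕ} (h : Win ρ T y A B w)
    (hρ : ρ ≤ 1) : Win 1 T y A B w where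
  mono := h.mono
  lev := h.lev
  loA := h.loA
  hiB := h.hiB
  lo s := (h.lo s).trans (mul_le_mul_of_nonneg_right hρ (by positivity))
  hi s' s hs := (h.hi s' s hs).trans (mul_le_mul_of_nonneg_right hρ (by positivity))

theorem cut_split {a b : ℕ} (h : a ≤ b) (x : V) : cut a b x = cut 0 b x - cut 0 a x := by
  funext n
  rw [Pi.sub_apply, cut_apply, cut_apply, cut_apply]
  by_cases h1 : a ≤ n
  · by_cases h2 : n < b
    · rw [if_pos ⟨h1, h2⟩, if_pos ⟨Nat.zero_le _, h2⟩, if_neg (by omega), sub_zero]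
    · rw [if_neg (by omega), if_neg (by omega), if_neg (by omega), sub_zero]
  · rw [if_neg (by omega), if_pos ⟨Nat.zero_le _, by omega⟩, if_pos ⟨Nat.zero_le _, by omega⟩,
      sub_self]

theorem Rx_split {a b : ℕ} (h : a ≤ b) (x : XX) : Rx a b x = Rx 0 b x - Rx 0 a x := by
  apply cx_injective
  rw [map_sub, cx_Rx, cx_Rx, cx_Rx, cut_split h]

theorem rest_le {ρ : ℝ} {T : XX →L[ℝ] XX} {y : ℕ → XX} {A B w : ℕ → ℕ} (h : Win ρ T y A B w)
    (hρ : 0 ≤ ρ) (s : ℕ) : ‖T (y s) - Rx (w s) (w (s + 1)) (T (y s))‖ ≤ 2 * ρ := by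
  have h1 : T (y s) - Rx (w s) (w (s + 1)) (T (y s)) =
      (T (y s) - Rx 0 (w (s + 1)) (T (y s))) + Rx 0 (w s) (T (y s)) := by
    rw [Rx_split (h.mono (Nat.lt_succ_self s)).le]
    abel
  have h2 := h.lo s
  have h3 := h.hi s (s + 1) (Nat.lt_succ_self s)
  have h4 : ρ * (1 / 4) ^ s ≤ ρ := mul_le_of_le_one_right hρ
    (pow_le_one₀ (by norm_num) (by norm_num))
  have h5 : ρ * (1 / 4) ^ (s + 1) ≤ ρ := mul_le_of_le_one_right hρ
    (pow_le_one₀ (by norm_num) (by norm_num))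
  rw [h1]
  refine (norm_add_le _ _).trans ?_
  linarith

end STAR

/-- STAR: on rapidly increasing sequences every operator is near to the set `B_m`. -/
theorem t_STAR (sp : S_SUPP) (sel : S_SEL) (fn : S_FUN) (con : S_CON) : S_STAR := by
  intro T C ε hC hε
  by_contra hcon
  push Not at hcon
  choose z hz hfr using hcon
  have hρ : (0 : ℝ) < min 1 (ε / 16) := lt_min one_pos (by positivity)
  obtain ⟨w, φ, A, B, J, hris, hwin, hQ⟩ := sel (min 1 (ε / 16)) T C (fun _ N => z (N + 1))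
    (fun _ N l => ∀ b, InB (N + 1) b → ε < ‖T (z (N + 1) l) - op b (z (N + 1) l)‖) hρ
    (fun _ N => hz (N + 1)) (fun _ N => by
      have h := hfr (N + 1)
      exact h)
  set y : ℕ → XX := fun s => z (w s + 1) (φ s) with hy
  have hf : ∀ s, ∃ (f : Tr) (N : ℕ), f.Wf ∧ ε / 2 ≤ ‖ev f (cut 0 N (cx (T (y s))))‖ ∧
      ∀ v : Sg, v.In (w s + 1) →
        ‖ev f (cut 0 N (cx (Sx v (y s))))‖ ≤ 2 * ε / ((w s + 1 : ℕ) : ℝ) := fun s =>
    fn (w s + 1) ε (T (y s)) (y s) (by omega) hε (hQ s)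
  choose f N hwf hbig hsmall using hf
  have cd : CD T C y A B J w (fun s => STAR.one (N s) (f s))
      (fun s => 2 * ε / ((w s + 1 : ℕ) : ℝ)) :=
    { ris := hris
      win := STAR.win_one hwin (min_le_left _ _)
      wf := fun s => STAR.one_wf (hwf s)
      eta := by
        have h1 : Tendsto (fun s => ((w s + 1 : ℕ) : ℝ)) atTop atTop :=
          tendsto_natCast_atTop_atTop.comp
            ((tendsto_add_atTop_nat 1).comp hwin.mono.tendsto_atTop)
        exact h1.const_div_atTop (2 * ε)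
      small := by
        intro s v hv
        have h1 : OnLv (w s) (w (s + 1)) (Sv v (cx (y s))) :=
          sp v (w s) (w (s + 1)) (A s) (B s) (cx (y s)) hv (hwin.lev s) (hwin.loA s) (hwin.hiB s)
        rw [h1.cut_eq le_rfl le_rfl, STAR.ev_one, ← cx_Sx]
        exact hsmall s v ⟨hv.1.trans_le (Nat.le_succ _), hv.2.trans_le (Nat.le_succ _)⟩ }
  refine con T C y A B J w _ _ cd (ε / 4) (by positivity) ?_
  intro s
  have h1 := STAR.rest_le hwin hρ.le s
  have h2 : ‖ev (f s) (cut 0 (N s) (cx (T (y s) - Rx (w s) (w (s + 1)) (T (y s)))))‖ ≤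
      ‖T (y s) - Rx (w s) (w (s + 1)) (T (y s))‖ := XX.bd _ (f s) (hwf s) 0 (N s)
  have h3 : ev (f s) (cut 0 (N s) (cx (T (y s) - Rx (w s) (w (s + 1)) (T (y s))))) =
      ev (f s) (cut 0 (N s) (cx (T (y s)))) -
        ev (f s) (cut 0 (N s) (cut (w s) (w (s + 1)) (cx (T (y s))))) := by
    rw [map_sub, cx_Rx, map_sub, map_sub]
  have h4 := hbig s
  have h5 : min 1 (ε / 16) ≤ ε / 16 := min_le_right _ _
  show ε / 4 ≤ ‖ev (STAR.one (N s) (f s)) (cut (w s) (w (s + 1)) (cx (T (y s))))‖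
  rw [STAR.ev_one]
  have h6 := norm_sub_norm_le (ev (f s) (cut 0 (N s) (cx (T (y s)))))
    (ev (f s) (cut 0 (N s) (cut (w s) (w (s + 1)) (cx (T (y s))))))
  rw [← h3] at h6
  linarith

end

end Pool.Agent.Q73.GP
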