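import Pool.Agent.Q73.GP.Stm3

set_option autoImplicit false

/-!
Project GP, job SUPP (helper121): the supports of the translates
-/

namespace Pool.Agent.Q73.GP.SUPP

theorem key {k1 k2 r2 n w w' A B i : ℕ} (h1 : 2 * 2 ^ k1 ≤ 2 ^ w) (h2 : 2 * 2 ^ k2 ≤ 2 ^ w)
    (hr : r2 < 2 ^ k2) (hi : i ≤ 1) (hA : (w + 1) * 2 ^ w ≤ A) (hB : (B + 1) * 2 ^ w ≤ w')
    (hn : n < w ∨ w' ≤ n) :
    2 * (2 ^ k2 * (n / 2 / 2 ^ k1) + r2) + i < A ∨ B ≤ 2 * (2 ^ k2 * (n / 2 / 2 ^ k1) + r2) + i := by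
  have h3 : 0 < 2 ^ k1 := by positivity
  have h4 : 0 < 2 ^ k2 := by positivity
  rcases hn with hn | hn
  · left
    have h6 : n / 2 / 2 ^ k1 ≤ n := (Nat.div_le_self _ _).trans (Nat.div_le_self _ _)
    calc 2 * (2 ^ k2 * (n / 2 / 2 ^ k1) + r2) + i < 2 * (2 ^ k2 * (n / 2 / 2 ^ k1) + 2 ^ k2) := by omega
      _ = (n / 2 / 2 ^ k1 + 1) * (2 * 2 ^ k2) := by ring
      _ ≤ (w + 1) * 2 ^ w := Nat.mul_le_mul (by omega) h2
      _ ≤ A := hA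
  · right
    have h6 : B + 1 ≤ n / 2 / 2 ^ k1 := by
      rw [Nat.div_div_eq_div_mul, Nat.le_div_iff_mul_le (by positivity)]
      calc (B + 1) * (2 * 2 ^ k1) ≤ (B + 1) * 2 ^ w := Nat.mul_le_mul_left _ h1
        _ ≤ w' := hB
        _ ≤ n := hn
    have h7 : n / 2 / 2 ^ k1 ≤ 2 ^ k2 * (n / 2 / 2 ^ k1) := Nat.le_mul_of_pos_left _ h4
    omega

theorem pow_le {k w : ℕ} (h : k < w) : 2 * 2 ^ k ≤ 2 ^ w := by
  calc 2 * 2 ^ k = 2 ^ (k + 1) := by ring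
    _ ≤ 2 ^ w := Nat.pow_le_pow_right (by norm_num) h

end Pool.Agent.Q73.GP.SUPP

namespace Pool.Agent.Q73.GP

open Finset Filter Topology

theorem t_SUPP : S_SUPP := by
  intro v w w' A B x hv hx hA hB n hn
  have hk : ∀ i, i ≤ 1 → x (2 * (2 ^ v.v.k2 * (n / 2 / 2 ^ v.v.k1) + v.v.r2) + i) = 0 := fun i hi =>
    hx _ (SUPP.key (SUPP.pow_le hv.1) (SUPP.pow_le hv.2) v.v.h2 hi hA hB hn)
  rw [Sv_apply, GM.Sv_apply, GM.Sv_apply]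
  split_ifs
  · exact hk 0 (by norm_num)
  · rfl
  · rfl
  · exact hk (n % 2) (by omega)
  · rfl

end Pool.Agent.Q73.GP
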