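import Pool.Agent.Q73.GP.Base

set_option autoImplicit false

/-!
Project GP (port of project GM) (helper73): the Banach space `XX` of all functions on `ℕ` which are bounded with respect to
the admissible trees; restrictions `Rx a b`, spreads `Sx v`, their linear combinations `op b`.
-/

namespace Pool.Agent.Q73.GP

open Finset Filter Topology
open scoped BoundedContinuousFunction

noncomputable section

/-- restricted admissible trees -/
def Idx : Type := {s : Tr × ℕ × ℕ // s.1.Wf}

instance : TopologicalSpace Idx := ⊥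
instance : DiscreteTopology Idx := ⟨rfl⟩

/-- the ambient space of bounded functions -/
abbrev AA : Type := Idx →ᵇ ℂ

/-- the index of a tree and an interval -/
def ix (t : Tr) (h : t.Wf) (a b : ℕ) : Idx := ⟨(t, a, b), h⟩

theorem base_wf (n : ℕ) : (Tr.base n).Wf := trivial

/-- the coordinates -/
def co : AA →ₗ[ℂ] V where
  toFun w := fun n => w (ix (.base n) (base_wf n) n (n + 1))
  map_add' _ _ := rfl
  map_smul' _ _ := rfl

theorem co_apply (w : AA) (n : ℕ) : co w n = w (ix (.base n) (base_wf n) n (n + 1)) := rfl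

theorem continuous_co (n : ℕ) : Continuous fun w : AA => co w n := continuous_eval_const _

theorem continuous_ev (t : Tr) : ∀ f : AA → V, (∀ n, Continuous fun w => f w n) →
    Continuous fun w : AA => ev t (f w) := by
  have hcut : ∀ (f : AA → V) (a b : ℕ), (∀ n, Continuous fun w => f w n) →
      ∀ n, Continuous fun w => cut a b (f w) n := by
    intro f a b hf n
    simp only [cut_apply]
    by_cases h : a ≤ n ∧ n < b
    · simp only [if_pos h]
      exact hf n
    · simp only [if_neg h]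
      exact continuous_const
  induction t with
  | base k =>
    intro f hf
    exact hf k
  | node j d c a' b' t ih =>
    intro f hf
    simp only [ev_node]
    exact continuous_const.mul (continuous_finsetSum _ fun i _ =>
      continuous_const.mul (ih i _ (hcut f _ _ hf)))
  | tr v t ih =>
    intro f hf
    simp only [ev_tr]
    refine ih _ fun n => ?_
    simp only [Sv_apply, GM.Sv_apply]
    split_ifs
    · exact hf _
    · exact continuous_const
    · exact continuous_const
    · exact hf _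
    · exact continuous_const
  | cv d c a' b' t ih =>
    intro f hf
    simp only [ev_cv]
    exact continuous_finsetSum _ fun i _ => continuous_const.mul (ih i _ (hcut f _ _ hf))

/-- the space of coherent functions -/
def W : Submodule ℂ AA where
  carrier := {w | ∀ s : Idx, w s = ev s.1.1 (cut s.1.2.1 s.1.2.2 (co w))}
  zero_mem' := by
    intro s
    rw [map_zero, map_zero, map_zero]
    rfl
  add_mem' := by
    intro w w' h h' s
    rw [BoundedContinuousFunction.add_apply, h s, h' s, map_add, map_add, map_add]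
  smul_mem' := by
    intro c w h s
    rw [BoundedContinuousFunction.smul_apply, h s, map_smul, map_smul, map_smul]

theorem isClosed_W : IsClosed (W : Set AA) := by
  have : (W : Set AA) = ⋂ s : Idx, {w | w s = ev s.1.1 (cut s.1.2.1 s.1.2.2 (co w))} := by
    ext w
    simp only [Set.mem_iInter, Set.mem_ofPred_eq]
    rfl
  rw [this]
  refine isClosed_iInter fun s => isClosed_eq ?_ (continuous_ev _ _ fun n => ?_)
  · exact continuous_eval_const _
  · simp only [cut_apply]
    by_cases h : s.1.2.1 ≤ n ∧ n < s.1.2.2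
    · simp only [if_pos h]
      exact continuous_co n
    · simp only [if_neg h]
      exact continuous_const

/-- the space -/
def XX : Type := ↥W

instance : NormedAddCommGroup XX := inferInstanceAs (NormedAddCommGroup ↥W)
instance : NormedSpace ℂ XX := inferInstanceAs (NormedSpace ℂ ↥W)
instance : CompleteSpace XX := (isClosed_W.completeSpace_coe : CompleteSpace ↥W)

/-- the underlying bounded function -/
def XX.val : XX →ₗ[ℂ] AA := W.subtype

/-- the element of `XX` given by a coherent function -/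
def XX.mk (w : AA) (h : w ∈ W) : XX := (⟨w, h⟩ : ↥W)

theorem XX.val_mk (w : AA) (h : w ∈ W) : (XX.mk w h).val = w := rfl

theorem XX.val_mem (w : XX) : w.val ∈ W := Subtype.property (p := fun z => z ∈ W) w

theorem XX.norm_val (w : XX) : ‖w.val‖ = ‖w‖ := rfl

theorem XX.val_injective : Function.Injective XX.val := Subtype.val_injective

/-- the coordinates of an element of `XX` -/
def cx : XX →ₗ[ℂ] V := co.comp XX.val

theorem cx_apply (w : XX) : cx w = co w.val := rfl

theorem XX.apply (w : XX) (t : Tr) (h : t.Wf) (a b : ℕ) :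
    w.val (ix t h a b) = ev t (cut a b (cx w)) :=
  w.val_mem (ix t h a b)

theorem XX.bd (w : XX) : Bd ‖w‖ (cx w) := by
  intro t h a b
  rw [← XX.apply w t h a b, ← XX.norm_val]
  exact w.val.norm_coe_le_norm _

theorem XX.norm_le {w : XX} {C : ℝ} (hC : 0 ≤ C) (h : Bd C (cx w)) : ‖w‖ ≤ C := by
  have : ‖w.val‖ ≤ C := (BoundedContinuousFunction.norm_le hC).2 fun s => by
    have h1 := XX.apply w s.1.1 s.2 s.1.2.1 s.1.2.2
    have h2 : ix s.1.1 s.2 s.1.2.1 s.1.2.2 = s := rfl
    rw [h2] at h1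
    rw [h1]
    exact h s.1.1 s.2 _ _
  exact this

/-- the element of `XX` with given coordinates -/
def ofV (x : V) (C : ℝ) (h : Bd C x) : XX :=
  XX.mk (BoundedContinuousFunction.ofNormedAddCommGroupDiscrete
    (fun s : Idx => ev s.1.1 (cut s.1.2.1 s.1.2.2 x)) C (fun s => h s.1.1 s.2 _ _)) (by
    have hco : co (BoundedContinuousFunction.ofNormedAddCommGroupDiscrete
        (fun s : Idx => ev s.1.1 (cut s.1.2.1 s.1.2.2 x)) C (fun s => h s.1.1 s.2 _ _)) = x := by
      funext n
      rw [co_apply]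
      show ev (.base n) (cut n (n + 1) x) = x n
      rw [ev_base, cut_apply, if_pos ⟨le_rfl, Nat.lt_succ_self n⟩]
    intro s
    rw [hco]
    rfl)

theorem cx_ofV (x : V) (C : ℝ) (h : Bd C x) : cx (ofV x C h) = x := by
  funext n
  rw [cx_apply, co_apply]
  show ev (.base n) (cut n (n + 1) x) = x n
  rw [ev_base, cut_apply, if_pos ⟨le_rfl, Nat.lt_succ_self n⟩]

theorem cx_injective : Function.Injective cx := by
  intro w w' h
  apply XX.val_injective
  ext s
  have h1 := XX.apply w s.1.1 s.2 s.1.2.1 s.1.2.2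
  have h2 := XX.apply w' s.1.1 s.2 s.1.2.1 s.1.2.2
  rw [h] at h1
  exact h1.trans h2.symm

/-- coordinates are bounded by the norm -/
theorem norm_cx_le (w : XX) (n : ℕ) : ‖cx w n‖ ≤ ‖w‖ := by
  have := w.bd (.base n) trivial n (n + 1)
  rwa [ev_base, cut_apply, if_pos ⟨le_rfl, Nat.lt_succ_self n⟩] at this

/-- an operator on functions which respects `Bd` gives an operator on `XX` -/
def mkOp (L : V →ₗ[ℂ] V) (h : ∀ (C : ℝ) (x : V), Bd C x → Bd C (L x)) : XX →L[ℂ] XX :=
  LinearMap.mkContinuous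
    { toFun := fun w => ofV (L (cx w)) ‖w‖ (h _ _ w.bd)
      map_add' := fun w w' => cx_injective (by
        rw [cx_ofV, map_add cx (ofV _ _ _) (ofV _ _ _), cx_ofV, cx_ofV, map_add cx w w', map_add])
      map_smul' := fun c w => cx_injective (by
        rw [cx_ofV, RingHom.id_apply, map_smul cx c (ofV _ _ _), cx_ofV, map_smul cx c w,
          map_smul]) } 1
    (fun w => by
      rw [one_mul]
      refine XX.norm_le (norm_nonneg _) ?_
      show Bd ‖w‖ (cx (ofV (L (cx w)) ‖w‖ (h _ _ w.bd)))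
      rw [cx_ofV]
      exact h _ _ w.bd)

theorem cx_mkOp (L : V →ₗ[ℂ] V) (h : ∀ (C : ℝ) (x : V), Bd C x → Bd C (L x)) (w : XX) :
    cx (mkOp L h w) = L (cx w) := cx_ofV (L (cx w)) ‖w‖ (h _ _ w.bd)

theorem norm_mkOp_le (L : V →ₗ[ℂ] V) (h : ∀ (C : ℝ) (x : V), Bd C x → Bd C (L x)) (w : XX) :
    ‖mkOp L h w‖ ≤ ‖w‖ := by
  refine XX.norm_le (norm_nonneg _) ?_
  rw [cx_mkOp]
  exact h _ _ w.bd

/-- restriction to `[a, b)` -/
def Rx (a b : ℕ) : XX →L[ℂ] XX := mkOp (cut a b) (fun _ _ h => h.cut a b)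

theorem cx_Rx (a b : ℕ) (w : XX) : cx (Rx a b w) = cut a b (cx w) := cx_mkOp _ _ _

theorem norm_Rx_le (a b : ℕ) (w : XX) : ‖Rx a b w‖ ≤ ‖w‖ := norm_mkOp_le _ _ _

/-- the spreads on `XX` -/
def Sx (v : Sg) : XX →L[ℂ] XX := mkOp (Sv v) (fun _ _ h => h.Sv v)

theorem cx_Sx (v : Sg) (w : XX) : cx (Sx v w) = Sv v (cx w) := cx_mkOp _ _ _

theorem norm_Sx_le (v : Sg) (w : XX) : ‖Sx v w‖ ≤ ‖w‖ := norm_mkOp_le _ _ _

theorem Sx_id (w : XX) : Sx Sg.id w = w := cx_injective (by rw [cx_Sx, Sv_id])

/-- every tree gives a continuous functional of norm at most `1` -/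
def fx (t : Tr) (h : t.Wf) (a b : ℕ) : XX →L[ℂ] ℂ :=
  LinearMap.mkContinuous
    { toFun := fun w => ev t (cut a b (cx w))
      map_add' := fun w w' => by rw [map_add, map_add, map_add]
      map_smul' := fun c w => by rw [RingHom.id_apply, map_smul, map_smul, map_smul] } 1
    (fun w => by rw [one_mul]; exact w.bd t h a b)

theorem fx_apply (t : Tr) (h : t.Wf) (a b : ℕ) (w : XX) : fx t h a b w = ev t (cut a b (cx w)) := rfl

/-- the coordinates as continuous functionals -/
def coordL (n : ℕ) : XX →L[ℂ] ℂ := fx (.base n) trivial n (n + 1)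

theorem coordL_apply (n : ℕ) (w : XX) : coordL n w = cx w n := by
  show ev (.base n) (cut n (n + 1) (cx w)) = cx w n
  rw [ev_base, cut_apply, if_pos ⟨le_rfl, Nat.lt_succ_self n⟩]

/-- a functional which nearly attains the norm -/
theorem exists_functional {w : XX} {ε : ℝ} (hε : 0 ≤ ε) (h : ε < ‖w‖) :
    ∃ f : Tr × ℕ × ℕ, f.1.Wf ∧ ε < ‖ev f.1 (cut f.2.1 f.2.2 (cx w))‖ := by
  by_contra hcon
  push Not at hcon
  have : ‖w‖ ≤ ε := XX.norm_le hε fun t ht a b => hcon (t, a, b) ht
  linarith

/-- elements of the linear span of the spreads -/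
abbrev LS : Type := Sg →₀ ℂ

/-- the operator on functions -/
def opV (b : LS) : V →ₗ[ℂ] V := b.sum fun v z => z • Sv v

/-- the operator on `XX` -/
def op (b : LS) : XX →L[ℂ] XX := b.sum fun v z => z • Sx v

/-- the `ℓ¹` norm -/
def nrm (b : LS) : ℝ := b.sum fun _ z => ‖z‖

theorem opV_apply (b : LS) (x : V) : opV b x = ∑ v ∈ b.support, b v • Sv v x := by
  unfold opV Finsupp.sum
  rw [LinearMap.sum_apply]
  rfl

theorem op_apply (b : LS) (w : XX) : op b w = ∑ v ∈ b.support, b v • Sx v w := by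
  unfold op Finsupp.sum
  rw [_root_.sum_apply]
  rfl

theorem cx_op (b : LS) (w : XX) : cx (op b w) = opV b (cx w) := by
  rw [op_apply, opV_apply, map_sum]
  refine Finset.sum_congr rfl fun v _ => ?_
  rw [map_smul, cx_Sx]

theorem nrm_nonneg (b : LS) : 0 ≤ nrm b := Finset.sum_nonneg fun _ _ => norm_nonneg _

theorem norm_op_le (b : LS) (w : XX) : ‖op b w‖ ≤ nrm b * ‖w‖ := by
  rw [op_apply]
  unfold nrm Finsupp.sum
  rw [Finset.sum_mul]
  refine (norm_sum_le _ _).trans (Finset.sum_le_sum fun v _ => ?_)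
  rw [norm_smul]
  exact mul_le_mul_of_nonneg_left (norm_Sx_le v w) (norm_nonneg _)

theorem op_add (a b : LS) (w : XX) : op (a + b) w = op a w + op b w := by
  unfold op
  rw [Finsupp.sum_add_index' (fun v => zero_smul ℂ (Sx v)) (fun v x y => add_smul x y (Sx v))]
  rfl

theorem op_smul (c : ℂ) (b : LS) (w : XX) : op (c • b) w = c • op b w := by
  unfold op
  rw [Finsupp.sum_smul_index' (fun v => zero_smul ℂ (Sx v))]
  rw [Finsupp.sum, Finsupp.sum, _root_.sum_apply, _root_.sum_apply,
    Finset.smul_sum]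
  refine Finset.sum_congr rfl fun v _ => ?_
  rw [_root_.smul_apply, _root_.smul_apply, smul_smul]
  rfl

/-- the ball `B_m` of the span of `F_m` -/
def InB (m : ℕ) (b : LS) : Prop := (∀ v ∈ b.support, v.In m) ∧ nrm b ≤ m

/-- a sequence in `XX` which is rapidly increasing for some supports and weights -/
def Ris (C : ℝ) (z : ℕ → XX) : Prop := ∃ A B J : ℕ → ℕ, RIS C (fun l => cx (z l)) A B J

theorem Ris.norm_le {C : ℝ} {z : ℕ → XX} (h : Ris C z) (l : ℕ) : ‖z l‖ ≤ C := by
  obtain ⟨A, B, J, h⟩ := h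
  exact XX.norm_le (by linarith [h.hC]) (h.bd l)

theorem Ris.sub {C : ℝ} {z : ℕ → XX} (h : Ris C z) {φ : ℕ → ℕ} (hφ : StrictMono φ) :
    Ris C (fun l => z (φ l)) := by
  obtain ⟨A, B, J, h⟩ := h
  exact ⟨_, _, _, h.sub hφ⟩

theorem Ris.Sx {C : ℝ} {z : ℕ → XX} (h : Ris C z) (v : Sg) : Ris C (fun l => GP.Sx v (z l)) := by
  obtain ⟨A, B, J, h⟩ := h
  refine ⟨fun l => fv v (A l), fun l => fv v (B l), J, ?_⟩
  have h2 : (fun l => cx (GP.Sx v (z l))) = fun l => Sv v (cx (z l)) := by
    funext l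
    rw [cx_Sx]
  rw [h2]
  exact h.Sv v

theorem Ris.mono_C {C D : ℝ} {z : ℕ → XX} (h : Ris C z) (hCD : C ≤ D) : Ris D z := by
  obtain ⟨A, B, J, h⟩ := h
  exact ⟨A, B, J, h.mono_C hCD⟩

theorem Ris.phase {C : ℝ} {z : ℕ → XX} (h : Ris C z) {θ : ℕ → ℂ} (hθ : ∀ l, ‖θ l‖ ≤ 1) :
    Ris C (fun l => θ l • z l) := by
  obtain ⟨A, B, J, h⟩ := h
  refine ⟨A, B, J, ?_⟩
  have h2 : (fun l => cx (θ l • z l)) = fun l => θ l • cx (z l) := by
    funext l
    rw [map_smul]
  rw [h2]
  exact h.phase hθ

end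

end Pool.Agent.Q73.GP
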