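import Pool.Agent.Q73.GP.Base

set_option autoImplicit false

/-!
Project GP (port of project GM) (helper73): statements of the lemmas on the level of functions on `ℕ` (first part).
Most of them are ports of the lemmas of the seed library `Pool.Agent.TH313.HI` (files `Est1`,
`Est2`, `Dep`); the differences: one coordinate per level, half-open intervals `[a, b)`, the new
trees `tr v t` (translates) and `cv` (convex combinations).
-/

namespace Pool.Agent.Q73.GP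

open Finset Filter Topology

noncomputable section

/-- COMP: the composition of two spreads is a spread or zero.
Proof. `Sv v = U_{k1,r1} D_{k2,r2}` with `D_{k,r} x m = x (2^k m + r)`,
`U_{k,r} x n = x (n / 2^k)` if `n % 2^k = r`, else `0`. One computes `D_{k2,r2} U_{k1',r1'}`:
if `k1' ≤ k2`: it is `D_{k2-k1', r2 / 2^k1'}` if `r2 % 2^k1' = r1'`, else `0`; if `k2 < k1'`: it is
`U_{k1'-k2, r1' / 2^k2}` if `r1' % 2^k2 = r2`, else `0`. And
`U_{k1,r1} U_{k,r} = U_{k1+k, 2^k1 r + r1}`, `D_{k,r} D_{k2',r2'} = D_{k+k2', 2^k2' r + r2'}`.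
So in the first case the result is `(k1, r1, k2-k1'+k2', 2^k2' (r2 / 2^k1') + r2')`, in the second
`(k1+(k1'-k2), 2^k1 (r1' / 2^k2) + r1, k2', r2')`. Evaluate at `n` with `Sv_apply`. -/
def S_COMP : Prop := ∀ v v' : Sg,
  (∃ w : Sg, ∀ x : V, Sv v (Sv v' x) = Sv w x) ∨ ∀ x : V, Sv v (Sv v' x) = 0

/-- ELS: evaluation is bounded by the sum of the coordinates; a tree of weight `i + 1` gains the
factor `1 / mm i`.
Proof (compare `ev_level`, `ev_level_node`, `ev_le_sum`, `ev_node_le_sum` of HI/Est1). First for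
multiples of `e n`: by induction on `t` (for all `n` and all `z : ℂ`): `‖ev t (z • e n)‖ ≤ ‖z‖`, and
`≤ (mm i)⁻¹ * ‖z‖` if `t.wt = i + 1`. `base`: clear. `node`: the intervals `[a i, b i)` are
successive, so `n` is in at most one of them, only one summand is not zero. `tr v t`:
`Sv v (z • e n)` is `0` or `z • e n'` (`n = 2^k2 m + r2` with `r2 = n % 2^k2` gives
`n' = 2^k1 m + r1`). `cv`: triangle inequality with `∑ ‖cc (c i)‖ ≤ 1`. Then
`x = ∑ k ∈ Ico A B, x k • e k`, and the same for `cut a b x`. -/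
def S_ELS : Prop := ∀ (A B : ℕ) (x : V), OnLv A B x → ∀ t : Tr, t.Wf → ∀ a b : ℕ,
  ‖ev t (cut a b x)‖ ≤ ∑ k ∈ Ico A B, ‖x k‖ ∧
    ∀ i, t.wt = i + 1 → ‖ev t (cut a b x)‖ ≤ (mm i : ℝ)⁻¹ * ∑ k ∈ Ico A B, ‖x k‖

/-- SPL: the splitting lemma. Port of `splitting` of HI/Est1, with `H l` the set of the children `i`
with `max (a i) (A l) < min (b i) (B l)`; `J` the `l ∈ I` with `2 ≤ #(H l)`,
`K i` the `l ∈ I` with `#(H l) < 2` and `i ∈ H l`. -/
def S_SPL : Prop := ∀ (x : ℕ → V) (A B : ℕ → ℕ), Succ x A B →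
  ∀ (j d : ℕ) (c : Fin d → ℚ × ℚ) (a b : Fin d → ℕ) (t : Fin d → Tr),
  (Tr.node j d c a b t).Wf → ∀ (I : Finset ℕ) (α β : ℕ),
    ∃ (J : Finset ℕ) (K : Fin d → Finset ℕ), J ⊆ I ∧ J.card ≤ d ∧ (∀ i, K i ⊆ I) ∧
      (∑ i, (K i).card ≤ I.card) ∧
      ev (.node j d c a b t) (cut α β (∑ l ∈ I, x l)) =
        (∑ l ∈ J, ev (.node j d c a b t) (cut α β (x l))) +
        (mm j : ℂ)⁻¹ *
          ∑ i, cc (c i) * ev (t i) (cut (max (a i) α) (min (b i) β) (∑ l ∈ K i, x l))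

/-- STEP: one step of the recursion. Port of `step` of HI/Est2 (uses SPL). -/
def S_STEP : Prop := ∀ (x : ℕ → V) (A B : ℕ → ℕ), Succ x A B → ∀ C a b : ℝ, 0 ≤ C → 0 ≤ a → 0 ≤ b →
  (∀ l, Bd C (x l)) → ∀ q : ℕ,
  (∀ t : Tr, t.Wf → ∀ (α β : ℕ) (I : Finset ℕ),
    ‖ev t (cut α β (∑ l ∈ I, x l))‖ ≤ a + b * (#I : ℝ)) →
  ∀ (j d : ℕ) (c : Fin d → ℚ × ℚ) (a' b' : Fin d → ℕ) (t : Fin d → Tr),
  (Tr.node j d c a' b' t).Wf → j < q → ∀ (α β : ℕ) (I : Finset ℕ),
    ‖ev (.node j d c a' b' t) (cut α β (∑ l ∈ I, x l))‖ ≤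
      DD q * C + (mm j : ℝ)⁻¹ * (DD q * a + b * #I)

/-- REC: the recursive estimate, for a class `K` of sequences which is closed under spreads.
Port of `recEst` of HI/Est2. Induction on `r`; in the step an inner induction on the tree `t`
(for all `x` in `K`, `α β I`): `base n`: at most one `x l`, `l ∈ I`, is not zero at `n`, so the value
is at most `C` (port of `ev_base_sum`); `node j` with `q ≤ j`: the hypothesis; `node j` with `j < q`:
STEP with the induction hypothesis for `r`, as in the old proof; `tr v t`: by `Sv_cut` and `map_sum`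
it is the value of `t` at a sequence `fun l => Sv v (x l)` of the class, cut with
`[fv v α, fv v β)`; `cv`: triangle inequality with `∑ ‖cc (c i)‖ ≤ 1` (`cut_cut`). -/
def S_REC : Prop := ∀ (K : (ℕ → V) → Prop) (C A₀ B₀ : ℝ) (q : ℕ), 0 ≤ C → 0 ≤ A₀ → 0 ≤ B₀ →
  (∀ x, K x → ∀ v : Sg, K (fun l => Sv v (x l))) →
  (∀ x, K x → ∃ A B : ℕ → ℕ, Succ x A B) →
  (∀ x, K x → ∀ l, Bd C (x l)) →
  (∀ x, K x → ∀ (j d : ℕ) (c : Fin d → ℚ × ℚ) (a b : Fin d → ℕ) (t : Fin d → Tr),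
    (Tr.node j d c a b t).Wf → q ≤ j → ∀ (α β : ℕ) (I : Finset ℕ),
    ‖ev (.node j d c a b t) (cut α β (∑ l ∈ I, x l))‖ ≤ A₀ + B₀ * (#I : ℝ)) →
  ∀ (r : ℕ) (t : Tr), t.Wf → ∀ x, K x → ∀ (α β : ℕ) (I : Finset ℕ),
    ‖ev t (cut α β (∑ l ∈ I, x l))‖ ≤
      (A₀ + C) * (2 * DD q + 2) ^ r + (B₀ + C / 2 ^ r) * (#I : ℝ)

/-- NODE: port of `RIS.node_est` of HI/Est2 (the same proof). -/
def S_NODE : Prop := ∀ (C : ℝ) (u : ℕ → V) (A B J : ℕ → ℕ), RIS C u A B J →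
  ∀ t : Tr, t.Wf → ∀ i, t.wt = i + 1 → ∀ (α β : ℕ) (I : Finset ℕ),
    ‖ev t (cut α β (∑ l ∈ I, u l))‖ ≤ C + 2 + C / mm i * (#I : ℝ)

/-- AVL: averages of a rapidly increasing sequence, small weights. Port of `RIS.avg_low` of HI/Est2,
now for `κ = #I` with `nn q ≤ mm q * κ`. The class `K` of REC is
`fun x => ∃ A B, RIS C x A B J` (closed under spreads by `RIS.Sv`), with
`A₀ = C + 2`, `B₀ = C / mm q` (by NODE), `r = rr q`, `2 ^ rr q = (mm q)^2`.
For a node of index `i < q` (`P = (2 DD q + 2)^(rr q)`): STEP gives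
`(mm q / κ) (DD q C + (1 / mm i) (DD q (C + 2 + C) P + (C / mm q + C / (mm q)^2) κ))`, and
`nn q ≥ (mm q)^4 (5 DD q + 5) P`, so `κ ≥ (mm q)^3 (5 DD q + 5) P`, hence the three terms are at most
`(1/5) C / mm i`, `(4/5) C / mm i`, `(5/4) C / mm i`.
For a general tree of weight `i + 1`: induction on the tree (for all sequences of the class), `tr v t`
by `Sv_cut` and `RIS.Sv`; `base` and `cv` have weight `0`. -/
def S_AVL : Prop := ∀ (C : ℝ) (u : ℕ → V) (A B J : ℕ → ℕ), RIS C u A B J →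
  ∀ (q : ℕ) (I : Finset ℕ), nn q ≤ mm q * #I →
  ∀ t : Tr, t.Wf → ∀ i, t.wt = i + 1 → i < q → ∀ α β : ℕ,
    ‖ev t (cut α β (((mm q : ℂ) / (#I : ℂ)) • ∑ l ∈ I, u l))‖ ≤ 3 * C / mm i

/-- AVH: averages of a rapidly increasing sequence, all weights. Port of `RIS.avg_high` of HI/Est2,
for `κ = #I` with `nn q ≤ mm q * κ` (so `mm q / κ ≤ (mm q)^2 / nn q`): by NODE the value is at most
`(mm q / κ) (C + 2 + (C / mm i) κ)`. -/
def S_AVH : Prop := ∀ (C : ℝ) (u : ℕ → V) (A B J : ℕ → ℕ), RIS C u A B J →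
  ∀ (q : ℕ) (I : Finset ℕ), nn q ≤ mm q * #I →
  ∀ t : Tr, t.Wf → ∀ i, t.wt = i + 1 → ∀ α β : ℕ,
    ‖ev t (cut α β (((mm q : ℂ) / (#I : ℂ)) • ∑ l ∈ I, u l))‖ ≤
      3 * C * ((mm q : ℝ) ^ 2 / nn q) + C * (mm q / mm i)

/-- AVG: averages of rapidly increasing sequences satisfy `Av`. Port of `RIS.avg_bd` of HI/Est2.
`low` is AVL, `high` is AVH. The bound `4 C`, by induction on the tree for all rapidly increasing
sequences (class `fun x => ∃ A B, RIS C x A B J`): `base n`: at most one `u l` is not zero at `n`,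
so the value is at most `(mm q / κ) C ≤ C` (`(mm q)^2 / nn q ≤ 1 / (mm q)^2`);
`node j` with `j < q`: AVL, `3 C / mm j ≤ C`; `node j` with `q ≤ j`: AVH,
`3 C / 16 + C`; `tr`: `Sv_cut` and `RIS.Sv`; `cv`: `∑ ‖cc (c i)‖ ≤ 1` and `cut_cut`. -/
def S_AVG : Prop := ∀ (C : ℝ) (u : ℕ → V) (A B J : ℕ → ℕ), RIS C u A B J →
  ∀ (q : ℕ) (I : Finset ℕ), nn q ≤ mm q * #I →
    Av C q (((mm q : ℂ) / (#I : ℂ)) • ∑ l ∈ I, u l)

/-- DGEN: the general estimate for (translates of) dependent sequences. Port of `Dep.gen` of HI/Dep: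
the same proof for the vectors `Sv v (X k)`, which satisfy `Av C (q k)` by `Av.Sv`; here
`(mm (q k))^2 / nn (q k) ≤ 1 / (mm (q k))^2 ≤ 1 / (nn p)^2` (`thr p ≤ q k`). The facts `Dep.q_lt`,
`Dep.q_mono`, `Dep.thr_le`, `sum_mm_le` have to be ported too (prove them in your file). -/
def S_DGEN : Prop := ∀ (C : ℝ) (p : ℕ) (X : ℕ → V) (q : ℕ → ℕ) (G : ℕ → Tr × ℕ × ℕ),
  Dep C p X q G → ∀ I : Finset ℕ, I ⊆ range (nn p) → ∀ (v : Sg) (t : Tr), t.Wf →
  ∀ i : ℕ, t.wt = i + 1 → 1 ≤ i → ∀ (α β : ℕ) (E : ℝ), (∀ k ∈ I, q k = i → 4 * C ≤ E) → 0 ≤ E →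
    ‖ev t (cut α β (∑ k ∈ I, Sv v (X k)))‖ ≤
      E + (#I : ℝ) * (3 * C / mm i) + 3 * C / nn p + 2 * C / mm (i - 1)

/-- DSP: special nodes on (translates of) dependent sequences. Port of `Dep.special` of HI/Dep with
one more ingredient. Write `y = ∑ k ∈ I, Sv v (X k)`, and `G k = (G k).1` with its window
`[(G k).2.1, (G k).2.2)`. Let `P s` be: `(t s, a s, b s) ≠ G s`. All children have weight `i + 1` with
`thr p ≤ i` (as in the old proof).
(1) `s` is the first index with `P s`: by DGEN with `E = 4 C` the value of the child is at most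
`12 C` (old `gen_thr`: `thr p ≤ i` gives `mm i, mm (i-1) ≥ 2 (nn p)^2`).
(2) `s` is after the first index with `P`: the weight of the child does not occur among the `q k` (by
the injectivity of `sig`, as in the old proof), so by DGEN with `E = 0` at most `6 C / nn p` (old
`gen_none`).
(3) before the first index with `P`: the child is `G s`, of weight `q s + 1`, with its window; write
`y = Sv v (X s) + ∑ k ∈ I \ {s}, Sv v (X k)` (if `s ∈ I`). The second part: DGEN for the set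
`I \ {s}` with `i = q s` and `E = 0` (no `k ≠ s` has `q k = q s`, since `q` is strictly increasing):
at most `6 C / nn p` as in `gen_none`. The first part is
`‖ev (G s).1 (cut (max (G s).2.1 α) (min (G s).2.2 β) (Sv v (X s)))‖`: if `α ≤ (G s).2.1` and
`(G s).2.2 ≤ β` this is the quantity of `diag`, at most `1 / nn p` unless `s = k0 v`; if
`(G s).2.1 < α < (G s).2.2` or `(G s).2.1 < β < (G s).2.2` or `s = k0 v` it is at most `4 C`
(`Av.bd`), which happens for at most one `s` each (three indicator functions); in the remaining cases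
the interval is empty and the value is `0`.
Sum over `s` (`d ≤ nn p`): `1 + 6 C + 3 * 4 C + 12 C ≤ 31 C`. The factor `1 / mm p ≤ 1`. -/
def S_DSP : Prop := ∀ (C : ℝ) (p : ℕ) (X : ℕ → V) (q : ℕ → ℕ) (G : ℕ → Tr × ℕ × ℕ),
  Dep C p X q G → ∀ I : Finset ℕ, I ⊆ range (nn p) → ∀ (v : Sg) (d : ℕ) (c : Fin d → ℚ × ℚ)
  (a b : Fin d → ℕ) (t : Fin d → Tr), (Tr.node p d c a b t).Wf → ∀ α β : ℕ,
    ‖ev (.node p d c a b t) (cut α β (∑ k ∈ I, Sv v (X k)))‖ ≤ 31 * C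

/-- DBD: the main estimate for dependent sequences. Port of `Dep.bound` of HI/Dep. Let
`x k = X k` for `k < nn p`, else `0`. Class `K` of REC: `fun y => (∃ v, ∀ k, y k = Sv v (x k)) ∨
∀ k, y k = 0` (closed under spreads by COMP; `Succ` by `Succ.Sv`; contains `x` by `Sv_id`), constant
`4 C`, `q = p`, `r = rr p`, `A₀ = 31 C`, `B₀ = 3 C / (mm p)^2`: nodes of index `p` by DSP, nodes of
index `i > p` by DGEN with `E = 4 C` (port of `gen_big`: `9 C + 3 C / (mm p)^2 #I`). Then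
`(31 C + 4 C) (2 DD p + 2)^(rr p) + (3 C + 4 C) / (mm p)^2 nn p ≤ 8 C nn p / (mm p)^2`, since
`nn p ≥ (mm p)^4 5 (2 DD p + 2)^(rr p)` and `(mm p)^2 ≥ 16`, so
`35 C (2 DD p + 2)^(rr p) ≤ 7 C nn p / (mm p)^4 ≤ C nn p / (mm p)^2`. -/
def S_DBD : Prop := ∀ (C : ℝ) (p : ℕ) (X : ℕ → V) (q : ℕ → ℕ) (G : ℕ → Tr × ℕ × ℕ),
  Dep C p X q G → Bd (8 * C * (nn p / (mm p : ℝ) ^ 2)) (∑ k ∈ range (nn p), X k)

/-- RAV: vectors with the estimates `Av` for rapidly increasing `q k` form a rapidly increasing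
sequence. Proof: `low`: `3 C / mm i ≤ 4 C / mm i`. `high` at `k`, `i ≥ q (k+1)`:
`mm (q k) / mm i ≤ mm (q k) / mm (q (k+1))`. -/
def S_RAV : Prop := ∀ (C : ℝ) (y : ℕ → V) (A B q : ℕ → ℕ), 1 ≤ C → Succ y A B →
  Tendsto A atTop atTop → StrictMono q → (∀ k, Av C (q k) (y k)) →
  (∀ k, 3 * C * ((mm (q k) : ℝ) ^ 2 / nn (q k)) + C * ((mm (q k) : ℝ) / mm (q (k + 1))) ≤
    (1 / 2) ^ k) → RIS (4 * C) y A B q

/-- L1: averages of successive vectors are good for small weights. Proof: first for a node of index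
`i` by SPL: at most `(1/κ) (#J * 2 + (1 / mm i) * 2 * ∑ #(K i)) ≤ 2 nn i / κ + 2 / mm i ≤ 3 / mm i`
(`2 nn i mm i ≤ κ`, `d ≤ nn i`; the bound for `ev (t i) (cut _ _ (∑ l ∈ K i, x l))` is `2 #(K i)` by
the triangle inequality). Then induction on the tree for all such sequences (`tr v t` by `Sv_cut`,
`Succ.Sv`, `Bd.Sv`; `base`, `cv` have weight `0`). -/
def S_L1 : Prop := ∀ (x : ℕ → V) (A B : ℕ → ℕ), Succ x A B → (∀ l, Bd 2 (x l)) →
  ∀ I : Finset ℕ, 0 < #I → ∀ t : Tr, t.Wf → ∀ i, t.wt = i + 1 → 2 * nn i * mm i ≤ #I →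
  ∀ α β : ℕ, ‖ev t (cut α β (((#I : ℂ))⁻¹ • ∑ l ∈ I, x l))‖ ≤ 3 / mm i

/-- ERIS: the basis vectors form rapidly increasing sequences with constant `1` (`J l = l`).
Proof: by ELS with `A = k l`, `B = k l + 1`: `Bd 1`; `low`: `1 / mm i`; `high`: `i ≥ l + 1`,
`1 / mm i ≤ (1/2)^l` since `mm i ≥ 2^l`. `e n` is `OnLv n (n+1)`. -/
def S_ERIS : Prop := ∀ k : ℕ → ℕ, StrictMono k →
  RIS 1 (fun l => e (k l)) k (fun l => k l + 1) (fun l => l)

end

end Pool.Agent.Q73.GP
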