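import Pool.Agent.Q73.GP.Stm2

set_option autoImplicit false

/-!
Project GP (helper73): statements of the last lemmas (third part): compression of an operator to
`μ + μ' R`, factorisation of the identity, the primary factorisation property, and the failure of its
uniform version. All operators are real linear; `XX` is regarded as a real Banach space.
-/

namespace Pool.Agent.Q73.GP

open Finset Filter Topology
open scoped BoundedContinuousFunction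

noncomputable section

/-- `e_m → e_{2^L m + ρ}` -/
def up (L ρ : ℕ) (h : ρ < 2 ^ L) : GM.Sg := ⟨L, ρ, 0, 0, h, by norm_num⟩

/-- `e_{2^L m + ρ} → e_m` -/
def dn (L ρ : ℕ) (h : ρ < 2 ^ L) : GM.Sg := ⟨0, 0, L, ρ, by norm_num, h⟩

/-- the nilpotent spread `e_{2n} → e_{2n+1}`, `e_{2n+1} → 0` -/
def RR : Sg := ⟨GM.Sg.id, true⟩

/-- CMP1. Proof. Take `ρ = max ρ0 (2^(2K) + 2^K)` and `L ≥ K` with
`2^K (ρ + 1) + ρ + 1 ≤ 2^(L - K)`. `Sv v` maps `e_{2^L m + ρ}` to `0` unless `ρ % 2^k2 = r2`; then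
`ρ = 2^k2 x + r2` and the image is `e_j`, `j = 2^(L + k1 - k2) m + (2^k1 x + r1)`. The last map gives
`0` unless `j % 2^L = ρ`; this implies `2^k1 x + r1 = ρ` modulo `2^(L-K)`, so
`2^k1 x + r1 = ρ = 2^k2 x + r2` (all less than `2^(L-K)`). As `x ≥ 2^K > |r1 - r2|`, `k1 = k2`, and
`r1 = r2`. So all products are `0` unless `k1 = k2`, `r1 = r2 = ρ % 2^k2`, and then the product is the
identity. (For the equation of functions evaluate at `m` with `GM.Sv_apply`.) -/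
def S_CMP1 : Prop := ∀ K ρ0 : ℕ, ∃ (L ρ : ℕ) (h : ρ < 2 ^ L), ρ0 ≤ ρ ∧
  ∀ v : GM.Sg, v.k1 ≤ K → v.k2 ≤ K →
    (∀ x : V, GM.Sv (dn L ρ h) (GM.Sv v (GM.Sv (up L ρ h) x)) = x) ∨
    (∀ x : V, GM.Sv (dn L ρ h) (GM.Sv v (GM.Sv (up L ρ h) x)) = 0)

/-- CMP: compression of a linear combination of spreads. Proof. `K` larger than all `k1, k2` of the
support. For `(v, t)` in the support, `Sx (dn, false) ∘ Sx (v, t) ∘ Sx (up, false)` is the identity or `0`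
for `t = false`, and `Sx RR` or `0` for `t = true`, by CMP1 applied to the two layers (see
`COMP.Sv_false_even` etc. in GP/COMP; `cx_injective`, `COMP.ext_layers`). Sum over the support. -/
def S_CMP : Prop := ∀ (a : LS) (ρ0 : ℕ), ∃ (L ρ : ℕ) (h : ρ < 2 ^ L), ρ0 ≤ ρ ∧ ∃ μ μ' : ℂ,
  ∀ w : XX, Sx ⟨dn L ρ h, false⟩ (op a (Sx ⟨up L ρ h, false⟩ w)) = μ • w + μ' • Sx RR w

/-- FAC: an operator which is near to the identity on rapidly increasing sequences has a left inverse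
on a tail. Proof. Let `E_N = {w | Rx 0 N w = 0}` (closed real subspace; compare `EN`, `Fr`, `chain` in
`Pool.Agent.Q73.GM.ASM`, which may be copied). BB with `T = id`, `c0 = 1`, `S = W` gives `N` and
`c > 0` with `c ‖w‖ ≤ ‖w + r • (W w - w)‖` for `w ∈ E_N`, `r ∈ [0,1]`. Let `M = 2 N + 1`. If
`Ind M (W restricted to E_N)`, then by FRED (in steps of length at most `κ / ‖W - id‖`, going from
`r = 1` down to `r = 0`) `Ind M` holds for the inclusion `E_N → XX`; but `XX = E_N + span_ℝ (e_k, i e_k,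
k < N)`, so among `2N+1` vectors a nontrivial real combination is in `E_N`: a contradiction. So
`E = W (E_N)` (closed, as `W` is bounded below on `E_N` and `E_N` is complete) has a finite dimensional
quotient `XX ⧸ E` (otherwise there are `2N+1` vectors which are independent modulo `E`, which gives
`Ind M`), hence `E` is closed complemented
(`Submodule.ClosedComplemented` for finite codimension): a projection `P` onto `E`. Let
`L = (W restricted)⁻¹ ∘ P` (the inverse `E → E_N` is bounded by `1 / c`). -/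
def S_FAC : Prop := ∀ W : XX →L[ℝ] XX,
  (∀ z : ℕ → XX, Ris 3 z → ∀ᶠ l in atTop, ‖W (z l) - z l‖ ≤ 1 / 4) →
  ∃ (N : ℕ) (L : XX →L[ℝ] XX), ∀ w : XX, Rx 0 N w = 0 → L (W w) = w

/-- PFP: the primary factorisation property. Proof. Let `τ = ‖T‖`, `M = 2 + 4 (4 τ + 1)`,
`ε = 1 / (4 M)` (`≤ 1`). `a` from TA for `(T, 4, ε)`. CMP (`ρ0 = 0`) for `a`: `L, ρ, μ, μ'`; write
`U = Sx (up, false)`, `D = Sx (dn, false)`, `R = Sx RR`; `D (U w) = w`, `R (R w) = 0`,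
`‖D w‖, ‖U w‖, ‖R w‖ ≤ ‖w‖`. For `Ris 4 z` also `U z` is `Ris 4`, so eventually
`‖D (T (U (z l))) - (μ z l + μ' R (z l))‖ ≤ ε`. So eventually `‖μ z l + μ' R (z l)‖ ≤ 4 τ + 1`, and by
GERM for `c = single Sg.id μ + single RR μ'` at `k = 0`, `P = {0, 1}` (`opV c (e 0) = μ e_0 + μ' e_1`):
`‖μ‖ + ‖μ'‖ ≤ 4 τ + 1`. (1) `‖μ‖ ≥ 1/2`: `Q w = μ⁻¹ w - μ' μ⁻² R w` is the inverse of `μ + μ' R`,
`‖Q w‖ ≤ M ‖w‖`; `W = Q ∘ D ∘ T ∘ U` satisfies `‖W (z l) - z l‖ ≤ M ε ≤ 1/4` for `Ris 3 z`; FAC: `N`,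
`L'`. With `U' = Sx (up N N, false)`, `D' = Sx (dn N N, false)` (`N < 2^N`): `Rx 0 N (U' w) = 0`,
`D' (U' w) = w`. So `A = D' ∘ L' ∘ Q ∘ D`, `B = U ∘ U'`. (2) `‖μ‖ < 1/2`: the same for
`1 - T`, with `1 - μ`, `- μ'`. -/
def S_PFP : Prop := ∀ T : XX →L[ℝ] XX, ∃ A B : XX →L[ℝ] XX,
  (∀ w, A (T (B w)) = w) ∨ (∀ w, A (B w - T (B w)) = w)

/-- NU1: lower bound for factorisations through `1/2 + s R`. Proof. Choose `δ ∈ (0,1)` small
(depending on `s, ‖A‖, ‖B‖`). `b` from TA for `(B, 4, ε_b)`, `ε_b ≤ δ`,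
`‖A‖ (1/2 + |s|) ε_b ≤ δ / 2`. With ALG there is `b' : LS` with
`op b' w = (1/2) op b w + s R (op b w)`, `R = Sx RR`. `a` from TA for `(A, 4, ε_a)`,
`ε_a ≤ δ`, `ε_a nrm b' ≤ δ / 2`, and `c` from ALG with `op c w = op a (op b' w) - w`. For `Ris 4 z`:
`op a (op b' z) - A (op b' z) = ∑ v, b' v (op a - A) (..)` where (phase) `• Sx v z` is `Ris 4` (see the
proof of `hab` in `GM/ASM`, `phase_mul`), and
`A (op b' z) - z = A ((1/2 + s R) (op b z - B z))`; so eventually `‖op c (z l)‖ ≤ δ`. GERM: `δ` bounds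
the `ℓ¹` norm of `opV c (e k)`; `α = 4 ‖A‖ + δ` bounds that of `opV a (e k)`, `β = 4 ‖B‖ + δ` that of
`opV b (e k)` (`‖op a z‖ ≤ ‖A z‖ + ε_a`, `Ris.norm_le`). Layers: `α0_k n = opV a (e (2k)) (2n)`,
`α1_k n = opV a (e (2k)) (2n+1)`; `opV a (e (2k+1))` is `0` at `2n` and `α0_k n` at `2n+1`
(`GP/COMP`). `β0, β1` the layers of `opV b (e 0)`. Then `opV b' (e 0)` has the layers `β0 / 2`,
`β1 / 2 + s β0`, and `opV a (opV b' (e 0))` has the layers `(1/2) A0 β0` and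
`(1/2) A1 β0 + (1/2) A0 β1 + s A0 β0` (`A0 y = ∑ k, y k α0_k`, ...). So `‖(1/2) A0 β0 - e_0‖₁ ≤ δ`, hence
`‖A0 β0‖₁ ≥ 2 (1 - δ)`, and `|s| ‖A0 β0‖₁ ≤ δ + (1/2) (‖A1 β0‖₁ + ‖A0 β1‖₁) ≤ δ + α β / 2`. So
`2 |s| (1 - δ) ≤ δ + (4 ‖A‖ + δ) (4 ‖B‖ + δ) / 2`. -/
def S_NU1 : Prop := ∀ (s : ℝ) (A B : XX →L[ℝ] XX),
  (∀ w, A ((1 / 2 : ℝ) • B w + s • Sx RR (B w)) = w) → |s| ≤ 8 * (‖A‖ * ‖B‖) + 1

end

end Pool.Agent.Q73.GP
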