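import Pool.Agent.Q73.GP.Stm2

set_option autoImplicit false

/-!
Project GP (port of project GM) (helper73): every operator is near to one linear combination of the spreads on all
rapidly increasing sequences.
-/

namespace Pool.Agent.Q73.GP

open Finset Filter Topology

noncomputable section

namespace TA

/-- limits of bounded sequences along a free ultrafilter -/
theorem exists_lim (f : ℕ → ℝ) (M : ℝ) (h0 : ∀ l, 0 ≤ f l) (h1 : ∀ l, f l ≤ M) :
    ∃ x, Tendsto f (hyperfilter ℕ : Filter ℕ) (𝓝 x) := by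
  obtain ⟨x, -, hx⟩ := (isCompact_Icc (a := (0 : ℝ)) (b := M)).ultrafilter_le_nhds
    ((hyperfilter ℕ).map f) (by
      rw [Ultrafilter.coe_map, le_principal_iff, Filter.mem_map]
      exact univ_mem' fun l => ⟨h0 l, h1 l⟩)
  exact ⟨x, hx⟩

theorem nrm_eq_sum (b : LS) (S : Finset Sg) (h : b.support ⊆ S) : nrm b = ∑ v ∈ S, ‖b v‖ := by
  unfold nrm
  exact Finsupp.sum_of_support_subset b h _ (fun _ _ => norm_zero)

theorem nrm_add_le (a b : LS) : nrm (a + b) ≤ nrm a + nrm b := by
  classical
  rw [nrm_eq_sum (a + b) (a.support ∪ b.support) Finsupp.support_add,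
    nrm_eq_sum a (a.support ∪ b.support) subset_union_left,
    nrm_eq_sum b (a.support ∪ b.support) subset_union_right, ← sum_add_distrib]
  exact sum_le_sum fun v _ => norm_add_le _ _

theorem nrm_rsmul (r : ℝ) (hr : 0 ≤ r) (a : LS) : nrm (r • a) = r * nrm a := by
  classical
  rw [nrm_eq_sum (r • a) a.support Finsupp.support_smul, nrm_eq_sum a a.support Subset.rfl, mul_sum]
  refine sum_congr rfl fun v _ => ?_
  rw [Finsupp.smul_apply, norm_smul, Real.norm_of_nonneg hr]

theorem op_rsmul (r : ℝ) (b : LS) (w : XX) : op (r • b) w = r • op b w := by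
  have h : r • b = (r : ℂ) • b := by
    ext v
    rw [Finsupp.smul_apply, Finsupp.smul_apply, Complex.real_smul, smul_eq_mul]
  rw [h, op_smul]
  exact Complex.coe_smul r (op b w)

theorem op_sub (a b : LS) (w : XX) : op (a - b) w = op a w - op b w := by
  have h := op_add (a - b) b w
  rw [sub_add_cancel] at h
  rw [h, add_sub_cancel_right]

theorem convex_InB (m : ℕ) : Convex ℝ {b | InB m b} := by
  intro x hx y hy a b ha hb hab
  refine ⟨fun v hv => ?_, ?_⟩
  · by_contra hcon
    have h1 : x v = 0 := by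
      by_contra h
      exact hcon (hx.1 v (Finsupp.mem_support_iff.2 h))
    have h2 : y v = 0 := by
      by_contra h
      exact hcon (hy.1 v (Finsupp.mem_support_iff.2 h))
    rw [Finsupp.mem_support_iff, Finsupp.add_apply, Finsupp.smul_apply, Finsupp.smul_apply, h1, h2,
      smul_zero, smul_zero, add_zero] at hv
    exact hv rfl
  · calc nrm (a • x + b • y) ≤ nrm (a • x) + nrm (b • y) := nrm_add_le _ _
      _ = a * nrm x + b * nrm y := by rw [nrm_rsmul a ha, nrm_rsmul b hb]
      _ ≤ a * m + b * m := add_le_add (mul_le_mul_of_nonneg_left hx.2 ha)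
          (mul_le_mul_of_nonneg_left hy.2 hb)
      _ = m := by rw [← add_mul, hab, one_mul]

theorem zero_InB (m : ℕ) : InB m 0 := by
  refine ⟨fun v hv => ?_, ?_⟩
  · rw [Finsupp.support_zero] at hv
    exact absurd hv (Finset.notMem_empty v)
  · have h : nrm 0 = 0 := by
      unfold nrm
      exact Finsupp.sum_zero_index
    rw [h]
    positivity

/-- the distance depends continuously on the linear combination -/
theorem dist_le (T : XX →L[ℝ] XX) (b b' : LS) (z : XX) (C : ℝ) (hz : ‖z‖ ≤ C) :
    ‖T z - op b' z‖ - nrm (b - b') * C ≤ ‖T z - op b z‖ ∧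
      ‖T z - op b z‖ - nrm (b - b') * C ≤ ‖T z - op b' z‖ := by
  have h2 := norm_op_le (b - b') z
  have h3 : nrm (b - b') * ‖z‖ ≤ nrm (b - b') * C := mul_le_mul_of_nonneg_left hz (nrm_nonneg _)
  constructor
  · have h1 : T z - op b' z = (T z - op b z) + op (b - b') z := by
      rw [op_sub]
      abel
    have h4 := norm_add_le (T z - op b z) (op (b - b') z)
    rw [← h1] at h4
    linarith
  · have h1 : T z - op b z = (T z - op b' z) - op (b - b') z := by
      rw [op_sub]
      abel
    have h4 := norm_sub_le (T z - op b' z) (op (b - b') z)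
    rw [← h1] at h4
    linarith

/-- the distance is a convex function of the linear combination -/
theorem dist_convex (T : XX →L[ℝ] XX) (x y : LS) (z : XX) (a b : ℝ) (ha : 0 ≤ a) (hb : 0 ≤ b)
    (hab : a + b = 1) :
    ‖T z - op (a • x + b • y) z‖ ≤ a * ‖T z - op x z‖ + b * ‖T z - op y z‖ := by
  have h1 : T z - op (a • x + b • y) z = a • (T z - op x z) + b • (T z - op y z) := by
    rw [op_add, op_rsmul, op_rsmul, smul_sub, smul_sub]
    have h2 : T z = a • T z + b • T z := by rw [← add_smul, hab, one_smul]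
    conv_lhs => rw [h2]
    abel
  rw [h1]
  refine (norm_add_le _ _).trans ?_
  rw [norm_smul, norm_smul, Real.norm_of_nonneg ha, Real.norm_of_nonneg hb]

end TA

open TA in
theorem t_TA (star : S_STAR) (net : S_NET) (mmx : S_MM) (mrg : S_MRG) : S_TA := by
  intro T C ε hC hε
  by_contra hcon
  push Not at hcon
  have hC0 : 0 < C := by linarith
  -- bad sequences
  have hbad : ∀ b : LS, ∃ z : ℕ → XX, Ris C z ∧ ∀ l, ε < ‖T (z l) - op b (z l)‖ := by
    intro b
    obtain ⟨z, hz, hf⟩ := hcon b
    obtain ⟨φ, hφ, h⟩ := extraction_of_frequently_atTop hf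
    exact ⟨fun l => z (φ l), hz.sub hφ, h⟩
  choose zb hzb hzb2 using hbad
  obtain ⟨m, hm⟩ := star T (4 * C) (ε / 8) (by linarith) (by linarith)
  obtain ⟨F, hF, hF2⟩ := net m (ε / (16 * C)) (by positivity)
  have hδ : ε / (16 * C) * C = ε / 16 := by
    field_simp
  -- enumeration of the net
  let bb : Fin F.card → LS := fun i => (F.equivFin.symm i : LS)
  have hbb : ∀ b' ∈ F, ∃ i, bb i = b' := by
    intro b' hb'
    refine ⟨F.equivFin ⟨b', hb'⟩, ?_⟩
    show ((F.equivFin.symm (F.equivFin ⟨b', hb'⟩) : F) : LS) = b'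
    rw [Equiv.symm_apply_apply]
  let z : Fin F.card → ℕ → XX := fun i => zb (bb i)
  have hzR : ∀ i, Ris C (z i) := fun i => hzb _
  have hzn : ∀ i l, ‖z i l‖ ≤ C := fun i l => (hzR i).norm_le l
  -- limits along the ultrafilter
  have hlim : ∀ (i : Fin F.card) (b : LS), ∃ x : ℝ,
      Tendsto (fun l => ‖T (z i l) - op b (z i l)‖) (hyperfilter ℕ : Filter ℕ) (𝓝 x) := by
    intro i b
    refine exists_lim _ (‖T‖ * C + nrm b * C) (fun l => norm_nonneg _) fun l => ?_
    refine (norm_sub_le _ _).trans (add_le_add ?_ ?_)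
    · exact (T.le_opNorm _).trans (mul_le_mul_of_nonneg_left (hzn i l) (norm_nonneg _))
    · exact (norm_op_le b _).trans (mul_le_mul_of_nonneg_left (hzn i l) (nrm_nonneg _))
  choose N hN using hlim
  -- convexity
  have hconv : ∀ i, ConvexOn ℝ {b | InB m b} (N i) := by
    intro i
    refine ⟨convex_InB m, fun x _ y _ a b ha hb hab => ?_⟩
    refine le_of_tendsto_of_tendsto' (hN i (a • x + b • y))
      (((hN i x).const_mul a).add ((hN i y).const_mul b)) fun l => ?_
    exact dist_convex T x y (z i l) a b ha hb hab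
  -- near members of the net
  have hnear : ∀ b b' : LS, nrm (b - b') ≤ ε / (16 * C) → ∀ i,
      N i b' - ε / 16 ≤ N i b ∧ N i b - ε / 16 ≤ N i b' := by
    intro b b' h i
    have h1 : nrm (b - b') * C ≤ ε / 16 := by
      rw [← hδ]
      exact mul_le_mul_of_nonneg_right h hC0.le
    constructor
    · refine le_of_tendsto_of_tendsto' ((hN i b').sub_const (ε / 16)) (hN i b) fun l => ?_
      have := (dist_le T b b' (z i l) C (hzn i l)).1
      linarith
    · refine le_of_tendsto_of_tendsto' ((hN i b).sub_const (ε / 16)) (hN i b') fun l => ?_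
      have := (dist_le T b b' (z i l) C (hzn i l)).2
      linarith
  have hNi : ∀ i, ε ≤ N i (bb i) := by
    intro i
    refine ge_of_tendsto (hN i (bb i)) (Eventually.of_forall fun l => ?_)
    exact (hzb2 (bb i) l).le
  -- minimax
  obtain ⟨w, hw0, hw1, hw⟩ := mmx LS {b | InB m b} (convex_InB m) ⟨0, zero_InB m⟩ F.card N hconv
    (15 * ε / 16) (fun b hb => by
      obtain ⟨b', hb', hbb'⟩ := hF2 b hb
      obtain ⟨i, hi⟩ := hbb b' hb'
      refine ⟨i, ?_⟩
      have h1 := (hnear b b' hbb' i).1
      have h2 := hNi i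
      rw [hi] at h2
      linarith)
  -- a good subsequence
  have hev : ∀ᶠ l in (hyperfilter ℕ : Filter ℕ), ∀ i : Fin F.card, ∀ b' ∈ F,
      N i b' - ε / 16 ≤ ‖T (z i l) - op b' (z i l)‖ := by
    rw [eventually_all]
    intro i
    rw [eventually_all_finset]
    intro b' _
    have h1 : N i b' - ε / 16 < N i b' := by linarith
    exact ((hN i b').eventually (lt_mem_nhds h1)).mono fun l hl => hl.le
  obtain ⟨ψ, hψ, hψ2⟩ := extraction_of_frequently_atTop
    (hev.frequently.filter_mono Nat.hyperfilter_le_atTop)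
  -- merging
  obtain ⟨y, hy, hy2⟩ := mrg T m C (ε / 16) hC (by linarith) F.card (fun i l => z i (ψ l))
    (fun i => (hzR i).sub hψ) w hw0 hw1
  obtain ⟨n, b, hb, hn⟩ := (hm y hy).exists
  obtain ⟨b', hb', hbb'⟩ := hF2 b hb
  have h1 := hy2 n b hb (fun i => N i b - 3 * ε / 16) (fun i l => by
    have e1 := hψ2 l i b' hb'
    have e2 := (dist_le T b b' (z i (ψ l)) C (hzn i (ψ l))).1
    have e3 := (hnear b b' hbb' i).2
    have e4 : nrm (b - b') * C ≤ ε / 16 := by
      rw [← hδ]
      exact mul_le_mul_of_nonneg_right hbb' hC0.le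
    show N i b - 3 * ε / 16 ≤ ‖T (z i (ψ l)) - op b (z i (ψ l))‖
    linarith)
  have h2 := hw b hb
  have h3 : ∑ i, w i * (N i b - 3 * ε / 16) = ∑ i, w i * N i b - 3 * ε / 16 := by
    simp only [mul_sub]
    rw [sum_sub_distrib, ← sum_mul, hw1, one_mul]
  rw [h3] at h1
  linarith

end

end Pool.Agent.Q73.GP
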