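import Pool.Agent.Q73.GP.Stm2

set_option autoImplicit false

/-!
Project GP (port of project GM) (helper73), job GM-WN (helper299): rapidly increasing sequences are weakly null.
-/

namespace Pool.Agent.Q73.GP.WN

open Finset Filter Topology

noncomputable section

/-- a sign -/
def sg (x : ℝ) : ℝ := if 0 ≤ x then 1 else -1

theorem sg_mul (x : ℝ) : sg x * x = |x| := by
  unfold sg
  split_ifs with h
  · rw [one_mul, abs_of_nonneg h]
  · rw [abs_of_neg (not_le.1 h)]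
    ring

theorem norm_sg (x : ℝ) : ‖((sg x : ℝ) : ℂ)‖ ≤ 1 := by
  rw [Complex.norm_real]
  unfold sg
  split_ifs <;> simp

theorem wn (avg : S_AVG) (C : ℝ) (z : ℕ → XX) (h : Ris C z) (φ : XX →L[ℝ] ℝ) :
    Tendsto (fun l => φ (z l)) atTop (𝓝 0) := by
  by_contra hcon
  rw [Metric.tendsto_atTop] at hcon
  push Not at hcon
  obtain ⟨ε, hε, hfr⟩ := hcon
  have hfr' : ∃ᶠ l in atTop, ε ≤ |φ (z l)| := by
    rw [frequently_atTop]
    intro N
    obtain ⟨n, hn, hd⟩ := hfr N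
    exact ⟨n, hn, by rwa [dist_zero_right, Real.norm_eq_abs] at hd⟩
  obtain ⟨ψ, hψ, hψε⟩ := extraction_of_frequently_atTop hfr'
  have h1 : Ris C (fun l => ((sg (φ (z (ψ l))) : ℝ) : ℂ) • z (ψ l)) :=
    (h.sub hψ).phase fun l => norm_sg _
  obtain ⟨A, B, J, h1⟩ := h1
  obtain ⟨q, hq⟩ := exists_nat_gt (‖φ‖ * (4 * C) / ε)
  have hcard : nn q ≤ mm q * #(range (nn q)) := by
    rw [card_range]
    exact Nat.le_mul_of_pos_left _ (mm_pos q)
  have hbd := (avg C _ A B J h1 q (range (nn q)) hcard).bd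
  have hC : 0 ≤ 4 * C := by linarith [h1.hC]
  have hn := nn_pos' q
  have hm := mm_pos' q
  have h2 : ‖((mm q : ℝ) / nn q) • ∑ l ∈ range (nn q), sg (φ (z (ψ l))) • z (ψ l)‖ ≤ 4 * C := by
    apply XX.norm_le hC
    have e1 : cx (((mm q : ℝ) / nn q) • ∑ l ∈ range (nn q), sg (φ (z (ψ l))) • z (ψ l)) =
        ((mm q : ℂ) / (#(range (nn q)) : ℂ)) •
          ∑ l ∈ range (nn q), cx (((sg (φ (z (ψ l))) : ℝ) : ℂ) • z (ψ l)) := by
      rw [card_range, ← map_sum cx, ← map_smul cx]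
      congr 1
      have e2 : ((mm q : ℂ) / (nn q : ℂ)) = (((mm q : ℝ) / nn q : ℝ) : ℂ) := by push_cast; rfl
      rw [e2, Complex.coe_smul]
      congr 1
    rw [e1]
    exact hbd
  have h3 := (φ.le_opNorm (((mm q : ℝ) / nn q) • ∑ l ∈ range (nn q),
    sg (φ (z (ψ l))) • z (ψ l))).trans (mul_le_mul_of_nonneg_left h2 (norm_nonneg _))
  rw [map_smul, map_sum] at h3
  have h4 : ∑ l ∈ range (nn q), φ (sg (φ (z (ψ l))) • z (ψ l)) =
      ∑ l ∈ range (nn q), |φ (z (ψ l))| := by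
    refine Finset.sum_congr rfl fun l _ => ?_
    rw [map_smul, smul_eq_mul, sg_mul]
  have h5 : (nn q : ℝ) * ε ≤ ∑ l ∈ range (nn q), |φ (z (ψ l))| := by
    calc (nn q : ℝ) * ε = ∑ l ∈ range (nn q), ε := by rw [sum_const, card_range, nsmul_eq_mul]
      _ ≤ _ := Finset.sum_le_sum fun l _ => hψε l
  rw [h4, smul_eq_mul, Real.norm_of_nonneg (mul_nonneg (by positivity)
    (le_trans (by positivity) h5))] at h3
  have h6 : (mm q : ℝ) * ε ≤ ‖φ‖ * (4 * C) := by
    refine le_trans ?_ h3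
    calc (mm q : ℝ) * ε = mm q / nn q * (nn q * ε) := by field_simp
      _ ≤ _ := mul_le_mul_of_nonneg_left h5 (by positivity)
  rw [div_lt_iff₀ hε] at hq
  have h7 := lt_mm' q
  nlinarith

end

end Pool.Agent.Q73.GP.WN

namespace Pool.Agent.Q73.GP

/-- job GM-WN -/
theorem t_WN (avg : S_AVG) : S_WN := fun C z h φ => WN.wn avg C z h φ

end Pool.Agent.Q73.GP
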